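import Pool.Agent.P.MP_4197d5_co.Pair

/-! Orbits of two pairings. -/

namespace Pool.Agent.P.MP_4197d5_co

open Classical

set_option linter.unusedSectionVars false

variable {ι : Type} [Fintype ι] {l m : ι → ι} {U : Finset ι} {x y z : ι}

/-- A class contains at most two loose indices.
Sketch: put `π = m ∘ l` (a permutation of finite order). For `x ∈ U` let `n` be least with
`l (π^[n] x) ∈ U` (exists: if `π^[N+1] x = x` then `l (π^[N] x) = m x ∈ U`). The set
`{π^[j] x, l (π^[j] x) : j ≤ n}` is closed under the steps (`cc.closed`), and its only members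
in `U` are `x` and `l (π^[n] x)`. -/
theorem at_most_two (hl : Pr l) (hm : Pr m) (hU : ∀ i ∈ U, m i ∈ U) (hx : x ∈ U) (hy : y ∈ U)
    (hz : z ∈ U) (h1 : cc l m U x y) (h2 : cc l m U x z) : x = y ∨ x = z ∨ y = z := by
  have hinj : Function.Injective (fun w => m (l w)) := fun a b hab => hl.inj (hm.inj hab)
  have hex : ∃ n, l ((fun w => m (l w))^[n] x) ∈ U := by
    obtain ⟨N, hN, hper⟩ := Function.mem_periodicPts.1 (hinj.mem_periodicPts x)
    obtain ⟨N, rfl⟩ : ∃ K, N = K + 1 := ⟨N - 1, by omega⟩
    refine ⟨N, ?_⟩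
    have e : m (l ((fun w => m (l w))^[N] x)) = x := by
      have := hper.eq
      rwa [Function.iterate_succ_apply'] at this
    rw [hm.eq_iff.1 e]
    exact hU _ hx
  set f : ℕ → ι := fun j => (fun w => m (l w))^[j] x with hf
  have f0 : f 0 = x := rfl
  have fs : ∀ j, m (f (j + 1)) = l (f j) := fun j => by
    simp only [hf, Function.iterate_succ_apply', hm.inv]
  have hmin : ∀ j < Nat.find hex, l (f j) ∉ U := fun j hj => Nat.find_min hex hj
  have hsp : l (f (Nat.find hex)) ∈ U := Nat.find_spec hex
  generalize Nat.find hex = n at hmin hsp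
  have key : ∀ w, cc l m U x w → w ∈ U → w = x ∨ w = l (f n) := by
    intro w hw hwU
    have hS : w ∈ {w | ∃ j ≤ n, w = f j ∨ w = l (f j)} := by
      refine cc.closed hl hm hU _ ?_ ?_ hw ⟨0, Nat.zero_le _, Or.inl rfl⟩
      · rintro a ⟨j, hj, rfl | rfl⟩
        · exact ⟨j, hj, Or.inr rfl⟩
        · exact ⟨j, hj, Or.inl (hl.inv _)⟩
      · rintro a ⟨j, hj, rfl | rfl⟩ ha
        · rcases j with _ | j
          · exact absurd hx ha
          · exact ⟨j, by omega, Or.inr (fs j)⟩
        · rcases hj.lt_or_eq with hj | rfl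
          · exact ⟨j + 1, hj, Or.inl (by rw [← fs j, hm.inv])⟩
          · exact absurd hsp ha
    obtain ⟨j, hj, rfl | rfl⟩ := hS
    · rcases j with _ | j
      · exact Or.inl rfl
      · exact absurd (fs j ▸ hU _ hwU) (hmin j (by omega))
    · rcases hj.lt_or_eq with hj | rfl
      · exact absurd hwU (hmin j hj)
      · exact Or.inr rfl
  rcases key y h1 hy with e1 | e1
  · exact Or.inl e1.symm
  rcases key z h2 hz with e2 | e2
  · exact Or.inr (Or.inl e2.symm)
  · exact Or.inr (Or.inr (e1.trans e2.symm))

/-- Two-colouring swapped by both pairings.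
Sketch: `l x` is never in the `π`-orbit of `x` (dihedral argument: `π^[n] x = l x` gives
`π^[n-2] (π x) = l (π x)`; `n = 0, 1` contradict `fpf`). Choose a representative `r` of each
class of `cc l m ∅` and colour `y` by whether it lies in the `π`-orbit of the representative. -/
theorem exists_col (hl : Pr l) (hm : Pr m) :
    ∃ col : ι → Bool, (∀ x, col (l x) = !col x) ∧ ∀ x, col (m x) = !col x := by
  let L : Equiv.Perm ι := ⟨l, l, hl.inv, hl.inv⟩
  let M : Equiv.Perm ι := ⟨m, m, hm.inv, hm.inv⟩
  let π : Equiv.Perm ι := M * L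
  have hLL : L * L = 1 := Equiv.ext fun x => hl.inv x
  have hMM : M * M = 1 := Equiv.ext fun x => hm.inv x
  have hLi : L⁻¹ = L := inv_eq_of_mul_eq_one_right hLL
  have hMi : M⁻¹ = M := inv_eq_of_mul_eq_one_right hMM
  have hconj : L * π * L⁻¹ = π⁻¹ := by
    simp only [π, mul_inv_rev, hMi, mul_assoc, mul_inv_cancel, mul_one]
    rw [hLi]
  have hz : ∀ k : ℤ, L * π ^ k = π ^ (-k) * L := fun k => by
    have : L * π ^ k * L⁻¹ = π ^ (-k) := by
      rw [← conj_zpow, hconj, inv_zpow']
    rw [← this, mul_assoc, inv_mul_cancel, mul_one]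
  have hM : M = π * L := by simp only [π, mul_assoc, hLL, mul_one]
  have hno : ∀ x, ¬ π.SameCycle x (l x) := by
    rintro x ⟨i, hi⟩
    have hi' : L x = (π ^ i) x := hi.symm
    rcases Int.even_or_odd' i with ⟨k, rfl | rfl⟩
    · apply hl.fpf ((π ^ k) x)
      have : (L * π ^ k) x = (π ^ k) x := by
        rw [hz, Equiv.Perm.mul_apply, hi', ← Equiv.Perm.mul_apply, ← zpow_add]
        congr 2
        ring
      exact this
    · apply hm.fpf ((π ^ (k + 1)) x)
      have : (M * π ^ (k + 1)) x = (π ^ (k + 1)) x := by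
        rw [hM, mul_assoc, hz, ← mul_assoc, Equiv.Perm.mul_apply, hi', ← Equiv.Perm.mul_apply,
          ← zpow_one_add, ← zpow_add]
        congr 2
        ring
      exact this
  obtain ⟨g, hg⟩ := Countable.exists_injective_nat (Quotient (Equiv.Perm.SameCycle.setoid π))
  let a : ι → ℕ := fun x => g (Quotient.mk (Equiv.Perm.SameCycle.setoid π) x)
  have ha : ∀ x y, π.SameCycle x y → a x = a y := fun x y h =>
    congrArg g (Quotient.sound h)
  have hne : ∀ x, a x ≠ a (l x) := fun x h => hno x (Quotient.exact (hg h))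
  refine ⟨fun x => decide (a x < a (l x)), fun x => ?_, fun x => ?_⟩
  · have := hne x
    simp only [hl.inv]
    by_cases h : a x < a (l x)
    · simp [h, h.le]
    · simp [h]; omega
  · have e1 : a (m x) = a (l x) := by
      refine (ha _ _ ⟨1, ?_⟩).symm
      rw [zpow_one]
      show m (l (l x)) = m x
      rw [hl.inv]
    have e2 : a (l (m x)) = a x := by
      refine ha _ _ ⟨1, ?_⟩
      rw [zpow_one]
      show m (l (l (m x))) = x
      rw [hl.inv, hm.inv]
    have := hne x
    simp only [e1, e2]
    by_cases h : a x < a (l x)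
    · simp [h, h.le]
    · simp [h]; omega

/-- the two loose indices of a class have opposite colours (count colours in `cl l m U x`, which
is closed under `l`, and in the same set with `x, y` removed, which is closed under `m`) -/
theorem col_opp (hl : Pr l) (hm : Pr m) (hU : ∀ i ∈ U, m i ∈ U) {col : ι → Bool}
    (c1 : ∀ x, col (l x) = !col x) (c2 : ∀ x, col (m x) = !col x) (hx : x ∈ U) (hy : y ∈ U)
    (hne : x ≠ y) (h : cc l m U x y) : col y = !col x := by
  let s : ι → ℤ := fun w => if col w then 1 else -1
  have zero : ∀ (f : ι → ι), Pr f → (∀ w, col (f w) = !col w) → ∀ S : Finset ι,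
      (∀ w ∈ S, f w ∈ S) → ∑ w ∈ S, s w = 0 := by
    intro f hf hc S hS
    refine Finset.sum_involution (fun w _ => f w) (fun w _ => ?_) (fun w _ _ => hf.fpf w)
      (fun w hw => hS w hw) (fun w _ => hf.inv w)
    simp only [s, hc]
    cases col w <;> simp
  have z1 := zero l hl c1 (cl l m U x) fun w hw => mem_cl.2 ((mem_cl.1 hw).trans (cc.stl w))
  have z2 := zero m hm c2 (((cl l m U x).erase x).erase y) fun w hw => by
    simp only [Finset.mem_erase, mem_cl] at hw ⊢
    have hw' : w ∉ U := fun hwU => by
      rcases at_most_two hl hm hU hx hy hwU h hw.2.2 with e | e | e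
      · exact hne e
      · exact hw.2.1 e.symm
      · exact hw.1 e.symm
    have hm' := hm.not_mem hU hw'
    exact ⟨fun e => hm' (e ▸ hy), fun e => hm' (e ▸ hx), hw.2.2.trans (cc.stm hw')⟩
  have a1 := Finset.add_sum_erase (cl l m U x) s (mem_cl.2 (cc.refl x))
  have a2 := Finset.add_sum_erase ((cl l m U x).erase x) s
    (Finset.mem_erase.2 ⟨hne.symm, mem_cl.2 h⟩)
  have : s x + s y = 0 := by linarith
  simp only [s] at this
  revert this
  cases col x <;> cases col y <;> simp

/-- cutting a cycle at two pairs: `x` is joined to the end of opposite colour of the other pair.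
Sketch: `parity` gives a partner `w` of `x`; `w = m y` is excluded by `col_opp`; if `w = m x`
then the cut class of `x` is closed under `l` and `m` (use `at_most_two`), so contains `y`,
against `at_most_two`. -/
theorem arc (hl : Pr l) (hm : Pr m) {col : ι → Bool}
    (c1 : ∀ x, col (l x) = !col x) (c2 : ∀ x, col (m x) = !col x) (h : cc l m ∅ x y)
    (hne : y ≠ m x) (hc : col y = !col x) :
    cc l m {x, m x, y, m y} x y ∧ ¬ cc l m {x, m x, y, m y} x (m x) ∧
      ¬ cc l m {x, m x, y, m y} x (m y) := by
  have hU := four_closed hm x y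
  have hxy : y ≠ x := fun e => by
    rw [e] at hc
    revert hc
    cases col x <;> simp
  have n1 : ¬ cc l m {x, m x, y, m y} x (m y) := fun h' => by
    have := col_opp hl hm hU c1 c2 (x := x) (y := m y) (by simp) (by simp)
      (fun e => hne (by rw [e, hm.inv])) h'
    rw [c2, hc] at this
    revert this
    cases col x <;> simp
  have n2 : ¬ cc l m {x, m x, y, m y} x (m x) := fun h' => by
    have hyS : y ∈ {w | cc l m {x, m x, y, m y} x w} := by
      refine cc.closed (U := ∅) hl hm (by simp) _ (fun w hw => cc.trans hw (cc.stl w))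
        (fun w hw _ => ?_) h (cc.refl x)
      by_cases hwU : w ∈ ({x, m x, y, m y} : Finset ι)
      · rcases at_most_two hl hm hU (x := x) (y := m x) (by simp) (by simp) hwU h' hw
          with e | e | e
        · exact absurd e.symm (hm.fpf x)
        · rw [← e]; exact h'
        · rw [← e, hm.inv]; exact cc.refl x
      · exact cc.trans hw (cc.stm hwU)
    rcases at_most_two hl hm hU (x := x) (y := m x) (z := y) (by simp) (by simp) (by simp) h' hyS
      with e | e | e
    · exact hm.fpf x e.symm
    · exact hxy e.symm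
    · exact hne e.symm
  refine ⟨?_, n2, n1⟩
  obtain ⟨w, hw, hwx, hcw⟩ := parity hl hm hU (x := x) (by simp)
  simp only [Finset.mem_insert, Finset.mem_singleton] at hw
  rcases hw with e | e | e | e
  · exact absurd e hwx
  · exact absurd (e ▸ hcw) n2
  · exact e ▸ hcw
  · exact absurd (e ▸ hcw) n1

end Pool.Agent.P.MP_4197d5_co
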