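import Pool.Agent.P.MP_4197d5_co.Phi
import Pool.Agent.P.MP_4197d5_co.Orbit

/-! The potential: lemmas for closed systems. -/

namespace Pool.Agent.P.MP_4197d5_co

open Classical

set_option linter.unusedSectionVars false

variable {ι : Type} [Fintype ι] {l m m' m'' m0 m3 : ι → ι} {c p e1 e2 τ si sj ρ : ι}
  {col : ι → Bool}

/-- transfer of connections inside a closed set -/
theorem cc_le_on {n n' : ι → ι} {U U' : Finset ι} {x y : ι} (hl : Pr l) (hn : Pr n)
    (hU : ∀ i ∈ U, n i ∈ U) (S : Set ι) (h1 : ∀ x ∈ S, l x ∈ S) (h2 : ∀ x ∈ S, n x ∈ S)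
    (h3 : ∀ x ∈ S, x ∉ U → cc l n' U' x (n x)) (h : cc l n U x y) (hx : x ∈ S) :
    cc l n' U' x y := by
  have : y ∈ {w | w ∈ S ∧ cc l n' U' x w} :=
    cc.closed hl hn hU _ (fun w hw => ⟨h1 _ hw.1, hw.2.trans (cc.stl w)⟩)
      (fun w hw hwU => ⟨h2 _ hw.1, hw.2.trans (h3 w hw.1 hwU)⟩) h ⟨hx, cc.refl x⟩
  exact this.2

theorem ncc_l (hl : Pr l) {x : ι} (h : ¬ cc l m ∅ c x) : ¬ cc l m ∅ c (l x) := fun h' =>
  h (h'.trans (cc.stl x).symm)

theorem ncc_m {x : ι} (h : ¬ cc l m ∅ c x) : ¬ cc l m ∅ c (m x) := fun h' =>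
  h (h'.trans (cc.stm0 x).symm)

theorem ncc_ne {x y : ι} (h : ¬ cc l m ∅ c x) (h' : cc l m ∅ c y) : x ≠ y := fun e => h (e ▸ h')

theorem cc_m {x : ι} (h : cc l m ∅ c x) : cc l m ∅ c (m x) := h.trans (cc.stm0 x)

theorem ncc_m' (hm' : Pr m') (hC : ∀ d, cc l m ∅ c d → m' d = m d) {x : ι}
    (h : ¬ cc l m ∅ c x) : ¬ cc l m ∅ c (m' x) := fun h' => by
  have e := hC _ h'
  rw [hm'.inv] at e
  exact h (e ▸ cc_m h')

theorem out_of_ncc {x u v : ι} (h : ¬ cc l m ∅ c x) (hu : cc l m ∅ c u) (hv : cc l m ∅ c v) :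
    Out m u v x :=
  ⟨ncc_ne h hu, ncc_ne h (cc_m hu), ncc_ne h hv, ncc_ne h (cc_m hv)⟩

/-- a pair stays connected through its own class -/
theorem pair_cc {n' : ι → ι} {U' : Finset ι} (hl : Pr l) (hm : Pr m) (hτ : ¬ cc l m ∅ c τ)
    (h3 : ∀ x, ¬ cc l m ∅ c x → x ≠ τ → x ≠ m τ → cc l n' U' x (m x)) :
    cc l n' U' τ (m τ) := by
  have hU : ∀ i ∈ ({τ, m τ} : Finset ι), m i ∈ ({τ, m τ} : Finset ι) := by
    intro i hi
    simp only [Finset.mem_insert, Finset.mem_singleton] at hi ⊢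
    rcases hi with rfl | rfl <;> simp [hm.inv]
  obtain ⟨w, hw, hwx, hcw⟩ := parity hl hm hU (x := τ) (by simp)
  simp only [Finset.mem_insert, Finset.mem_singleton] at hw
  rcases hw with e | e
  · exact absurd e hwx
  rw [e] at hcw
  refine cc_le_on hl hm hU {x | ¬ cc l m ∅ c x} (fun x hx => ncc_l hl hx) (fun x hx => ncc_m hx)
    (fun x hx hxU => ?_) hcw hτ
  simp only [Finset.mem_insert, Finset.mem_singleton, not_or] at hxU
  exact h3 x hx hxU.1 hxU.2

/-- merging the class of `c` completely -/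
theorem cev_same (hl : Pr l) (hm : Pr m) (hm' : Pr m') (h : Co l m m')
    (hC : ∀ d, cc l m ∅ c d → m' d = m d) (hp : ¬ cc l m ∅ c p) (he : cc l m ∅ c e1)
    (hx : Xch m' m'' p e1) : Phi l m ∅ < Phi l m'' ∅ := by
  have hd : ¬ cc l m' ∅ p e1 := fun h' => by
    have : e1 ∈ {x | ¬ cc l m ∅ c x} :=
      cc.closed (U := ∅) hl hm' (by simp) _ (fun x hx => ncc_l hl hx)
        (fun x hx _ => ncc_m' hm' hC hx) h' hp
    exact this he
  have h2 : Co l m m'' := h.trans (hx.diff hl hm' hd).2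
  refine imp_keep (fun x _ => ⟨fun y _ => by simp, fun y hy => h2 x y hy⟩)
    ⟨p, fun y _ => by simp, Or.inr ⟨e1, cc.of_eq hx.ha, fun h' => hp (he.trans h'.symm)⟩⟩

/-- Merging an arc of the smallest class. Sketch: by `arc`, `e1 ~ e2` in the cut of `m` at the two
pairs, hence `p ~ e1 ~ e2 ~ m' p` in the new system; the set of indices outside the class of `c`
together with the cut class of `e1` is closed under the new steps and misses `m e1, m e2`;
apply `imp_small`. -/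
theorem cev_diff (hl : Pr l) (hm : Pr m) (hm' : Pr m') (hm'' : Pr m'')
    (hmin : ∀ x, (cl l m ∅ c).card ≤ (cl l m ∅ x).card)
    (c1 : ∀ x, col (l x) = !col x) (c2 : ∀ x, col (m x) = !col x) (h : Co l m m')
    (hC : ∀ d, cc l m ∅ c d → m' d = m d) (hp : ¬ cc l m ∅ c p) (he1 : cc l m ∅ c e1)
    (he2 : cc l m ∅ c e2) (hne : e2 ≠ m e1) (hcol : col e2 = !col e1)
    (a1 : m'' p = e1) (a2 : m'' (m' p) = e2) (a3 : m'' (m e1) = m e2)
    (a4 : ∀ u, u ≠ p → u ≠ m' p → Out m e1 e2 u → m'' u = m' u) :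
    Phi l m ∅ < Phi l m'' {m e1, m e2} := by
  obtain ⟨b1, b2, b3⟩ := arc hl hm c1 c2 (he1.symm.trans he2) hne hcol
  have hW := four_closed hm e1 e2
  have hp' := ncc_m' hm' hC hp
  have hU' : ∀ i ∈ ({m e1, m e2} : Finset ι), m'' i ∈ ({m e1, m e2} : Finset ι) := by
    intro i hi
    simp only [Finset.mem_insert, Finset.mem_singleton] at hi ⊢
    rcases hi with rfl | rfl
    · exact Or.inr a3
    · exact Or.inl (by rw [← a3, hm''.inv])
  have nU : ∀ x, ¬ cc l m ∅ c x → x ∉ ({m e1, m e2} : Finset ι) := fun x hx hxU => by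
    simp only [Finset.mem_insert, Finset.mem_singleton] at hxU
    rcases hxU with e | e
    · exact ncc_ne hx (cc_m he1) e
    · exact ncc_ne hx (cc_m he2) e
  have inW : ∀ x, cc l m ∅ c x → x ∉ ({e1, m e1, e2, m e2} : Finset ι) →
      m'' x = m x ∧ x ∉ ({m e1, m e2} : Finset ι) := fun x hx hxW => by
    simp only [Finset.mem_insert, Finset.mem_singleton, not_or] at hxW ⊢
    exact ⟨(a4 x (ncc_ne hp hx).symm (ncc_ne hp' hx).symm hxW).trans (hC x hx),
      hxW.2.1, hxW.2.2.2⟩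
  have A : cc l m'' {m e1, m e2} e1 e2 := by
    refine cc_le_on hl hm hW {x | cc l m ∅ c x} (fun x hx => cc.trans hx (cc.stl x))
      (fun x hx => cc_m hx) (fun x hx hxW => ?_) b1 he1
    obtain ⟨i1, i2⟩ := inW x hx hxW
    exact i1 ▸ cc.stm i2
  have P1 : cc l m'' {m e1, m e2} p e1 := by
    have := cc.stm (l := l) (m := m'') (nU p hp)
    rwa [a1] at this
  have P2 : cc l m'' {m e1, m e2} (m' p) e2 := by
    have := cc.stm (l := l) (m := m'') (nU _ hp')
    rwa [a2] at this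
  have B : cc l m'' {m e1, m e2} p (m' p) := P1.trans (A.trans P2.symm)
  refine imp_small c hmin (fun x hx => ⟨fun y hy => ?_, fun y hy => ?_⟩)
    ⟨p, e1, hp, P1, fun h' => hp (he1.trans h'.symm)⟩
  · have hT : y ∈ {w | ¬ cc l m ∅ c w ∨ cc l m {e1, m e1, e2, m e2} e1 w} := by
      refine cc.closed hl hm'' hU' _ (fun w hw => ?_) (fun w hw hwU => ?_) hy (Or.inl hx)
      · rcases hw with hw | hw
        · exact Or.inl (ncc_l hl hw)
        · exact Or.inr (hw.trans (cc.stl w))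
      · rcases hw with hw | hw
        · by_cases k1 : w = p
          · exact Or.inr (by rw [k1, a1]; exact cc.refl _)
          by_cases k2 : w = m' p
          · exact Or.inr (by rw [k2, a2]; exact b1)
          left
          rw [a4 w k1 k2 (out_of_ncc hw he1 he2)]
          exact ncc_m' hm' hC hw
        · have hwc : cc l m ∅ c w := he1.trans (cc.le (fun x _ => cc.stm0 x) hw)
          by_cases hwW : w ∈ ({e1, m e1, e2, m e2} : Finset ι)
          · simp only [Finset.mem_insert, Finset.mem_singleton, not_or] at hwW hwU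
            rcases hwW with e | e | e | e
            · left
              rw [e, ← a1, hm''.inv]
              exact hp
            · exact absurd e hwU.1
            · left
              rw [e, ← a2, hm''.inv]
              exact hp'
            · exact absurd e hwU.2
          · right
            rw [(inW w hwc hwW).1]
            exact hw.trans (cc.stm hwW)
    intro hyU
    rcases hT with hT | hT
    · exact nU y hT hyU
    · simp only [Finset.mem_insert, Finset.mem_singleton] at hyU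
      rcases hyU with e | e
      · exact b2 (e ▸ hT)
      · exact b3 (e ▸ hT)
  · refine cc_le_on (U := ∅) hl hm' (by simp) {x | ¬ cc l m ∅ c x} (fun x hx => ncc_l hl hx)
      (fun x hx => ncc_m' hm' hC hx) (fun w hw _ => ?_) (h x y hy) hx
    by_cases k1 : w = p
    · exact k1 ▸ B
    by_cases k2 : w = m' p
    · rw [k2, hm'.inv]; exact B.symm
    rw [← a4 w k1 k2 (out_of_ncc hw he1 he2)]
    exact cc.stm (nU w hw)

/-- Attaching a line of another class to two ends of the same colour. Sketch: `τ ~ m τ` by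
`parity` for the cut at `{τ, m τ}` (that class misses the class of `c`), and `si ~ m sj` by
`arc`. -/
theorem q_co (hl : Pr l) (hm : Pr m) (hm3 : Pr m3)
    (c1 : ∀ x, col (l x) = !col x) (c2 : ∀ x, col (m x) = !col x)
    (hτ : ¬ cc l m ∅ c τ) (hi : cc l m ∅ c si) (hj : cc l m ∅ c sj) (hne : si ≠ sj)
    (hcol : col si = col sj) (a1 : m3 τ = si) (a2 : m3 (m τ) = sj) (a3 : m3 (m si) = m sj)
    (a4 : ∀ u, u ≠ τ → u ≠ m τ → Out m si sj u → m3 u = m u) (h : Co l m3 m') :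
    Phi l m ∅ < Phi l m' ∅ := by
  have T : cc l m3 ∅ τ (m τ) := pair_cc hl hm hτ fun x hx k1 k2 =>
    cc.of_eq (a4 x k1 k2 (out_of_ncc hx hi hj))
  obtain ⟨b1, -, -⟩ := arc hl hm c1 c2 (x := si) (y := m sj) (hi.symm.trans (cc_m hj))
    (fun e => hne (hm.inj e).symm) (by rw [c2, hcol])
  have A : cc l m3 ∅ si (m sj) := by
    refine cc_le_on hl hm (four_closed hm si (m sj)) {x | cc l m ∅ c x}
      (fun x hx => cc.trans hx (cc.stl x)) (fun x hx => cc_m hx) (fun x hx hxW => ?_) b1 hi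
    simp only [Finset.mem_insert, Finset.mem_singleton, not_or, hm.inv] at hxW
    exact cc.of_eq (a4 x (ncc_ne hτ hx).symm (ncc_ne (ncc_m hτ) hx).symm
      ⟨hxW.1, hxW.2.1, hxW.2.2.2, hxW.2.2.1⟩)
  have I : cc l m3 ∅ si (m si) := A.trans (cc.of_eq a3).symm
  have J : cc l m3 ∅ sj (m sj) :=
    (cc.of_eq a2).symm.trans (T.symm.trans ((cc.of_eq a1).trans A))
  have h3 : Co l m m3 := by
    refine Co.of fun x => ?_
    by_cases k1 : x = τ
    · exact k1 ▸ T
    by_cases k2 : x = m τ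
    · rw [k2, hm.inv]; exact T.symm
    by_cases k3 : x = si
    · exact k3 ▸ I
    by_cases k4 : x = m si
    · rw [k4, hm.inv]; exact I.symm
    by_cases k5 : x = sj
    · exact k5 ▸ J
    by_cases k6 : x = m sj
    · rw [k6, hm.inv]; exact J.symm
    exact cc.of_eq (a4 x k1 k2 ⟨k3, k4, k5, k6⟩)
  refine imp_keep (fun x _ => ⟨fun y _ => by simp, fun y hy => h3.trans h x y hy⟩)
    ⟨τ, fun y _ => by simp, Or.inr ⟨si, h _ _ (cc.of_eq a1), fun h' => hτ (hi.trans h'.symm)⟩⟩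

/-- the same followed by an exchange inside the smallest class: classes other than that of `c`
are kept (again `τ ~ m τ` through its own class) and the class of `τ` gains `si` -/
theorem q_ev2 (hl : Pr l) (hm : Pr m) (hm3 : Pr m3)
    (hmin : ∀ x, (cl l m ∅ c).card ≤ (cl l m ∅ x).card)
    (hτ : ¬ cc l m ∅ c τ) (hi : cc l m ∅ c si) (hj : cc l m ∅ c sj)
    (a1 : m3 τ = si) (a2 : m3 (m τ) = sj) (a3 : m3 (m si) = m sj)
    (a4 : ∀ u, u ≠ τ → u ≠ m τ → Out m si sj u → m3 u = m u)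
    (hρ : cc l m ∅ c ρ) (hρ' : Out m si sj ρ) (hx : Xch m3 m0 ρ (m si)) (h : Co l m0 m') :
    Phi l m ∅ < Phi l m' ∅ := by
  have hρ3 : m3 ρ = m ρ := a4 ρ (ncc_ne hτ hρ).symm (ncc_ne (ncc_m hτ) hρ).symm hρ'
  have o : ∀ x, ¬ cc l m ∅ c x → m0 x = m3 x := fun x k => hx.oth x
    ⟨ncc_ne k hρ, hρ3 ▸ ncc_ne k (cc_m hρ), ncc_ne k (cc_m hi), a3 ▸ ncc_ne k (cc_m hj)⟩
  have o2 : ∀ x, ¬ cc l m ∅ c x → x ≠ τ → x ≠ m τ → cc l m0 ∅ x (m x) := fun x k k1 k2 =>
    cc.of_eq ((o x k).trans (a4 x k1 k2 (out_of_ncc k hi hj)))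
  have T : cc l m0 ∅ τ (m τ) := pair_cc hl hm hτ o2
  refine imp_small c hmin (fun x k => ⟨fun y _ => by simp, fun y hy => h x y ?_⟩)
    ⟨τ, si, hτ, h _ _ (cc.of_eq ((o τ hτ).trans a1)), fun h' => hτ (hi.trans h'.symm)⟩
  refine cc_le_on (U := ∅) hl hm (by simp) {x | ¬ cc l m ∅ c x} (fun x hx => ncc_l hl hx)
    (fun x hx => ncc_m hx) (fun w hw _ => ?_) hy k
  by_cases k1 : w = τ
  · exact k1 ▸ T
  by_cases k2 : w = m τ
  · rw [k2, hm.inv]; exact T.symm
  exact o2 w hw k1 k2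

end Pool.Agent.P.MP_4197d5_co
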