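import Pool.Agent.P.MP_4197d5_co.StOps
import Pool.Agent.P.MP_4197d5_co.PhiC

/-! Attaching a loose pair to the smallest class improves the potential. -/

namespace Pool.Agent.P.MP_4197d5_co

open Classical

set_option linter.unusedSectionVars false

variable {V ι : Type} [Fintype ι] {E : V → V → Prop} {t : ι → V} {l : ι → ι}
  {σ σ' : ι → List V} {m m' : ι → ι} {c p : ι} {col : ι → Bool}

theorem two_split_c {L : List V} {u u' : V} (hu : u ∈ L) (hu' : u' ∈ L) (hne : u ≠ u') :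
    (∃ A B C, L = A ++ u :: (B ++ u' :: C)) ∨ ∃ A B C, L.reverse = A ++ u :: (B ++ u' :: C) := by
  obtain ⟨A, R, rfl⟩ := List.append_of_mem hu
  rcases List.mem_append.1 hu' with h | h
  · obtain ⟨B, C, rfl⟩ := List.append_of_mem h
    exact Or.inr ⟨R.reverse, C.reverse, B.reverse, by simp⟩
  · rcases List.mem_cons.1 h with h | h
    · exact absurd h.symm hne
    · obtain ⟨B, C, rfl⟩ := List.append_of_mem h
      exact Or.inl ⟨A, B, C, rfl⟩

/-- possible orientations of the line through `u` such that `u` is not the last vertex -/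
theorem orient (h : St E t σ m ∅) (c2 : ∀ x, col (m x) = !col x) {u : V} {d : ι}
    (h1 : cc l m ∅ c d) (hu : u ∈ line σ m d) :
    (∃ a, u = t a ∧ cc l m ∅ c a ∧ u ∈ line σ m a ∧ u ≠ t (m a)) ∨
      ∀ b : Bool, ∃ e, col e = b ∧ cc l m ∅ c e ∧ u ∈ line σ m e ∧ u ≠ t (m e) := by
  have h1' : cc l m ∅ c (m d) := h1.trans (cc.stm0 d)
  have hu' : u ∈ line σ m (m d) := (mem_line_m h.hm).2 hu
  have hne : ∀ a, t a ≠ t (m a) := fun a e =>
    h.hm.fpf a (h.t_mem_iff.1 (e ▸ h.t_mem a))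
  by_cases e1 : u = t d
  · exact Or.inl ⟨d, e1, h1, hu, e1 ▸ hne d⟩
  by_cases e2 : u = t (m d)
  · exact Or.inl ⟨m d, e2, h1', hu', e2 ▸ hne (m d)⟩
  refine Or.inr fun b => ?_
  by_cases hb : col d = b
  · exact ⟨d, hb, h1, hu, e2⟩
  · refine ⟨m d, ?_, h1', hu', by rw [h.hm.inv]; exact e1⟩
    rw [c2]
    cases b <;> simpa using hb

theorem split_ne (h : St E t σ m ∅) {u : V} {e : ι} (hu : u ∈ line σ m e) (hne : u ≠ t (m e)) :
    ∃ A B, line σ m e = A ++ u :: B ∧ B ≠ [] := by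
  obtain ⟨A, B, hs⟩ := List.append_of_mem hu
  refine ⟨A, B, hs, ?_⟩
  rintro rfl
  obtain ⟨r, hr⟩ := h.line_concat e
  rw [hr] at hs
  exact hne (by simpa using (List.append_inj' hs rfl).2.symm)

/-- Sketch. If `u'` lies on the line of `d1`, orient the line so that `u` comes first, and use
`St.exch` for the pairs of `p` and `e1`, then `cev_same`. Otherwise choose `e1 ∈ {d1, m d1}`,
`e2 ∈ {d2, m d2}` with `u ≠ t (m e1)`, `u' ≠ t (m e2)` and `col e2 = !col e1` (an end `t d` forces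
`e = d`), apply `St.exchH` twice and `cev_diff`. -/
theorem c_event (hs : ∀ x y, E x y → E y x) (hl : Pr l) (h : St E t σ m ∅)
    (hmin : ∀ x, (cl l m ∅ c).card ≤ (cl l m ∅ x).card)
    (c1 : ∀ x, col (l x) = !col x) (c2 : ∀ x, col (m x) = !col x)
    (h' : St E t σ' m' {p, m' p}) (hco : Co l m m')
    (hC : ∀ d, cc l m ∅ c d → m' d = m d ∧ σ' d = σ d) (hp : ¬ cc l m ∅ c p)
    {q1 q2 : List V} {u u' : V} {d1 d2 : ι} (h1 : cc l m ∅ c d1) (h2 : cc l m ∅ c d2)
    (hu : u ∈ line σ m d1) (hu' : u' ∈ line σ m d2) (hne : u ≠ u')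
    (hcol : ∀ a b, u = t a → u' = t b → col a ≠ col b) (hq : (q1 ++ q2).Nodup)
    (hoff : ∀ x ∈ q1 ++ q2, ¬ On σ' x) (ch1 : (σ' p ++ q1 ++ [u]).IsChain E)
    (ch2 : (σ' (m' p) ++ q2 ++ [u']).IsChain E) : Imp E t l m ∅ := by
  have hm := h.hm
  have hm' := h'.hm
  have hCm : ∀ d, cc l m ∅ c d → cc l m ∅ c (m d) := fun d a => a.trans (cc.stm0 d)
  have hp' : ¬ cc l m ∅ c (m' p) := fun a => by
    have e := (hC _ a).1
    rw [hm'.inv] at e
    exact hp (e ▸ hCm _ a)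
  have hn1 : ∀ d, cc l m ∅ c d → p ≠ d := fun d a e => hp (e ▸ a)
  have hn2 : ∀ d, cc l m ∅ c d → m' p ≠ d := fun d a e => hp' (e ▸ a)
  have hline : ∀ d, cc l m ∅ c d → line σ' m' d = line σ m d := fun d a =>
    line_congr (hC d a).1 (hC d a).2 (hC _ (hCm d a)).2
  have hch : ∀ d, (line σ m d).IsChain E := fun d => h.link d (by simp)
  have hon : ∀ d, cc l m ∅ c d → ∀ x ∈ line σ m d, On σ' x := fun d a x hx =>
    On.of_line (m := m') (i := d) (by rw [hline d a]; exact hx)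
  have lp : line σ' m' p = σ' p ++ [] ++ (σ' (m' p)).reverse := by simp [line]
  have np : σ' p ≠ [] := h'.ne_nil p
  have np' : σ' (m' p) ≠ [] := h'.ne_nil _
  have np'' : (σ' (m' p)).reverse ≠ [] := by simpa using np'
  have left : ∀ {S q A R : List V} {x : V}, (S ++ q ++ [x]).IsChain E → (A ++ x :: R).IsChain E →
      (S ++ q ++ (A ++ [x]).reverse).IsChain E := by
    intro S q A R x a b
    have b1 : (A ++ [x]).IsChain E := (List.isChain_split.1 b).1
    have b2 := chain_rev hs b1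
    rw [List.reverse_append, List.reverse_singleton, List.singleton_append] at b2 ⊢
    exact chain_glue a b2
  by_cases hsame : ∃ e, cc l m ∅ c e ∧ u ∈ line σ m e ∧ u' ∈ line σ m e
  · have : ∃ e A B C, cc l m ∅ c e ∧ line σ m e = A ++ u :: (B ++ u' :: C) := by
      obtain ⟨e, a, b, b'⟩ := hsame
      rcases two_split_c b b' hne with ⟨A, B, C, hL⟩ | ⟨A, B, C, hL⟩
      · exact ⟨e, A, B, C, a, hL⟩
      · exact ⟨m e, A, B, C, hCm e a, by rw [line_rev hm, hL]⟩
    obtain ⟨e, A, B, C, he, hL⟩ := this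
    obtain ⟨m'', hx⟩ := xch_exists hm' (hn1 e he) (hn2 e he)
    have hce := hch e
    rw [hL] at hce
    have hC' : (u' :: C).IsChain E := by
      have : A ++ u :: (B ++ u' :: C) = (A ++ u :: B) ++ u' :: C := by simp
      rw [this] at hce
      exact chain_right hce
    obtain ⟨σ'', U', k1, k2, -⟩ := h'.exch hs hx (P2 := A ++ [u]) (M2 := B) (Q2 := u' :: C)
      (c1 := q1) (c2 := q2) lp (by rw [hline e he, hL]; simp) np np'' (by simp) (by simp) hq
      (fun x hx => Or.inl (hoff x hx)) (left ch1 hce)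
      (by rw [List.reverse_reverse]; exact chain_glue ch2 hC')
    have hU : U' = ∅ := by
      ext i
      simp only [k2, Finset.mem_insert, Finset.mem_singleton, Finset.notMem_empty, iff_false]
      rintro ⟨a | a, b⟩
      · exact b.1 a
      · exact b.2.1 a
    exact ⟨σ'', m'', ∅, hU ▸ k1, Or.inl rfl,
      cev_same hl hm hm' hco (fun d a => (hC d a).1) hp he hx⟩
  have : ∃ e1 e2, col e2 = (!col e1) ∧ (cc l m ∅ c e1 ∧ u ∈ line σ m e1 ∧ u ≠ t (m e1)) ∧
      (cc l m ∅ c e2 ∧ u' ∈ line σ m e2 ∧ u' ≠ t (m e2)) := by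
    rcases orient h c2 h1 hu with ⟨a, ha, oa⟩ | o1
    · rcases orient h c2 h2 hu' with ⟨b, hb, ob⟩ | o2
      · refine ⟨a, b, ?_, oa, ob⟩
        have := hcol a b ha hb
        revert this
        cases col a <;> cases col b <;> simp
      · obtain ⟨e, he, oe⟩ := o2 (!col a)
        exact ⟨a, e, he, oa, oe⟩
    · have : ∃ b, cc l m ∅ c b ∧ u' ∈ line σ m b ∧ u' ≠ t (m b) := by
        rcases orient h c2 h2 hu' with ⟨b, -, ob⟩ | o2
        · exact ⟨b, ob⟩
        · obtain ⟨e, -, oe⟩ := o2 true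
          exact ⟨e, oe⟩
      obtain ⟨b, ob⟩ := this
      obtain ⟨e, he, oe⟩ := o1 (!col b)
      exact ⟨e, b, by rw [he]; simp, oe, ob⟩
  obtain ⟨e1, e2, hcl, ⟨he1, hu1, hv1⟩, ⟨he2, hu2, hv2⟩⟩ := this
  have ne1 : e2 ≠ e1 := fun e => hsame ⟨e1, he1, hu1, e ▸ hu2⟩
  have ne2 : e2 ≠ m e1 := fun e => hsame ⟨e1, he1, hu1, (mem_line_m hm).1 (e ▸ hu2)⟩
  obtain ⟨A1, B1, L1, nB1⟩ := split_ne h hu1 hv1
  obtain ⟨A2, B2, L2, nB2⟩ := split_ne h hu2 hv2
  have me1 : m' e1 = m e1 := (hC e1 he1).1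
  have me2 : m' e2 = m e2 := (hC e2 he2).1
  have hc1 := hch e1
  have hc2 := hch e2
  rw [L1] at hc1
  rw [L2] at hc2
  have cB1 : B1.IsChain E := (List.isChain_cons.1 (chain_right hc1)).2
  have cB2 : B2.IsChain E := (List.isChain_cons.1 (chain_right hc2)).2
  obtain ⟨m1, hx1⟩ := xch_exists hm' (hn1 e1 he1) (hn2 e1 he1)
  obtain ⟨σ1, U1, k1, k2, k3, k4, k5, k6⟩ := h'.exchH hs hx1 (P2 := A1 ++ [u]) (M2 := [])
    (Q2 := B1) (c1 := q1) lp (by rw [hline e1 he1, L1]; simp) np np'' (by simp) nB1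
    (List.nodup_append.1 hq).1 (fun x hx => Or.inl (hoff x (List.mem_append_left _ hx)))
    (left ch1 hc1) (chain_rev hs (h'.chain _)) cB1
  rw [List.reverse_reverse] at k4
  have o2 : Out m' p e1 e2 := ⟨(hn1 e2 he2).symm, (hn2 e2 he2).symm, ne1, by rw [me1]; exact ne2⟩
  have m1a : m1 (m' p) = m e1 := by rw [hx1.hma, me1]
  have m1b : m1 e2 = m e2 := by rw [hx1.oth e2 o2, me2]
  have l1 : line σ1 m1 (m' p) = σ' (m' p) ++ [] ++ B1 := by
    rw [line, hx1.hma, k4, k5]; simp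
  obtain ⟨m2, hx2⟩ := xch_exists hx1.inv (hn2 e2 he2) (by rw [m1a]; exact ne2.symm)
  obtain ⟨σ2, U2, j1, j2, -⟩ := k1.exchH hs hx2 (P2 := A2 ++ [u']) (M2 := [])
    (Q2 := B2) (c1 := q2) l1 (by rw [(k6 e2 o2).2, hline e2 he2, L2]; simp) np' nB1 (by simp) nB2
    (List.nodup_append.1 hq).2.1 (fun x hx => Or.inl fun hon1 => by
      have hx' := hoff x (List.mem_append_right _ hx)
      rcases St.on_xch hx1 k6 hon1 with a | a | ⟨i, -, a⟩
      · rw [k3, List.mem_append, List.mem_append, List.mem_reverse] at a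
        rcases a with (a | a) | a
        · exact hx' ⟨p, a⟩
        · exact (List.nodup_append.1 hq).2.2 x a x hx rfl
        · exact hx' (hon e1 he1 x (by rw [L1]; simp at a ⊢; tauto))
      · rw [l1, List.append_nil, List.mem_append] at a
        rcases a with a | a
        · exact hx' ⟨_, a⟩
        · exact hx' (hon e1 he1 x (by rw [L1]; simp [a]))
      · exact hx' (On.of_line a))
    (left ch2 hc2) cB1 cB2
  have a3 : m2 (m e1) = m e2 := by rw [← m1a, hx2.hma, m1b]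
  have hU : U2 = {m e1, m e2} := by
    ext i
    simp only [j2, k2, Finset.mem_insert, Finset.mem_singleton, m1a, m1b, me1]
    constructor
    · rintro (⟨⟨a | a, b⟩ | a | a, b'⟩ | a)
      · exact absurd a b.1
      · exact absurd a b.2.1
      · exact absurd a b'.1
      · exact Or.inl a
      · exact a
    · exact fun a => Or.inr a
  refine ⟨σ2, m2, {m e1, m e2}, hU ▸ j1, Or.inr ⟨m e1, by rw [a3]⟩, ?_⟩
  refine cev_diff hl hm hm' hx2.inv hmin c1 c2 hco (fun d a => (hC d a).1) hp he1 he2 ne2 hcl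
    ?_ hx2.ha a3 ?_
  · rw [hx2.oth p ⟨(hm'.fpf p).symm, by rw [m1a]; exact hn1 _ (hCm _ he1), hn1 _ he2,
      by rw [m1b]; exact hn1 _ (hCm _ he2)⟩, hx1.ha]
  · intro v a b o
    rw [hx2.oth v ⟨b, by rw [m1a]; exact o.2.1, o.2.2.1, by rw [m1b]; exact o.2.2.2⟩,
      hx1.oth v ⟨a, b, o.1, by rw [me1]; exact o.2.1⟩]

end Pool.Agent.P.MP_4197d5_co
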