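import Pool.Agent.P.MP_4197d5_co.Count

/-! The smallest class: small case and attachment data. -/

namespace Pool.Agent.P.MP_4197d5_co

open Classical

set_option linter.unusedSectionVars false

variable {V ι : Type} [Fintype ι] [Fintype V] {E : V → V → Prop} {t : ι → V} {l : ι → ι} {k : ℕ}
  {σ : ι → List V} {m : ι → ι} {C : Finset ι} {col : ι → Bool} {k1 k2 : ℕ} {Γ : Finset V}
  {M : Set V} {D : Bool → Finset ι} {X : Bool → Finset V} {pre mid : ι → List V} {gate : ι → V}

theorem CS.two_le (S : CS E t l k σ m C col k1 k2 Γ M D X pre mid gate) (c : Bool) :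
    2 ≤ (D c).card := by
  obtain ⟨u, hu⟩ := S.Dne c
  rw [← Finset.card_pair (S.st.hm.fpf u).symm]
  refine Finset.card_le_card fun x hx => ?_
  rcases Finset.mem_insert.1 hx with rfl | hx
  · exact hu
  · rw [Finset.mem_singleton.1 hx]; exact S.Dm c u hu

theorem CS.lC (S : CS E t l k σ m C col k1 k2 Γ M D X pre mid gate) {d : ι} (hd : d ∈ C) :
    l d ∈ C := (S.hC d hd _).2 (cc.stl d)

theorem CS.mC (S : CS E t l k σ m C col k1 k2 Γ M D X pre mid gate) {d : ι} (hd : d ∈ C) :
    m d ∈ C := (S.hC d hd _).2 (cc.stm0 d)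

theorem CS.two_ends (S : CS E t l k σ m C col k1 k2 Γ M D X pre mid gate) (h : 2 ≤ k1)
    (c : Bool) (d : ι) : ∃ d' ∈ C, d ≠ d' ∧ col d' = c := by
  obtain ⟨a, ha, b, hb, hab⟩ := Finset.one_lt_card.1 (show 1 < _ from (S.k1c c).symm ▸ h)
  rw [Finset.mem_filter] at ha hb
  by_cases e : d = a
  · exact ⟨b, hb.1, e ▸ hab, hb.2⟩
  · exact ⟨a, ha.1, e, ha.2⟩

theorem line_three (h : St E t σ m ∅) (i : ι) :
    ∃ r, line σ m i = [t i] ++ r ++ [t (m i)] := by
  obtain ⟨r1, h1⟩ := h.eq_cons i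
  obtain ⟨r2, h2⟩ := h.eq_cons (m i)
  exact ⟨r1 ++ r2.reverse, by rw [line, h1, h2]; simp⟩

/-- separator bound for a region made of `M` and some ends of colour `c` -/
theorem CS.sep (hC : Ctx E t l k) (S : CS E t l k σ m C col k1 k2 Γ M D X pre mid gate)
    (c : Bool) (B : Finset ι) (hB : ∀ d ∈ B, d ∈ C ∧ col d = c) (T : Finset V)
    (hT : ∀ d ∈ C, col d = c → d ∉ B → t d ∈ T)
    (hN : ∀ d ∈ B, ∀ v, E (t d) v → v ∈ X c ∨ (∃ u ∈ D c, v = gate u) → v ∈ T)
    (hne : (∃ w, w ∈ M) ∨ B.Nonempty) : k2 ≤ Γ.card + T.card := by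
  have key : k ≤ ((C.filter fun d => col d = !c).image t ∪ (Γ ∪ T)).card := by
    obtain ⟨y, hy⟩ : ∃ y, y ∈ {v | v ∈ M ∨ ∃ d ∈ B, v = t d} := by
      rcases hne with ⟨w, hw⟩ | ⟨d, hd⟩
      · exact ⟨w, Or.inl hw⟩
      · exact ⟨t d, Or.inr ⟨d, hd, rfl⟩⟩
    have hE : ∀ d ∈ C, t d ∈ {v | v ∈ M ∨ ∃ d ∈ B, v = t d} ∨
        t d ∈ (C.filter fun d => col d = !c).image t ∪ (Γ ∪ T) := by
      intro d hd
      by_cases e : col d = c
      · by_cases e' : d ∈ B
        · exact Or.inl (Or.inr ⟨d, e', rfl⟩)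
        · exact Or.inr (by simp [hT d hd e e'])
      · refine Or.inr (Finset.mem_union_left _ (Finset.mem_image_of_mem _ ?_))
        rw [Finset.mem_filter]
        refine ⟨hd, ?_⟩
        revert e; cases col d <;> cases c <;> simp
    refine hC.hkJ _ _ y (Finset.univ \ C.filter fun d => col d = c) hy ?_ ?_ ?_
    · rintro j hj (h | ⟨d, hd, e⟩)
      · exact S.Mnt _ h j rfl
      · rw [hC.tinj e] at hj
        simp [hB d hd] at hj
    · rw [Finset.card_univ_sdiff, S.k1c c, hC.card]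
      have := S.hk
      omega
    · rintro x (hx | ⟨d, hd, rfl⟩) w (e | ⟨i, e1, e2⟩)
      · rcases S.N1 x hx w e with h | h | ⟨d, hd, rfl⟩
        · exact Or.inl (Or.inl h)
        · exact Or.inr (by simp [h])
        · exact hE d hd
      · exact absurd e1 (S.Mnt x hx i)
      · rcases S.N2 d (hB d hd).1 w e with h | h | ⟨d', hd', rfl⟩ | h
        · exact Or.inl (Or.inl h)
        · exact Or.inr (by simp [h])
        · exact hE d' hd'
        · rw [(hB d hd).2] at h
          exact Or.inr (by simp [hN d hd w e h])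
      · rw [e2, ← hC.tinj e1]
        exact hE _ (S.lC (hB d hd).1)
  have h1 := Finset.card_union_le ((C.filter fun d => col d = !c).image t) (Γ ∪ T)
  have h2 := Finset.card_union_le Γ T
  have h3 := Finset.card_image_le (s := C.filter fun d => col d = !c) (f := t)
  have h4 := S.k1c (!c)
  have := S.hk
  omega

/-- If `k1 = 1` then `C = {d, l d}` and `m d = l d`; the line of `d` has an inner vertex `n`
(`Ctx.noL`). `M` is empty by `Ctx.hk_nt` with the separator `Γ ∪ {t d, t (l d)}` of size at most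
`k2 = k - 1`, and then `K1` bounds the degree of `n` by `|Γ| - 1 + 4 ≤ k`. -/
theorem CS.k1_one (hC : Ctx E t l k) (S : CS E t l k σ m C col k1 k2 Γ M D X pre mid gate)
    (h : k1 = 1) : False := by
  obtain ⟨d, hd⟩ := Finset.card_eq_one.1 (h ▸ S.k1c false)
  obtain ⟨d', hd'⟩ := Finset.card_eq_one.1 (h ▸ S.k1c true)
  have h0 : ∀ x, x ∈ C ∧ col x = false ↔ x = d := fun x => by
    rw [← Finset.mem_singleton (a := d), ← hd, Finset.mem_filter]
  have h1 : ∀ x, x ∈ C ∧ col x = true ↔ x = d' := fun x => by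
    rw [← Finset.mem_singleton (a := d'), ← hd', Finset.mem_filter]
  have hdC := (h0 d).2 rfl
  have e1 : l d = d' := (h1 _).1 ⟨S.lC hdC.1, by rw [S.coll, hdC.2]; rfl⟩
  have e2 : m d = d' := (h1 _).1 ⟨S.mC hdC.1, by rw [S.colm, hdC.2]; rfl⟩
  have hall : ∀ x ∈ C, x = d ∨ x = d' := fun x hx => by
    cases e : col x
    · exact Or.inl ((h0 x).1 ⟨hx, e⟩)
    · exact Or.inr ((h1 x).1 ⟨hx, e⟩)
  have g1 := S.Gcard false
  have g2 := S.two_le false
  have g3 := S.hk
  have hM : ∀ w, w ∉ M := fun w hw => by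
    have := hC.hk_nt M (insert (t d) (insert (t d') Γ)) w hw S.Mnt fun x hx v e => by
      rcases S.N1 x hx v e with a | a | ⟨y, hy, rfl⟩
      · exact Or.inl a
      · exact Or.inr (by simp [a])
      · rcases hall y hy with rfl | rfl <;> exact Or.inr (by simp)
    have a1 := Finset.card_insert_le (t d) (insert (t d') Γ)
    have a2 := Finset.card_insert_le (t d') Γ
    omega
  obtain ⟨r, hr⟩ := line_three S.st d
  have hch := S.st.link d (by simp)
  rcases r with _ | ⟨n, r⟩
  · rw [hr] at hch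
    exact hC.noL d (by rw [e1, ← e2]; simpa using hch)
  have hnt := S.st.inner_nt (i := d) (w := n) (A := [t d]) (B := r ++ [t (m d)])
    (by rw [hr]; simp) (by simp) (by simp)
  rcases S.K1 d hdC.1 n (by rw [hr]; simp) hnt with a | ⟨a, y1, y2, b⟩
  · exact hM n a
  have := hC.deg_nt hnt (insert (t d) (insert (t d') (insert y1 (insert y2 (Γ.erase n)))))
    fun v e => by
      rcases b v e with a | a | ⟨y, hy, rfl⟩ | rfl | rfl
      · exact absurd a (hM v)
      · have : v ≠ n := fun e' => hC.irr n (by rw [e'] at e; exact e)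
        simp [a, this]
      · rcases hall y hy with rfl | rfl <;> simp
      · simp
      · simp
  have a1 := Finset.card_insert_le (t d) (insert (t d') (insert y1 (insert y2 (Γ.erase n))))
  have a2 := Finset.card_insert_le (t d') (insert y1 (insert y2 (Γ.erase n)))
  have a3 := Finset.card_insert_le y1 (insert y2 (Γ.erase n))
  have a4 := Finset.card_insert_le y2 (Γ.erase n)
  have a5 := Finset.card_erase_of_mem a
  have a6 := Finset.card_pos.2 ⟨n, a⟩
  omega

/-- either two connectors are available at one double line, or every connector is the only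
middle vertex of a double line -/
theorem CS.rich (S : CS E t l k σ m C col k1 k2 Γ M D X pre mid gate) (c : Bool)
    (h : (X c).Nonempty) :
    (∃ τ ∈ D c, ∃ x ∈ X c, ∃ x' ∈ X c, x ≠ x' ∧ (¬ On σ x ∨ x ∈ mid τ) ∧
      (¬ On σ x' ∨ x' ∈ mid τ)) ∨
    ((∀ x ∈ X c, ∃ u ∈ D c, mid u = [x]) ∧ ∀ u ∈ D c, mid u = [] ∨ ∃ x, mid u = [x]) := by
  by_contra hcon
  rw [not_or] at hcon
  obtain ⟨h1, h2⟩ := hcon
  have hon : ∀ x ∈ X c, On σ x → ∃ u ∈ D c, x ∈ mid u := fun x hx ho => by
    obtain ⟨u, hu⟩ := (on_iff_line (m := m)).1 ho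
    exact ⟨u, S.Xon c x hx u hu⟩
  have hmid : ∀ u ∈ D c, mid u = [] ∨ ∃ x, mid u = [x] := fun u hu => by
    obtain ⟨e, hX, -⟩ := S.dbl c u hu
    have hn := S.st.line_nodup u
    rw [e] at hn
    have hn' : (mid u).Nodup :=
      hn.sublist ((List.sublist_append_left _ _).trans ((List.sublist_cons_self _ _).trans
        (List.sublist_append_right _ _)))
    rcases hm : mid u with _ | ⟨x, _ | ⟨y, r⟩⟩
    · exact Or.inl rfl
    · exact Or.inr ⟨x, rfl⟩
    · rw [hm] at hn' hX
      refine absurd ⟨u, hu, x, hX x (by simp), y, hX y (by simp), ?_, Or.inr (by simp [hm]),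
        Or.inr (by simp [hm])⟩ h1
      rintro rfl
      simp at hn'
  refine h2 ⟨fun x hx => ?_, hmid⟩
  by_cases ho : On σ x
  · obtain ⟨u, hu, hxu⟩ := hon x hx ho
    refine ⟨u, hu, ?_⟩
    rcases hmid u hu with e | ⟨y, e⟩
    · rw [e] at hxu; simp at hxu
    · rw [e] at hxu ⊢; rw [List.mem_singleton.1 hxu]
  · exfalso
    obtain ⟨y, hy, hne⟩ := Finset.exists_mem_ne (S.X2 c h) x
    by_cases ho' : On σ y
    · obtain ⟨u, hu, hyu⟩ := hon y hy ho'
      exact h1 ⟨u, hu, x, hx, y, hy, hne.symm, Or.inl ho, Or.inr hyu⟩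
    · obtain ⟨u, hu⟩ := S.Dne c
      exact h1 ⟨u, hu, x, hx, y, hy, hne.symm, Or.inl ho, Or.inl ho'⟩

/-- in the scarce case there are twice as many wild indices as connectors (`pairs_count`) -/
theorem CS.wild_card (S : CS E t l k σ m C col k1 k2 Γ M D X pre mid gate) (c : Bool)
    (h : ∀ x ∈ X c, ∃ u ∈ D c, mid u = [x]) :
    2 * (X c).card ≤ ((D c).filter fun u => mid u ≠ []).card := by
  refine pairs_count S.st.hm _ (fun u hu => ?_) _ (fun x u => mid u = [x]) (fun x hx => ?_)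
    (fun x _ y _ u _ a b => ?_)
  · rw [Finset.mem_filter] at hu ⊢
    refine ⟨S.Dm c u hu.1, ?_⟩
    rw [(S.dbl c u hu.1).2.2]
    simpa using hu.2
  · obtain ⟨u, hu, e⟩ := h x hx
    refine ⟨u, Finset.mem_filter.2 ⟨hu, by simp [e]⟩, e, ?_⟩
    rw [(S.dbl c u hu).2.2, e]; rfl
  · rw [a] at b; simpa using b

/-- A double line can be attached to two ends of its colour. Choose `c` with `X c` nonempty if
possible. Rich case: take any `si ≠ sj` of colour `c`. Scarce case: if some end `si` of colour `c`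
is adjacent to the gate of a wild index `τ`, take `q1 = []`, `q2 = mid τ`; otherwise the region
`M ∪ {ends of colour c}` has the separator `{ends of colour !c} ∪ Γ ∪ X c ∪ {gates of indices
with empty mid}` of size `< k` (`CS.wild_card`, `Ctx.hkJ` with `J` the indices not in `C` or of
colour `!c`). Both `X` empty: suppose no attachment; then each `u ∈ D c` has exactly one end
`own u` of colour `c` adjacent to `gate u` and `own (m u) = own u`; let `Σ'` be the image,
`2 |Σ'| ≤ |D c|`; the region `M ∪ {ends of colour c not in Σ'}` has the separator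
`{colour !c} ∪ Σ' ∪ Γ` of size `< k`, so it is empty, `2 k1 ≤ |D c|`; of two ends of colour `c`
one owns at most half of `D c`, and `Ctx.hd` for it fails. -/
theorem CS.qdata (hC : Ctx E t l k) (S : CS E t l k σ m C col k1 k2 Γ M D X pre mid gate)
    (h : 2 ≤ k1) :
    ∃ c, ∃ τ ∈ D c, ∃ si ∈ C, ∃ sj ∈ C, si ≠ sj ∧ col si = c ∧ col sj = c ∧ ∃ q1 q2 : List V,
      (q1 ++ q2).Nodup ∧ (∀ x ∈ q1 ++ q2, x ∈ X c ∧ (¬ On σ x ∨ x ∈ mid τ)) ∧
      (gate τ :: (q1 ++ [t si])).IsChain E ∧ (gate (m τ) :: (q2 ++ [t sj])).IsChain E := by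
  by_contra hcon
  by_cases hX : ∃ c, (X c).Nonempty
  · obtain ⟨c, hc⟩ := hX
    obtain ⟨τ0, hτ0⟩ := S.Dne c
    obtain ⟨s0, hs0, -, cs0⟩ := S.two_ends h c τ0
    rcases S.rich c hc with ⟨τ, hτ, x, hx, y, hy, hne, a1, a2⟩ | ⟨a1, a2⟩
    · obtain ⟨s1, hs1, hne', cs1⟩ := S.two_ends h c s0
      refine hcon ⟨c, τ, hτ, s0, hs0, s1, hs1, hne', cs0, cs1, [x], [y], by simpa using hne,
        ?_, ?_, ?_⟩
      · intro z hz
        rcases List.mem_append.1 hz with e | e <;> rw [List.mem_singleton.1 e]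
        · exact ⟨hx, a1⟩
        · exact ⟨hy, a2⟩
      · simpa using ⟨hC.symm _ _ ((S.Xc c x hx).2 τ hτ), (S.Xc c x hx).1 s0 hs0 cs0⟩
      · simpa using ⟨hC.symm _ _ ((S.Xc c y hy).2 _ (S.Dm c τ hτ)), (S.Xc c y hy).1 s1 hs1 cs1⟩
    have hw := S.wild_card c a1
    have := S.sep hC c (C.filter fun d => col d = c) (fun d hd => Finset.mem_filter.1 hd)
      (X c ∪ ((D c).filter fun u => ¬ mid u ≠ []).image gate)
      (fun d a b e => absurd (Finset.mem_filter.2 ⟨a, b⟩) e) ?_
      (Or.inr ⟨s0, Finset.mem_filter.2 ⟨hs0, cs0⟩⟩)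
    · have b1 := Finset.card_union_le (X c) (((D c).filter fun u => ¬ mid u ≠ []).image gate)
      have b2 := Finset.card_image_le (s := (D c).filter fun u => ¬ mid u ≠ []) (f := gate)
      have b3 := Finset.card_filter_add_card_filter_not (s := D c) fun u => mid u ≠ []
      have b4 := S.Gcard c
      have b5 := Finset.card_pos.2 hc
      omega
    rintro d hd v e (a | ⟨u, hu, rfl⟩)
    · exact Finset.mem_union_left _ a
    rw [Finset.mem_filter] at hd
    rcases a2 u hu with e' | ⟨x, e'⟩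
    · exact Finset.mem_union_right _ (Finset.mem_image_of_mem _
        (Finset.mem_filter.2 ⟨hu, by simp [e']⟩))
    exfalso
    have hx : x ∈ X c := (S.dbl c u hu).2.1 x (by simp [e'])
    obtain ⟨s1, hs1, hne', cs1⟩ := S.two_ends h c d
    refine hcon ⟨c, u, hu, d, hd.1, s1, hs1, hne', hd.2, cs1, [], [x], by simp, ?_, ?_, ?_⟩
    · intro z hz
      rw [List.mem_singleton.1 (by simpa using hz : z ∈ [x])]
      exact ⟨hx, Or.inr (by simp [e'])⟩
    · simpa using hC.symm _ _ e
    · simpa using ⟨hC.symm _ _ ((S.Xc c x hx).2 _ (S.Dm c u hu)), (S.Xc c x hx).1 s1 hs1 cs1⟩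
  have hX0 : X false = ∅ := Finset.not_nonempty_iff_eq_empty.1 fun a => hX ⟨_, a⟩
  choose! own ho using S.Xe false hX0
  have h1 : ∀ u ∈ D false, ∀ d ∈ C, col d = false → E (t d) (gate u) → d = own (m u) := by
    intro u hu d hd cd e
    by_contra hne
    obtain ⟨a1, a2, a3⟩ := ho _ (S.Dm _ u hu)
    exact hcon ⟨false, u, hu, d, hd, _, a1, hne, cd, a2, [], [], by simp, by simp,
      by simpa using hC.symm _ _ e, by simpa using hC.symm _ _ a3⟩
  have h2 : ∀ u ∈ D false, own u = own (m u) := fun u hu =>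
    h1 u hu _ (ho u hu).1 (ho u hu).2.1 (ho u hu).2.2
  have h3 : 2 * ((D false).image own).card ≤ (D false).card := by
    refine pairs_count S.st.hm _ (S.Dm false) _ (fun g u => own u = g) (fun g hg => ?_)
      (fun x _ y _ u _ a b => a.symm.trans b)
    obtain ⟨u, hu, rfl⟩ := Finset.mem_image.1 hg
    exact ⟨u, hu, rfl, (h2 u hu).symm⟩
  have g1 := S.Gcard false
  have g2 := S.two_le false
  have g3 := S.hk
  have h4 : ¬ ((∃ w, w ∈ M) ∨
      ((C.filter fun d => col d = false) \ (D false).image own).Nonempty) := fun hne => by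
    have := S.sep hC false _ (fun d hd => Finset.mem_filter.1 (Finset.mem_sdiff.1 hd).1)
      (((D false).image own).image t) (fun d a b e => ?_) ?_ hne
    · have b2 := Finset.card_image_le (s := (D false).image own) (f := t)
      omega
    · refine Finset.mem_image_of_mem _ ?_
      by_contra e'
      exact e (Finset.mem_sdiff.2 ⟨Finset.mem_filter.2 ⟨a, b⟩, e'⟩)
    · rintro d hd v e (a | ⟨u, hu, rfl⟩)
      · rw [hX0] at a; simp at a
      · rw [Finset.mem_sdiff, Finset.mem_filter] at hd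
        exact absurd (Finset.mem_image.2 ⟨_, S.Dm _ u hu, (h1 u hu d hd.1.1 hd.1.2 e).symm⟩) hd.2
  rw [not_or, Finset.not_nonempty_iff_eq_empty, Finset.sdiff_eq_empty_iff_subset] at h4
  have h5 := Finset.card_le_card h4.2
  rw [S.k1c] at h5
  obtain ⟨d, hd, cd, hf⟩ : ∃ d ∈ C, col d = false ∧
      2 * ((D false).filter fun u => own u = d).card ≤ (D false).card := by
    obtain ⟨τ0, -⟩ := S.Dne false
    obtain ⟨s0, hs0, -, cs0⟩ := S.two_ends h false τ0
    obtain ⟨s1, hs1, hne, cs1⟩ := S.two_ends h false s0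
    have b1 : (((D false).filter fun u => own u = s0) ∪
        ((D false).filter fun u => own u = s1)).card ≤ (D false).card :=
      Finset.card_le_card (Finset.union_subset (Finset.filter_subset _ _) (Finset.filter_subset _ _))
    rw [Finset.card_union_of_disjoint (Finset.disjoint_filter.2 fun u _ a b => hne (a.symm.trans b))]
      at b1
    by_cases b2 : 2 * ((D false).filter fun u => own u = s0).card ≤ (D false).card
    · exact ⟨s0, hs0, cs0, b2⟩
    · exact ⟨s1, hs1, cs1, by omega⟩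
  have := hC.hd (t d) (Γ ∪ ((C.erase d).image t ∪ ((D false).filter fun u => own u = d).image gate))
    ?_
  · have b1 := Finset.card_union_le Γ
      ((C.erase d).image t ∪ ((D false).filter fun u => own u = d).image gate)
    have b2 := Finset.card_union_le ((C.erase d).image t)
      (((D false).filter fun u => own u = d).image gate)
    have b3 := Finset.card_image_le (s := C.erase d) (f := t)
    have b4 := Finset.card_image_le (s := (D false).filter fun u => own u = d) (f := gate)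
    have b5 := Finset.card_erase_of_mem hd
    have b6 := Finset.card_filter_add_card_filter_not (s := C) fun u => col u = false
    have b7 : (C.filter fun u => ¬ col u = false) = C.filter fun u => col u = true := by simp
    rw [b7, S.k1c, S.k1c] at b6
    omega
  rintro w (e | ⟨i, e1, rfl⟩)
  · rcases S.N2 d hd w e with a | a | ⟨d', hd', rfl⟩ | a | ⟨u, hu, rfl⟩
    · exact absurd ⟨w, a⟩ h4.1
    · exact Finset.mem_union_left _ a
    · refine Finset.mem_union_right _ (Finset.mem_union_left _ (Finset.mem_image_of_mem _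
        (Finset.mem_erase.2 ⟨?_, hd'⟩)))
      rintro rfl
      exact hC.irr _ e
    · rw [cd, hX0] at a; simp at a
    · rw [cd] at hu
      exact Finset.mem_union_right _ (Finset.mem_union_right _ (Finset.mem_image_of_mem _
        (Finset.mem_filter.2 ⟨hu, (h2 u hu).trans (h1 u hu d hd cd e).symm⟩)))
  · rw [← hC.tinj e1]
    exact Finset.mem_union_right _ (Finset.mem_union_left _ (Finset.mem_image_of_mem _
      (Finset.mem_erase.2 ⟨hC.hl.fpf d, S.lC hd⟩)))

/-- two applications of `St.exchH` -/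
theorem CS.qfam (hs : ∀ x y, E x y → E y x) (S : CS E t l k σ m C col k1 k2 Γ M D X pre mid gate)
    {c : Bool} {τ si sj : ι} (hτ : τ ∈ D c) (hi : si ∈ C) (hj : sj ∈ C) (hne : si ≠ sj)
    (ci : col si = c) (cj : col sj = c) {q1 q2 : List V} (hq : (q1 ++ q2).Nodup)
    (hX : ∀ x ∈ q1 ++ q2, x ∈ X c ∧ (¬ On σ x ∨ x ∈ mid τ))
    (ch1 : (gate τ :: (q1 ++ [t si])).IsChain E) (ch2 : (gate (m τ) :: (q2 ++ [t sj])).IsChain E) :
    ∃ σ3 m3, QF E t σ m C col D X c τ si sj σ3 m3 := by
  have hm := S.st.hm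
  have τC : τ ∉ C := S.DC c τ hτ
  have mτC : m τ ∉ C := S.DC c _ (S.Dm c τ hτ)
  have n1 : ∀ x ∈ C, τ ≠ x := fun x hx e => τC (e ▸ hx)
  have n2 : ∀ x ∈ C, m τ ≠ x := fun x hx e => mτC (e ▸ hx)
  have n3 : sj ≠ m si := fun e => by
    have := S.colm si
    rw [← e, ci, cj] at this
    simp at this
  have n4 : si ≠ m sj := fun e => n3 (by rw [e, hm.inv])
  obtain ⟨eτ, -, -⟩ := S.dbl c τ hτ
  have chτ := S.st.link τ (by simp)
  have ndτ := S.st.line_nodup τ
  obtain ⟨ri, ei⟩ := line_three S.st si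
  obtain ⟨rj, ej⟩ := line_three S.st sj
  have eτ' : line σ m τ = (pre τ ++ [gate τ]) ++ mid τ ++ (gate (m τ) :: (pre (m τ)).reverse) := by
    rw [eτ]; simp
  have c1 : (pre τ ++ [gate τ]).IsChain E := by
    rw [eτ', List.append_assoc] at chτ; exact chain_left chτ
  have c2 : (gate (m τ) :: (pre (m τ)).reverse).IsChain E := by
    rw [eτ'] at chτ; exact chain_right chτ
  have c2' : (pre (m τ) ++ [gate (m τ)]).IsChain E := by simpa using chain_rev hs c2
  rw [List.nodup_append] at hq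
  obtain ⟨m1, x1⟩ := xch_exists hm (n1 si hi) (n2 si hi)
  obtain ⟨σ1, U1, s1, u1, l1, a1, b1, o1⟩ := S.st.exchH hs x1 (c1 := q1) eτ' ei (by simp) (by simp)
    (by simp) (by simp) hq.1
    (fun x hx => ((hX x (by simp [hx])).2).imp_right Or.inl)
    (by simpa using chain_glue c1 ch1) c2 (by simp)
  have oj : Out m τ si sj := ⟨(n1 sj hj).symm, (n2 sj hj).symm, hne.symm, n3⟩
  have mj : m1 sj = m sj := x1.oth sj oj
  have l2 : line σ1 m1 (m τ) = (pre (m τ) ++ [gate (m τ)]) ++ [] ++ [t (m si)] := by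
    rw [line, x1.hma, a1, b1]; simp
  obtain ⟨m3, x3⟩ := xch_exists s1.hm (n2 sj hj) (by rw [x1.hma]; exact n3.symm)
  have hq2 : ∀ x ∈ q2, ¬ On σ1 x := by
    intro x hx hon
    obtain ⟨hxX, hxo⟩ := hX x (by simp [hx])
    have hnt := S.Xnt c x hxX
    have k1 : x ∈ line σ m τ → x ∈ mid τ := fun a => (S.Xon c x hxX τ a).2
    rw [eτ'] at ndτ k1
    simp only [List.nodup_append, List.mem_append] at ndτ
    rcases St.on_xch x1 o1 hon with a | a | ⟨i, oi, a⟩
    · rw [l1] at a
      rcases List.mem_append.1 a with a | a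
      · rcases List.mem_append.1 a with a | a
        · exact ndτ.1.2.2 x (List.mem_append.1 a) x (k1 (by simp at a ⊢; tauto)) rfl
        · exact hq.2.2 x a x hx rfl
      · exact hnt si (by simpa using a)
    · rw [l2] at a
      rcases List.mem_append.1 a with a | a
      · have a' : x ∈ gate (m τ) :: (pre (m τ)).reverse := by simp at a ⊢; tauto
        exact ndτ.2.2 x (Or.inr (k1 (List.mem_append_right _ a'))) x a' rfl
      · exact hnt (m si) (by simpa using a)
    · rcases hxo with b | b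
      · exact b (On.of_line a)
      · rcases S.st.line_disj (i := τ) (by rw [eτ']; simp [b]) a with e | e
        · exact oi.1 e
        · exact oi.2.1 e
  obtain ⟨σ3, U3, s3, u3, l3, a3, b3, o3⟩ := s1.exchH hs x3 (c1 := q2) l2
    ((o1 sj oj).2.trans ej) (by simp) (by simp) (by simp) (by simp) hq.2.1
    (fun x hx => Or.inl (hq2 x hx)) (by simpa using chain_glue c2' ch2) (by simp) (by simp)
  have hO : ∀ i, Out m1 (m τ) sj i ↔ i ≠ m τ ∧ i ≠ m si ∧ i ≠ sj ∧ i ≠ m sj := fun i => by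
    rw [Out, x1.hma, mj]
  have hU : U3 = {m si, m sj} := by
    ext i
    rw [u3, u1, hO, x1.hma, mj]
    simp only [Finset.notMem_empty, false_and, false_or, Finset.mem_insert, Finset.mem_singleton]
    tauto
  rw [x1.hma] at a3
  rw [mj] at b3
  have h31 : m3 (m si) = m sj := by rw [← x1.hma, x3.hma, mj]
  have oτ : Out m si sj τ := ⟨n1 _ hi, n1 _ (S.mC hi), n1 _ hj, n1 _ (S.mC hj)⟩
  have hl1 : ∀ x ∈ line σ1 m1 τ,
      x ∈ X c ∨ (∃ i, x = t i) ∨ ∃ u, Out m si sj u ∧ x ∈ line σ m u := by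
    intro x a
    rw [l1] at a
    rcases List.mem_append.1 a with a | a
    · rcases List.mem_append.1 a with a | a
      · exact Or.inr (Or.inr ⟨τ, oτ, by rw [eτ']; simp at a ⊢; tauto⟩)
      · exact Or.inl (hX x (by simp [a])).1
    · exact Or.inr (Or.inl ⟨si, by simpa using a⟩)
  refine ⟨σ3, m3, hU ▸ s3, hτ, hi, hj, hne, ci, cj, ?_, x3.ha, h31, by simpa using a3,
    by simpa using b3, fun u a b o => ?_, fun x hon => ?_⟩
  · rw [x3.oth τ ((hO τ).2 ⟨(hm.fpf τ).symm, n1 _ (S.mC hi), n1 _ hj, n1 _ (S.mC hj)⟩), x1.ha]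
  · have p1 : Out m τ si u := ⟨a, b, o.1, o.2.1⟩
    have p3 := (hO u).2 ⟨b, o.2.1, o.2.2.1, o.2.2.2⟩
    exact ⟨(x3.oth u p3).trans (x1.oth u p1), (o3 u p3).2.trans (o1 u p1).2⟩
  · rcases St.on_xch x3 o3 hon with a | a | ⟨i, oi, a⟩
    · rw [l3] at a
      rcases List.mem_append.1 a with a | a
      · rcases List.mem_append.1 a with a | a
        · exact Or.inr (Or.inr ⟨τ, oτ, by rw [eτ']; simp at a ⊢; tauto⟩)
        · exact Or.inl (hX x (by simp [a])).1
      · exact Or.inr (Or.inl ⟨sj, by simpa using a⟩)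
    · rw [x1.hma, line, h31, a3, b3] at a
      rcases List.mem_append.1 a with a | a
      · exact Or.inr (Or.inl ⟨_, by simpa using a⟩)
      · exact Or.inr (Or.inl ⟨_, by simpa using a⟩)
    · rw [hO] at oi
      by_cases e1 : i = τ
      · exact hl1 x (e1 ▸ a)
      by_cases e2 : i = si
      · rw [e2, ← x1.ha, mem_line_m s1.hm] at a
        exact hl1 x a
      have p1 : Out m τ si i := ⟨e1, oi.1, e2, oi.2.1⟩
      exact Or.inr (Or.inr ⟨i, ⟨e2, oi.2.1, oi.2.2.1, oi.2.2.2⟩, (o1 i p1).2 ▸ a⟩)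

end Pool.Agent.P.MP_4197d5_co
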