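import Pool.Agent.P.MP_4197d5_co.LemI

/-! From dominator classes to the tight structure. -/

namespace Pool.Agent.P.MP_4197d5_co

open Classical

set_option linter.unusedSectionVars false

variable {V ι : Type} [Fintype ι] [Fintype V] {E : V → V → Prop} {t : ι → V} {l : ι → ι} {k : ℕ}
  {σ : ι → List V} {m : ι → ι} {c : ι} {col : ι → Bool}

namespace CSx

theorem dbl_m (hm : Pr m) {B : Set V} {u : ι} (h : Dbl (line σ m u) B) :
    Dbl (line σ m (m u)) B := by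
  obtain ⟨x, hx, y, hy, a⟩ := h
  exact ⟨x, (mem_line_m hm).2 hx, y, (mem_line_m hm).2 hy, a⟩

theorem dbl_mono {L : List V} {B B' : Set V} (h : Dbl L B) (hB : ∀ v ∈ B, v ∈ B') : Dbl L B' := by
  obtain ⟨x, hx, y, hy, a, b, c⟩ := h
  exact ⟨x, hx, y, hy, a, hB x b, hB y c⟩

variable {C : Finset ι} {Cls : Set V} {s : Bool → V} {A X : V → Set V}

/-- union of the sets of all classes -/
def Aall (Cls : Set V) (A : V → Set V) : Set V := {v | ∃ κ ∈ Cls, v ∈ A κ}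

/-- double lines of a set -/
noncomputable def Dk (σ : ι → List V) (m : ι → ι) (C : Finset ι) (B : Set V) : Finset ι :=
  Finset.univ.filter fun u => u ∉ C ∧ Dbl (line σ m u) B

theorem mem_Dk {B : Set V} {u : ι} : u ∈ Dk σ m C B ↔ u ∉ C ∧ Dbl (line σ m u) B := by
  simp [Dk]

/-- lines which are not double -/
noncomputable def ND (σ : ι → List V) (m : ι → ι) (C : Finset ι) (B : Set V) : Finset ι :=
  Finset.univ.filter fun u => u ∉ C ∧ ¬ Dbl (line σ m u) B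

theorem mem_ND {B : Set V} {u : ι} : u ∈ ND σ m C B ↔ u ∉ C ∧ ¬ Dbl (line σ m u) B := by
  simp [ND]

/-- members of the set on lines which are not double -/
noncomputable def GG (σ : ι → List V) (m : ι → ι) (C : Finset ι) (B : Set V) : Finset V :=
  Finset.univ.filter fun v => v ∈ B ∧ ∃ u ∈ ND σ m C B, v ∈ line σ m u

theorem mem_GG {B : Set V} {v : V} :
    v ∈ GG σ m C B ↔ v ∈ B ∧ ∃ u ∈ ND σ m C B, v ∈ line σ m u := by
  simp only [GG, Finset.mem_filter, Finset.mem_univ, true_and]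

theorem Dk_m (hm : Pr m) (hCm : ∀ u, m u ∈ C → u ∈ C) {B : Set V} {u : ι}
    (h : u ∈ Dk σ m C B) : m u ∈ Dk σ m C B :=
  mem_Dk.2 ⟨fun e => (mem_Dk.1 h).1 (hCm u e), dbl_m hm (mem_Dk.1 h).2⟩

theorem ND_m (hm : Pr m) (hCm : ∀ u, m u ∈ C → u ∈ C) {B : Set V} {u : ι}
    (h : u ∈ ND σ m C B) : m u ∈ ND σ m C B :=
  mem_ND.2 ⟨fun e => (mem_ND.1 h).1 (hCm u e), fun e => (mem_ND.1 h).2 (by
    have := dbl_m hm e
    rwa [hm.inv] at this)⟩

theorem GG_card (hm : Pr m) (hCm : ∀ u, m u ∈ C → u ∈ C) (B : Set V) :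
    2 * (GG σ m C B).card ≤ (ND σ m C B).card := by
  refine pairs_count hm _ (fun i hi => ND_m hm hCm hi) _ (fun g i => g ∈ line σ m i) ?_ ?_
  · intro g hg
    obtain ⟨-, u, hu, hg⟩ := mem_GG.1 hg
    exact ⟨u, hu, hg, (mem_line_m hm).2 hg⟩
  · intro g hg g' hg' i hi a b
    by_contra e
    exact (mem_ND.1 hi).2 ⟨g, a, g', b, e, (mem_GG.1 hg).1, (mem_GG.1 hg').1⟩

theorem DB (S : DS E t σ m C col Cls s A X) {κ κ' y : V} {u : ι} (hκ : κ ∈ Cls) (hκ' : κ' ∈ Cls)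
    (hu : u ∈ Dk σ m C (A κ)) (hy : y ∈ line σ m u) (hA : y ∈ A κ') : κ' = κ := by
  by_contra e
  obtain ⟨hC, x1, a1, x2, a2, hne, b1, b2⟩ := mem_Dk.1 hu
  exact hne ((S.d1 κ hκ κ' hκ' (Ne.symm e) u hC x1 a1 y hy b1 hA).trans
    (S.d1 κ hκ κ' hκ' (Ne.symm e) u hC x2 a2 y hy b2 hA).symm)

theorem DB' (S : DS E t σ m C col Cls s A X) {κ κ' : V} {u : ι} (hκ : κ ∈ Cls) (hκ' : κ' ∈ Cls)
    (hu : u ∈ Dk σ m C (A κ)) (hu' : u ∈ Dk σ m C (A κ')) : κ' = κ := by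
  obtain ⟨-, x1, a1, -, -, -, b1, -⟩ := mem_Dk.1 hu'
  exact DB S hκ hκ' hu a1 b1

theorem DA (S : DS E t σ m C col Cls s A X) {u : ι} (hu : u ∉ C)
    (h : Dbl (line σ m u) (Aall Cls A)) : ∃ κ ∈ Cls, u ∈ Dk σ m C (A κ) := by
  obtain ⟨x, hx, y, hy, hne, ⟨κ, hκ, a⟩, ⟨κ', hκ', b⟩⟩ := h
  by_cases e : κ = κ'
  · subst e
    exact ⟨κ, hκ, mem_Dk.2 ⟨hu, x, hx, y, hy, hne, a, b⟩⟩
  · exact absurd (S.d1 κ hκ κ' hκ' e u hu x hx y hy a b) hne

theorem Dk_tg (S : DS E t σ m C col Cls s A X) {κ : V} {u : ι} (hκ : κ ∈ Cls)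
    (ht : Tg σ m C κ) : u ∉ Dk σ m C (A κ) := fun hu => by
  obtain ⟨-, x1, -, x2, -, hne, b1, b2⟩ := mem_Dk.1 hu
  exact hne (((S.d2 κ hκ ht x1).1 b1).trans ((S.d2 κ hκ ht x2).1 b2).symm)

theorem Dk_all {κ : V} {u : ι} (hκ : κ ∈ Cls) (hu : u ∈ Dk σ m C (A κ)) :
    Dbl (line σ m u) (Aall Cls A) :=
  dbl_mono (mem_Dk.1 hu).2 fun _ hv => ⟨κ, hκ, hv⟩

theorem FT (S : DS E t σ m C col Cls s A X) {v : V} (hv : v ∈ Cls) (ht : Tg σ m C v) :
    v ∈ GG σ m C (Aall Cls A) := by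
  have hA : v ∈ A v := (S.d2 v hv ht v).2 rfl
  obtain ⟨u, hu, hl⟩ := ht
  refine mem_GG.2 ⟨⟨v, hv, hA⟩, u, mem_ND.2 ⟨hu, fun hd => ?_⟩, hl⟩
  obtain ⟨κ, hκ, hk⟩ := DA S hu hd
  have := DB S hκ hv hk hl hA
  subst this
  exact Dk_tg S hv ⟨u, hu, hl⟩ hk

theorem X_nt (h : St E t σ m ∅) (S : DS E t σ m C col Cls s A X) {κ x : V} (hκ : κ ∈ Cls)
    (hx : x ∈ X κ) (i : ι) : x ≠ t i := by
  rcases S.d4 κ hκ x hx with h1 | ⟨u, -, h1⟩
  · exact h.nt_of_not_on h1 i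
  · exact h.btw_nt h1 i

/-- the conclusion of `St.gates` -/
def Gt (σ : ι → List V) (m : ι → ι) (B : Set V) (pre mid : ι → List V) (gate : ι → V) : Prop :=
  ∀ u, (∃ g ∈ line σ m u, g ∈ B) → gate u ∈ B ∧ (∀ v ∈ pre u, v ∉ B) ∧
    (Dbl (line σ m u) B →
      line σ m u = pre u ++ gate u :: (mid u ++ gate (m u) :: (pre (m u)).reverse) ∧
        mid (m u) = (mid u).reverse) ∧
    (¬ Dbl (line σ m u) B →
      line σ m u = pre u ++ gate u :: (pre (m u)).reverse ∧ gate (m u) = gate u)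

variable {pre mid : ι → List V} {gate : ι → V}

theorem shape (S : DS E t σ m C col Cls s A X) (hg : Gt σ m (Aall Cls A) pre mid gate) {κ : V}
    {u : ι} (hκ : κ ∈ Cls) (hu : u ∈ Dk σ m C (A κ)) :
    line σ m u = pre u ++ gate u :: (mid u ++ gate (m u) :: (pre (m u)).reverse) ∧
      mid (m u) = (mid u).reverse ∧ gate u ∈ A κ ∧ gate u ∈ line σ m u ∧
      ∀ v ∈ pre u, v ∉ Aall Cls A := by
  have hd := Dk_all hκ hu
  obtain ⟨g1, g2, g3, -⟩ := hg u (by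
    obtain ⟨x, hx, -, -, -, a, -⟩ := hd
    exact ⟨x, hx, a⟩)
  obtain ⟨e1, e2⟩ := g3 hd
  have hl : gate u ∈ line σ m u := by rw [e1]; simp
  obtain ⟨κ', hκ', g1⟩ := g1
  have := DB S hκ hκ' hu hl g1
  subst this
  exact ⟨e1, e2, g1, hl, g2⟩

theorem mid_X (hm : Pr m) (hCm : ∀ u, m u ∈ C → u ∈ C) (S : DS E t σ m C col Cls s A X)
    (hg : Gt σ m (Aall Cls A) pre mid gate) {κ x : V} {u : ι} (hκ : κ ∈ Cls)
    (hu : u ∈ Dk σ m C (A κ)) (hx : x ∈ mid u) : x ∈ X κ := by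
  obtain ⟨e1, -, g1, -, -⟩ := shape S hg hκ hu
  obtain ⟨-, -, g2, -, -⟩ := shape S hg hκ (Dk_m hm hCm hu)
  refine S.d4' κ hκ x u (mem_Dk.1 hu).1 ?_
  rw [e1]
  exact btw_of_mid g1 g2 hx

theorem FR (hm : Pr m) (hCm : ∀ u, m u ∈ C → u ∈ C) (S : DS E t σ m C col Cls s A X)
    (hg : Gt σ m (Aall Cls A) pre mid gate) {κ v : V} (hκ : κ ∈ Cls) (hv : v ∈ A κ)
    (ht : Tg σ m C v) :
    v ∈ X κ ∨ v ∈ GG σ m C (Aall Cls A) ∨ ∃ u ∈ Dk σ m C (A κ), v = gate u := by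
  obtain ⟨u, hu, hl⟩ := ht
  by_cases hd : Dbl (line σ m u) (Aall Cls A)
  · obtain ⟨κ', hκ', hk⟩ := DA S hu hd
    have := DB S hκ' hκ hk hl hv
    subst this
    obtain ⟨e1, -, -, -, g1⟩ := shape S hg hκ hk
    obtain ⟨-, -, -, -, g2⟩ := shape S hg hκ (Dk_m hm hCm hk)
    rw [e1] at hl
    simp only [List.mem_append, List.mem_cons, List.mem_reverse] at hl
    rcases hl with hl | hl | hl | hl | hl
    · exact absurd ⟨κ, hκ, hv⟩ (g1 v hl)
    · exact Or.inr (Or.inr ⟨u, hk, hl⟩)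
    · exact Or.inl (mid_X hm hCm S hg hκ hk hl)
    · exact Or.inr (Or.inr ⟨m u, Dk_m hm hCm hk, hl⟩)
    · exact absurd ⟨κ, hκ, hv⟩ (g2 v hl)
  · exact Or.inr (Or.inl (mem_GG.2 ⟨⟨κ, hκ, hv⟩, u, mem_ND.2 ⟨hu, hd⟩, hl⟩))

theorem X_on (h : St E t σ m ∅) (hCm : ∀ u, m u ∈ C → u ∈ C) (S : DS E t σ m C col Cls s A X)
    (hg : Gt σ m (Aall Cls A) pre mid gate) {κ x : V} {u : ι} (hκ : κ ∈ Cls) (hx : x ∈ X κ)
    (hl : x ∈ line σ m u) : u ∈ Dk σ m C (A κ) ∧ x ∈ mid u := by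
  rcases S.d4 κ hκ x hx with h1 | ⟨u', hu', h1⟩
  · exact absurd (On.of_line hl) h1
  have h2 : u' ∈ Dk σ m C (A κ) := mem_Dk.2 ⟨hu', h1.dbl (h.line_nodup u')⟩
  have h3 : u ∈ Dk σ m C (A κ) ∧ Btw (line σ m u) (A κ) x := by
    rcases h.line_disj h1.mem hl with rfl | rfl
    · exact ⟨h2, h1⟩
    · exact ⟨Dk_m h.hm hCm h2, by rw [line_rev h.hm]; exact h1.rev⟩
  obtain ⟨e1, -, -, -, g1⟩ := shape S hg hκ h3.1
  obtain ⟨-, -, -, -, g2⟩ := shape S hg hκ (Dk_m h.hm hCm h3.1)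
  refine ⟨h3.1, btw_mid (A := A κ) (e1 ▸ h.line_nodup u) (fun v hv hA => g1 v hv ⟨κ, hκ, hA⟩)
    (fun v hv hA => g2 v (List.mem_reverse.1 hv) ⟨κ, hκ, hA⟩) (e1 ▸ h3.2)⟩

theorem NBX (hm : Pr m) (hCm : ∀ u, m u ∈ C → u ∈ C) (S : DS E t σ m C col Cls s A X)
    (hg : Gt σ m (Aall Cls A) pre mid gate) {κ x v : V} (hκ : κ ∈ Cls) (ht : ¬ Tg σ m C κ)
    (hx : x ∈ X κ) (e : E x v) : Nd t σ m C col Cls s v κ ∨
      v ∈ X κ ∨ v ∈ GG σ m C (Aall Cls A) ∨ ∃ u ∈ Dk σ m C (A κ), v = gate u := by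
  rcases S.d3 κ hκ ht x hx v e with h1 | h1 | h1
  · exact Or.inr (Or.inl h1)
  · exact Or.inr (FR hm hCm S hg hκ h1.1 h1.2)
  · exact Or.inl h1

theorem nd_cases {v κ : V} (h : Nd t σ m C col Cls s v κ) :
    (∃ d ∈ C, v = t d) ∨ Ordi σ m C Cls s v := by
  rcases h with ⟨d, hd, -, e⟩ | ⟨h1, rfl⟩
  · exact Or.inl ⟨d, hd, e⟩
  · exact Or.inr h1

theorem NB (hm : Pr m) (hCm : ∀ u, m u ∈ C → u ∈ C) (S : DS E t σ m C col Cls s A X)
    (hg : Gt σ m (Aall Cls A) pre mid gate) {κ x v : V} (hκ : κ ∈ Cls) (ht : ¬ Tg σ m C κ)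
    (hx : x ∈ X κ ∨ Nd t σ m C col Cls s x κ) (e : E x v) :
    (∃ d ∈ C, v = t d) ∨ Ordi σ m C Cls s v ∨
      v ∈ X κ ∨ v ∈ GG σ m C (Aall Cls A) ∨ ∃ u ∈ Dk σ m C (A κ), v = gate u := by
  rcases hx with hx | hx
  · rcases NBX hm hCm S hg hκ ht hx e with h1 | h1
    · exact or_assoc.1 (Or.inl (nd_cases h1))
    · exact Or.inr (Or.inr h1)
  · rcases S.d5 x κ hx v e with ⟨κ', h1⟩ | h1 | h1 | h1
    · exact or_assoc.1 (Or.inl (nd_cases h1))
    · exact Or.inr (Or.inr (Or.inl h1))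
    · exact Or.inr (Or.inr (FR hm hCm S hg hκ h1.1 h1.2))
    · exact Or.inr (Or.inr (Or.inr (Or.inl (FT S h1.1 h1.2))))

/-- ordinary classes with a double line -/
noncomputable def WW (σ : ι → List V) (m : ι → ι) (C : Finset ι) (Cls : Set V) (s : Bool → V)
    (A : V → Set V) : Finset V :=
  Finset.univ.filter fun w => Ordi σ m C Cls s w ∧ (Dk σ m C (A w)).Nonempty

theorem mem_WW {w : V} :
    w ∈ WW σ m C Cls s A ↔ Ordi σ m C Cls s w ∧ (Dk σ m C (A w)).Nonempty := by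
  simp only [WW, Finset.mem_filter, Finset.mem_univ, true_and]

/-- double lines of ordinary classes -/
noncomputable def Do (σ : ι → List V) (m : ι → ι) (C : Finset ι) (Cls : Set V) (s : Bool → V)
    (A : V → Set V) : Finset ι :=
  Finset.univ.filter fun u => ∃ w ∈ WW σ m C Cls s A, u ∈ Dk σ m C (A w)

theorem mem_Do {u : ι} :
    u ∈ Do σ m C Cls s A ↔ ∃ w ∈ WW σ m C Cls s A, u ∈ Dk σ m C (A w) := by
  simp only [Do, Finset.mem_filter, Finset.mem_univ, true_and]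

theorem WW_card (hm : Pr m) (hCm : ∀ u, m u ∈ C → u ∈ C) (S : DS E t σ m C col Cls s A X) :
    2 * (WW σ m C Cls s A).card ≤ (Do σ m C Cls s A).card := by
  refine pairs_count hm _ (fun i hi => ?_) _ (fun w i => i ∈ Dk σ m C (A w)) ?_ ?_
  · obtain ⟨w, hw, hi⟩ := mem_Do.1 hi
    exact mem_Do.2 ⟨w, hw, Dk_m hm hCm hi⟩
  · intro w hw
    obtain ⟨u, hu⟩ := (mem_WW.1 hw).2
    exact ⟨u, mem_Do.2 ⟨w, hw, hu⟩, hu, Dk_m hm hCm hu⟩
  · intro g hg g' hg' i _ a b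
    exact DB' S (mem_WW.1 hg').1.1 (mem_WW.1 hg).1.1 b a

theorem WW_card' (hm : Pr m) (hCm : ∀ u, m u ∈ C → u ∈ C) (S : DS E t σ m C col Cls s A X)
    {w : V} (hw : w ∈ WW σ m C Cls s A) :
    (Dk σ m C (A w)).card + 2 * (WW σ m C Cls s A).card ≤ (Do σ m C Cls s A).card + 2 := by
  have h1 : 2 * ((WW σ m C Cls s A).erase w).card ≤
      (Do σ m C Cls s A \ Dk σ m C (A w)).card := by
    refine pairs_count hm _ (fun i hi => ?_) _ (fun w i => i ∈ Dk σ m C (A w)) ?_ ?_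
    · obtain ⟨h1, h2⟩ := Finset.mem_sdiff.1 hi
      obtain ⟨w', hw', hi⟩ := mem_Do.1 h1
      refine Finset.mem_sdiff.2 ⟨mem_Do.2 ⟨w', hw', Dk_m hm hCm hi⟩, fun e => h2 ?_⟩
      have := Dk_m hm hCm e
      rwa [hm.inv] at this
    · intro w' hw'
      obtain ⟨hne, hw'⟩ := Finset.mem_erase.1 hw'
      obtain ⟨u, hu⟩ := (mem_WW.1 hw').2
      exact ⟨u, Finset.mem_sdiff.2 ⟨mem_Do.2 ⟨w', hw', hu⟩, fun e =>
        hne (DB' S (mem_WW.1 hw).1.1 (mem_WW.1 hw').1.1 e hu)⟩, hu, Dk_m hm hCm hu⟩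
    · intro g hg g' hg' i _ a b
      exact DB' S (mem_WW.1 (Finset.mem_of_mem_erase hg')).1.1
        (mem_WW.1 (Finset.mem_of_mem_erase hg)).1.1 b a
  have h2 : Dk σ m C (A w) ⊆ Do σ m C Cls s A := fun u hu => mem_Do.2 ⟨w, hw, hu⟩
  have h3 := Finset.card_sdiff_add_card_eq_card h2
  have h4 := Finset.card_erase_add_one hw
  omega

theorem part_card (S : DS E t σ m C col Cls s A X) :
    (Dk σ m C (A (s false))).card + (Dk σ m C (A (s true))).card + (Do σ m C Cls s A).card +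
      (ND σ m C (Aall Cls A)).card ≤ Cᶜ.card := by
  have d1 : Disjoint (Dk σ m C (A (s false))) (Dk σ m C (A (s true))) :=
    Finset.disjoint_left.2 fun u a b => S.d0' (DB' S (S.d0 true).1 (S.d0 false).1 b a)
  have d2 : Disjoint (Dk σ m C (A (s false)) ∪ Dk σ m C (A (s true))) (Do σ m C Cls s A) :=
    Finset.disjoint_left.2 fun u a b => by
      obtain ⟨w, hw, b⟩ := mem_Do.1 b
      have ho := (mem_WW.1 hw).1
      rcases Finset.mem_union.1 a with a | a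
      · exact ho.2.2 false (DB' S (S.d0 false).1 ho.1 a b)
      · exact ho.2.2 true (DB' S (S.d0 true).1 ho.1 a b)
  have d3 : Disjoint (Dk σ m C (A (s false)) ∪ Dk σ m C (A (s true)) ∪ Do σ m C Cls s A)
      (ND σ m C (Aall Cls A)) :=
    Finset.disjoint_left.2 fun u a b => by
      apply (mem_ND.1 b).2
      rcases Finset.mem_union.1 a with a | a
      · rcases Finset.mem_union.1 a with a | a
        · exact Dk_all (S.d0 false).1 a
        · exact Dk_all (S.d0 true).1 a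
      · obtain ⟨w, hw, a⟩ := mem_Do.1 a
        exact Dk_all (mem_WW.1 hw).1.1 a
  rw [← Finset.card_union_of_disjoint d1, ← Finset.card_union_of_disjoint d2,
    ← Finset.card_union_of_disjoint d3]
  refine Finset.card_le_card fun u hu => Finset.mem_compl.2 ?_
  simp only [Finset.mem_union] at hu
  rcases hu with ((a | a) | a) | a
  · exact (mem_Dk.1 a).1
  · exact (mem_Dk.1 a).1
  · obtain ⟨w, -, a⟩ := mem_Do.1 a
    exact (mem_Dk.1 a).1
  · exact (mem_ND.1 a).1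

/-- the region of one colour -/
def YY (t : ι → V) (σ : ι → List V) (m : ι → ι) (C : Finset ι) (col : ι → Bool) (Cls : Set V)
    (s : Bool → V) (A X : V → Set V) (b : Bool) : Set V :=
  {v | (∃ d ∈ C, col d = b ∧ v = t d) ∨ v ∈ X (s b) ∨
    ∃ w, Ordi σ m C Cls s w ∧ w ∉ WW σ m C Cls s A ∧ (v = w ∨ v ∈ X w)}

theorem YY_t (hC : Ctx E t l k) (h : St E t σ m ∅) (S : DS E t σ m C col Cls s A X) {b : Bool}
    {i : ι} (hi : t i ∈ YY t σ m C col Cls s A X b) : i ∈ C ∧ col i = b := by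
  rcases hi with ⟨d, hd, e1, e2⟩ | hi | ⟨w, hw, -, hi | hi⟩
  · rw [hC.tinj e2]; exact ⟨hd, e1⟩
  · exact absurd rfl (X_nt h S (S.d0 b).1 hi i)
  · exact absurd hi.symm (S.d6' w hw i)
  · exact absurd rfl (X_nt h S hw.1 hi i)

theorem YY_cl (hC : Ctx E t l k) (h : St E t σ m ∅) (hCm : ∀ u, m u ∈ C → u ∈ C)
    (hCl : ∀ u ∈ C, l u ∈ C) (c1 : ∀ x, col (l x) = !col x)
    (S : DS E t σ m C col Cls s A X) (hg : Gt σ m (Aall Cls A) pre mid gate) {b : Bool} {x v : V}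
    (hx : x ∈ YY t σ m C col Cls s A X b) (e : GA E t l x v) :
    v ∈ YY t σ m C col Cls s A X b ∨ (∃ d ∈ C, col d = !b ∧ v = t d) ∨ v ∈ WW σ m C Cls s A ∨
      v ∈ GG σ m C (Aall Cls A) ∨ ∃ u ∈ Dk σ m C (A (s b)), v = gate u := by
  rcases e with e | ⟨i, rfl, rfl⟩
  swap
  · obtain ⟨h1, h2⟩ := YY_t hC h S hx
    exact Or.inr (Or.inl ⟨l i, hCl i h1, by rw [c1, h2], rfl⟩)
  have k1 : (∃ d ∈ C, v = t d) →
      v ∈ YY t σ m C col Cls s A X b ∨ ∃ d ∈ C, col d = !b ∧ v = t d := by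
    rintro ⟨d, hd, e⟩
    by_cases hb : col d = b
    · exact Or.inl (Or.inl ⟨d, hd, hb, e⟩)
    · exact Or.inr ⟨d, hd, Bool.eq_not_of_ne hb, e⟩
  have k2 : Ordi σ m C Cls s v → v ∈ YY t σ m C col Cls s A X b ∨ v ∈ WW σ m C Cls s A := by
    intro ho
    by_cases hw : v ∈ WW σ m C Cls s A
    · exact Or.inr hw
    · exact Or.inl (Or.inr (Or.inr ⟨v, ho, hw, Or.inl rfl⟩))
  have k3 : x ∈ X (s b) ∨ Nd t σ m C col Cls s x (s b) →
      v ∈ YY t σ m C col Cls s A X b ∨ (∃ d ∈ C, col d = !b ∧ v = t d) ∨ v ∈ WW σ m C Cls s A ∨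
      v ∈ GG σ m C (Aall Cls A) ∨ ∃ u ∈ Dk σ m C (A (s b)), v = gate u := by
    intro hx
    rcases NB h.hm hCm S hg (S.d0 b).1 (S.d0 b).2 hx e with h1 | h1 | h1 | h1
    · exact (k1 h1).imp_right Or.inl
    · exact (k2 h1).imp_right fun a => Or.inr (Or.inl a)
    · exact Or.inl (Or.inr (Or.inl h1))
    · exact Or.inr (Or.inr (Or.inr h1))
  rcases hx with ⟨d, hd, e1, e2⟩ | hx | ⟨w, hw, hw', hx⟩
  · exact k3 (Or.inr (Or.inl ⟨d, hd, by rw [e1], e2⟩))
  · exact k3 (Or.inl hx)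
  · have hx' : x ∈ X w ∨ Nd t σ m C col Cls s x w := hx.symm.imp_right fun a => Or.inr ⟨hw, a⟩
    rcases NB h.hm hCm S hg hw.1 hw.2.1 hx' e with h1 | h1 | h1 | h1 | ⟨u, hu, -⟩
    · exact (k1 h1).imp_right Or.inl
    · exact (k2 h1).imp_right fun a => Or.inr (Or.inl a)
    · exact Or.inl (Or.inr (Or.inr ⟨w, hw, hw', Or.inr h1⟩))
    · exact Or.inr (Or.inr (Or.inr (Or.inl h1)))
    · exact absurd (mem_WW.2 ⟨hw, u, hu⟩) hw'

theorem two_le (hm : Pr m) {I : Finset ι} (hI : ∀ i ∈ I, m i ∈ I) {u : ι} (hu : u ∈ I) :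
    2 ≤ I.card := by
  rw [← Finset.card_pair (hm.fpf u).symm]
  refine Finset.card_le_card fun x hx => ?_
  rcases Finset.mem_insert.1 hx with rfl | hx
  · exact hu
  · rw [Finset.mem_singleton.1 hx]; exact hI u hu

theorem eq_pair (hm : Pr m) {I : Finset ι} (hI : ∀ i ∈ I, m i ∈ I) {u x : ι} (hu : u ∈ I)
    (h2 : I.card ≤ 2) (hx : x ∈ I) : x = u ∨ x = m u := by
  have h1 : ({u, m u} : Finset ι) = I := by
    refine Finset.eq_of_subset_of_card_le (fun x hx => ?_) ?_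
    · rcases Finset.mem_insert.1 hx with rfl | hx
      · exact hu
      · rw [Finset.mem_singleton.1 hx]; exact hI u hu
    · rwa [Finset.card_pair (hm.fpf u).symm]
  rw [← h1] at hx
  simpa using hx

theorem col_card (hl : Pr l) (hCl : ∀ u ∈ C, l u ∈ C) (c1 : ∀ x, col (l x) = !col x) (b : Bool) :
    (C.filter fun d => col d = b).card ≤ (C.filter fun d => col d = !b).card := by
  refine Finset.card_le_card_of_injOn l (fun x hx => ?_) fun x _ y _ e => hl.inj e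
  obtain ⟨h1, h2⟩ := Finset.mem_filter.1 hx
  exact Finset.mem_filter.2 ⟨hCl x h1, by rw [c1, h2]⟩

theorem main (hC : Ctx E t l k) (hM : EMax E t l) (hn : ¬ Sol E t l) (h : St E t σ m ∅)
    (hCC : ∀ x ∈ C, ∀ y, y ∈ C ↔ cc l m ∅ x y) (hc : c ∈ C) (hmin : C.card ≤ Cᶜ.card)
    (c1 : ∀ x, col (l x) = !col x) (c2 : ∀ x, col (m x) = !col x)
    (S : DS E t σ m C col Cls s A X) :
    ∃ k1 k2 Γ M D X' pre mid gate, CS E t l k σ m C col k1 k2 Γ M D X' pre mid gate := by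
  have hm := h.hm
  have hCl : ∀ u ∈ C, l u ∈ C := fun u hu => (hCC u hu _).2 (cc.stl u)
  have hCm : ∀ u, m u ∈ C → u ∈ C := fun u hu => (hCC _ hu _).2 (cc.stm0 u).symm
  obtain ⟨pre, mid, gate, hg⟩ := h.gates (Aall Cls A)
  replace hg : Gt σ m (Aall Cls A) pre mid gate := hg
  obtain ⟨k1, hk1⟩ : ∃ k1, ∀ b, (C.filter fun d => col d = b).card = k1 := by
    refine ⟨(C.filter fun d => col d = false).card, fun b => ?_⟩
    cases b
    · rfl
    · exact le_antisymm (col_card hC.hl hCl c1 true) (col_card hC.hl hCl c1 false)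
  have hCc : C.card = 2 * k1 := by
    have h1 := Finset.card_filter_add_card_filter_not (s := C) (fun d => col d = false)
    have h2 : (C.filter fun d => ¬ col d = false) = C.filter fun d => col d = true := by
      simp
    rw [h2, hk1, hk1] at h1
    omega
  have hNc : C.card + Cᶜ.card = 2 * k := by rw [Finset.card_add_card_compl, hC.card]
  have hex : ∀ b, ∃ d ∈ C, col d = b := fun b => by
    by_cases hb : col c = b
    · exact ⟨c, hc, hb⟩
    · exact ⟨l c, hCl c hc, by rw [c1, Bool.eq_not_of_ne hb, Bool.not_not]⟩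
  have hk1p : 1 ≤ k1 := by
    have := Finset.card_pos.2 ⟨c, hc⟩
    omega
  obtain ⟨k2, hk⟩ : ∃ k2, k = k1 + k2 := ⟨k - k1, by omega⟩
  have hJ : k ≤ Cᶜ.card := by omega
  have hti : ∀ b, ((C.filter fun d => col d = b).image t).card ≤ k1 := fun b =>
    hk1 b ▸ Finset.card_image_le
  have hY : ∀ b, k2 ≤ (WW σ m C Cls s A).card + (GG σ m C (Aall Cls A)).card +
      (Dk σ m C (A (s b))).card := by
    intro b
    obtain ⟨d, hd, hb⟩ := hex b
    have h1 := hC.hkJ (YY t σ m C col Cls s A X b)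
      ((C.filter fun d => col d = !b).image t ∪ WW σ m C Cls s A ∪ GG σ m C (Aall Cls A) ∪
        (Dk σ m C (A (s b))).image gate) (t d) Cᶜ (Or.inl ⟨d, hd, hb, rfl⟩)
      (fun j hj e => Finset.mem_compl.1 hj (YY_t hC h S e).1) hJ (fun x hx v e => by
        simp only [Finset.mem_union, Finset.mem_image, Finset.mem_filter]
        rcases YY_cl hC h hCm hCl c1 S hg hx e with
          h1 | ⟨d, a1, a2, a3⟩ | h1 | h1 | ⟨u, a1, a2⟩
        · exact Or.inl h1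
        · exact Or.inr (Or.inl (Or.inl (Or.inl ⟨d, ⟨a1, a2⟩, a3.symm⟩)))
        · exact Or.inr (Or.inl (Or.inl (Or.inr h1)))
        · exact Or.inr (Or.inl (Or.inr h1))
        · exact Or.inr (Or.inr ⟨u, a1, a2.symm⟩))
    have h2 := h1.trans ((Finset.card_union_le _ _).trans (Nat.add_le_add
      ((Finset.card_union_le _ _).trans (Nat.add_le_add_right (Finset.card_union_le _ _) _))
      Finset.card_image_le))
    have h3 := hti (!b)
    omega
  have hG := GG_card (σ := σ) hm hCm (Aall Cls A)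
  have hW := WW_card hm hCm S
  have hP := part_card S
  have hY0 := hY false
  have hY1 := hY true
  have hδ : ∀ b, (WW σ m C Cls s A).card + (GG σ m C (Aall Cls A)).card +
      (Dk σ m C (A (s b))).card = k2 := by
    intro b; cases b <;> omega
  have hW2 : ∀ w ∈ WW σ m C Cls s A, (Dk σ m C (A w)).card ≤ 2 := fun w hw => by
    have := WW_card' hm hCm S hw
    omega
  have hne : ∀ b, (Dk σ m C (A (s b))).Nonempty := by
    intro b
    by_contra h0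
    have h1 : ∀ b', Dk σ m C (A (s b')) = ∅ := fun b' => by
      rw [Finset.not_nonempty_iff_eq_empty, ← Finset.card_eq_zero] at h0
      have := hδ b
      have := hδ b'
      rw [← Finset.card_eq_zero]
      omega
    have h2 := hC.hkJ {v | ∃ b, v ∈ YY t σ m C col Cls s A X b}
      (WW σ m C Cls s A ∪ GG σ m C (Aall Cls A)) (t c) Cᶜ ⟨col c, Or.inl ⟨c, hc, rfl, rfl⟩⟩
      (fun j hj ⟨_, e⟩ => Finset.mem_compl.1 hj (YY_t hC h S e).1) hJ (fun x ⟨b', hx⟩ v e => by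
        rcases YY_cl hC h hCm hCl c1 S hg hx e with
          h1 | h1 | h1 | h1 | ⟨u, a1, -⟩
        · exact Or.inl ⟨b', h1⟩
        · exact Or.inl ⟨!b', Or.inl h1⟩
        · exact Or.inr (Finset.mem_union_left _ h1)
        · exact Or.inr (Finset.mem_union_right _ h1)
        · rw [h1] at a1; simp at a1)
    have h3 := h2.trans (Finset.card_union_le _ _)
    have := hδ b
    omega
  have hδ2 : 2 ≤ (Dk σ m C (A (s false))).card := by
    obtain ⟨u, hu⟩ := hne false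
    exact two_le hm (fun i hi => Dk_m hm hCm hi) hu
  have hXo : ∀ w, Ordi σ m C Cls s w → ∀ x, x ∉ X w := by
    intro w hw x hx
    have h1 := hC.hk_nt (X w) ({w} ∪ GG σ m C (Aall Cls A) ∪ (Dk σ m C (A w)).image gate) x hx
      (fun y hy => X_nt h S hw.1 hy) (fun y hy v e => by
        simp only [Finset.mem_union, Finset.mem_image, Finset.mem_singleton]
        rcases NBX hm hCm S hg hw.1 hw.2.1 hy e with
          (⟨d, -, a, -⟩ | ⟨-, a⟩) | h1 | h1 | ⟨u, a1, a2⟩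
        · exact absurd a (hw.2.2 _)
        · exact Or.inr (Or.inl (Or.inl a))
        · exact Or.inl h1
        · exact Or.inr (Or.inl (Or.inr h1))
        · exact Or.inr (Or.inr ⟨u, a1, a2.symm⟩))
    have h2 := h1.trans ((Finset.card_union_le _ _).trans (Nat.add_le_add
      (Finset.card_union_le _ _) Finset.card_image_le))
    rw [Finset.card_singleton] at h2
    have h3 := hδ false
    by_cases hw' : w ∈ WW σ m C Cls s A
    · have := hW2 w hw'
      have := Finset.card_pos.2 ⟨w, hw'⟩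
      omega
    · have : (Dk σ m C (A w)).card = 0 := by
        rw [Finset.card_eq_zero, ← Finset.not_nonempty_iff_eq_empty]
        exact fun e => hw' (mem_WW.2 ⟨hw, e⟩)
      omega
  have hs : ∀ b b', s b = s b' → b = b' := by
    intro b b' e
    cases b <;> cases b'
    · rfl
    · exact absurd e S.d0'
    · exact absurd e.symm S.d0'
    · rfl
  let X' : Bool → Finset V := fun b => Finset.univ.filter fun x => x ∈ X (s b)
  have hX' : ∀ b x, x ∈ X' b ↔ x ∈ X (s b) := fun b x => by simp [X']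
  have hO : ∀ v, Ordi σ m C Cls s v → v ∈ {w | Ordi σ m C Cls s w ∧ w ∉ WW σ m C Cls s A} ∨
      v ∈ WW σ m C Cls s A ∪ GG σ m C (Aall Cls A) := fun v hv => by
    by_cases hw : v ∈ WW σ m C Cls s A
    · exact Or.inr (Finset.mem_union_left _ hw)
    · exact Or.inl ⟨hv, hw⟩
  let Z : Bool → Finset V := fun b => (C.filter fun d => col d = b).image t ∪
    GG σ m C (Aall Cls A) ∪ (Dk σ m C (A (s b))).image gate
  have hZ : ∀ b, (Z b).card ≤ k := fun b => by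
    have h2 : (Z b).card ≤ _ := (Finset.card_union_le _ _).trans (Nat.add_le_add
      (Finset.card_union_le _ _) Finset.card_image_le)
    have := hti b
    have := hδ b
    omega
  have hZN : ∀ b, ∀ x ∈ X' b, ∀ v, E x v → v ∈ X' b ∨ v ∈ Z b := fun b x hx v e => by
    simp only [Z, Finset.mem_union, Finset.mem_image, Finset.mem_filter, hX']
    rcases NBX hm hCm S hg (S.d0 b).1 (S.d0 b).2 ((hX' b x).1 hx) e with
      (⟨d, a1, a2, a3⟩ | ⟨a, -⟩) | h1 | h1 | ⟨u, a1, a2⟩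
    · exact Or.inr (Or.inl (Or.inl ⟨d, ⟨a1, (hs _ _ a2).symm⟩, a3.symm⟩))
    · exact absurd rfl (a.2.2 b)
    · exact Or.inl h1
    · exact Or.inr (Or.inl (Or.inr h1))
    · exact Or.inr (Or.inr ⟨u, a1, a2.symm⟩)
  have hXnt : ∀ b, ∀ x ∈ X' b, ∀ i, x ≠ t i := fun b x hx =>
    X_nt h S (S.d0 b).1 ((hX' b x).1 hx)
  refine ⟨k1, k2, WW σ m C Cls s A ∪ GG σ m C (Aall Cls A),
    {w | Ordi σ m C Cls s w ∧ w ∉ WW σ m C Cls s A}, fun b => Dk σ m C (A (s b)), X', pre, mid,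
    gate, h, hCC, c1, c2, hk, hk1, fun b u hu => (mem_Dk.1 hu).1, fun b u hu => Dk_m hm hCm hu,
    fun b u hu hu' => ?_, hne, fun b => ?_, fun b => ?_, fun b u hu => ?_,
    fun b x hx u hu => X_on h hCm S hg (S.d0 b).1 ((hX' b x).1 hx) hu, fun b x hx => ?_, hXnt,
    fun w hw => S.d6' w hw.1, fun w hw u hu => ?_, fun w hw v e => ?_, fun d hd v e => ?_,
    fun b x hx => ⟨fun d hd hb => ?_, fun u hu => ?_⟩,
    fun b hb => lemI_two hC (X' b) (Z b) (hXnt b) (hZ b) (hZN b) hb, fun b hb u hu => ?_,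
    fun d hd n hn hnt => ?_⟩
  · have := hs _ _ (DB' S (S.d0 b).1 (S.d0 (!b)).1 hu hu')
    simp at this
  · have := hδ b
    have := hδ (!b)
    omega
  · have := hδ b
    have := Finset.card_union_le (WW σ m C Cls s A) (GG σ m C (Aall Cls A))
    omega
  · obtain ⟨e1, e2, -⟩ := shape S hg (S.d0 b).1 hu
    exact ⟨e1, fun x hx => (hX' b x).2 (mid_X hm hCm S hg (S.d0 b).1 hu hx), e2⟩
  · rw [hX'] at hx
    refine ⟨fun e => S.d7 _ (S.d0 b).1 _ (S.d0 (!b)).1 (fun e => ?_) x hx ((hX' _ x).1 e),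
      fun e => S.d7' _ (S.d0 b).1 x e.1 hx⟩
    have := hs _ _ e
    simp at this
  · by_contra e
    exact hw.1.2.1 ⟨u, e, hu⟩
  · rcases NB hm hCm S hg hw.1.1 hw.1.2.1 (Or.inr (Or.inr ⟨hw.1, rfl⟩)) e with
      h1 | h1 | h1 | h1 | ⟨u, hu, -⟩
    · exact Or.inr (Or.inr h1)
    · exact (hO v h1).imp_right Or.inl
    · exact absurd h1 (hXo w hw.1 v)
    · exact Or.inr (Or.inl (Finset.mem_union_right _ h1))
    · exact absurd (mem_WW.2 ⟨hw.1, u, hu⟩) hw.2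
  · rcases NB hm hCm S hg (S.d0 (col d)).1 (S.d0 (col d)).2
      (Or.inr (Or.inl ⟨d, hd, rfl, rfl⟩)) e with h1 | h1 | h1 | h1 | h1
    · exact Or.inr (Or.inr (Or.inl h1))
    · exact (hO v h1).imp_right Or.inl
    · exact Or.inr (Or.inr (Or.inr (Or.inl ((hX' _ v).2 h1))))
    · exact Or.inr (Or.inl (Finset.mem_union_right _ h1))
    · exact Or.inr (Or.inr (Or.inr (Or.inr h1)))
  · refine lemI_nt hC hM hn (X' b) (Z b) (hXnt b) (hZ b) (hZN b) hx (Or.inr ?_) (hXnt b x hx d)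
    exact Finset.mem_union_left _ (Finset.mem_union_left _
      (Finset.mem_image_of_mem _ (Finset.mem_filter.2 ⟨hd, hb⟩)))
  · refine lemI_nt hC hM hn (X' b) (Z b) (hXnt b) (hZ b) (hZN b) hx
      (Or.inr (Finset.mem_union_right _ (Finset.mem_image_of_mem _ hu))) ?_
    rintro rfl
    obtain ⟨e1, -, -, g1, -⟩ := shape S hg (S.d0 b).1 hu
    have h1 := (X_on h hCm S hg (S.d0 b).1 ((hX' b _).1 hx) g1).2
    have h2 := h.line_nodup u
    rw [e1, List.nodup_append] at h2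
    exact (List.nodup_cons.1 h2.2.1).1 (List.mem_append_left _ h1)
  · obtain ⟨-, -, g1, g2, -⟩ := shape S hg (S.d0 b).1 hu
    refine S.d8 b (fun x hx => ?_) _ g1 ⟨u, (mem_Dk.1 hu).1, g2⟩
    have := (hX' b x).2 hx
    rw [hb] at this
    simp at this
  · have ho := S.d6 d hd n hn hnt
    by_cases hw : n ∈ WW σ m C Cls s A
    swap
    · exact Or.inl ⟨ho, hw⟩
    obtain ⟨u, hu⟩ := (mem_WW.1 hw).2
    refine Or.inr ⟨Finset.mem_union_left _ hw, gate u, gate (m u), fun v e => ?_⟩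
    rcases NB hm hCm S hg ho.1 ho.2.1 (Or.inr (Or.inr ⟨ho, rfl⟩)) e with
      h1 | h1 | h1 | h1 | ⟨u', hu', h1⟩
    · exact Or.inr (Or.inr (Or.inl h1))
    · exact (hO v h1).imp_right Or.inl
    · exact absurd h1 (hXo n ho v)
    · exact Or.inr (Or.inl (Finset.mem_union_right _ h1))
    · refine Or.inr (Or.inr (Or.inr ?_))
      rcases eq_pair hm (fun i hi => Dk_m hm hCm hi) hu (hW2 n hw) hu' with rfl | rfl
      · exact Or.inl h1
      · exact Or.inr h1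

end CSx

/-- Sketch. `C = cl l m ∅ c`, `N` its complement, `k1` the number of indices of `C` of one colour
(`l` swaps the colours), `|C| = 2 k1`, `|N| = 2 k2`, `k = k1 + k2`, `1 ≤ k1 ≤ k2` (`hmin`, `hp`).
Let `Aall` be the union of `A κ`, `κ ∈ Cls`, and take `St.gates` for it. `Dk κ` is the set of
`u ∈ N` with `Dbl (line u) (A κ)`; on such a line all members of `Aall` are in `A κ` and in no
other class (`d1`). `ND` is the set of `u ∈ N` with `¬ Dbl (line u) Aall`, `G` the members of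
`Aall` on these lines, `W` the ordinary `w` with `Dk w` nonempty, `Do` the union of their `Dk w`.
`N` is the disjoint union of `Dk (s false)`, `Dk (s true)`, `Do`, `ND` (target classes have no
double line by `d2`). `pairs_count` gives `2 |G| ≤ |ND|`, `2 |W| ≤ |Do|` and
`|Dk w| + 2 (|W| - 1) ≤ |Do|` for `w ∈ W`. Fact FR: `v ∈ A κ` on a target line is in `X κ`, in
`G`, or is `gate u` with `u ∈ Dk κ`. The region `Y b` made of the ends of colour `b`, `X (s b)`,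
and all `w`, `X w` for ordinary `w ∉ W` has its neighbours in itself or in
`{ends of colour !b} ∪ W ∪ G ∪ gate (Dk (s b))` (`d3`, `d5`, `d2`, FR); `Ctx.hkJ` gives
`k2 ≤ |W| + |G| + |Dk (s b)|`. Hence the two `Dk (s b)` have the same size `δ`,
`|W| + |G| + δ ≤ k2`, `|Do| ≤ 2 |W|`, `|Dk w| ≤ 2`. If `δ = 0`, `Y false ∪ Y true` has the
separator `W ∪ G` of size `≤ k2 < k` (`J = N`). So `δ ≥ 2`. For ordinary `w`, `X w` is empty
(`Ctx.hk_nt` with `{w} ∪ G ∪ gate (Dk w)`). Take `Γ = W ∪ G`, `M` the ordinary `w ∉ W`,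
`D b = Dk (s b)`, `X' b = X (s b)`. `Xc`, `X2` come from `lemI_nt`, `lemI_two` with
`Z = {ends of colour b} ∪ G ∪ gate (D b)`; `Xon`, `dbl` from `btw_mid`, `btw_of_mid`. -/
theorem cs_exists (hC : Ctx E t l k) (hM : EMax E t l) (hn : ¬ Sol E t l) (h : St E t σ m ∅)
    (hmin : ∀ x, (cl l m ∅ c).card ≤ (cl l m ∅ x).card) (hp : ∃ p, ¬ cc l m ∅ c p)
    (c1 : ∀ x, col (l x) = !col x) (c2 : ∀ x, col (m x) = !col x)
    {Cls : Set V} {s : Bool → V} {A X : V → Set V}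
    (S : DS E t σ m (cl l m ∅ c) col Cls s A X) :
    ∃ k1 k2 Γ M D X' pre mid gate,
      CS E t l k σ m (cl l m ∅ c) col k1 k2 Γ M D X' pre mid gate := by
  refine CSx.main (c := c) hC hM hn h (fun x hx y => ?_) (mem_cl.2 (cc.refl c)) ?_ c1 c2 S
  · rw [mem_cl] at hx ⊢
    exact ⟨fun a => hx.symm.trans a, fun a => hx.trans a⟩
  · obtain ⟨p, hp⟩ := hp
    refine (hmin p).trans (Finset.card_le_card fun y hy => Finset.mem_compl.2 fun e => hp ?_)
    exact (mem_cl.1 e).trans (mem_cl.1 hy).symm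

end Pool.Agent.P.MP_4197d5_co
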