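import Pool.Agent.P.MP_4197d5_co.Reach

/-! Shapes of lines, counting of frontier vertices, separators. -/

namespace Pool.Agent.P.MP_4197d5_co

open Classical

set_option linter.unusedSectionVars false

variable {V ι : Type} {E : V → V → Prop} {t : ι → V} {l : ι → ι} {σ : ι → List V} {m : ι → ι}
  {U : Finset ι} {k : ℕ}

/-- first member of `A` on a list -/
theorem first_split (A : Set V) (L : List V) (h : ∃ g ∈ L, g ∈ A) :
    ∃ p g r, L = p ++ g :: r ∧ g ∈ A ∧ ∀ v ∈ p, v ∉ A := by
  induction L with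
  | nil => simp at h
  | cons a L ih =>
    by_cases ha : a ∈ A
    · exact ⟨[], a, L, rfl, ha, by simp⟩
    · obtain ⟨g, hg, hgA⟩ := h
      rcases List.mem_cons.1 hg with rfl | hg
      · exact absurd hgA ha
      obtain ⟨p, g', r, e, h1, h2⟩ := ih ⟨g, hg, hgA⟩
      refine ⟨a :: p, g', r, by rw [e]; rfl, h1, fun v hv => ?_⟩
      rcases List.mem_cons.1 hv with rfl | hv
      · exact ha
      · exact h2 v hv

/-- first and last member of `A` on a list -/
theorem two_split {A : Set V} {p r q s : List V} {f g : V} (e : p ++ f :: r = q ++ g :: s)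
    (hg : g ∈ A) (hp : ∀ v ∈ p, v ∉ A) :
    (g = f ∧ r = s) ∨ ∃ md, r = md ++ g :: s := by
  rcases List.append_eq_append_iff.1 e with ⟨a, -, e'⟩ | ⟨c, e1, e'⟩
  · rcases a with _ | ⟨x, a⟩
    · simp only [List.nil_append, List.cons.injEq] at e'
      exact Or.inl ⟨e'.1.symm, e'.2⟩
    · simp only [List.cons_append, List.cons.injEq] at e'
      exact Or.inr ⟨a, e'.2⟩
  · rcases c with _ | ⟨x, c⟩
    · simp only [List.nil_append, List.cons.injEq] at e'
      exact Or.inl ⟨e'.1, e'.2.symm⟩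
    · simp only [List.cons_append, List.cons.injEq] at e'
      exact absurd hg (hp g (by rw [e1, e'.1]; simp))

/-- Gates of the lines with respect to a set `A`: `pre u` is the part before the first member
`gate u` of `A` (use `takeWhile`, `dropWhile` on `line σ m u`, and `line_rev`). -/
theorem St.gates (h : St E t σ m U) (A : Set V) :
    ∃ (pre mid : ι → List V) (gate : ι → V), ∀ u, (∃ g ∈ line σ m u, g ∈ A) →
      gate u ∈ A ∧ (∀ v ∈ pre u, v ∉ A) ∧
      (Dbl (line σ m u) A →
        line σ m u = pre u ++ gate u :: (mid u ++ gate (m u) :: (pre (m u)).reverse) ∧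
          mid (m u) = (mid u).reverse) ∧
      (¬ Dbl (line σ m u) A →
        line σ m u = pre u ++ gate u :: (pre (m u)).reverse ∧ gate (m u) = gate u) := by
  have h1 : ∀ u, ∃ (p : List V) (g : V) (r : List V), (∃ g ∈ line σ m u, g ∈ A) →
      line σ m u = p ++ g :: r ∧ g ∈ A ∧ ∀ v ∈ p, v ∉ A := by
    intro u
    by_cases hu : ∃ g ∈ line σ m u, g ∈ A
    · obtain ⟨p, g, r, h⟩ := first_split A _ hu
      exact ⟨p, g, r, fun _ => h⟩
    · exact ⟨[], t u, [], fun h => absurd h hu⟩
  choose pre gate rest H using h1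
  have hm : ∀ u, (∃ g ∈ line σ m u, g ∈ A) → ∃ g ∈ line σ m (m u), g ∈ A := by
    rintro u ⟨g, hg, hA⟩
    exact ⟨g, (mem_line_m h.hm).2 hg, hA⟩
  have h2 : ∀ u, (∃ g ∈ line σ m u, g ∈ A) →
      (gate (m u) = gate u ∧ rest u = (pre (m u)).reverse) ∨
        ∃ md, rest u = md ++ gate (m u) :: (pre (m u)).reverse := by
    intro u hu
    obtain ⟨e1, -, a2⟩ := H u hu
    obtain ⟨e2, b1, -⟩ := H (m u) (hm u hu)
    have e3 : line σ m u = (rest (m u)).reverse ++ gate (m u) :: (pre (m u)).reverse := by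
      rw [← List.reverse_reverse (line σ m u), ← line_rev h.hm, e2]; simp
    exact two_split (e1.symm.trans e3) b1 a2
  have h3 : ∀ u, ∃ md : List V, (∃ g ∈ line σ m u, g ∈ A) → Dbl (line σ m u) A →
      line σ m u = pre u ++ gate u :: (md ++ gate (m u) :: (pre (m u)).reverse) := by
    intro u
    by_cases hu : ∃ g ∈ line σ m u, g ∈ A
    swap
    · exact ⟨[], fun h => absurd h hu⟩
    obtain ⟨e1, -, a2⟩ := H u hu
    obtain ⟨-, -, b2⟩ := H (m u) (hm u hu)
    rcases h2 u hu with ⟨-, e4⟩ | ⟨md, e4⟩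
    · refine ⟨[], fun _ hd => ?_⟩
      obtain ⟨x, hx, y, hy, hxy, hxA, hyA⟩ := hd
      have k : ∀ z ∈ line σ m u, z ∈ A → z = gate u := by
        intro z hz hzA
        rw [e1, e4] at hz
        simp only [List.mem_append, List.mem_cons, List.mem_reverse] at hz
        rcases hz with hz | hz | hz
        · exact absurd hzA (a2 z hz)
        · exact hz
        · exact absurd hzA (b2 z hz)
      exact absurd ((k x hx hxA).trans (k y hy hyA).symm) hxy
    · exact ⟨md, fun _ _ => by rw [← e4]; exact e1⟩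
  choose mid H3 using h3
  refine ⟨pre, mid, gate, fun u hu => ⟨(H u hu).2.1, (H u hu).2.2, fun hd => ⟨H3 u hu hd, ?_⟩,
    fun hd => ?_⟩⟩
  · have hd' : Dbl (line σ m (m u)) A := by
      obtain ⟨x, hx, y, hy, r⟩ := hd
      exact ⟨x, (mem_line_m h.hm).2 hx, y, (mem_line_m h.hm).2 hy, r⟩
    have e1 := H3 u hu hd
    have e2 := H3 (m u) (hm u hu) hd'
    rw [line_rev h.hm, e1, h.hm.inv] at e2
    simp only [List.reverse_append, List.reverse_cons, List.reverse_reverse, List.append_assoc,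
      List.cons_append, List.nil_append] at e2
    have e3 := List.append_cancel_left e2
    simp only [List.cons.injEq, true_and] at e3
    exact (List.append_cancel_right e3).symm
  · obtain ⟨e1, a1, -⟩ := H u hu
    obtain ⟨-, b1, -⟩ := H (m u) (hm u hu)
    rcases h2 u hu with ⟨e3, e4⟩ | ⟨md, e4⟩
    · exact ⟨by rw [← e4]; exact e1, e3⟩
    · exfalso
      apply hd
      have hn := h.line_nodup u
      rw [e1, e4] at hn
      refine ⟨gate u, by rw [e1]; simp, gate (m u), by rw [e1, e4]; simp, fun e => ?_, a1, b1⟩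
      have := (List.nodup_cons.1 (List.nodup_append.1 hn).2.1).1
      exact this (by rw [e]; simp)

theorem btw_of_mid {p md s : List V} {f g v : V} {A : Set V} (hf : f ∈ A) (hg : g ∈ A)
    (hv : v ∈ md) : Btw (p ++ f :: (md ++ g :: s)) A v := by
  obtain ⟨a, b, rfl⟩ := List.append_of_mem hv
  exact ⟨p ++ f :: a, b ++ g :: s, by simp, ⟨f, by simp, hf⟩, ⟨g, by simp, hg⟩⟩

/-- a vertex between two members of `A` is not in the outer parts -/
theorem btw_mid {p md s : List V} {f g v : V} {A : Set V}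
    (hn : (p ++ f :: (md ++ g :: s)).Nodup) (hp : ∀ v ∈ p, v ∉ A) (hs : ∀ v ∈ s, v ∉ A)
    (h : Btw (p ++ f :: (md ++ g :: s)) A v) : v ∈ md := by
  have _ := hn
  obtain ⟨l1, l2, e, ⟨f1, a1, -⟩, ⟨f2, b1, b2⟩⟩ := h.of_append hp
  obtain ⟨x, l1, rfl⟩ := List.exists_cons_of_ne_nil (List.ne_nil_of_mem a1)
  simp only [List.cons_append, List.cons.injEq] at e
  rcases List.append_eq_append_iff.1 e.2 with ⟨a, -, e'⟩ | ⟨c, e1, e'⟩
  · rcases a with _ | ⟨y, a⟩
    · simp only [List.nil_append, List.cons.injEq] at e'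
      exact absurd b2 (hs f2 (e'.2 ▸ b1))
    · simp only [List.cons_append, List.cons.injEq] at e'
      exact absurd b2 (hs f2 (by rw [e'.2]; simp [b1]))
  · rcases c with _ | ⟨y, c⟩
    · simp only [List.nil_append, List.cons.injEq] at e'
      exact absurd b2 (hs f2 (e'.2 ▸ b1))
    · simp only [List.cons_append, List.cons.injEq] at e'
      rw [e1, e'.1]; simp

/-- Counting of frontier vertices of two sets that do not meet. Sketch: weight `w c u = 2, 1, 0`
when `line u` has at least two, one, no members of `A c`; `2 * |F c| ≤ ∑ u ∈ N, w c u` (frontier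
vertices of double lines are gates, those of single lines are counted by `pairs_count`), and
`w false u + w true u ≤ 2`. -/
theorem St.fr_count (h : St E t σ m U) (N : Finset ι) (hNm : ∀ u ∈ N, m u ∈ N)
    (A : Bool → Set V) (F : Bool → Finset V)
    (hF : ∀ c, ∀ v ∈ F c, v ∈ A c ∧ ∃ u ∈ N, v ∈ line σ m u ∧ ¬ Btw (line σ m u) (A c) v)
    (nm : ∀ u ∈ N, ∀ x ∈ line σ m u, ∀ y ∈ line σ m u, x ∈ A false → y ∈ A true → x = y) :
    (F false).card + (F true).card ≤ N.card ∧
      (N.card ≤ (F false).card + (F true).card → ∀ u ∈ N, Dbl (line σ m u) (A false) ∨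
        Dbl (line σ m u) (A true) ∨ ∃ g ∈ line σ m u, g ∈ A false ∧ g ∈ A true) := by
  let w : Bool → ι → ℕ := fun c u =>
    if Dbl (line σ m u) (A c) then 2 else if ∃ g ∈ line σ m u, g ∈ A c then 1 else 0
  have k1 : ∀ c, 2 * (F c).card ≤ ∑ u ∈ N, w c u := by
    intro c
    obtain ⟨pre, mid, gate, G⟩ := h.gates (A c)
    let r : V → ι → Prop := fun v u => v ∈ line σ m u ∧ ¬ Btw (line σ m u) (A c) v
    have e := Finset.sum_card_bipartiteAbove_eq_sum_card_bipartiteBelow (s := F c) (t := N) r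
    calc 2 * (F c).card = ∑ _v ∈ F c, 2 := by simp [mul_comm]
      _ ≤ ∑ v ∈ F c, (N.bipartiteAbove r v).card := by
        refine Finset.sum_le_sum fun v hv => ?_
        obtain ⟨-, u, hu, h1, h2⟩ := hF c v hv
        rw [← Finset.card_pair (h.hm.fpf u).symm]
        refine Finset.card_le_card fun x hx => ?_
        rw [Finset.mem_bipartiteAbove]
        rcases Finset.mem_insert.1 hx with rfl | hx
        · exact ⟨hu, h1, h2⟩
        · rw [Finset.mem_singleton.1 hx]
          refine ⟨hNm u hu, (mem_line_m h.hm).2 h1, fun hb => h2 ?_⟩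
          have := hb.rev
          rwa [line_rev h.hm, List.reverse_reverse] at this
      _ = ∑ u ∈ N, ((F c).bipartiteBelow r u).card := e
      _ ≤ ∑ u ∈ N, w c u := by
        refine Finset.sum_le_sum fun u _ => ?_
        by_cases hd : Dbl (line σ m u) (A c)
        · have hu : ∃ g ∈ line σ m u, g ∈ A c := by
            obtain ⟨x, hx, -, -, -, hA, -⟩ := hd
            exact ⟨x, hx, hA⟩
          have hu' : ∃ g ∈ line σ m (m u), g ∈ A c := by
            obtain ⟨x, hx, hA⟩ := hu
            exact ⟨x, (mem_line_m h.hm).2 hx, hA⟩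
          obtain ⟨a1, a2, a3, -⟩ := G u hu
          obtain ⟨b1, b2, -⟩ := G (m u) hu'
          have e1 := (a3 hd).1
          have : (F c).bipartiteBelow r u ⊆ {gate u, gate (m u)} := by
            intro v hv
            rw [Finset.mem_bipartiteBelow] at hv
            have hA := (hF c v hv.1).1
            obtain ⟨h1, h2⟩ := hv.2
            rw [e1] at h1 h2
            simp only [List.mem_append, List.mem_cons, List.mem_reverse] at h1
            rcases h1 with h1 | h1 | h1 | h1 | h1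
            · exact absurd hA (a2 v h1)
            · simp [h1]
            · exact absurd (btw_of_mid a1 b1 h1) h2
            · simp [h1]
            · exact absurd hA (b2 v h1)
          simp only [w, if_pos hd]
          exact (Finset.card_le_card this).trans Finset.card_le_two
        by_cases hu : ∃ g ∈ line σ m u, g ∈ A c
        · simp only [w, if_neg hd, if_pos hu]
          refine Finset.card_le_one.2 fun x hx y hy => ?_
          rw [Finset.mem_bipartiteBelow] at hx hy
          by_contra hne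
          exact hd ⟨x, hx.2.1, y, hy.2.1, hne, (hF c x hx.1).1, (hF c y hy.1).1⟩
        · simp only [w, if_neg hd, if_neg hu]
          rw [Nat.le_zero, Finset.card_eq_zero]
          refine Finset.eq_empty_of_forall_notMem fun x hx => ?_
          rw [Finset.mem_bipartiteBelow] at hx
          exact hu ⟨x, hx.2.1, (hF c x hx.1).1⟩
  have d1 : ∀ u ∈ N, Dbl (line σ m u) (A false) → ¬ ∃ g ∈ line σ m u, g ∈ A true := by
    rintro u hu ⟨x, hx, y, hy, hxy, hxA, hyA⟩ ⟨g, hg, hgA⟩
    exact hxy ((nm u hu x hx g hg hxA hgA).trans (nm u hu y hy g hg hyA hgA).symm)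
  have d2 : ∀ u ∈ N, Dbl (line σ m u) (A true) → ¬ ∃ g ∈ line σ m u, g ∈ A false := by
    rintro u hu ⟨x, hx, y, hy, hxy, hxA, hyA⟩ ⟨g, hg, hgA⟩
    exact hxy ((nm u hu g hg x hx hgA hxA).symm.trans (nm u hu g hg y hy hgA hyA))
  have d3 : ∀ c u, Dbl (line σ m u) (A c) → ∃ g ∈ line σ m u, g ∈ A c := by
    rintro c u ⟨x, hx, -, -, -, hA, -⟩
    exact ⟨x, hx, hA⟩
  have k2 : ∀ u ∈ N, w false u + w true u ≤ 2 := by
    intro u hu
    have a1 := d1 u hu
    have a2 := d2 u hu
    have a4 := d3 true u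
    by_cases b1 : Dbl (line σ m u) (A false)
    · simp only [w, if_pos b1, if_neg (fun b => a1 b1 (a4 b)), if_neg (a1 b1)]; omega
    by_cases b2 : Dbl (line σ m u) (A true)
    · simp only [w, if_pos b2, if_neg b1, if_neg (a2 b2)]; omega
    simp only [w, if_neg b1, if_neg b2]
    split_ifs <;> omega
  have k3 : ∑ u ∈ N, (w false u + w true u) ≤ ∑ _u ∈ N, 2 := Finset.sum_le_sum k2
  have k4 : ∑ _u ∈ N, 2 = 2 * N.card := by simp [mul_comm]
  have k5 := k1 false
  have k6 := k1 true
  have k7 : ∑ u ∈ N, (w false u + w true u) = ∑ u ∈ N, w false u + ∑ u ∈ N, w true u :=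
    Finset.sum_add_distrib
  refine ⟨by omega, fun hN u hu => ?_⟩
  have k8 := (Finset.sum_eq_sum_iff_of_le k2).1 (by omega) u hu
  by_contra hc
  rw [not_or, not_or] at hc
  obtain ⟨c1, c2, c3⟩ := hc
  simp only [w, if_neg c1, if_neg c2] at k8
  have : (∃ g ∈ line σ m u, g ∈ A false) ∧ ∃ g ∈ line σ m u, g ∈ A true := by
    split_ifs at k8 with a b
    · exact ⟨a, b⟩
    all_goals omega
  obtain ⟨⟨x, hx, hxA⟩, ⟨y, hy, hyA⟩⟩ := this
  exact c3 ⟨x, hx, hxA, nm u hu x hx y hy hxA hyA ▸ hyA⟩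

variable [Fintype ι]

/-- separator bound when `k` terminals lie outside the region (use `Ctx.hk` for `S` with `Y`
removed, unless all `t j` lie in `S`) -/
theorem Ctx.hkJ (h : Ctx E t l k) (Y : Set V) (S : Finset V) (y : V) (J : Finset ι) (hy : y ∈ Y)
    (hJ : ∀ j ∈ J, t j ∉ Y) (hJk : k ≤ J.card)
    (hcl : ∀ x ∈ Y, ∀ w, GA E t l x w → w ∈ Y ∨ w ∈ S) : k ≤ S.card := by
  by_cases hall : ∀ j ∈ J, t j ∈ S
  · exact hJk.trans (Finset.card_le_card_of_injOn t hall (h.tinj.injOn))
  push Not at hall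
  obtain ⟨j, hj, hjS⟩ := hall
  refine (h.hk Y (S.filter (· ∉ Y)) y (t j) hy (by simp [hy]) (hJ j hj) (by simp [hjS])
    fun x hx _ w hw => ?_).trans (Finset.card_filter_le _ _)
  by_cases hw' : w ∈ Y
  · exact Or.inl hw'
  · exact Or.inr (Finset.mem_filter.2 ⟨(hcl x hx w hw).resolve_left hw', hw'⟩)

/-- separator bound for a region without terminals -/
theorem Ctx.hk_nt (h : Ctx E t l k) (Y : Set V) (S : Finset V) (y : V) (hy : y ∈ Y)
    (hY : ∀ x ∈ Y, ∀ i, x ≠ t i)
    (hcl : ∀ x ∈ Y, ∀ w, E x w → w ∈ Y ∨ w ∈ S) : k ≤ S.card := by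
  refine h.hkJ Y S y Finset.univ hy (fun j _ hj => hY _ hj j rfl) ?_ fun x hx w hw => ?_
  · rw [Finset.card_univ, h.card]; omega
  · rcases hw with hw | ⟨i, hi, -⟩
    · exact hcl x hx w hw
    · exact absurd hi (hY x hx i)

/-- separator bound for a region with one terminal -/
theorem Ctx.hk_one (h : Ctx E t l k) (Y : Set V) (S : Finset V) (a : ι) (hy : t a ∈ Y)
    (hY : ∀ i, t i ∈ Y → i = a)
    (hcl : ∀ x ∈ Y, ∀ w, E x w → w ∈ Y ∨ w ∈ S) :
    k ≤ S.card + 1 ∧ (S.card < k → t (l a) ∉ S) := by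
  have key : k ≤ (insert (t (l a)) S).card := by
    refine h.hkJ Y _ (t a) (Finset.univ.erase a) hy
      (fun j hj hj' => (Finset.mem_erase.1 hj).1 (hY j hj')) ?_ fun x hx w hw => ?_
    · rw [Finset.card_erase_of_mem (Finset.mem_univ a), Finset.card_univ, h.card]
      have := h.kpos
      omega
    · rcases hw with hw | ⟨i, hi, hw⟩
      · exact (hcl x hx w hw).imp_right Finset.mem_insert_of_mem
      · rw [hw, hY i (hi ▸ hx)]
        exact Or.inr (Finset.mem_insert_self _ _)
  refine ⟨key.trans (Finset.card_insert_le _ _), fun hS hm => ?_⟩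
  rw [Finset.insert_eq_of_mem hm] at key
  omega

theorem Ctx.deg_nt (h : Ctx E t l k) {v : V} (hv : ∀ i, v ≠ t i) (S : Finset V)
    (hS : ∀ w, E v w → w ∈ S) : k + 1 ≤ S.card := by
  refine h.hd v S fun w hw => ?_
  rcases hw with hw | ⟨i, hi, -⟩
  · exact hS w hw
  · exact absurd hi (hv i)

theorem Ctx.deg_t (h : Ctx E t l k) (a : ι) (S : Finset V) (hS : ∀ w, E (t a) w → w ∈ S) :
    k ≤ S.card := by
  have key := h.hd (t a) (insert (t (l a)) S) fun w hw => by
    rcases hw with hw | ⟨i, hi, hw⟩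
    · exact Finset.mem_insert_of_mem (hS w hw)
    · rw [hw, ← h.tinj hi]; exact Finset.mem_insert_self _ _
  have := Finset.card_insert_le (t (l a)) S
  omega

theorem Ctx.add (h : Ctx E t l k) {x v : V} (hne : x ≠ v)
    (hL : ∀ i, ¬ (x = t i ∧ v = t (l i))) : Ctx (addE E x v) t l k := by
  have hG : ∀ a b, GA E t l a b → GA (addE E x v) t l a b := fun a b hab =>
    hab.imp_left Or.inl
  refine ⟨fun a b hab => ?_, fun a ha => ?_, h.hl, h.tinj, fun i hi => ?_, h.card, h.kpos,
    fun Y S y u h1 h2 h3 h4 h5 => h.hk Y S y u h1 h2 h3 h4 fun a ha ha' w hw =>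
      h5 a ha ha' w (hG _ _ hw),
    fun u S hS => h.hd u S fun w hw => hS w (hG _ _ hw),
    fun Y y hy hY => h.hc Y y hy fun a ha w hw => hY a ha w (Or.inl hw)⟩
  · rcases hab with hab | ⟨h1, h2⟩ | ⟨h1, h2⟩
    · exact Or.inl (h.symm _ _ hab)
    · exact Or.inr (Or.inr ⟨h2, h1⟩)
    · exact Or.inr (Or.inl ⟨h2, h1⟩)
  · rcases ha with ha | ⟨h1, h2⟩ | ⟨h1, h2⟩
    · exact h.irr a ha
    · exact hne (h1.symm.trans h2)
    · exact hne (h2.symm.trans h1)
  · rcases hi with hi | ⟨h1, h2⟩ | ⟨h1, h2⟩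
    · exact h.noL i hi
    · exact hL i ⟨h1.symm, h2.symm⟩
    · exact hL (l i) ⟨h2.symm, by rw [h.hl.inv]; exact h1.symm⟩

end Pool.Agent.P.MP_4197d5_co
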