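import Pool.Agent.P.MP_4197d5_co.StOps

/-! From a solution to a cycle of the graph. -/

namespace Pool.Agent.P.MP_4197d5_co

open Classical

set_option linter.unusedSectionVars false

variable {V ι : Type} [Fintype ι] [Fintype V] {E : V → V → Prop} {t : ι → V} {l : ι → ι}

/-- consecutive members of a list are joined, so the last member is reachable from the first -/
theorem cyc_reach (H : SimpleGraph V) (x : V) (L : List V)
    (h : ∀ A B a b, x :: L = A ++ a :: b :: B → H.Adj a b) : ∀ y ∈ x :: L, H.Reachable x y := by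
  induction L generalizing x with
  | nil => intro y hy; rw [List.mem_singleton.1 hy]
  | cons z L ih =>
    intro y hy
    rcases List.mem_cons.1 hy with rfl | hy
    · rfl
    · refine (h [] L x z rfl).reachable.trans (ih z (fun A B a b e => h (x :: A) B a b ?_) y hy)
      rw [e]; rfl

/-- the graph formed by the prescribed edges and the lines -/
def cycG (G : SimpleGraph V) (t : ι → V) (l : ι → ι) (σ : ι → List V) (m : ι → ι) :
    SimpleGraph V where
  Adj x y := G.Adj x y ∧ (((∃ i, x = t i ∧ y = t (l i)) ∨ ∃ i A B, line σ m i = A ++ x :: y :: B) ∨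
    ((∃ i, y = t i ∧ x = t (l i)) ∨ ∃ i A B, line σ m i = A ++ y :: x :: B))
  symm := ⟨fun _ _ h => ⟨h.1.symm, h.2.symm⟩⟩
  loopless := ⟨fun _ h => h.1.ne rfl⟩

theorem cycG_adj {G : SimpleGraph V} {σ : ι → List V} {m : ι → ι} (h : St E t σ m ∅) (hl : Pr l)
    (hE : ∀ x y, E x y → G.Adj x y) (hL : ∀ i, G.Adj (t i) (t (l i))) (x y : V) :
    (cycG G t l σ m).Adj x y ↔
      (∃ i, x = t i ∧ y = t (l i)) ∨ ∃ i A B, line σ m i = A ++ x :: y :: B := by
  constructor
  · rintro ⟨-, h1 | ⟨i, rfl, rfl⟩ | ⟨i, A, B, e⟩⟩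
    · exact h1
    · exact Or.inl ⟨l i, rfl, by rw [hl.inv]⟩
    · refine Or.inr ⟨m i, B.reverse, A.reverse, ?_⟩
      rw [line_rev h.hm, e]; simp
  · intro h1
    refine ⟨?_, Or.inl h1⟩
    rcases h1 with ⟨i, rfl, rfl⟩ | ⟨i, A, B, e⟩
    · exact hL i
    · have := h.link i (by simp)
      rw [e] at this
      exact hE _ _ (chain_adj this)

theorem cycG_isCycles {G : SimpleGraph V} {σ : ι → List V} {m : ι → ι} (h : St E t σ m ∅)
    (hl : Pr l) (noL : ∀ i, ¬ E (t i) (t (l i))) (hE : ∀ x y, E x y → G.Adj x y)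
    (hL : ∀ i, G.Adj (t i) (t (l i))) : (cycG G t l σ m).IsCycles := by
  have tinj : ∀ i j, t i = t j → i = j := fun i j e => h.t_mem_iff.1 (e ▸ h.t_mem j)
  intro v hv
  rw [Set.ncard_eq_two]
  by_cases ht : ∃ j, v = t j
  · obtain ⟨j, rfl⟩ := ht
    obtain ⟨r, hr⟩ := h.line_cons j
    have hr0 : r ≠ [] := by
      rintro rfl
      have : t (m j) ∈ line σ m j := h.t_mem_line.2 (Or.inr rfl)
      rw [hr, List.mem_singleton] at this
      exact h.hm.fpf j (tinj _ _ this)
    obtain ⟨s, r, rfl⟩ := List.exists_cons_of_ne_nil hr0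
    refine ⟨t (l j), s, ?_, ?_⟩
    · rintro rfl
      have := h.link j (by simp)
      rw [hr] at this
      exact noL j (List.isChain_cons_cons.1 this).1
    · ext w
      rw [SimpleGraph.mem_neighborSet, cycG_adj h hl hE hL]
      constructor
      · rintro (⟨i, e, rfl⟩ | ⟨i, A, B, e⟩)
        · rw [tinj _ _ e]; simp
        · have hm : t j ∈ line σ m i := by rw [e]; simp
          have hn := h.line_nodup i
          rcases h.t_mem_line.1 hm with rfl | rfl
          · rw [e] at hn hr
            have := (split_unique (A' := []) hn hr).2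
            simp [(List.cons.inj this).1]
          · obtain ⟨r', hr'⟩ := h.line_concat i
            rw [e] at hn hr'
            exact absurd (split_unique hn hr').2 (by simp)
      · rintro (rfl | rfl)
        · exact Or.inl ⟨j, rfl, rfl⟩
        · exact Or.inr ⟨j, [], r, hr⟩
  · obtain ⟨b, hb⟩ := hv
    rw [SimpleGraph.mem_neighborSet, cycG_adj h hl hE hL] at hb
    rcases hb with ⟨i, e, -⟩ | ⟨i, A, B, e⟩
    · exact absurd ⟨i, e⟩ ht
    have hA : A ≠ [] := by
      rintro rfl
      obtain ⟨r, hr⟩ := h.line_cons i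
      rw [e] at hr
      exact ht ⟨i, (List.cons.inj hr).1⟩
    obtain ⟨A, a, rfl⟩ := (List.eq_nil_or_concat' A).resolve_left hA
    have hn := h.line_nodup i
    have e' : line σ m (m i) = (b :: B).reverse ++ v :: a :: A.reverse := by
      rw [line_rev h.hm, e]; simp
    refine ⟨a, b, ?_, ?_⟩
    · rintro rfl
      rw [e, List.nodup_append] at hn
      exact hn.2.2 a (by simp) a (by simp) rfl
    · ext w
      rw [SimpleGraph.mem_neighborSet, cycG_adj h hl hE hL]
      constructor
      · rintro (⟨j, e1, -⟩ | ⟨j, A1, B1, e1⟩)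
        · exact absurd ⟨j, e1⟩ ht
        · have hn1 := h.line_nodup j
          rcases h.line_disj (x := v) (i := i) (j := j) (by rw [e]; simp) (by rw [e1]; simp) with
            rfl | rfl
          · rw [e1] at hn1 e
            have := (split_unique hn1 e).2
            simp [(List.cons.inj this).1]
          · rw [e1] at hn1 e'
            have := (split_unique hn1 e').2
            simp [(List.cons.inj this).1]
      · rintro (rfl | rfl)
        · exact Or.inr ⟨m i, _, _, e'⟩
        · exact Or.inr ⟨i, _, _, e⟩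

/-- Sketch. Let `H ≤ G` be the graph whose edges are the pairs `t i, t (l i)` and the consecutive
pairs of the lines. Every vertex on the system has exactly two `H`-neighbours (for an inner
vertex of a line its two neighbours on the line; for `t i` the vertex `t (l i)` and the second
vertex of `line σ m i`, which differ by `noL`), so `H.IsCycles`. All terminals are `H`-reachable
from each other (induction on `cc`). Use
`SimpleGraph.IsCycles.exists_cycle_toSubgraph_verts_eq_connectedComponentSupp` and
`SimpleGraph.Walk.IsCycle.adj_toSubgraph_iff_of_isCycles`, then `Walk.mapLe` (or `transfer`). -/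
theorem sol_cycle (G : SimpleGraph V) (hs : ∀ x y, E x y → E y x) (hl : Pr l)
    (noL : ∀ i, ¬ E (t i) (t (l i))) (hE : ∀ x y, E x y → G.Adj x y)
    (hL : ∀ i, G.Adj (t i) (t (l i))) [Nonempty ι] (h : Sol E t l) :
    ∃ (v : V) (p : G.Walk v v), p.IsCycle ∧ ∀ i, s(t i, t (l i)) ∈ p.edges := by
  have _ := hs
  obtain ⟨σ, m, h, hc⟩ := h
  have hcy := cycG_isCycles h hl noL hE hL
  have hadj := cycG_adj h hl hE hL
  set H := cycG G t l σ m with hH
  have hle : H ≤ G := fun _ _ h => h.1
  have hLH : ∀ i, H.Adj (t i) (t (l i)) := fun i => (hadj _ _).2 (Or.inl ⟨i, rfl, rfl⟩)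
  have hreach : ∀ x y, cc l m ∅ x y → H.Reachable (t x) (t y) := by
    intro x y hxy
    induction hxy with
    | rel x y hr =>
      rcases hr with rfl | ⟨-, rfl⟩
      · exact (hLH x).reachable
      · obtain ⟨r, hr⟩ := h.line_cons x
        refine cyc_reach H (t x) r (fun A B a b e => (hadj _ _).2 (Or.inr ⟨x, A, B, ?_⟩)) _ ?_
        · rw [hr, e]
        · rw [← hr]; exact h.t_mem_line.2 (Or.inr rfl)
    | refl x => rfl
    | symm x y _ ih => exact ih.symm
    | trans x y z _ _ ih1 ih2 => exact ih1.trans ih2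
  obtain ⟨i0⟩ := ‹Nonempty ι›
  obtain ⟨p, hp, hv⟩ := hcy.exists_cycle_toSubgraph_verts_eq_connectedComponentSupp
    (c := H.connectedComponentMk (t i0)) (v := t i0) rfl ⟨_, hLH i0⟩
  refine ⟨t i0, p.mapLe hle, hp.mapLe hle, fun i => ?_⟩
  rw [SimpleGraph.Walk.edges_mapLe_eq_edges, ← SimpleGraph.Walk.adj_toSubgraph_iff_mem_edges]
  refine (hp.adj_toSubgraph_iff_of_isCycles hcy ?_ _).2 (hLH i)
  rw [hv, SimpleGraph.ConnectedComponent.mem_supp_iff, SimpleGraph.ConnectedComponent.eq]
  exact hreach _ _ (hc i i0)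

end Pool.Agent.P.MP_4197d5_co
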