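import Pool.Agent.P.MP_4197d5_co.Reach

/-! The hopping lemma. -/

namespace Pool.Agent.P.MP_4197d5_co

open Classical

set_option linter.unusedSectionVars false

variable {V ι : Type} [Fintype ι] {E : V → V → Prop} {t : ι → V} {l : ι → ι}

/-- Abstract hopping lemma. `A n` are the levels, `I n` the inner vertices of level `n`;
`J1`, `J2` are the last two hypotheses.
Proof by strong induction on `n`. If `n = 0` nothing is to do. If `n = n' + 1`, take `w ∈ I n'`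
with `Hit E O w x` (`hA`, minimality), a path `q` (`Hit.path`; it is off the system by `J2`), and
`u ∉ U` with `line u = P ++ w :: S`, both `P` and `S` meeting `A n'`. Take exchanges
`Xch m m1 p (m u)` and `Xch m m2 p u` (`xch_exists`); by `Xch.any` one of them is coarser
(`Xch.co`); by symmetry (`line_rev`, `Btw.rev`) treat the first: with `St.exchH` join
`σ p ++ q.reverse` to `w :: S`, keep the stub of `m p`, and give `u` the stub `P1 ++ [x']` where
`P = P1 ++ x' :: P2` and `x'` has the least level `n''` among the members of `P`; then `n'' ≤ n'`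
and `P` avoids `A j` for `j < n''`, so `J1` survives by `Btw.of_append`, `Btw.append_left`;
`J2` survives since `o ∈ q` with `RO E O w' o`, `w' ∈ I j` gives `x ∈ A (j+1)` (`Hit.of_RO`). -/
theorem hop (hs : ∀ x y, E x y → E y x) (hl : Pr l) (O : Set V) (A I : ℕ → Set V)
    (hmono : ∀ i j, i ≤ j → A i ⊆ A j) (hImono : ∀ i j, i ≤ j → I i ⊆ I j)
    (hAO : ∀ j, ∀ v ∈ A j, v ∉ O)
    (hA : ∀ n, ∀ x ∈ A (n + 1), x ∈ A n ∨ ∃ w ∈ I n, Hit E O w x)
    (hA' : ∀ n, ∀ w ∈ I n, ∀ x, x ∉ O → Hit E O w x → x ∈ A (n + 1)) (n : ℕ) :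
    ∀ (σ : ι → List V) (m : ι → ι) (U : Finset ι) (p : ι) (x : V), St E t σ m U → p ∈ U →
      (σ p).getLast? = some x → x ∈ A n → (∀ j < n, x ∉ A j) →
      (∀ j < n, ∀ w ∈ I j, ∃ u, u ∉ U ∧ Btw (line σ m u) (A j) w) →
      (∀ j < n, ∀ w ∈ I j, ∀ o, RO E O w o → ¬ On σ o) →
      ∃ σ' m' U' p' x', St E t σ' m' U' ∧ Co l m m' ∧ m' p' = m p ∧ (p' = p ∨ p' ∉ U) ∧
        (∀ i, i ∈ U' ↔ i = p' ∨ (i ∈ U ∧ i ≠ p)) ∧
        (∀ c ∈ U, c ≠ p → σ' c = σ c ∧ (c ≠ m p → m' c = m c)) ∧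
        (σ' p').getLast? = some x' ∧ x' ∈ A 0 ∧
        (∀ v, On σ' v → On σ v ∨ ∃ j < n, ∃ w ∈ I j, RO E O w v) ∧
        (∀ u, u ∉ U → (∀ j < n, ∀ w ∈ I j, w ∉ line σ m u) →
          u ∉ U' ∧ m' u = m u ∧ σ' u = σ u ∧ σ' (m u) = σ (m u)) := by
  induction n using Nat.strong_induction_on with
  | h n ih =>
  intro σ m U p x h hp hx hxA hmin J1 J2
  rcases n with _ | n
  · refine ⟨σ, m, U, p, x, h, Co.refl, rfl, Or.inl rfl, fun i => ?_,
      fun c _ _ => ⟨rfl, fun _ => rfl⟩, hx, hxA, fun v hv => Or.inl hv,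
      fun u hu _ => ⟨hu, rfl, rfl, rfl⟩⟩
    by_cases e : i = p
    · simp [e, hp]
    · simp [e]
  obtain ⟨w, hw, hit⟩ := (hA n x hxA).resolve_left (hmin n (Nat.lt_succ_self n))
  obtain ⟨q, qn, qr, qc⟩ := hit.path hs
  have hmp : m p ∈ U := h.ucl p hp
  obtain ⟨u, m1, hu, hX, hCo, P, S, eL, f, hfP, hfA⟩ : ∃ u m1, u ∉ U ∧ Xch m m1 p (m u) ∧
      Co l m m1 ∧ ∃ P S, line σ m u = P ++ w :: S ∧ ∃ f ∈ P, f ∈ A n := by
    obtain ⟨u, hu, hb⟩ := J1 n (Nat.lt_succ_self n) w hw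
    have hu' := h.not_mem hu
    obtain ⟨m2, h2⟩ := xch_exists h.hm (a := p) (b := u) (fun e => hu (e ▸ hp))
      (fun e => hu (e ▸ hmp))
    obtain ⟨m1, h1⟩ := xch_exists h.hm (a := p) (b := m u) (fun e => hu' (e ▸ hp))
      (fun e => hu' (e ▸ hmp))
    rcases Xch.any hl h.hm h2 h1 with c | c
    · have hb' : Btw (line σ m (m u)) (A n) w := by rw [line_rev h.hm]; exact hb.rev
      obtain ⟨P, S, e, a, -⟩ := hb'
      exact ⟨m u, m2, hu', by rw [h.hm.inv]; exact h2, h2.co h.hm c, P, S, e, a⟩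
    · obtain ⟨P, S, e, a, -⟩ := hb
      exact ⟨u, m1, hu, h1, h1.co h.hm c, P, S, e, a⟩
  have hu' := h.not_mem hu
  have hex : ∃ k, ∃ f ∈ P, f ∈ A k := ⟨n, f, hfP, hfA⟩
  obtain ⟨k, hkn, ⟨x1, hx1P, hx1A⟩, hPav⟩ : ∃ k, k ≤ n ∧ (∃ f ∈ P, f ∈ A k) ∧
      ∀ j < k, ∀ y ∈ P, y ∉ A j :=
    ⟨Nat.find hex, Nat.find_min' hex ⟨f, hfP, hfA⟩, Nat.find_spec hex,
      fun j hj y hy hy' => Nat.find_min hex hj ⟨y, hy, hy'⟩⟩
  obtain ⟨P1, P2, eP⟩ := List.append_of_mem hx1P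
  obtain ⟨R, eR⟩ := List.getLast?_eq_some_iff.1 hx
  have cL : (P ++ w :: S).IsChain E := eL ▸ h.link u hu
  have hwL : w ∈ line σ m u := by rw [eL]; simp
  obtain ⟨σ1, U1, h1, hU1, l1, s1, s2, oth⟩ := h.exchH hs hX (P1 := σ p) (M1 := [])
    (Q1 := (σ (m p)).reverse) (P2 := S.reverse ++ [w]) (M2 := P2.reverse)
    (Q2 := (P1 ++ [x1]).reverse) (c1 := q.reverse) (by simp [line])
    (by rw [line_rev h.hm, eL, eP]; simp) (h.ne_nil p) (by simpa using h.ne_nil _) (by simp)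
    (by simp) (List.nodup_reverse.2 qn)
    (fun o ho => Or.inl (J2 n (Nat.lt_succ_self n) w hw o (qr o (List.mem_reverse.1 ho)).1))
    (by
      have c1 : (x :: (q.reverse ++ [w])).IsChain E := by simpa using chain_rev hs qc
      have c2 : (R ++ x :: (q.reverse ++ [w])).IsChain E := chain_glue (eR ▸ h.chain p) c1
      have c3 := chain_glue (A := R ++ x :: q.reverse) (x := w) (B := S) (by simpa using c2)
        (chain_right cL)
      rw [eR]; simpa using c3)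
    (chain_rev hs (h.chain _))
    (by
      refine chain_rev hs (chain_left (B := P2 ++ w :: S) ?_)
      rw [eP] at cL; simpa using cL)
  rw [h.hm.inv] at s2
  rw [List.reverse_reverse] at s1 s2
  have hout : ∀ i, i ≠ p → i ≠ m p → i ≠ u → i ≠ m u → Out m p (m u) i := fun i a b c d =>
    ⟨a, b, d, by rw [h.hm.inv]; exact c⟩
  have hU : ∀ i, i ∈ U1 ↔ i = u ∨ (i ∈ U ∧ i ≠ p) := by
    intro i
    rw [hU1, h.hm.inv]
    constructor
    · rintro (⟨a, b⟩ | rfl | rfl)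
      · exact Or.inr ⟨a, b.1⟩
      · exact Or.inr ⟨hmp, h.hm.fpf p⟩
      · exact Or.inl rfl
    · rintro (rfl | ⟨a, b⟩)
      · exact Or.inr (Or.inr rfl)
      · by_cases c : i = m p
        · exact Or.inr (Or.inl c)
        · exact Or.inl ⟨a, hout i b c (fun e => hu (e ▸ a)) (fun e => hu' (e ▸ a))⟩
  have m1u : m1 u = m p := by
    have := hX.hmb
    rwa [h.hm.inv] at this
  have l1' : line σ1 m1 p = (σ p ++ q.reverse) ++ w :: S := by rw [l1]; simp
  have hon : ∀ v, On σ1 v → On σ v ∨ v ∈ q := by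
    intro v hv
    rcases St.on_xch hX oth hv with a | a | ⟨i, -, a⟩
    · rw [l1'] at a
      rcases List.mem_append.1 a with a | a
      · rcases List.mem_append.1 a with a | a
        · exact Or.inl ⟨p, a⟩
        · exact Or.inr (List.mem_reverse.1 a)
      · exact Or.inl (On.of_line (m := m) (i := u) (by rw [eL]; exact List.mem_append_right _ a))
    · rw [mem_line, s1, hX.hma, h.hm.inv, s2] at a
      rcases a with a | a
      · exact Or.inl ⟨_, a⟩
      · refine Or.inl (On.of_line (m := m) (i := u) ?_)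
        rw [eL, eP]
        simp only [List.mem_append, List.mem_cons, List.not_mem_nil, or_false] at a ⊢
        tauto
    · exact Or.inl (On.of_line a)
  have hfar : ∀ i, i ∉ U → i ≠ u → i ≠ m u → Out m p (m u) i := fun i a b c =>
    hout i (fun e => a (e ▸ hp)) (fun e => a (e ▸ hmp)) b c
  obtain ⟨σ', m', U', p', x', r1, r2, r3, r4, r5, r6, r7, r8, r9, r10⟩ :=
    ih k (Nat.lt_succ_of_le hkn) σ1 m1 U1 u x1 h1 ((hU u).2 (Or.inl rfl)) (by rw [s2]; simp) hx1A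
      (fun j hj => hPav j hj x1 hx1P)
      (by
        intro j hj w' hw'
        obtain ⟨u', a, b⟩ := J1 j (by omega) w' hw'
        by_cases c : u' = u ∨ u' = m u
        · have b' : Btw (line σ m u) (A j) w' := by
            rcases c with rfl | rfl
            · exact b
            · have := b.rev
              rwa [line_rev h.hm, List.reverse_reverse] at this
          rw [eL] at b'
          refine ⟨p, fun e => ?_, ?_⟩
          · rcases (hU p).1 e with e | e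
            · exact hu (e ▸ hp)
            · exact e.2 rfl
          · rw [l1']; exact (b'.of_append (hPav j hj)).append_left _
        · push Not at c
          refine ⟨u', fun e => ?_, ?_⟩
          · rcases (hU u').1 e with e | e
            · exact c.1 e
            · exact a e.1
          · rw [(oth u' (hfar u' a c.1 c.2)).2]; exact b)
      (by
        intro j hj w' hw' o ho hon'
        rcases hon o hon' with a | a
        · exact J2 j (by omega) w' hw' o ho a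
        · exact hmin (j + 1) (by omega)
            (hA' j w' hw' x (hAO _ x hxA) (Hit.of_RO hs ho (qr o a).2)))
  refine ⟨σ', m', U', p', x', r1, hCo.trans r2, r3.trans m1u, ?_, fun i => ?_, fun c hc hcp => ?_,
    r7, r8, fun v hv => ?_, fun u0 a b => ?_⟩
  · rcases r4 with e | e
    · exact Or.inr (e ▸ hu)
    · by_cases c : p' = p
      · exact Or.inl c
      · exact Or.inr fun a => e ((hU _).2 (Or.inr ⟨a, c⟩))
  · rw [r5, hU]
    constructor
    · rintro (a | ⟨a | a, b⟩)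
      · exact Or.inl a
      · exact absurd a b
      · exact Or.inr a
    · rintro (a | a)
      · exact Or.inl a
      · exact Or.inr ⟨Or.inr a, fun e => hu (e ▸ a.1)⟩
  · have cu : c ≠ u := fun e => hu (e ▸ hc)
    have cu' : c ≠ m u := fun e => hu' (e ▸ hc)
    obtain ⟨a, b⟩ := r6 c ((hU c).2 (Or.inr ⟨hc, hcp⟩)) cu
    refine ⟨a.trans ?_, fun d => (b (m1u ▸ d)).trans (hX.oth c (hout c hcp d cu cu'))⟩
    by_cases d : c = m p
    · rw [d, s1]
    · exact (oth c (hout c hcp d cu cu')).1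
  · rcases r9 v hv with a | ⟨j, hj, w', hw', a⟩
    · rcases hon v a with a | a
      · exact Or.inl a
      · exact Or.inr ⟨n, Nat.lt_succ_self n, w, hw, (qr v a).1⟩
    · exact Or.inr ⟨j, by omega, w', hw', a⟩
  · have c1 : u0 ≠ u := fun e => b n (Nat.lt_succ_self n) w hw (e ▸ hwL)
    have c2 : u0 ≠ m u := fun e => b n (Nat.lt_succ_self n) w hw
      (by rw [e, mem_line_m h.hm]; exact hwL)
    have o1 := hfar u0 a c1 c2
    have e1 := hX.oth u0 o1
    obtain ⟨d1, d2, d3, d4⟩ := r10 u0 (fun e => by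
        rcases (hU u0).1 e with e | e
        · exact c1 e
        · exact a e.1)
      (fun j hj w' hw' => by rw [(oth u0 o1).2]; exact b j (by omega) w' hw')
    rw [e1] at d2 d4
    exact ⟨d1, d2, d3.trans (oth u0 o1).1, d4.trans (oth _ (o1.par h.hm)).1⟩

theorem An_not_mem {Ln : ι → List V} {N : Finset ι} {Src O A0 : Set V} (hA0 : ∀ v ∈ A0, v ∉ O)
    (n : ℕ) : ∀ v ∈ An E Ln N Src O A0 n, v ∉ O := by
  induction n with
  | zero => exact hA0
  | succ n ih =>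
    rintro v (a | a)
    · exact ih v a
    · exact a.1

/-- the hopping lemma for the levels of a closure -/
theorem hop_An (hs : ∀ x y, E x y → E y x) (hl : Pr l) (Ln : ι → List V) (N : Finset ι)
    (Src O A0 : Set V) (hA0 : ∀ v ∈ A0, v ∉ O) (n : ℕ) (σ : ι → List V) (m : ι → ι)
    (U : Finset ι) (p : ι) (x : V) (h : St E t σ m U) (hp : p ∈ U)
    (hx : (σ p).getLast? = some x) (hA : x ∈ An E Ln N Src O A0 n)
    (hmin : ∀ j < n, x ∉ An E Ln N Src O A0 j)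
    (J1 : ∀ j < n, ∀ w ∈ Itr Ln N Src (An E Ln N Src O A0 j),
      ∃ u, u ∉ U ∧ Btw (line σ m u) (An E Ln N Src O A0 j) w)
    (J2 : ∀ j < n, ∀ w ∈ Itr Ln N Src (An E Ln N Src O A0 j), ∀ o, RO E O w o → ¬ On σ o) :
    ∃ σ' m' U' p' x', St E t σ' m' U' ∧ Co l m m' ∧ m' p' = m p ∧ (p' = p ∨ p' ∉ U) ∧
      (∀ i, i ∈ U' ↔ i = p' ∨ (i ∈ U ∧ i ≠ p)) ∧
      (∀ c ∈ U, c ≠ p → σ' c = σ c ∧ (c ≠ m p → m' c = m c)) ∧
      (σ' p').getLast? = some x' ∧ x' ∈ A0 ∧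
      (∀ v, On σ' v → On σ v ∨
        ∃ j < n, ∃ w ∈ Itr Ln N Src (An E Ln N Src O A0 j), RO E O w v) ∧
      (∀ u, u ∉ U → (∀ j < n, ∀ w ∈ Itr Ln N Src (An E Ln N Src O A0 j), w ∉ line σ m u) →
        u ∉ U' ∧ m' u = m u ∧ σ' u = σ u ∧ σ' (m u) = σ (m u)) :=
  hop hs hl O (An E Ln N Src O A0) (fun j => Itr Ln N Src (An E Ln N Src O A0 j))
    (fun _ _ a => An_mono a) (fun _ _ a _ b => Itr.mono b (An_mono a)) (An_not_mem hA0)
    (fun _ _ a => a.imp id fun b => b.2) (fun _ w a _ b c => Or.inr ⟨b, w, a, c⟩) n σ m U p x h hp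
    hx hA hmin J1 J2

variable {σ : ι → List V} {m : ι → ι} {U : Finset ι}

/-- one-sided use of the closure: a loose end in the closure can be moved to level zero -/
theorem St.os (hs : ∀ x y, E x y → E y x) (hl : Pr l) (h : St E t σ m U) (N : Finset ι)
    (hN : ∀ u ∈ N, u ∉ U) (O Src A0 : Set V) (hO : ∀ o ∈ O, ¬ On σ o) (hA0 : ∀ v ∈ A0, v ∉ O)
    {p : ι} (hp : p ∈ U)
    {x : V} (hx : (σ p).getLast? = some x) (hA : x ∈ Acl E (line σ m) N Src O A0) :
    ∃ σ' m' U' p' x', St E t σ' m' U' ∧ Co l m m' ∧ m' p' = m p ∧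
      (∀ i, i ∈ U' ↔ i = p' ∨ (i ∈ U ∧ i ≠ p)) ∧ (∀ c ∈ U, c ≠ p → σ' c = σ c) ∧
      (σ' p').getLast? = some x' ∧ x' ∈ A0 ∧ ∀ v, On σ' v → On σ v ∨ v ∈ O := by
  obtain ⟨σ', m', U', p', x', r1, r2, r3, -, r5, r6, r7, r8, r9, -⟩ :=
    hop_An hs hl (line σ m) N Src O A0 hA0 (Nat.find hA) σ m U p x h hp hx (Nat.find_spec hA)
      (fun j hj => Nat.find_min hA hj) (fun j _ w ⟨_, u, a, b⟩ => ⟨u, hN u a, b⟩)
      (fun j _ w _ o a => hO o a.mem)
  refine ⟨σ', m', U', p', x', r1, r2, r3, r5, fun c a b => (r6 c a b).1, r7, r8, fun v hv => ?_⟩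
  rcases r9 v hv with a | ⟨j, -, w, -, a⟩
  · exact Or.inl a
  · exact Or.inr a.mem

/-- Two closures meeting on a line. Sketch: choose a meeting `x ∈ An A0 i`, `y ∈ An B0 j`,
`x ≠ y` on a line `τ ∈ N` with `i + j` least, oriented so that `x` comes first; `St.cut` the line
between them, `St.repair` to `m0`, apply `hop` for `τ` and then for `m τ`. All hypotheses of `hop`
follow from minimality (a line with two members of a lower level of one closure has no member of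
the other closure; `RO`-regions of the two closures are disjoint by `Hit.of_RO`). -/
theorem St.tc (hs : ∀ x y, E x y → E y x) (hl : Pr l) (h : St E t σ m U) (N : Finset ι)
    (hN : ∀ u ∈ N, u ∉ U) (hNm : ∀ u ∈ N, m u ∈ N) (O Src A0 B0 : Set V)
    (hO : ∀ o ∈ O, ¬ On σ o) (hA0 : ∀ v ∈ A0, v ∉ O) (hB0 : ∀ v ∈ B0, v ∉ O)
    {u : ι} {x y : V} (hu : u ∈ N) (hx : x ∈ line σ m u)
    (hy : y ∈ line σ m u) (hxy : x ≠ y) (hxA : x ∈ Acl E (line σ m) N Src O A0)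
    (hyB : y ∈ Acl E (line σ m) N Src O B0) :
    ∃ τ ∈ N, ∀ m0, Pr m0 → (∀ i, i ∉ U → i ≠ τ → i ≠ m τ → m0 i = m i) →
      ∃ σ' m' U' p q x' y', St E t σ' m' U' ∧ Co l m0 m' ∧ p ∈ N ∧ q ∈ N ∧ p ≠ q ∧
        (∀ i, i ∈ U' ↔ i ∈ U ∨ i = p ∨ i = q) ∧ (∀ c ∈ U, σ' c = σ c) ∧
        (m0 τ = m τ → m' p = q) ∧ (m0 τ ≠ m τ → m' p = m0 τ ∧ m' q = m0 (m τ)) ∧
        (∀ i, i ∉ U → i ∉ N → m' i = m i ∧ σ' i = σ i) ∧
        (σ' p).getLast? = some x' ∧ x' ∈ A0 ∧ (σ' q).getLast? = some y' ∧ y' ∈ B0 ∧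
        ∀ v, On σ' v → On σ v ∨ v ∈ O := by
  let A := An E (line σ m) N Src O A0
  let B := An E (line σ m) N Src O B0
  let Mt : ℕ → ℕ → Prop := fun i j =>
    ∃ u ∈ N, ∃ x ∈ line σ m u, ∃ y ∈ line σ m u, x ≠ y ∧ x ∈ A i ∧ y ∈ B j
  have hex : ∃ s, ∃ i j, i + j = s ∧ Mt i j := by
    obtain ⟨i, hi⟩ := hxA
    obtain ⟨j, hj⟩ := hyB
    exact ⟨i + j, i, j, rfl, u, hu, x, hx, y, hy, hxy, hi, hj⟩
  obtain ⟨i, j, hM, hmin⟩ : ∃ i j, Mt i j ∧ ∀ i' j', i' + j' < i + j → ¬ Mt i' j' := by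
    obtain ⟨i, j, e, a⟩ := Nat.find_spec hex
    exact ⟨i, j, a, fun i' j' b c => Nat.find_min hex (e ▸ b) ⟨i', j', rfl, c⟩⟩
  clear hex hu hx hy hxy hxA hyB u x y
  obtain ⟨τ, hτ, x, y, P, M, Q, eL, hxy, hxA, hyB⟩ : ∃ τ ∈ N, ∃ x y P M Q,
      line σ m τ = (P ++ [x]) ++ M ++ y :: Q ∧ x ≠ y ∧ x ∈ A i ∧ y ∈ B j := by
    obtain ⟨u, hu, x, hx, y, hy, hxy, a, b⟩ := hM
    obtain ⟨P, R, e⟩ := List.append_of_mem hx
    rw [e] at hy
    rcases List.mem_append.1 hy with hy | hy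
    · obtain ⟨Q, M, e'⟩ := List.append_of_mem hy
      exact ⟨m u, hNm u hu, x, y, R.reverse, M.reverse, Q.reverse,
        by rw [line_rev h.hm, e, e']; simp, hxy, a, b⟩
    · obtain ⟨M, Q, e'⟩ := List.append_of_mem ((List.mem_cons.1 hy).resolve_left hxy.symm)
      exact ⟨u, hu, x, y, P, M, Q, by rw [e, e']; simp, hxy, a, b⟩
  have hτU := hN τ hτ
  have hτU' := h.not_mem hτU
  have hne := h.hm.fpf τ
  have hxL : x ∈ line σ m τ := by rw [eL]; simp
  have hyL : y ∈ line σ m τ := by rw [eL]; simp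
  have cL : ((P ++ [x]) ++ M ++ y :: Q).IsChain E := eL ▸ h.link τ hτU
  -- lines sharing a vertex have the same members
  have same : ∀ {a b : ι} {v z : V}, v ∈ line σ m a → v ∈ line σ m b → z ∈ line σ m a →
      z ∈ line σ m b := by
    intro a b v z h1 h2 h3
    rcases h.line_disj h1 h2 with rfl | rfl
    · exact h3
    · exact (mem_line_m h.hm).2 h3
  have mtA : ∀ {a : ι} {w z : V} {i' j' : ℕ}, a ∈ N → Btw (line σ m a) (A i') w →
      z ∈ line σ m a → z ∈ B j' → Mt i' j' := by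
    intro a w z i' j' ha hb hz hzB
    obtain ⟨f, f1, g, g1, f2, g2, fg, -⟩ := hb.two (h.line_nodup a)
    by_cases e : f = z
    · exact ⟨a, ha, g, g1, z, hz, fun e' => fg (e.trans e'.symm), g2, hzB⟩
    · exact ⟨a, ha, f, f1, z, hz, e, f2, hzB⟩
  have mtB : ∀ {a : ι} {w z : V} {i' j' : ℕ}, a ∈ N → Btw (line σ m a) (B j') w →
      z ∈ line σ m a → z ∈ A i' → Mt i' j' := by
    intro a w z i' j' ha hb hz hzA
    obtain ⟨f, f1, g, g1, f2, g2, fg, -⟩ := hb.two (h.line_nodup a)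
    by_cases e : z = f
    · exact ⟨a, ha, z, hz, g, g1, fun e' => fg (e.symm.trans e'), hzA, g2⟩
    · exact ⟨a, ha, z, hz, f, f1, e, hzA, f2⟩
  have onτ : ∀ {a : ι} {z : V}, a = τ ∨ a = m τ → z ∈ line σ m τ → z ∈ line σ m a := by
    rintro a z (rfl | rfl) hz
    · exact hz
    · exact (mem_line_m h.hm).2 hz
  -- lines outside `N` carry no inner vertex
  have offN : ∀ {a : ι} {C : Set V} {w : V}, a ∉ N → w ∈ Itr (line σ m) N Src C →
      w ∉ line σ m a := by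
    rintro a C w ha ⟨-, b, hb, hw⟩ hw'
    rcases h.line_disj hw.mem hw' with rfl | rfl
    · exact ha hb
    · exact ha (hNm b hb)
  refine ⟨τ, hτ, fun m0 hm0 e0 => ?_⟩
  obtain ⟨σ1, U1, h1', hU1, s1, s2, s3, on1⟩ := h.cut hs eL (by simp) (by simp)
    (chain_left (chain_left cL)) (chain_right cL)
  have nU1 : ∀ a, a ∉ U1 ↔ a ∉ U ∧ a ≠ τ ∧ a ≠ m τ := fun a => by rw [hU1]; simp only [not_or]
  have e1 : ∀ a, a ∉ U1 → m0 a = m a := fun a ha =>
    e0 a ((nU1 a).1 ha).1 ((nU1 a).1 ha).2.1 ((nU1 a).1 ha).2.2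
  have h1 : St E t σ1 m0 U1 := h1'.repair hm0 e1
  have L1 : ∀ a, a ∉ U1 → line σ1 m0 a = line σ m a := fun a ha => by
    have hb := (nU1 _).1 (h1'.not_mem ha)
    have ha' := (nU1 a).1 ha
    exact line_congr (e1 a ha) (s3 a ha'.2.1 ha'.2.2) (s3 _ hb.2.1 hb.2.2)
  have τ1 : τ ∈ U1 := (hU1 τ).2 (Or.inr (Or.inl rfl))
  have τ2 : m τ ∈ U1 := (hU1 _).2 (Or.inr (Or.inr rfl))
  obtain ⟨σ2, m2, U2, p, x', a1, a2, a3, a4, a5, a6, a7, a8, a9, a10⟩ :=
    hop_An hs hl (line σ m) N Src O A0 hA0 i σ1 m0 U1 τ x h1 τ1 (by rw [s1]; simp) hxA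
      (fun i' hi' c => hmin i' j (by omega) ⟨τ, hτ, x, hxL, y, hyL, hxy, c, hyB⟩)
      (by
        rintro i' hi' w ⟨-, a, ha, hb⟩
        have : a ∉ U1 := fun c => by
          rcases (hU1 a).1 c with c | c
          · exact hN a ha c
          · exact hmin i' j (by omega) (mtA ha hb (onτ c hyL) hyB)
        exact ⟨a, this, by rw [L1 a this]; exact hb⟩)
      (fun i' _ w _ o c d => hO o c.mem (on1 o d))
  have K2 : ∀ a, a ∉ U1 → (∀ i' < i, ∀ w ∈ Itr (line σ m) N Src (A i'), w ∉ line σ m a) →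
      a ∉ U2 ∧ m2 a = m a ∧ σ2 a = σ a ∧ line σ2 m2 a = line σ m a := fun a ha hb => by
    obtain ⟨c1, c2, c3, c4⟩ := a10 a ha (by rw [L1 a ha]; exact hb)
    have ha' := (nU1 a).1 ha
    exact ⟨c1, c2.trans (e1 a ha), c3.trans (s3 a ha'.2.1 ha'.2.2),
      (line_congr c2 c3 c4).trans (L1 a ha)⟩
  have pU2 : p ∈ U2 := (a5 p).2 (Or.inl rfl)
  have pτ : p ≠ m τ := by
    rcases a4 with c | c
    · rw [c]; exact hne.symm
    · exact fun e => c (e ▸ τ2)
  have pN : p ∈ N := by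
    rcases a4 with c | c
    · exact c ▸ hτ
    · by_contra d
      exact (K2 p c fun _ _ w hw => offN d hw).1 pU2
  have τ3 : m τ ∈ U2 := (a5 _).2 (Or.inr ⟨τ2, hne⟩)
  obtain ⟨σ3, m3, U3, q, y', b1, b2, b3, b4, b5, b6, b7, b8, b9, b10⟩ :=
    hop_An hs hl (line σ m) N Src O B0 hB0 j σ2 m2 U2 (m τ) y a1 τ3
      (by rw [(a6 _ τ2 hne).1, s2]; simp) hyB
      (fun j' hj' c => hmin i j' (by omega) ⟨τ, hτ, x, hxL, y, hyL, hxy, hxA, c⟩)
      (by
        rintro j' hj' w ⟨-, a, ha, hb⟩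
        have c1 : a ∉ U1 := fun c => by
          rcases (hU1 a).1 c with c | c
          · exact hN a ha c
          · exact hmin i j' (by omega) (mtB ha hb (onτ c hxL) hxA)
        have c2 := K2 a c1 (by
          rintro i' hi' w' ⟨-, a', -, hb'⟩ hw'
          obtain ⟨f, f1, -, -, f2, -⟩ := hb'.two (h.line_nodup a')
          exact hmin i' j' (by omega) (mtB ha hb (same hb'.mem hw' f1) f2))
        exact ⟨a, c2.1, by rw [c2.2.2.2]; exact hb⟩)
      (by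
        rintro j' hj' w ⟨-, a, ha, hb⟩ o c d
        rcases a9 o d with d | ⟨i', hi', w', hw', d⟩
        · exact hO o c.mem (on1 o d)
        · have : w ∈ A (i' + 1) :=
            Or.inr ⟨fun e => hO w e (On.of_line hb.mem), w', hw', Hit.of_RO hs d c⟩
          exact hmin (i' + 1) j' (by omega) (mtB ha hb hb.mem this))
  have K3 : ∀ a, a ∉ U → a ∉ N → a ∉ U3 ∧ m3 a = m a ∧ σ3 a = σ a := fun a ha hb => by
    have c0 : a ∉ U1 := (nU1 a).2 ⟨ha, fun e => hb (e ▸ hτ), fun e => hb (e ▸ hNm τ hτ)⟩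
    obtain ⟨c1, c2, c3, c4⟩ := K2 a c0 fun _ _ w hw => offN hb hw
    obtain ⟨d1, d2, d3, -⟩ := b10 a c1 (by rw [c4]; exact fun _ _ w hw => offN hb hw)
    exact ⟨d1, d2.trans c2, d3.trans c3⟩
  have UU2 : ∀ c ∈ U, c ∈ U1 ∧ c ≠ τ ∧ c ≠ m τ ∧ c ∈ U2 := fun c hc =>
    have c1 : c ∈ U1 := (hU1 c).2 (Or.inl hc)
    have c2 : c ≠ τ := fun e => hτU (e ▸ hc)
    ⟨c1, c2, fun e => hτU' (e ▸ hc), (a5 c).2 (Or.inr ⟨c1, c2⟩)⟩
  refine ⟨σ3, m3, U3, p, q, x', y', b1, a2.trans b2, pN, ?_, ?_, fun a => ?_, fun c hc => ?_,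
    fun e => ?_, fun e => ?_, fun a ha hb => (K3 a ha hb).2, ?_, a8, b7, b8, fun v hv => ?_⟩
  · rcases b4 with c | c
    · exact c ▸ hNm τ hτ
    · by_contra d
      exact (K3 q (fun e => c (UU2 q e).2.2.2) d).1 ((b5 q).2 (Or.inl rfl))
  · rcases b4 with c | c
    · exact c ▸ pτ
    · exact fun e => c (e ▸ pU2)
  · rw [b5]
    constructor
    · rintro (c | ⟨c, d⟩)
      · exact Or.inr (Or.inr c)
      · rcases (a5 a).1 c with c | ⟨c, c'⟩
        · exact Or.inr (Or.inl c)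
        · rcases (hU1 a).1 c with c | c | c
          · exact Or.inl c
          · exact absurd c c'
          · exact absurd c d
    · rintro (c | c | c)
      · exact Or.inr ⟨(UU2 a c).2.2.2, (UU2 a c).2.2.1⟩
      · exact Or.inr ⟨c ▸ pU2, c ▸ pτ⟩
      · exact Or.inl c
  · obtain ⟨c1, c2, c3, c4⟩ := UU2 c hc
    rw [(b6 c c4 c3).1, (a6 c c1 c2).1, s3 c c2 c3]
  · rw [← e, ← a3, a1.hm.inv] at b3
    rw [← b3, b1.hm.inv]
  · refine ⟨((b6 p pU2 pτ).2 fun c => e ?_).trans a3, b3.trans ((a6 _ τ2 hne).2 (Ne.symm e))⟩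
    rw [← a3, c, a1.hm.inv]
  · rw [(b6 p pU2 pτ).1]; exact a7
  · rcases b9 v hv with c | ⟨_, -, w, -, c⟩
    · rcases a9 v c with c | ⟨_, -, w, -, c⟩
      · exact Or.inl (on1 v c)
      · exact Or.inr c.mem
    · exact Or.inr c.mem

end Pool.Agent.P.MP_4197d5_co
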