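import Pool.Agent.P.MP_4197d5_co.Dom
import Pool.Agent.P.MP_4197d5_co.CEv
import Pool.Agent.P.MP_4197d5_co.Hop

/-! Dominator classes. -/

namespace Pool.Agent.P.MP_4197d5_co

open Classical

set_option linter.unusedSectionVars false

variable {V ι : Type}

def OnC (σ : ι → List V) (m : ι → ι) (C : Finset ι) (v : V) : Prop := ∃ d ∈ C, v ∈ line σ m d

noncomputable def nod (t : ι → V) (C : Finset ι) (col : ι → Bool) (s : Bool → V) (v : V) : V :=
  if h : ∃ d ∈ C, v = t d then s (col h.choose) else v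

def Snk (t : ι → V) (σ : ι → List V) (m : ι → ι) (C : Finset ι) (s : Bool → V) : Set V :=
  {v | (∃ b, v = s b) ∨ (OnC σ m C v ∧ ∀ i, v ≠ t i)}

def Arc (E : V → V → Prop) (t : ι → V) (σ : ι → List V) (m : ι → ι) (C : Finset ι)
    (col : ι → Bool) (s : Bool → V) (u w : V) : Prop :=
  ¬ OnC σ m C u ∧ ∃ v, E u v ∧ ¬ Tg σ m C v ∧ nod t C col s v = w

/-- standing facts for the construction -/
structure DH (E : V → V → Prop) (t : ι → V) (σ : ι → List V) (m : ι → ι) (C : Finset ι)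
    (col : ι → Bool) (s : Bool → V) : Prop where
  hs : ∀ x y, E x y → E y x
  st : St E t σ m ∅
  cm : ∀ d, m d ∈ C ↔ d ∈ C
  hr : ∀ b, ∃ d ∈ C, col d = b ∧ s b = t d

variable {E : V → V → Prop} {t : ι → V} {σ : ι → List V} {m : ι → ι} {C : Finset ι}
  {col : ι → Bool} {s : Bool → V} {u v w x κ κ' : V}

namespace DH

theorem tinj (H : DH E t σ m C col s) {i j : ι} (h : t i = t j) : i = j :=
  H.st.t_mem_iff.1 (h ▸ H.st.t_mem j)

theorem not_both (H : DH E t σ m C col s) (h1 : OnC σ m C v) (h2 : Tg σ m C v) : False := by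
  obtain ⟨d, hd, a⟩ := h1
  obtain ⟨u, hu, b⟩ := h2
  rcases H.st.line_disj a b with rfl | rfl
  · exact hu hd
  · exact hu ((H.cm d).2 hd)

theorem on_cases (_H : DH E t σ m C col s) (h : On σ v) : OnC σ m C v ∨ Tg σ m C v := by
  obtain ⟨i, hi⟩ := (on_iff_line (m := m)).1 h
  by_cases hc : i ∈ C
  · exact Or.inl ⟨i, hc, hi⟩
  · exact Or.inr ⟨i, hc, hi⟩

theorem onc_t (H : DH E t σ m C col s) {i : ι} : OnC σ m C (t i) ↔ i ∈ C := by
  constructor
  · rintro ⟨d, hd, a⟩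
    rcases H.st.t_mem_line.1 a with rfl | rfl
    · exact hd
    · exact (H.cm d).2 hd
  · exact fun h => ⟨i, h, H.st.t_mem_line.2 (Or.inl rfl)⟩

theorem onc_s (H : DH E t σ m C col s) (b : Bool) : OnC σ m C (s b) := by
  obtain ⟨d, hd, -, e⟩ := H.hr b
  rw [e]; exact H.onc_t.2 hd

theorem s_inj (H : DH E t σ m C col s) {b b' : Bool} (h : s b = s b') : b = b' := by
  obtain ⟨d, -, a, e⟩ := H.hr b
  obtain ⟨d', -, a', e'⟩ := H.hr b'
  rw [e, e'] at h
  rw [← a, ← a', H.tinj h]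

theorem nod_t (H : DH E t σ m C col s) {d : ι} (hd : d ∈ C) :
    nod t C col s (t d) = s (col d) := by
  have h : ∃ d' ∈ C, t d = t d' := ⟨d, hd, rfl⟩
  rw [nod, dif_pos h, ← H.tinj h.choose_spec.2]

theorem nod_of (h : ¬ ∃ d ∈ C, v = t d) : nod t C col s v = v := dif_neg h

theorem nod_free (H : DH E t σ m C col s) (h : ¬ OnC σ m C v) : nod t C col s v = v :=
  nod_of fun ⟨_, hd, e⟩ => h (e ▸ H.onc_t.2 hd)

theorem snk_onc (H : DH E t σ m C col s) (h : v ∈ Snk t σ m C s) : OnC σ m C v := by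
  rcases h with ⟨b, rfl⟩ | h
  · exact H.onc_s b
  · exact h.1

theorem nod_snk (H : DH E t σ m C col s) (h : OnC σ m C v) : nod t C col s v ∈ Snk t σ m C s := by
  by_cases e : ∃ d ∈ C, v = t d
  · obtain ⟨d, hd, rfl⟩ := e
    exact Or.inl ⟨_, H.nod_t hd⟩
  · rw [nod_of e]
    exact Or.inr ⟨h, fun i hi => e ⟨i, H.onc_t.1 (hi ▸ h), hi⟩⟩

theorem no_in (H : DH E t σ m C col s) (h : Tg σ m C κ) (u : V) : ¬ Arc E t σ m C col s u κ := by
  rintro ⟨-, v, -, a, rfl⟩
  by_cases e : OnC σ m C v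
  · exact H.not_both (H.snk_onc (H.nod_snk e)) h
  · rw [H.nod_free e] at h; exact a h

theorem conv (H : DH E t σ m C col s) {a : V} (ha : a ∈ Snk t σ m C s) (P : List V) :
    ∀ x, (x :: (P ++ [a])).IsChain (Arc E t σ m C col s) →
      ∃ v, OnC σ m C v ∧ nod t C col s v = a ∧ (x :: (P ++ [v])).IsChain E ∧
        Av (Arc E t σ m C col s) (Snk t σ m C s) ∅ x ∧
        ∀ w ∈ P, ¬ On σ w ∧ Av (Arc E t σ m C col s) (Snk t σ m C s) ∅ w := by
  induction P with
  | nil =>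
    intro x hx
    have hx' : Arc E t σ m C col s x a := by simpa using hx
    obtain ⟨-, v, e, -, e'⟩ := id hx'
    refine ⟨v, ?_, e', by simpa using e, Av.step (by simp) hx' (Av.sink ha (by simp)), by simp⟩
    by_contra hv
    rw [H.nod_free hv] at e'
    exact hv (e' ▸ H.snk_onc ha)
  | cons w P ih =>
    intro x hx
    rw [List.cons_append, List.isChain_cons_cons] at hx
    obtain ⟨v, a1, a2, a3, a4, a5⟩ := ih w hx.2
    have hw : ¬ OnC σ m C w := by
      cases P with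
      | nil => exact (List.isChain_cons_cons.1 hx.2).1.1
      | cons _ _ => exact (List.isChain_cons_cons.1 hx.2).1.1
    obtain ⟨-, v0, e, b1, b2⟩ := id hx.1
    have hv0 : ¬ OnC σ m C v0 := fun h => hw (b2 ▸ H.snk_onc (H.nod_snk h))
    rw [H.nod_free hv0] at b2
    subst b2
    refine ⟨v, a1, a2, ?_, Av.step (by simp) hx.1 a4, fun y hy => ?_⟩
    · rw [List.cons_append, List.isChain_cons_cons]; exact ⟨e, a3⟩
    · rcases List.mem_cons.1 hy with rfl | hy
      · exact ⟨fun h => (H.on_cases h).elim hw b1, a4⟩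
      · exact a5 y hy

end DH

theorem Av.next {D : V → V → Prop} {K : Set V} (h : ¬ Av D K {κ} u) (hne : u ≠ κ) (e : D u v) :
    ¬ Av D K {κ} v := fun h' => h (Av.step hne e h')

theorem Slf.eq {D : V → V → Prop} {K : Set V} (h : Slf D K w) (h' : ¬ Av D K {κ} w) : κ = w := by
  by_contra e; exact h' (h.2 κ e)

def Beh (E : V → V → Prop) (t : ι → V) (σ : ι → List V) (m : ι → ι) (C : Finset ι)
    (col : ι → Bool) (s : Bool → V) (κ : V) : Set V :=
  {b | ¬ On σ b ∧ Av (Arc E t σ m C col s) (Snk t σ m C s) ∅ b ∧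
    ¬ Av (Arc E t σ m C col s) (Snk t σ m C s) {κ} b ∧ b ≠ κ}

def Lev (E : V → V → Prop) (t : ι → V) (σ : ι → List V) (m : ι → ι) (C : Finset ι)
    (col : ι → Bool) (s : Bool → V) (κ : V) : Set V :=
  {v | Tg σ m C v ∧ Av (Arc E t σ m C col s) (Snk t σ m C s) ∅ v ∧
    (¬ Av (Arc E t σ m C col s) (Snk t σ m C s) {κ} v ∨ ∃ b ∈ Beh E t σ m C col s κ, E v b)}

def Far (E : V → V → Prop) (t : ι → V) (σ : ι → List V) (m : ι → ι) (C : Finset ι)
    (col : ι → Bool) (s : Bool → V) : Set V :=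
  {o | ¬ On σ o ∧ ¬ Av (Arc E t σ m C col s) (Snk t σ m C s) ∅ o}

theorem Tg.on (h : Tg σ m C v) : On σ v := let ⟨_, _, a⟩ := h; On.of_line a

theorem OnC.on (h : OnC σ m C v) : On σ v := let ⟨_, _, a⟩ := h; On.of_line a

namespace DH

theorem arc_free (H : DH E t σ m C col s) (hu : ¬ OnC σ m C u) (e : E u v) (hv : ¬ On σ v) :
    Arc E t σ m C col s u v :=
  ⟨hu, v, e, fun h => hv h.on, H.nod_free fun h => hv h.on⟩

theorem lev_tg (H : DH E t σ m C col s) (h : Tg σ m C κ) (hv : v ∈ Lev E t σ m C col s κ) :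
    v = κ := by
  by_contra e
  have k : κ ∉ Snk t σ m C s := fun a => H.not_both (H.snk_onc a) h
  rcases hv.2.2 with a | ⟨b, hb, -⟩
  · exact a (hv.2.1.of_no_in (Ne.symm e) k (H.no_in h))
  · exact hb.2.2.1 (hb.2.1.of_no_in hb.2.2.2.symm k (H.no_in h))

theorem lev_top (H : DH E t σ m C col s) (h : Slf (Arc E t σ m C col s) (Snk t σ m C s) κ)
    (hv : v ∈ Lev E t σ m C col s κ) (h' : Slf (Arc E t σ m C col s) (Snk t σ m C s) κ')
    (hd : ¬ Av (Arc E t σ m C col s) (Snk t σ m C s) {κ'} v) : κ' = κ ∨ κ' = v := by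
  rcases hv.2.2 with a | ⟨b, hb, e⟩
  · exact Or.inl (top_unique hv.2.1 h' h hd a)
  · by_cases e' : v = κ'
    · exact Or.inr e'.symm
    · exact Or.inl (top_unique hb.2.1 h' h
        (Av.next hd e' (H.arc_free (fun a => H.not_both a hv.1) e hb.1)) hb.2.2.1)

theorem sep (H : DH E t σ m C col s) (h : Slf (Arc E t σ m C col s) (Snk t σ m C s) κ)
    (h' : Slf (Arc E t σ m C col s) (Snk t σ m C s) κ') (hne : κ ≠ κ') {x y : V}
    (hx : x ∈ Lev E t σ m C col s κ) (hy : y ∈ Lev E t σ m C col s κ') (hxy : x ≠ y) (ρ : V) :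
    Av (Arc E t σ m C col s) (Snk t σ m C s) {ρ} x ∨
      Av (Arc E t σ m C col s) (Snk t σ m C s) {ρ} y := by
  by_contra hc
  push Not at hc
  obtain ⟨τ, a1, a2⟩ := top_exists (hx.2.1.dom hc.1)
  have b1 := H.lev_top h hx a1 fun a => a2 (a.dom hc.1)
  have b2 := H.lev_top h' hy a1 fun a => a2 (a.dom hc.2)
  rcases b1 with rfl | rfl <;> rcases b2 with e | e
  · exact hne e
  · exact hxy ((H.lev_tg (e ▸ hy.1) hx).trans e)
  · exact hxy (e.trans (H.lev_tg (e ▸ hx.1) hy).symm)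
  · exact hxy e

/-- a dominated neighbour is behind the class or is one of its roots -/
theorem root (H : DH E t σ m C col s) (h : Slf (Arc E t σ m C col s) (Snk t σ m C s) κ)
    (hv : ¬ Tg σ m C v)
    (h1 : OnC σ m C v ∨ Av (Arc E t σ m C col s) (Snk t σ m C s) ∅ v)
    (h2 : ¬ Av (Arc E t σ m C col s) (Snk t σ m C s) {κ} (nod t C col s v)) :
    v ∈ Beh E t σ m C col s κ ∨
      Nd t σ m C col {κ | Slf (Arc E t σ m C col s) (Snk t σ m C s) κ} s v κ := by
  by_cases hc : OnC σ m C v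
  · right
    have e := (Slf.of_sink (H.nod_snk hc)).eq h2
    by_cases e' : ∃ d ∈ C, v = t d
    · obtain ⟨d, hd, rfl⟩ := e'
      exact Or.inl ⟨d, hd, by rw [e, H.nod_t hd], rfl⟩
    · rw [nod_of e'] at e
      subst e
      refine Or.inr ⟨⟨h, hv, fun b e => ?_⟩, rfl⟩
      obtain ⟨d, hd, -, e2⟩ := H.hr b
      exact e' ⟨d, hd, e.trans e2⟩
  · rw [H.nod_free hc] at h2
    by_cases e : v = κ
    · subst e
      exact Or.inr (Or.inr ⟨⟨h, hv, fun b e => hc (e ▸ H.onc_s b)⟩, rfl⟩)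
    · exact Or.inl ⟨fun a => (H.on_cases a).elim hc hv, h1.resolve_left hc, h2, e⟩

theorem rch_nod (H : DH E t σ m C col s)
    (h1 : OnC σ m C v ∨ Av (Arc E t σ m C col s) (Snk t σ m C s) ∅ v) :
    Av (Arc E t σ m C col s) (Snk t σ m C s) ∅ (nod t C col s v) := by
  by_cases hc : OnC σ m C v
  · exact Av.sink (H.nod_snk hc) (by simp)
  · rw [H.nod_free hc]; exact h1.resolve_left hc

end DH

end Pool.Agent.P.MP_4197d5_co
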