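import Pool.Agent.P.MP_4197d5_co.StOps

/-! Merging through a complete gadget. -/

namespace Pool.Agent.P.MP_4197d5_co

open Classical

set_option linter.unusedSectionVars false

variable {V ι : Type} [Fintype ι] {E : V → V → Prop} {t : ι → V} {l : ι → ι}
  {σ : ι → List V} {m : ι → ι}

/-- one exchange of the pairs of `a` and `τ` -/
theorem v1 (hs : ∀ x y, E x y → E y x) (h : St E t σ m ∅) {a τ : ι} {m' : ι → ι}
    (hX : Xch m m' a τ) {x g f1 f2 : V} {Ra P M Q : List V} (e1 : E (t a) f1) (e2 : E x g)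
    (e3 : E x f2) (la : line σ m a = t a :: g :: Ra)
    (lτ : line σ m τ = P ++ f1 :: (M ++ f2 :: Q)) (hav : ¬ On σ x ∨ x ∈ M) :
    ∃ σ', St E t σ' m' ∅ := by
  have ca := h.link a (by simp)
  have cτ := h.link τ (by simp)
  rw [la] at ca
  rw [lτ] at cτ
  have c1 : (P ++ [f1]).IsChain E := (List.isChain_split.1 cτ).1
  have c2 : (f2 :: Q).IsChain E := by
    rw [← List.cons_append, ← List.append_assoc] at cτ
    exact chain_right cτ
  have c3 : (g :: Ra).IsChain E := (List.isChain_cons_cons.1 ca).2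
  obtain ⟨σ', h1, -⟩ := h.exch0 hs hX (P1 := [t a]) (M1 := []) (Q1 := g :: Ra) (P2 := P ++ [f1])
    (M2 := M) (Q2 := f2 :: Q) (c1 := []) (c2 := [x]) (by simpa using la) (by simpa using lτ)
    (by simp) (by simp) (by simp) (by simp) (by simp) (by simpa using hav)
    (by simpa using List.isChain_cons_cons.2 ⟨e1, by simpa using chain_rev hs c1⟩)
    (by
      have := chain_edge (A := Ra.reverse) (by simpa using chain_rev hs c3) (hs _ _ e2)
        (List.isChain_cons_cons.2 ⟨e3, c2⟩)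
      simpa using this)
  exact ⟨σ', h1⟩

/-- both exchanges of the pairs of `a` and `τ` can be realized (`a` by an edge, the other new pair
through `x`); use `Xch.any`, `Xch.co`, `St.exch0` -/
theorem v2 (hs : ∀ x y, E x y → E y x) (hl : Pr l) (h : St E t σ m ∅) (F : Finset V) {a τ : ι}
    {x g f1 f2 : V} {Ra P M Q : List V} (ha : ∀ f ∈ F, E (t a) f) (hx : ∀ f ∈ F, E x f)
    (n1 : τ ≠ a) (n2 : τ ≠ m a) (la : line σ m a = t a :: g :: Ra) (hg : g ∈ F)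
    (lτ : line σ m τ = P ++ f1 :: (M ++ f2 :: Q)) (h1 : f1 ∈ F) (h2 : f2 ∈ F)
    (hav : ¬ On σ x ∨ x ∈ M) :
    ∃ σ' m', St E t σ' m' ∅ ∧ Co l m m' ∧ cc l m' ∅ τ a := by
  obtain ⟨m1, x1⟩ := xch_exists h.hm n1.symm n2.symm
  obtain ⟨m2, x2⟩ := xch_exists h.hm (a := a) (b := m τ)
    (fun e => n2 (by rw [e, h.hm.inv])) (fun e => n1 (h.hm.inj e).symm)
  rcases Xch.any hl h.hm x1 x2 with hc | hc
  · obtain ⟨σ', h'⟩ := v1 hs h x1 (ha _ h1) (hx _ hg) (hx _ h2) la lτ hav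
    exact ⟨σ', m1, h', x1.co h.hm hc, cc.of_eq x1.hb⟩
  · obtain ⟨σ', h'⟩ := v1 hs h x2 (P := Q.reverse) (M := M.reverse) (Q := P.reverse) (ha _ h2)
      (hx _ hg) (hx _ h1) la (by rw [line_rev h.hm, lτ]; simp) (by simpa using hav)
    refine ⟨σ', m2, h', x2.co h.hm hc, (hc.trans (cc.of_eq ?_)).symm⟩
    rw [x2.hma, h.hm.inv]

/-- If `ζ ~ τ` use `v2`. Otherwise exchange to `(ζ, τ)` by the edge `y φ` and `(m ζ, m τ)`
through `x` (`Xch.diff`), then use `v2` for the new line of `m ζ`. -/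
theorem fin (hs : ∀ x y, E x y → E y x) (hl : Pr l) (h : St E t σ m ∅) (F : Finset V) {a τ ζ : ι}
    {x g f1 f2 y f0 φ : V} {Ra P M Q P0 M0 Q0 : List V} (ha : ∀ f ∈ F, E (t a) f)
    (hx : ∀ f ∈ F, E x f)
    (n1 : τ ≠ a) (n2 : τ ≠ m a) (n3 : Out m a τ ζ) (la : line σ m a = t a :: g :: Ra)
    (hg : g ∈ F) (lτ : line σ m τ = P ++ f1 :: (M ++ f2 :: Q)) (h1 : f1 ∈ F) (h2 : f2 ∈ F)
    (hav : ¬ On σ x ∨ x ∈ M) (lζ : line σ m ζ = P0 ++ y :: (M0 ++ f0 :: Q0)) (h0 : f0 ∈ F)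
    (hφ : φ ∈ P ++ [f1]) (hy : E y φ) :
    ∃ σ' m', St E t σ' m' ∅ ∧ Co l m m' ∧ cc l m' ∅ ζ a := by
  by_cases hc : cc l m ∅ ζ τ
  · obtain ⟨σ', m', a1, a2, a3⟩ := v2 hs hl h F ha hx n1 n2 la hg lτ h1 h2 hav
    exact ⟨σ', m', a1, a2, (a2 _ _ hc).trans a3⟩
  obtain ⟨z1, z2, z3, z4⟩ := n3
  obtain ⟨m1, x1⟩ := xch_exists h.hm (a := ζ) (b := τ) z3 (fun e => z4 (h.hm.eq_iff.1 e))
  obtain ⟨d1, d2⟩ := x1.diff hl h.hm hc
  obtain ⟨P1, P2, eP⟩ := List.append_of_mem hφ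
  have cζ := h.link ζ (by simp)
  have cτ := h.link τ (by simp)
  have lτ' : line σ m τ = (P1 ++ [φ]) ++ (P2 ++ M) ++ f2 :: Q := by
    rw [lτ, show P ++ f1 :: (M ++ f2 :: Q) = (P ++ [f1]) ++ (M ++ f2 :: Q) by simp, eP]
    simp
  have lζ' : line σ m ζ = (P0 ++ [y]) ++ M0 ++ f0 :: Q0 := by rw [lζ]; simp
  rw [lζ'] at cζ
  rw [lτ'] at cτ
  have oa : Out m ζ τ a := ⟨z1.symm, fun e => z2 (by rw [e, h.hm.inv]), n1.symm,
    fun e => n2 (by rw [e, h.hm.inv])⟩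
  obtain ⟨σ1, s1, -, s3, s4⟩ := h.exch0 hs x1 (c1 := []) (c2 := [x]) lζ' lτ'
    (by simp) (by simp) (by simp) (by simp) (by simp)
    (by
      intro v hv
      rw [List.nil_append, List.mem_singleton] at hv
      subst hv
      exact hav.imp id fun a => Or.inr (by simp [a]))
    (by
      have := chain_edge (B := P1.reverse) (chain_left (chain_left cζ)) hy
        (by simpa using chain_rev hs (chain_left (chain_left cτ)))
      simpa using this)
    (by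
      have := chain_edge (A := Q0.reverse) (by simpa using chain_rev hs (chain_right cζ))
        (hs _ _ (hx _ h0)) (List.isChain_cons_cons.2 ⟨hx _ h2, chain_right cτ⟩)
      simpa using this)
  obtain ⟨σ', m', a1, a2, a3⟩ := v2 hs hl s1 F (a := a) (τ := m ζ) (P := Q0.reverse) (M := [x])
    (Q := Q) ha hx (fun e => z2 (h.hm.eq_iff.1 e))
    (by rw [x1.oth a oa]; exact fun e => z1 (h.hm.inj e)) (by rw [(s4 a oa).2, la]) hg
    (by rw [s3]; simp) h0 h2 (Or.inr (by simp))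
  exact ⟨σ', m', a1, d2.trans a2, (a2 _ _ d1).trans a3⟩

end Pool.Agent.P.MP_4197d5_co
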