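import Mathlib

/-! Definitions for the proof that k independent edges lie on a cycle.
`t : ι → V` lists the ends (terminals) of the prescribed edges, `l` is the partner map of the
prescribed edges, `E` is the adjacency relation of the graph with the prescribed edges removed. -/

namespace Pool.Agent.P.MP_4197d5_co

open Classical

set_option linter.unusedSectionVars false

variable {V ι : Type}

/-- fixed point free involution -/
structure Pr (m : ι → ι) : Prop where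
  inv : ∀ i, m (m i) = i
  fpf : ∀ i, m i ≠ i

/-- the line through the pair `i, m i`: the stub of `i` followed by the reversed stub of `m i` -/
def line (σ : ι → List V) (m : ι → ι) (i : ι) : List V := σ i ++ (σ (m i)).reverse

/-- a path system: disjoint stubs `σ i` starting at the terminals, a pairing `m`, and the set `U`
of loose indices; outside `U` the two stubs of a pair join to a path -/
structure St (E : V → V → Prop) (t : ι → V) (σ : ι → List V) (m : ι → ι) (U : Finset ι) :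
    Prop where
  hm : Pr m
  head : ∀ i, (σ i).head? = some (t i)
  chain : ∀ i, (σ i).IsChain E
  nodup : ∀ i, (σ i).Nodup
  disj : ∀ i j, i ≠ j → ∀ v ∈ σ i, v ∉ σ j
  ucl : ∀ i ∈ U, m i ∈ U
  link : ∀ i, i ∉ U → (line σ m i).IsChain E

/-- vertex used by the path system -/
def On (σ : ι → List V) (v : V) : Prop := ∃ i, v ∈ σ i

/-- connection through `l` and through `m` outside `U` -/
def cc (l m : ι → ι) (U : Finset ι) : ι → ι → Prop :=
  Relation.EqvGen fun x y => y = l x ∨ (x ∉ U ∧ y = m x)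

/-- the classes of `m'` are coarser than those of `m` -/
def Co (l m m' : ι → ι) : Prop := ∀ x y, cc l m ∅ x y → cc l m' ∅ x y

/-- `i` is outside the pairs of `u` and `v` -/
def Out (m : ι → ι) (u v i : ι) : Prop := i ≠ u ∧ i ≠ m u ∧ i ≠ v ∧ i ≠ m v

/-- exchange: the pairs `(a, m a)`, `(b, m b)` become `(a, b)`, `(m a, m b)` -/
structure Xch (m m' : ι → ι) (a b : ι) : Prop where
  inv : Pr m'
  ne : a ≠ b
  ne' : m a ≠ b
  ha : m' a = b
  hma : m' (m a) = m b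
  oth : ∀ i, Out m a b i → m' i = m i

/-- `x` lies in a closed class (a cycle) -/
def Cld (l m : ι → ι) (U : Finset ι) (x : ι) : Prop := ∀ y, cc l m U x y → y ∉ U

noncomputable def cl [Fintype ι] (l m : ι → ι) (U : Finset ι) (x : ι) : Finset ι :=
  Finset.univ.filter (cc l m U x)

/-- the potential -/
noncomputable def Phi [Fintype ι] (l m : ι → ι) (U : Finset ι) : ℕ :=
  ∑ x ∈ Finset.univ.filter (Cld l m U), 3 ^ (cl l m U x).card

/-- at most one loose pair -/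
def Sm (m : ι → ι) (U : Finset ι) : Prop := U = ∅ ∨ ∃ a, U = {a, m a}

/-- the potential of `(m, U)` can be improved -/
def Imp [Fintype ι] (E : V → V → Prop) (t : ι → V) (l m : ι → ι) (U : Finset ι) : Prop :=
  ∃ σ' m' U', St E t σ' m' U' ∧ Sm m' U' ∧ Phi l m U < Phi l m' U'

/-- adjacency of the whole graph -/
def GA (E : V → V → Prop) (t : ι → V) (l : ι → ι) (v w : V) : Prop :=
  E v w ∨ ∃ i, v = t i ∧ w = t (l i)

/-- standing hypotheses -/
structure Ctx [Fintype ι] (E : V → V → Prop) (t : ι → V) (l : ι → ι) (k : ℕ) : Prop where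
  symm : ∀ x y, E x y → E y x
  irr : ∀ x, ¬ E x x
  hl : Pr l
  tinj : Function.Injective t
  noL : ∀ i, ¬ E (t i) (t (l i))
  card : Fintype.card ι = 2 * k
  kpos : 1 ≤ k
  hk : ∀ (Y : Set V) (S : Finset V) (y v : V), y ∈ Y → y ∉ S → v ∉ Y → v ∉ S →
    (∀ x ∈ Y, x ∉ S → ∀ w, GA E t l x w → w ∈ Y ∨ w ∈ S) → k ≤ S.card
  hd : ∀ (v : V) (S : Finset V), (∀ w, GA E t l v w → w ∈ S) → k + 1 ≤ S.card
  hc : ∀ (Y : Set V) (y : V), y ∈ Y → (∀ x ∈ Y, ∀ w, E x w → w ∈ Y) → ∀ v, v ∈ Y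

/-- a solution: no loose pair and one class -/
def Sol (E : V → V → Prop) (t : ι → V) (l : ι → ι) : Prop :=
  ∃ σ m, St E t σ m ∅ ∧ ∀ x y, cc l m ∅ x y

def addE (E : V → V → Prop) (x v : V) : V → V → Prop :=
  fun a b => E a b ∨ (a = x ∧ b = v) ∨ (a = v ∧ b = x)

/-- adding any admissible edge produces a solution -/
def EMax (E : V → V → Prop) (t : ι → V) (l : ι → ι) : Prop :=
  ∀ x v, x ≠ v → ¬ E x v → (∀ i, ¬ (x = t i ∧ v = t (l i))) → Sol (addE E x v) t l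

/-- vertices of `O` reachable from `w` through `O` -/
inductive RO (E : V → V → Prop) (O : Set V) (w : V) : V → Prop
  | base {o : V} : E w o → o ∈ O → RO E O w o
  | step {o o' : V} : RO E O w o → E o o' → o' ∈ O → RO E O w o'

/-- `v` is reachable from `w` by a walk with inner vertices in `O` -/
def Hit (E : V → V → Prop) (O : Set V) (w v : V) : Prop := E w v ∨ ∃ o, RO E O w o ∧ E o v

/-- `w` lies strictly between two members of `A` on the list -/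
def Btw (L : List V) (A : Set V) (w : V) : Prop :=
  ∃ l1 l2, L = l1 ++ w :: l2 ∧ (∃ f ∈ l1, f ∈ A) ∧ ∃ f ∈ l2, f ∈ A

/-- the list has two distinct members of `A` -/
def Dbl (L : List V) (A : Set V) : Prop := ∃ x ∈ L, ∃ y ∈ L, x ≠ y ∧ x ∈ A ∧ y ∈ A

def Itr (L : ι → List V) (N : Finset ι) (Src A : Set V) : Set V :=
  {w | w ∈ Src ∧ ∃ u ∈ N, Btw (L u) A w}

/-- levels of the hopping closure -/
def An (E : V → V → Prop) (L : ι → List V) (N : Finset ι) (Src O A0 : Set V) : ℕ → Set V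
  | 0 => A0
  | n + 1 => An E L N Src O A0 n ∪
      {v | v ∉ O ∧ ∃ w ∈ Itr L N Src (An E L N Src O A0 n), Hit E O w v}

/-- the hopping closure of `A0` -/
def Acl (E : V → V → Prop) (L : ι → List V) (N : Finset ι) (Src O A0 : Set V) : Set V :=
  {v | ∃ n, v ∈ An E L N Src O A0 n}

/-- the region swept by the hops -/
def Xcl (E : V → V → Prop) (L : ι → List V) (N : Finset ι) (Src O A0 : Set V) : Set V :=
  {x | x ∈ Itr L N Src (Acl E L N Src O A0) ∨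
    ∃ w ∈ Itr L N Src (Acl E L N Src O A0), RO E O w x}

/-- complete gadget at the terminal `a` -/
structure Gad (E : V → V → Prop) (t : ι → V) (k : ℕ) (a : ι) (X F : Finset V) : Prop where
  nt : ∀ x ∈ X, ∀ i, x ≠ t i
  two : 2 ≤ X.card
  card : F.card + 1 = k
  aF : t a ∉ F
  XF : ∀ x ∈ X, x ∉ F
  adjX : ∀ x ∈ X, ∀ v, E x v ↔ v ≠ x ∧ (v ∈ X ∨ v ∈ F ∨ v = t a)
  adja : ∀ v, E (t a) v ↔ v ∈ X ∨ v ∈ F

/-- `u` is not one of the two loose indices -/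
def Rl (e : Bool → ι) (u : ι) : Prop := ∀ c, u ≠ e c

/-- tight structure of a path system with one loose pair `e false, e true` -/
structure TS (E : V → V → Prop) (t : ι → V) (k : ℕ) (σ : ι → List V) (m : ι → ι) (e : Bool → ι)
    (X F : Bool → Finset V) (ty : ι → Option Bool) (pre mid : ι → List V) (gate : ι → V) :
    Prop where
  st : St E t σ m {e false, e true}
  me : ∀ c, m (e c) = e (!c)
  triv : ∀ c, σ (e c) = [t (e c)]
  gad : ∀ c, Gad E t k (e c) (X c) (F c)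
  eF : ∀ c, t (e c) ∉ F (!c)
  Fon : ∀ c, ∀ f ∈ F c, ∃ u, Rl e u ∧ f ∈ line σ m u
  tym : ∀ u, ty (m u) = ty u
  dbl : ∀ u c, Rl e u → ty u = some c →
    line σ m u = pre u ++ gate u :: (mid u ++ gate (m u) :: (pre (m u)).reverse) ∧
      gate u ∈ F c ∧ gate u ∉ F (!c) ∧ (∀ x ∈ mid u, x ∈ X c) ∧ mid (m u) = (mid u).reverse
  sgl : ∀ u, Rl e u → ty u = none →
    line σ m u = pre u ++ gate u :: (pre (m u)).reverse ∧ gate (m u) = gate u ∧
      ∀ c, gate u ∈ F c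
  hpre : ∀ u, Rl e u → ∀ v ∈ pre u, ∀ c, v ∉ F c ∧ v ∉ X c

/-- the zone of an index -/
def zone (ty : ι → Option Bool) (pre : ι → List V) (gate : ι → V) (u : ι) : List V :=
  if ty u = none then pre u else pre u ++ [gate u]

/-- valid link between the zones of `i` (compatible with side `c`) and `j` (side `!c`) -/
structure VL (E : V → V → Prop) (σ : ι → List V) (e : Bool → ι) (X : Bool → Finset V)
    (ty : ι → Option Bool) (pre : ι → List V) (gate : ι → V) (c : Bool) (i j : ι)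
    (Pi q Pj : List V) : Prop where
  ri : Rl e i
  rj : Rl e j
  ne : i ≠ j
  ti : ty i ≠ some (!c)
  tj : ty j ≠ some c
  ni : Pi ≠ []
  nj : Pj ≠ []
  pi : Pi <+: zone ty pre gate i
  pj : Pj <+: zone ty pre gate j
  nd : q.Nodup
  free : ∀ o ∈ q, ¬ On σ o ∧ ∀ c', o ∉ X c'
  ch : (Pi ++ q ++ Pj.reverse).IsChain E

/-- the closed system built from a valid link -/
structure F1 (E : V → V → Prop) (t : ι → V) (σ : ι → List V) (m : ι → ι) (e : Bool → ι)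
    (pre : ι → List V) (gate : ι → V) (c : Bool) (i j : ι) (Pi q Pj : List V)
    (σ1 : ι → List V) (m1 : ι → ι) : Prop where
  st : St E t σ1 m1 ∅
  jm : j ≠ m i
  mi : m1 i = j
  ma : m1 (e c) = m i
  mb : m1 (e (!c)) = m j
  oth : ∀ u, Rl e u → Out m i j u → m1 u = m u ∧ line σ1 m1 u = line σ m u
  li : line σ1 m1 i = Pi ++ q ++ Pj.reverse
  la : line σ1 m1 (e c) = t (e c) :: gate (m i) :: (pre (m i)).reverse
  lb : line σ1 m1 (e (!c)) = t (e (!c)) :: gate (m j) :: (pre (m j)).reverse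

/-- the swapped system: `z` and `l z` loose, `e c` joined to `m z`, `e (!c)` to `m (l z)` -/
structure SW (E : V → V → Prop) (t : ι → V) (l : ι → ι) (σ : ι → List V) (m : ι → ι)
    (e : Bool → ι) (pre : ι → List V) (gate : ι → V) (c : Bool) (z : ι)
    (σ2 : ι → List V) (m2 : ι → ι) : Prop where
  st : St E t σ2 m2 {z, l z}
  zm : l z ≠ m z
  mz : m2 z = l z
  ma : m2 (e c) = m z
  mb : m2 (e (!c)) = m (l z)
  oth : ∀ u, Rl e u → Out m z (l z) u → m2 u = m u ∧ line σ2 m2 u = line σ m u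
  sz : σ2 z = [t z]
  slz : σ2 (l z) = [t (l z)]
  la : line σ2 m2 (e c) = t (e c) :: gate (m z) :: (pre (m z)).reverse
  lb : line σ2 m2 (e (!c)) = t (e (!c)) :: gate (m (l z)) :: (pre (m (l z))).reverse

/-- tight structure of a closed system relative to the class `C` -/
structure CS (E : V → V → Prop) (t : ι → V) (l : ι → ι) (k : ℕ) (σ : ι → List V) (m : ι → ι)
    (C : Finset ι) (col : ι → Bool) (k1 k2 : ℕ) (Γ : Finset V) (M : Set V)
    (D : Bool → Finset ι) (X : Bool → Finset V) (pre mid : ι → List V) (gate : ι → V) :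
    Prop where
  st : St E t σ m ∅
  hC : ∀ x ∈ C, ∀ y, y ∈ C ↔ cc l m ∅ x y
  coll : ∀ x, col (l x) = !col x
  colm : ∀ x, col (m x) = !col x
  hk : k = k1 + k2
  k1c : ∀ c, (C.filter fun d => col d = c).card = k1
  DC : ∀ c, ∀ u ∈ D c, u ∉ C
  Dm : ∀ c, ∀ u ∈ D c, m u ∈ D c
  Dd : ∀ c, ∀ u ∈ D c, u ∉ D (!c)
  Dne : ∀ c, (D c).Nonempty
  Dcard : ∀ c, (D c).card = (D (!c)).card
  Gcard : ∀ c, Γ.card + (D c).card ≤ k2
  dbl : ∀ c, ∀ u ∈ D c,
    line σ m u = pre u ++ gate u :: (mid u ++ gate (m u) :: (pre (m u)).reverse) ∧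
      (∀ x ∈ mid u, x ∈ X c) ∧ mid (m u) = (mid u).reverse
  Xon : ∀ c, ∀ x ∈ X c, ∀ u, x ∈ line σ m u → u ∈ D c ∧ x ∈ mid u
  Xd : ∀ c, ∀ x ∈ X c, x ∉ X (!c) ∧ x ∉ M
  Xnt : ∀ c, ∀ x ∈ X c, ∀ i, x ≠ t i
  Mnt : ∀ w ∈ M, ∀ i, w ≠ t i
  Mon : ∀ w ∈ M, ∀ u, w ∈ line σ m u → u ∈ C
  N1 : ∀ w ∈ M, ∀ v, E w v → v ∈ M ∨ v ∈ Γ ∨ ∃ d ∈ C, v = t d
  N2 : ∀ d ∈ C, ∀ v, E (t d) v → v ∈ M ∨ v ∈ Γ ∨ (∃ d' ∈ C, v = t d') ∨ v ∈ X (col d) ∨
    ∃ u ∈ D (col d), v = gate u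
  Xc : ∀ c, ∀ x ∈ X c, (∀ d ∈ C, col d = c → E x (t d)) ∧ ∀ u ∈ D c, E x (gate u)
  X2 : ∀ c, (X c).Nonempty → 2 ≤ (X c).card
  Xe : ∀ c, X c = ∅ → ∀ u ∈ D c, ∃ d ∈ C, col d = c ∧ E (t d) (gate u)
  K1 : ∀ d ∈ C, ∀ n ∈ line σ m d, (∀ i, n ≠ t i) → n ∈ M ∨ (n ∈ Γ ∧ ∃ g1 g2, ∀ v, E n v →
    v ∈ M ∨ v ∈ Γ ∨ (∃ d' ∈ C, v = t d') ∨ v = g1 ∨ v = g2)

/-- outcome of the two closures from the loose indices when no event occurs -/
structure NoEv (E : V → V → Prop) (t : ι → V) (σ : ι → List V) (m : ι → ι) (e : Bool → ι)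
    (N : Finset ι) (O Src : Set V) (A X : Bool → Set V) : Prop where
  n1 : ∀ c x v, x = t (e c) ∨ x ∈ X c → E x v → v = t (e c) ∨ v ∈ X c ∨ (v ∈ A c ∧ v ∉ O)
  n2 : ∀ c, ∀ x ∈ X c, x ∈ O ∨ (x ∈ Src ∧ ∃ u ∈ N, Btw (line σ m u) (A c) x)
  n3 : ∀ c, ∀ x ∈ Src, ∀ u ∈ N, Btw (line σ m u) (A c) x → x ∈ X c
  n4 : ∀ c, t (e (!c)) ∉ A c
  n5 : ∀ u ∈ N, ∀ x ∈ line σ m u, ∀ y ∈ line σ m u, x ∈ A false → y ∈ A true → x = y

/-- target vertex: on a line outside the class `C` -/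
def Tg (σ : ι → List V) (m : ι → ι) (C : Finset ι) (v : V) : Prop := ∃ u, u ∉ C ∧ v ∈ line σ m u

/-- ordinary class -/
def Ordi (σ : ι → List V) (m : ι → ι) (C : Finset ι) (Cls : Set V) (s : Bool → V) (κ : V) :
    Prop := κ ∈ Cls ∧ ¬ Tg σ m C κ ∧ ∀ c, κ ≠ s c

/-- `v` is a root vertex of the class `κ` -/
def Nd (t : ι → V) (σ : ι → List V) (m : ι → ι) (C : Finset ι) (col : ι → Bool) (Cls : Set V)
    (s : Bool → V) (v κ : V) : Prop :=
  (∃ d ∈ C, κ = s (col d) ∧ v = t d) ∨ (Ordi σ m C Cls s κ ∧ v = κ)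

/-- dominator classes of a closed system relative to the class `C` when no event occurs -/
structure DS (E : V → V → Prop) (t : ι → V) (σ : ι → List V) (m : ι → ι) (C : Finset ι)
    (col : ι → Bool) (Cls : Set V) (s : Bool → V) (A X : V → Set V) : Prop where
  d0 : ∀ c, s c ∈ Cls ∧ ¬ Tg σ m C (s c)
  d0' : s false ≠ s true
  d1 : ∀ κ ∈ Cls, ∀ κ' ∈ Cls, κ ≠ κ' → ∀ u, u ∉ C → ∀ x ∈ line σ m u, ∀ y ∈ line σ m u,
    x ∈ A κ → y ∈ A κ' → x = y
  d2 : ∀ κ ∈ Cls, Tg σ m C κ → ∀ v, v ∈ A κ ↔ v = κ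
  d3 : ∀ κ ∈ Cls, ¬ Tg σ m C κ → ∀ x ∈ X κ, ∀ v, E x v →
    v ∈ X κ ∨ (v ∈ A κ ∧ Tg σ m C v) ∨ Nd t σ m C col Cls s v κ
  d4 : ∀ κ ∈ Cls, ∀ x ∈ X κ, ¬ On σ x ∨ ∃ u, u ∉ C ∧ Btw (line σ m u) (A κ) x
  d4' : ∀ κ ∈ Cls, ∀ x u, u ∉ C → Btw (line σ m u) (A κ) x → x ∈ X κ
  d5 : ∀ w κ, Nd t σ m C col Cls s w κ → ∀ v, E w v → (∃ κ', Nd t σ m C col Cls s v κ') ∨
    v ∈ X κ ∨ (v ∈ A κ ∧ Tg σ m C v) ∨ (v ∈ Cls ∧ Tg σ m C v)
  d6 : ∀ d ∈ C, ∀ n ∈ line σ m d, (∀ i, n ≠ t i) → Ordi σ m C Cls s n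
  d6' : ∀ κ, Ordi σ m C Cls s κ → ∀ i, κ ≠ t i
  d7 : ∀ κ ∈ Cls, ∀ κ' ∈ Cls, κ ≠ κ' → ∀ x ∈ X κ, x ∉ X κ'
  d7' : ∀ κ ∈ Cls, ∀ w, Ordi σ m C Cls s w → w ∉ X κ
  d8 : ∀ c, (∀ x, x ∉ X (s c)) → ∀ v ∈ A (s c), Tg σ m C v → ∃ d ∈ C, col d = c ∧ E (t d) v

/-- the system in which a double line `τ` is attached to `si, sj`; `m si, m sj` are loose -/
structure QF (E : V → V → Prop) (t : ι → V) (σ : ι → List V) (m : ι → ι) (C : Finset ι)
    (col : ι → Bool) (D : Bool → Finset ι) (X : Bool → Finset V) (c : Bool) (τ si sj : ι)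
    (σ3 : ι → List V) (m3 : ι → ι) : Prop where
  st : St E t σ3 m3 {m si, m sj}
  hτ : τ ∈ D c
  hi : si ∈ C
  hj : sj ∈ C
  ne : si ≠ sj
  ci : col si = c
  cj : col sj = c
  m1 : m3 τ = si
  m2 : m3 (m τ) = sj
  m3' : m3 (m si) = m sj
  s1 : σ3 (m si) = [t (m si)]
  s2 : σ3 (m sj) = [t (m sj)]
  oth : ∀ u, u ≠ τ → u ≠ m τ → Out m si sj u → m3 u = m u ∧ line σ3 m3 u = line σ m u
  on : ∀ x, On σ3 x → x ∈ X c ∨ (∃ i, x = t i) ∨ ∃ u, Out m si sj u ∧ x ∈ line σ m u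

end Pool.Agent.P.MP_4197d5_co
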