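import Pool.Agent.P.MP_a3bdf6_co.Menger
import Pool.Agent.P.MP_4197d5_co.Defs

/-! Dominators in a digraph with sinks. -/

namespace Pool.Agent.P.MP_4197d5_co

open Classical

set_option linter.unusedSectionVars false

variable {V : Type} {D : V → V → Prop} {K S : Set V} {u v x y κ κ' : V}

/-- there is a walk from the vertex to `K` avoiding `S` -/
inductive Av (D : V → V → Prop) (K S : Set V) : V → Prop
  | sink {u : V} : u ∈ K → u ∉ S → Av D K S u
  | step {u v : V} : u ∉ S → D u v → Av D K S v → Av D K S u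

/-- a vertex that reaches `K` and has no dominator but itself -/
def Slf (D : V → V → Prop) (K : Set V) (v : V) : Prop :=
  Av D K ∅ v ∧ ∀ κ, κ ≠ v → Av D K {κ} v

theorem Av.not_mem (h : Av D K S u) : u ∉ S := by
  cases h <;> assumption

theorem Av.empty (h : Av D K S u) : Av D K ∅ u := by
  induction h with
  | sink a _ => exact Av.sink a (Set.notMem_empty _)
  | step _ e _ ih => exact Av.step (Set.notMem_empty _) e ih

theorem Slf.of_sink (h : u ∈ K) : Slf D K u := by
  exact ⟨Av.sink h (Set.notMem_empty _), fun κ hκ => Av.sink h fun e => hκ (Eq.symm e)⟩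

/-- a walk from `v` passes the dominator `κ` (induction on the walk) -/
theorem Av.dom (h : Av D K S v) (hd : ¬ Av D K {κ} v) : Av D K S κ := by
  induction h with
  | @sink u a b =>
    by_cases e : u = κ
    · exact e ▸ Av.sink a b
    · exact absurd (Av.sink a e) hd
  | @step u w a e b ih =>
    by_cases e' : u = κ
    · exact e' ▸ Av.step a e b
    · exact ih fun h' => hd (Av.step e' e h')

/-- first hit argument (induction on the walk from `u`) -/
theorem Av.first (h : Av D K ∅ u) (hne : κ ≠ κ') (h1 : Av D K {κ} κ') (h2 : Av D K {κ'} κ) :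
    Av D K {κ} u ∨ Av D K {κ'} u := by
  induction h with
  | @sink u a _ =>
    by_cases e : u = κ
    · exact Or.inr (e ▸ h2)
    · exact Or.inl (Av.sink a e)
  | @step u w _ e _ ih =>
    by_cases e1 : u = κ
    · exact Or.inr (e1 ▸ h2)
    by_cases e2 : u = κ'
    · exact Or.inl (e2 ▸ h1)
    rcases ih with ih | ih
    · exact Or.inl (Av.step e1 e ih)
    · exact Or.inr (Av.step e2 e ih)

theorem top_unique (h : Av D K ∅ u) (h1 : Slf D K κ) (h2 : Slf D K κ') (d1 : ¬ Av D K {κ} u)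
    (d2 : ¬ Av D K {κ'} u) : κ = κ' := by
  by_contra hne
  rcases h.first hne (h2.2 κ hne) (h1.2 κ' (Ne.symm hne)) with a | a
  · exact d1 a
  · exact d2 a

/-- Induction on the walk: for a step `v → v'` with `κ'` for `v'`, if `v` is not `Slf` take
`κ ≠ v` dominating `v`, hence `v'`; by `Av.first` either `κ = κ'` or `κ'` dominates `κ`, and then
`κ'` dominates `v` by `Av.dom`. -/
theorem top_exists (h : Av D K ∅ v) : ∃ κ, Slf D K κ ∧ ¬ Av D K {κ} v := by
  induction h with
  | @sink u a _ => exact ⟨u, Slf.of_sink a, fun h' => h'.not_mem rfl⟩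
  | @step u w a e b ih =>
    by_cases hs : Slf D K u
    · exact ⟨u, hs, fun h' => h'.not_mem rfl⟩
    obtain ⟨κ', s', d'⟩ := ih
    have : ∃ κ, κ ≠ u ∧ ¬ Av D K {κ} u := by
      by_contra hc
      push Not at hc
      exact hs ⟨Av.step a e b, hc⟩
    obtain ⟨κ, hne, d⟩ := this
    have dw : ¬ Av D K {κ} w := fun h' => d (Av.step (fun e' => hne (Eq.symm e')) e h')
    refine ⟨κ', s', fun h' => ?_⟩
    by_cases e' : κ = κ'
    · exact d (e' ▸ h')
    rcases b.first e' (s'.2 κ e') (h'.dom d) with a' | a'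
    · exact dw a'
    · exact d' a'

/-- a vertex without incoming arcs outside `K` dominates only itself -/
theorem Av.of_no_in (h : Av D K ∅ v) (hne : κ ≠ v) (h1 : κ ∉ K) (h2 : ∀ u, ¬ D u κ) :
    Av D K {κ} v := by
  induction h with
  | sink a _ => exact Av.sink a fun e => hne (Eq.symm e)
  | @step u w _ e _ ih =>
    exact Av.step (fun e' => hne (Eq.symm e')) e (ih fun e' => h2 u (e' ▸ e))

theorem Av.rch (h : Av D K S u) : ∃ b ∈ K, MP_a3bdf6_co.Rch D {z | z ∉ S} u b := by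
  induction h with
  | sink a b => exact ⟨_, a, MP_a3bdf6_co.Rch.refl b⟩
  | @step u w a e _ ih =>
    obtain ⟨b, hb, L, h1, h2⟩ := ih
    refine ⟨b, hb, u :: L, MP_a3bdf6_co.Wk.cons e h1, fun z hz => ?_⟩
    rcases List.mem_cons.1 hz with rfl | hz
    · exact a
    · exact h2 z hz

theorem wk_shape {a b : V} {L : List V} (h : MP_a3bdf6_co.Wk D a b L) (hne : a ≠ b) :
    ∃ P, L = a :: (P ++ [b]) := by
  cases h with
  | single => exact absurd rfl hne
  | cons e h' =>
    obtain ⟨P, rfl⟩ := h'.eq_concat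
    exact ⟨P, rfl⟩

/-- two disjoint paths by Menger's theorem (`MP_a3bdf6_co.menger` with `k = 2`) -/
theorem two_paths [Fintype V] (hxy : x ≠ y) (hx : ∀ u, ¬ D u x) (hy : ∀ u, ¬ D u y)
    (hx' : x ∉ K) (hy' : y ∉ K) (h : ∀ ρ, Av D K {ρ} x ∨ Av D K {ρ} y) :
    ∃ (P Q : List V) (a b : V), a ∈ K ∧ b ∈ K ∧ (P ++ a :: (Q ++ [b])).Nodup ∧
      (x :: (P ++ [a])).IsChain D ∧ (y :: (Q ++ [b])).IsChain D := by
  obtain ⟨T, hT, hc⟩ := MP_a3bdf6_co.menger D {x, y} (Finset.univ.filter (· ∈ K)) 2 (by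
    intro Y hY
    have : Nonempty V := ⟨x⟩
    obtain ⟨ρ, hρ⟩ := Finset.card_le_one_iff_subset_singleton.1 (Nat.lt_succ_iff.1 hY)
    have hsub : {z : V | z ∉ ({ρ} : Set V)} ⊆ {z | z ∉ Y} := fun z hz hz' =>
      hz (Finset.mem_singleton.1 (hρ hz'))
    rcases h ρ with h' | h'
    · obtain ⟨b, hb, r⟩ := h'.rch
      exact ⟨x, by simp, b, by simpa using hb, r.mono hsub⟩
    · obtain ⟨b, hb, r⟩ := h'.rch
      exact ⟨y, by simp, b, by simpa using hb, r.mono hsub⟩)
  have hcard : ({x, y} : Finset V).card ≤ T.card := by rw [hc, Finset.card_pair hxy]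
  obtain ⟨P, hP, a, ha, w1⟩ := hT.cover_start hcard (a := x) (by simp)
  obtain ⟨Q, hQ, b, hb, w2⟩ := hT.cover_start hcard (a := y) (by simp)
  have ha' : a ∈ K := by simpa using ha
  have hb' : b ∈ K := by simpa using hb
  have hd : ∀ z ∈ P, z ∉ Q := fun z h1 h2 => by
    have := hT.2 P hP Q hQ z h1 h2
    subst this
    exact hxy (w1.ends_unique w2).1
  have n1 := (hT.1 P hP).1
  have n2 := (hT.1 Q hQ).1
  have c1 := w1.chain
  have c2 := w2.chain
  obtain ⟨P0, rfl⟩ := wk_shape w1 fun e => hx' (e ▸ ha')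
  obtain ⟨Q0, rfl⟩ := wk_shape w2 fun e => hy' (e ▸ hb')
  refine ⟨P0, Q0, a, b, ha', hb', ?_, c1, c2⟩
  have : P0 ++ a :: (Q0 ++ [b]) = (P0 ++ [a]) ++ (Q0 ++ [b]) := by simp
  rw [this, List.nodup_append]
  refine ⟨(List.nodup_cons.1 n1).2, (List.nodup_cons.1 n2).2, ?_⟩
  rintro z h1 z' h2 rfl
  exact hd z (List.mem_cons_of_mem _ h1) (List.mem_cons_of_mem _ h2)

end Pool.Agent.P.MP_4197d5_co
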