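import Pool.Agent.P.MP_4197d5_co.TSf
import Pool.Agent.P.MP_4197d5_co.Fin

/-! Both ends of the swapped edge lie on single lines. -/

namespace Pool.Agent.P.MP_4197d5_co

open Classical

set_option linter.unusedSectionVars false

variable {V ι : Type} [Fintype ι] [Fintype V] {E : V → V → Prop} {t : ι → V} {l : ι → ι} {k : ℕ}
  {σ : ι → List V} {m : ι → ι} {e : Bool → ι} {X F : Bool → Finset V} {ty : ι → Option Bool}
  {pre mid : ι → List V} {gate : ι → V}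
  {σ2 : ι → List V} {m2 : ι → ι} {e' : Bool → ι} {Y H : Bool → Finset V} {ty' : ι → Option Bool}
  {pre' mid' : ι → List V} {gate' : ι → V} {c : Bool} {z : ι}

theorem TS.hh_pre_cons (T : TS E t k σ m e X F ty pre mid gate) {u : ι} (hr : Rl e u)
    (h : pre u ≠ []) : ∃ r, pre u = t u :: r := by
  obtain ⟨R, hR⟩ := T.gate_line hr
  exact T.st.head_of_line hR h

theorem TS.hh_t_notF (T : TS E t k σ m e X F ty pre mid gate) {u : ι} (hr : Rl e u)
    (h : pre u ≠ []) (c' : Bool) : t u ∉ F c' := by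
  obtain ⟨r, hr'⟩ := T.hh_pre_cons hr h
  exact (T.hpre u hr (t u) (by simp [hr']) c').1

theorem hh_bool (c c' : Bool) : c' = c ∨ c' = !c := by
  cases c <;> cases c' <;> simp

/-- Every double line has, in the zone of one of its ends, a neighbour of `t z` or `t (l z)`:
the line is untouched, `gate' u ∈ H c'` for some `c'` lies on it, and is not in a gadget `X c0`
(else `t (e' c')` is adjacent to it and so lies in `F c0`, but it heads a nonempty `pre`). -/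
theorem hh_link (hC : Ctx E t l k) (T : TS E t k σ m e X F ty pre mid gate) (h1 : Rl e z)
    (h2 : Rl e (l z)) (h4 : ty z = none) (h5 : ty (l z) = none) (h6 : pre z ≠ [])
    (h7 : pre (l z) ≠ []) (S : SW E t l σ m e pre gate c z σ2 m2)
    (e1 : e' c = z) (e2 : e' (!c) = l z) (T' : TS E t k σ2 m2 e' Y H ty' pre' mid' gate')
    {u : ι} {c0 : Bool} (hu : Rl e u) (hty : ty u = some c0) :
    ∃ τ ζ h, (τ = u ∨ τ = m u) ∧ (ζ = z ∨ ζ = l z) ∧ h ∈ pre τ ++ [gate τ] ∧ E (t ζ) h := by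
  have ho : Out m z (l z) u := by
    refine ⟨?_, ?_, ?_, ?_⟩ <;> rintro rfl <;> simp_all [T.tym]
  have he' : ∀ c', e' c' = z ∨ e' c' = l z := fun c' => by
    rcases hh_bool c c' with rfl | rfl
    · exact Or.inl e1
    · exact Or.inr e2
  have hu' : Rl e' u := fun c' hc' => by
    rcases he' c' with h | h
    · exact ho.1 (hc'.trans h)
    · exact ho.2.2.1 (hc'.trans h)
  obtain ⟨c', hc'⟩ : ∃ c', gate' u ∈ H c' := by
    rcases hty' : ty' u with _ | c'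
    · exact ⟨true, (T'.sgl u hu' hty').2.2 true⟩
    · exact ⟨c', (T'.dbl u c' hu' hty').2.1⟩
  have hadj : E (t (e' c')) (gate' u) := ((T'.gad c').adja _).2 (Or.inr hc')
  have hmem : gate' u ∈ line σ m u := by
    obtain ⟨R, hR⟩ := T'.gate_line hu'
    rw [← (S.oth u hu ho).2, hR]; simp
  obtain ⟨d1, -, -, d4, -⟩ := T.dbl u c0 hu hty
  rw [d1] at hmem
  simp only [List.mem_append, List.mem_cons, List.mem_reverse] at hmem
  rcases hmem with h | h | h | h | h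
  · exact ⟨u, e' c', _, Or.inl rfl, he' c', by simp [h], hadj⟩
  · exact ⟨u, e' c', _, Or.inl rfl, he' c', by simp [h], hadj⟩
  · exfalso
    have hζ : Rl e (e' c') ∧ pre (e' c') ≠ [] := by
      rcases he' c' with h | h <;> rw [h]
      · exact ⟨h1, h6⟩
      · exact ⟨h2, h7⟩
    rcases (((T.gad c0).adjX _ (d4 _ h) _).1 (hC.symm _ _ hadj)).2 with a | a | a
    · exact (T.gad c0).nt _ a _ rfl
    · exact T.hh_t_notF hζ.1 hζ.2 c0 a
    · exact hζ.1 c0 (hC.tinj a)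
  · exact ⟨m u, e' c', _, Or.inr rfl, he' c', by simp [h], hadj⟩
  · exact ⟨m u, e' c', _, Or.inr rfl, he' c', by simp [h], hadj⟩

/-- the closed system built from an edge between `t ζ` and the zone of a double line -/
theorem hh_sys (hC : Ctx E t l k) (T : TS E t k σ m e X F ty pre mid gate) {c0 : Bool} {τ ζ : ι}
    {h : V} (rτ : Rl e τ) (tτ : ty τ = some c0) (rζ : Rl e ζ) (tζ : ty ζ = none)
    (pζ : pre ζ ≠ []) (hh : h ∈ pre τ ++ [gate τ]) (hE : E (t ζ) h) :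
    ∃ Pi σ1 m1, VL E σ e X ty pre gate c0 τ ζ Pi [] [t ζ] ∧
      F1 E t σ m e pre gate c0 τ ζ Pi [] [t ζ] σ1 m1 := by
  obtain ⟨s1, s2, hs⟩ := List.append_of_mem hh
  obtain ⟨r, hr⟩ := T.hh_pre_cons rζ pζ
  obtain ⟨R, hR⟩ := T.gate_line rτ
  have hch : (s1 ++ [h]).IsChain E := by
    have := T.chain rτ
    rw [hR, List.append_cons, hs, List.append_cons s1, List.append_assoc] at this
    exact chain_left this
  have L : VL E σ e X ty pre gate c0 τ ζ (s1 ++ [h]) [] [t ζ] := by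
    refine ⟨rτ, rζ, ?_, ?_, ?_, by simp, by simp, ?_, ?_, by simp, by simp, ?_⟩
    · rintro rfl; simp [tτ] at tζ
    · rw [tτ]; cases c0 <;> simp
    · rw [tζ]; simp
    · rw [zone, if_neg (by simp [tτ]), hs]; exact ⟨s2, by simp⟩
    · rw [zone, if_pos tζ, hr]; exact ⟨r, by simp⟩
    · simpa using chain_edge (B := []) hch (hC.symm _ _ hE) (by simp)
  obtain ⟨σ1, m1, G⟩ := T.f1_exists hC.symm L (by
    rintro rfl; rw [T.tym, tτ] at tζ; simp at tζ)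
  exact ⟨_, σ1, m1, L, G⟩

theorem hh_win (T : TS E t k σ m e X F ty pre mid gate) (hl : ∀ c', l (e c') = e (!c'))
    {c0 c1 : Bool} {τ ζ : ι} {Pi q Pj : List V} {σ1 σ' : ι → List V} {m1 m' : ι → ι}
    (L : VL E σ e X ty pre gate c0 τ ζ Pi q Pj)
    (G : F1 E t σ m e pre gate c0 τ ζ Pi q Pj σ1 m1) (h : St E t σ' m' ∅) (co : Co l m1 m')
    (hc : cc l m' ∅ ζ (e c1)) : Imp E t l m {e false, e true} := by
  refine ⟨σ', m', ∅, h, Or.inl rfl, ?_⟩
  rw [T.pair_eq c0]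
  refine (G.tri T L).win T.st.hm ?_ co ((co _ _ (cc.of_eq G.mi)).trans (hc.trans ?_))
  · rw [T.me, ← hl]; exact cc.stl _
  · rcases hh_bool c1 c0 with rfl | rfl
    · exact cc.refl _
    · rw [← hl]; exact cc.stl _

/-- data on the gadget of the other side in the closed system -/
theorem hh_other (hC : Ctx E t l k) (T : TS E t k σ m e X F ty pre mid gate) {c0 : Bool}
    {τ ζ τ' : ι} {Pi q Pj : List V} {σ1 : ι → List V} {m1 : ι → ι} {x : V}
    (L : VL E σ e X ty pre gate c0 τ ζ Pi q Pj)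
    (G : F1 E t σ m e pre gate c0 τ ζ Pi q Pj σ1 m1) (tτ : ty τ = some c0) (tζ : ty ζ = none)
    (rτ' : Rl e τ') (tτ' : ty τ' = some (!c0)) (hx : x ∈ X (!c0))
    (hav : ¬ On σ x ∨ x ∈ mid τ') :
    (∀ f ∈ F (!c0), E (t (e (!c0))) f) ∧ (∀ f ∈ F (!c0), E x f) ∧ τ' ≠ m1 (e (!c0)) ∧
      gate (m ζ) ∈ F (!c0) ∧ m1 τ' = m τ' ∧
      line σ1 m1 τ' = pre τ' ++ gate τ' :: (mid τ' ++ gate (m τ') :: (pre (m τ')).reverse) ∧
      gate τ' ∈ F (!c0) ∧ gate (m τ') ∈ F (!c0) ∧ (¬ On σ1 x ∨ x ∈ mid τ') := by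
  have ho : Out m τ ζ τ' := by
    refine ⟨?_, ?_, ?_, ?_⟩ <;> rintro rfl <;> simp_all [T.tym]
  obtain ⟨d1, d2, -⟩ := T.dbl τ' _ rτ' tτ'
  refine ⟨fun f hf => ((T.gad _).adja f).2 (Or.inr hf), fun f hf => ((T.gad _).adjX x hx f).2
    ⟨fun a => (T.gad _).XF x hx (a ▸ hf), Or.inr (Or.inl hf)⟩, ?_, ?_, (G.oth τ' rτ' ho).1,
    (G.oth τ' rτ' ho).2.trans d1, d2, ?_, ?_⟩
  · rw [G.mb]; exact ho.2.2.2
  · exact (T.sgl _ (T.rl_m L.rj) ((T.tym ζ).trans tζ)).2.2 _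
  · exact (T.dbl _ _ (T.rl_m rτ') ((T.tym τ').trans tτ')).2.1
  · refine hav.imp_left fun a b => a ?_
    obtain ⟨u, -, -, hu⟩ := T.f1_X hC.symm L G hx b
    exact On.of_line hu

/-- the two links use different ends of the prescribed edge -/
theorem hh_diff (hC : Ctx E t l k) (T : TS E t k σ m e X F ty pre mid gate)
    (hl : ∀ c', l (e c') = e (!c')) {c0 : Bool}
    {τ ζ τ' : ι} {Pi q Pj : List V} {σ1 : ι → List V} {m1 : ι → ι} {x h : V}
    (L : VL E σ e X ty pre gate c0 τ ζ Pi q Pj)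
    (G : F1 E t σ m e pre gate c0 τ ζ Pi q Pj σ1 m1) (tτ : ty τ = some c0) (tζ : ty ζ = none)
    (rτ' : Rl e τ') (tτ' : ty τ' = some (!c0)) (hx : x ∈ X (!c0))
    (hav : ¬ On σ x ∨ x ∈ mid τ') (rζ' : Rl e (l ζ)) (tζ' : ty (l ζ) = none)
    (pζ' : pre (l ζ) ≠ []) (hne : l ζ ≠ m ζ) (hh : h ∈ pre τ' ++ [gate τ'])
    (hE : E (t (l ζ)) h) : Imp E t l m {e false, e true} := by
  obtain ⟨a1, a2, a3, a4, a5, a6, a7, a8, a9⟩ := hh_other hC T L G tτ tζ rτ' tτ' hx hav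
  have ho : Out m τ ζ (l ζ) := by
    refine ⟨?_, ?_, hC.hl.fpf ζ, hne⟩ <;> intro a <;> rw [a] at tζ' <;> simp_all [T.tym]
  have n3 : Out m1 (e (!c0)) τ' (l ζ) := by
    refine ⟨rζ' _, by rw [G.mb]; exact hne, ?_, ?_⟩
    · intro a; rw [a, tτ'] at tζ'; simp at tζ'
    · intro a; rw [a, a5, T.tym, tτ'] at tζ'; simp at tζ'
  obtain ⟨r, hr⟩ := T.hh_pre_cons rζ' pζ'
  obtain ⟨b1, -, b3⟩ := T.sgl _ rζ' tζ'
  have lζ : line σ1 m1 (l ζ) =
      [] ++ t (l ζ) :: (r ++ gate (l ζ) :: (pre (m (l ζ))).reverse) := by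
    rw [(G.oth _ rζ' ho).2, b1, hr]; simp
  obtain ⟨σ', m', s1, s2, s3⟩ := fin hC.symm hC.hl G.st (F (!c0)) a1 a2 (rτ' _) a3 n3 G.lb a4 a6
    a7 a8 a9 lζ (b3 _) hh hE
  exact hh_win T hl L G s1 s2 ((cc.stl ζ).trans s3)

theorem hh_cut (T : TS E t k σ m e X F ty pre mid gate) {c0 : Bool} {τ ζ y : ι}
    {Pi q Pj : List V} {σ1 : ι → List V} {m1 : ι → ι} {U : Finset ι}
    (G : F1 E t σ m e pre gate c0 τ ζ Pi q Pj σ1 m1) (u1 : ∀ c', e c' ∈ U) (u2 : τ ∈ U)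
    (u3 : m τ ∈ U) (u4 : ζ ∈ U) (u5 : m ζ ∈ U) (h : cc l m U ζ y) : cc l m1 ∅ ζ y := by
  have := T.st.hm
  refine cc.le (fun u hu => cc.of_eq (G.oth u (fun c' a => hu (a ▸ u1 c')) ?_).1) h
  exact ⟨fun a => hu (a ▸ u2), fun a => hu (a ▸ u3), fun a => hu (a ▸ u4), fun a => hu (a ▸ u5)⟩

/-- the end `ζ` is connected to the double line of the other type -/
theorem hh_same (hC : Ctx E t l k) (T : TS E t k σ m e X F ty pre mid gate)
    (hl : ∀ c', l (e c') = e (!c')) {c0 : Bool}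
    {τ ζ τ' y : ι} {Pi q Pj : List V} {σ1 : ι → List V} {m1 : ι → ι} {x : V}
    (L : VL E σ e X ty pre gate c0 τ ζ Pi q Pj)
    (G : F1 E t σ m e pre gate c0 τ ζ Pi q Pj σ1 m1) (tτ : ty τ = some c0) (tζ : ty ζ = none)
    (rτ' : Rl e τ') (tτ' : ty τ' = some (!c0)) (hx : x ∈ X (!c0))
    (hav : ¬ On σ x ∨ x ∈ mid τ') (hy : y = τ' ∨ y = m τ') (hc : cc l m1 ∅ ζ y) :
    Imp E t l m {e false, e true} := by
  obtain ⟨a1, a2, a3, a4, a5, a6, a7, a8, a9⟩ := hh_other hC T L G tτ tζ rτ' tτ' hx hav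
  obtain ⟨σ', m', s1, s2, s3⟩ := v2 hC.symm hC.hl G.st (F (!c0)) a1 a2 (rτ' _) a3 G.lb a4 a6
    a7 a8 a9
  refine hh_win T hl L G s1 s2 ((s2 _ _ ?_).trans s3)
  rcases hy with rfl | rfl
  · exact hc
  · exact hc.trans (cc.of_eq a5).symm

/-- some line is double -/
theorem hh_some (hC : Ctx E t l k) (T : TS E t k σ m e X F ty pre mid gate)
    (hl : ∀ c', l (e c') = e (!c')) (h1 : Rl e z) (h6 : pre z ≠ []) :
    ∃ u c0, Rl e u ∧ ty u = some c0 := by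
  by_contra hno
  have hF : ∀ c', ∀ f ∈ F c', f ∈ F false := fun c' f hf => by
    obtain ⟨u, a1, -, rfl⟩ := T.F_on hC.symm hf
    refine (T.sgl u a1 ?_).2.2 _
    rcases hu : ty u with _ | c0
    · rfl
    · exact absurd ⟨u, c0, a1, hu⟩ hno
  have := hC.hk {v | ∃ c', v ∈ X c' ∨ v = t (e c')} (F false) (t (e false)) (t z)
    ⟨false, Or.inr rfl⟩ (T.gad false).aF ?_ (T.hh_t_notF h1 h6 false) ?_
  · have := (T.gad false).card
    omega
  · rintro ⟨c', a | a⟩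
    · exact (T.gad c').nt _ a _ rfl
    · exact h1 c' (hC.tinj a)
  · rintro x ⟨c', a | rfl⟩ - w (b | ⟨i, b1, b2⟩)
    · rcases (((T.gad c').adjX x a w).1 b).2 with d | d | d
      · exact Or.inl ⟨c', Or.inl d⟩
      · exact Or.inr (hF c' w d)
      · exact Or.inl ⟨c', Or.inr d⟩
    · exact absurd b1 ((T.gad c').nt _ a _)
    · rcases ((T.gad c').adja w).1 b with d | d
      · exact Or.inl ⟨c', Or.inl d⟩
      · exact Or.inr (hF c' w d)
    · refine Or.inl ⟨!c', Or.inr ?_⟩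
      rw [b2, ← hC.tinj b1, hl]

/-- both types occur -/
theorem hh_both (hC : Ctx E t l k) (T : TS E t k σ m e X F ty pre mid gate) {u : ι} {c0 : Bool}
    (hu : Rl e u) (hty : ty u = some c0) (c1 : Bool) : ∃ u', Rl e u' ∧ ty u' = some c1 := by
  rcases hh_bool c0 c1 with rfl | rfl
  · exact ⟨u, hu, hty⟩
  by_contra hno
  obtain ⟨-, d2, d3, -⟩ := T.dbl u c0 hu hty
  have hsub : F (!c0) ⊆ F c0 := fun f hf => by
    obtain ⟨u', a1, a2, rfl⟩ := T.F_on hC.symm hf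
    exact T.gate_mem a1 fun a => hno ⟨u', a1, a⟩
  have := Finset.card_lt_card ((Finset.ssubset_iff_of_subset hsub).2 ⟨_, d2, d3⟩)
  have a1 := (T.gad c0).card
  have a2 := (T.gad (!c0)).card
  omega

theorem hh_free (hC : Ctx E t l k) (T : TS E t k σ m e X F ty pre mid gate) {u : ι} {c0 : Bool}
    (hu : Rl e u) (hty : ty u = some c0) :
    ∃ u' x, Rl e u' ∧ ty u' = some c0 ∧ x ∈ X c0 ∧ (¬ On σ x ∨ x ∈ mid u') := by
  obtain ⟨x, hx⟩ : (X c0).Nonempty := Finset.card_pos.1 (by have := (T.gad c0).two; omega)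
  by_cases hon : On σ x
  · obtain ⟨u', hu'⟩ := (on_iff_line (m := m)).1 hon
    obtain ⟨a1, a2, a3⟩ := T.X_on hC.symm hx hu'
    exact ⟨u', x, a1, a2, hx, Or.inr a3⟩
  · exact ⟨u, x, hu, hty, hx, Or.inl hon⟩

/-- If no line is double then `F false = F true` separates `X false ∪ X true ∪ {t a, t b}` from
`t z` (`Ctx.hk`, using `l a = b`). Otherwise both types occur (`|F false| = |F true|`, `TS.F_on`),
and for each `c0` there are a line `u` of type `some c0` and `x ∈ X c0` with `x` off the system or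
in `mid u`. Let `τ0, ζ0` (for `false`) and `τ1, ζ1` (for `true`) come from `hh_link`; each gives a
valid link with `q = []`, `Pj = [t ζ]`, and a closed system by `TS.f1_exists`. If `ζ1 = l ζ0` use
`fin` for the gadget `true` in the system of `(τ0, ζ0)` with `ζ = ζ1`, `τ = τ1`. If `ζ0 = ζ1` use
`parity` for the cut of `m` at `{a, b, ζ0, m ζ0, τ0, m τ0, τ1, m τ1}`: if the partner of `ζ0` is
`τ1` or `m τ1` use `v2` for `τ1` in the system of `(τ0, ζ0)`; symmetric for `τ0`; otherwise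
`ζ0 ~ a` holds already. Conclude with `Tri.win` (`a ~ b` through `l`). -/
theorem hh_case (hC : Ctx E t l k) (T : TS E t k σ m e X F ty pre mid gate)
    (hab : l (e false) = e true) (h1 : Rl e z)
    (h2 : Rl e (l z)) (h3 : l z ≠ m z) (h4 : ty z = none) (h5 : ty (l z) = none) (h6 : pre z ≠ [])
    (h7 : pre (l z) ≠ []) (S : SW E t l σ m e pre gate c z σ2 m2)
    (e1 : e' c = z) (e2 : e' (!c) = l z) (T' : TS E t k σ2 m2 e' Y H ty' pre' mid' gate') :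
    Imp E t l m {e false, e true} := by
  have hm := T.st.hm
  have hl : ∀ c', l (e c') = e (!c') := fun c' => by
    cases c'
    · exact hab
    · exact hC.hl.eq_iff.2 hab.symm
  obtain ⟨u, c0, hu, hty⟩ := hh_some hC T hl h1 h6
  have key : ∀ c1, ∃ τ ζ h x, Rl e τ ∧ ty τ = some c1 ∧ x ∈ X c1 ∧ (¬ On σ x ∨ x ∈ mid τ) ∧
      (ζ = z ∨ ζ = l z) ∧ h ∈ pre τ ++ [gate τ] ∧ E (t ζ) h := fun c1 => by
    obtain ⟨u1, a1, a2⟩ := hh_both hC T hu hty c1
    obtain ⟨u2, x, b1, b2, b3, b4⟩ := hh_free hC T a1 a2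
    obtain ⟨τ, ζ, h, d1, d2, d3, d4⟩ := hh_link hC T h1 h2 h4 h5 h6 h7 S e1 e2 T' b1 b2
    rcases d1 with rfl | rfl
    · exact ⟨_, ζ, h, x, b1, b2, b3, b4, d2, d3, d4⟩
    · refine ⟨_, ζ, h, x, T.rl_m b1, (T.tym _).trans b2, b3, ?_, d2, d3, d4⟩
      rw [(T.dbl u2 c1 b1 b2).2.2.2.2, List.mem_reverse]; exact b4
  have hζ : ∀ ζ, ζ = z ∨ ζ = l z → Rl e ζ ∧ ty ζ = none ∧ pre ζ ≠ [] ∧ l ζ ≠ m ζ := by
    rintro ζ (rfl | rfl)
    · exact ⟨h1, h4, h6, h3⟩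
    · refine ⟨h2, h5, h7, fun a => h3 ?_⟩
      rw [hC.hl.inv] at a
      exact (hm.eq_iff.2 a).symm
  obtain ⟨τ0, ζ0, g0, x0, a1, a2, a3, a4, a5, a6, a7⟩ := key false
  obtain ⟨τ1, ζ1, g1, x1, b1, b2, b3, b4, b5, b6, b7⟩ := key true
  obtain ⟨p1, p2, p3, p4⟩ := hζ ζ0 a5
  obtain ⟨q1, q2, q3, -⟩ := hζ ζ1 b5
  obtain ⟨P0, σ0, m0, L0, G0⟩ := hh_sys hC T a1 a2 p1 p2 p3 a6 a7
  have hcase : ζ1 = l ζ0 ∨ ζ1 = ζ0 := by
    rcases a5 with rfl | rfl <;> rcases b5 with rfl | rfl <;> simp [hC.hl.inv]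
  rcases hcase with rfl | rfl
  · exact hh_diff hC T hl L0 G0 a2 p2 b1 b2 b3 b4 q1 q2 q3 p4 b6 b7
  obtain ⟨P1, σ1, m1, L1, G1⟩ := hh_sys hC T b1 b2 q1 q2 q3 b6 b7
  have me0 := T.me false
  have me1 := T.me true
  obtain ⟨y, hy, hne, hc⟩ := parity (l := l) (x := ζ1)
    (U := {e false, e true, ζ1, m ζ1, τ0, m τ0, τ1, m τ1}) hC.hl hm (by
      intro i hi
      simp only [Finset.mem_insert, Finset.mem_singleton] at hi ⊢
      rcases hi with rfl | rfl | rfl | rfl | rfl | rfl | rfl | rfl <;> simp [hm.inv, me0, me1])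
    (by simp)
  have c0' := hh_cut T G0 (fun c' => by cases c' <;> simp) (by simp) (by simp) (by simp)
    (by simp) hc
  have c1' := hh_cut T G1 (fun c' => by cases c' <;> simp) (by simp) (by simp) (by simp)
    (by simp) hc
  simp only [Finset.mem_insert, Finset.mem_singleton] at hy
  rcases hy with rfl | rfl | rfl | rfl | hy | hy | hy | hy
  · exact hh_win T hl L0 G0 G0.st Co.refl c0'
  · exact hh_win T hl L0 G0 G0.st Co.refl c0'
  · exact absurd rfl hne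
  · exact hh_win T hl L0 G0 G0.st Co.refl (c0'.trans (cc.of_eq G0.mb).symm)
  · exact hh_same hC T hl L1 G1 b2 q2 a1 a2 a3 a4 (Or.inl hy) c1'
  · exact hh_same hC T hl L1 G1 b2 q2 a1 a2 a3 a4 (Or.inr hy) c1'
  · exact hh_same hC T hl L0 G0 a2 p2 b1 b2 b3 b4 (Or.inl hy) c0'
  · exact hh_same hC T hl L0 G0 a2 p2 b1 b2 b3 b4 (Or.inr hy) c0'

end Pool.Agent.P.MP_4197d5_co
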