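import Pool.Agent.P.MP_4197d5_co.Pair

/-! The potential: general comparison lemmas and the lemmas for one loose pair. -/

namespace Pool.Agent.P.MP_4197d5_co

open Classical

set_option linter.unusedSectionVars false

variable {ι : Type} [Fintype ι] {l m m' m0 m1 m2 : ι → ι} {U U' : Finset ι} {a i j z τ : ι}

theorem Cld.of_cc {x y : ι} (h : Cld l m U x) (hxy : cc l m U x y) : Cld l m U y :=
  fun w hw => h w (hxy.trans hw)

theorem cld_empty (x : ι) : Cld l m ∅ x := fun y _ => by simp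

theorem not_cld_of_mem {x : ι} (hx : x ∈ U) : ¬ Cld l m U x := fun h => h x (cc.refl x) hx

theorem cl_eq_of_cc {x y : ι} (h : cc l m U x y) : cl l m U x = cl l m U y := by
  ext w
  simp only [mem_cl]
  exact ⟨fun e => h.symm.trans e, fun e => h.trans e⟩

theorem cc.to_empty {x y : ι} (h : cc l m U x y) : cc l m ∅ x y :=
  cc.le (fun x _ => cc.stm0 x) h

theorem pair_closed (hm : Pr m) (a : ι) :
    ∀ i ∈ ({a, m a} : Finset ι), m i ∈ ({a, m a} : Finset ι) := by
  intro i hi
  simp only [Finset.mem_insert, Finset.mem_singleton] at hi ⊢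
  rcases hi with rfl | rfl <;> simp [hm.inv]

/-- transfer of connections inside one class -/
theorem cc.transfer {x y : ι} (hl : Pr l) (hm : Pr m) (hU : ∀ i ∈ U, m i ∈ U)
    (h2 : ∀ w, cc l m U x w → w ∉ U → cc l m' U' w (m w)) (h : cc l m U x y) :
    cc l m' U' x y :=
  (cc.closed hl hm hU {w | cc l m U x w ∧ cc l m' U' x w}
    (fun w hw => ⟨hw.1.trans (cc.stl w), hw.2.trans (cc.stl w)⟩)
    (fun w hw hwU => ⟨hw.1.trans (cc.stm hwU), hw.2.trans (h2 w hw.1 hwU)⟩) h
    ⟨cc.refl x, cc.refl x⟩).2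

theorem phi_aux (φ : ι → ι) (hinj : Set.InjOn φ {x | Cld l m U x})
    (h1 : ∀ x, Cld l m U x → Cld l m' U' (φ x)) :
    ∑ x ∈ Finset.univ.filter (Cld l m U), 3 ^ (cl l m' U' (φ x)).card ≤ Phi l m' U' := by
  rw [← Finset.sum_image (s := Finset.univ.filter (Cld l m U)) (g := φ)
    (f := fun y => 3 ^ (cl l m' U' y).card)
    (fun x hx y hy e => hinj (by simpa using hx) (by simpa using hy) e)]
  refine Finset.sum_le_sum_of_subset fun y hy => ?_
  obtain ⟨x, hx, rfl⟩ := Finset.mem_image.1 hy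
  simp only [Finset.mem_filter, Finset.mem_univ, true_and] at hx ⊢
  exact h1 x hx

/-- comparison along an injection of closed indices -/
theorem phi_le (φ : ι → ι) (hinj : Set.InjOn φ {x | Cld l m U x})
    (h1 : ∀ x, Cld l m U x →
      Cld l m' U' (φ x) ∧ (cl l m U x).card ≤ (cl l m' U' (φ x)).card) :
    Phi l m U ≤ Phi l m' U' := by
  refine le_trans (Finset.sum_le_sum fun x hx => ?_) (phi_aux φ hinj fun x hx => (h1 x hx).1)
  exact Nat.pow_le_pow_right (by norm_num) (h1 x (by simpa using hx)).2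

theorem phi_lt (φ : ι → ι) (hinj : Set.InjOn φ {x | Cld l m U x})
    (h1 : ∀ x, Cld l m U x →
      Cld l m' U' (φ x) ∧ (cl l m U x).card ≤ (cl l m' U' (φ x)).card)
    (h2 : ∃ x, Cld l m U x ∧ (cl l m U x).card < (cl l m' U' (φ x)).card) :
    Phi l m U < Phi l m' U' := by
  refine lt_of_lt_of_le (Finset.sum_lt_sum (fun x hx => ?_) ?_)
    (phi_aux φ hinj fun x hx => (h1 x hx).1)
  · exact Nat.pow_le_pow_right (by norm_num) (h1 x (by simpa using hx)).2
  · obtain ⟨x, hx, hlt⟩ := h2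
    exact ⟨x, by simpa using hx, Nat.pow_lt_pow_right (by norm_num) hlt⟩

/-- all closed classes are kept and something new appears -/
theorem imp_keep (h1 : ∀ x, Cld l m U x → Cld l m' U' x ∧ ∀ y, cc l m U x y → cc l m' U' x y)
    (h2 : ∃ x, Cld l m' U' x ∧ (¬ Cld l m U x ∨ ∃ y, cc l m' U' x y ∧ ¬ cc l m U x y)) :
    Phi l m U < Phi l m' U' := by
  have hsub : ∀ x, Cld l m U x → cl l m U x ⊆ cl l m' U' x := fun x hx y hy =>
    mem_cl.2 ((h1 x hx).2 y (mem_cl.1 hy))
  obtain ⟨x, hx', hx⟩ := h2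
  by_cases hc : Cld l m U x
  · rcases hx with hx | ⟨y, hy1, hy2⟩
    · exact absurd hc hx
    refine phi_lt id (Set.injOn_id _)
      (fun x hx => ⟨(h1 x hx).1, Finset.card_le_card (hsub x hx)⟩) ⟨x, hc, ?_⟩
    exact Finset.card_lt_card ⟨hsub x hc, fun h => hy2 (mem_cl.1 (h (mem_cl.2 hy1)))⟩
  · calc Phi l m U ≤ ∑ x ∈ Finset.univ.filter (Cld l m U), 3 ^ (cl l m' U' x).card :=
          Finset.sum_le_sum fun x hx => Nat.pow_le_pow_right (by norm_num)
            (Finset.card_le_card (hsub x (by simpa using hx)))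
      _ < Phi l m' U' := by
          refine Finset.sum_lt_sum_of_subset (i := x) (fun y hy => ?_) (by simpa using hx')
            (by simpa using hc) (by positivity) (fun _ _ _ => Nat.zero_le _)
          simp only [Finset.mem_filter, Finset.mem_univ, true_and] at hy ⊢
          exact (h1 y hy).1

/-- the smallest class may be lost if another class grows: every member of the class of `p`
(at least as many as in the class of `c`, each of weight at least that of `c`) triples -/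
theorem imp_small (c : ι) (hmin : ∀ x, (cl l m ∅ c).card ≤ (cl l m ∅ x).card)
    (h1 : ∀ x, ¬ cc l m ∅ c x → Cld l m' U' x ∧ ∀ y, cc l m ∅ x y → cc l m' U' x y)
    (h2 : ∃ p y, ¬ cc l m ∅ c p ∧ cc l m' U' p y ∧ ¬ cc l m ∅ p y) :
    Phi l m ∅ < Phi l m' U' := by
  obtain ⟨p, y, hp, hy1, hy2⟩ := h2
  set C := cl l m ∅ c with hC
  set P := cl l m ∅ p with hP
  have hPC : ∀ x ∈ P, x ∉ C := fun x hx hx' => hp ((mem_cl.1 hx').trans (mem_cl.1 hx).symm)
  have e1 : Phi l m ∅ = ∑ x ∈ Cᶜ, 3 ^ (cl l m ∅ x).card + C.card * 3 ^ C.card := by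
    unfold Phi
    rw [Finset.filter_true_of_mem fun x _ => cld_empty x, ← Finset.sum_compl_add_sum C]
    congr 1
    rw [Finset.sum_congr rfl fun x hx => by rw [← cl_eq_of_cc (mem_cl.1 hx)]]
    simp [hC]
  have e2 : ∑ x ∈ Cᶜ, 3 ^ (cl l m' U' x).card ≤ Phi l m' U' := by
    refine Finset.sum_le_sum_of_subset fun x hx => ?_
    simp only [Finset.mem_filter, Finset.mem_univ, true_and]
    exact (h1 x fun h => Finset.mem_compl.1 hx (mem_cl.2 h)).1
  have e3 : ∑ x ∈ Cᶜ, (3 ^ (cl l m ∅ x).card + if x ∈ P then 2 * 3 ^ P.card else 0) ≤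
      ∑ x ∈ Cᶜ, 3 ^ (cl l m' U' x).card := by
    refine Finset.sum_le_sum fun x hx => ?_
    have hx' : ¬ cc l m ∅ c x := fun h => Finset.mem_compl.1 hx (mem_cl.2 h)
    have hsub : cl l m ∅ x ⊆ cl l m' U' x := fun w hw => mem_cl.2 ((h1 x hx').2 w (mem_cl.1 hw))
    split_ifs with hxP
    · have hpx := mem_cl.1 hxP
      have hlt : (cl l m ∅ x).card < (cl l m' U' x).card := by
        refine Finset.card_lt_card ⟨hsub, fun h => hy2 ?_⟩
        exact hpx.trans (mem_cl.1 (h (mem_cl.2 (((h1 x hx').2 p hpx.symm).trans hy1))))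
      have := Nat.pow_le_pow_right (n := 3) (by norm_num) (Nat.succ_le_of_lt hlt)
      rw [hP, cl_eq_of_cc hpx]
      rw [pow_succ] at this
      omega
    · simpa using Nat.pow_le_pow_right (n := 3) (by norm_num) (Finset.card_le_card hsub)
  have e4 : ∑ x ∈ Cᶜ, (if x ∈ P then 2 * 3 ^ P.card else 0) = P.card * (2 * 3 ^ P.card) := by
    rw [Finset.sum_ite_mem, Finset.inter_eq_right.2 fun x hx => Finset.mem_compl.2 (hPC x hx)]
    simp
  rw [Finset.sum_add_distrib, e4] at e3
  have h5 : C.card ≤ P.card := hmin p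
  have h6 : 0 < P.card := Finset.card_pos.2 ⟨p, mem_cl.2 (cc.refl p)⟩
  have h7 : C.card * 3 ^ C.card ≤ P.card * 3 ^ P.card :=
    Nat.mul_le_mul h5 (Nat.pow_le_pow_right (by norm_num) h5)
  have h8 : 0 < P.card * 3 ^ P.card := by positivity
  have h9 : P.card * (2 * 3 ^ P.card) = 2 * (P.card * 3 ^ P.card) := by ring
  omega

theorem co_imp (h : Co l m m') : Phi l m {a, m a} < Phi l m' ∅ := by
  exact imp_keep (fun x _ => ⟨cld_empty x, fun y hy => h x y hy.to_empty⟩)
    ⟨a, cld_empty a, Or.inl (not_cld_of_mem (by simp))⟩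

/-- Exchange of the loose pair with a realized pair. Sketch: if `τ` is closed then its class
(closed under `l`, `m`) misses `a`, so `Xch.diff` applies; otherwise closed classes avoid
`τ, m τ, a, m a` and are untouched (`cc.closed` with the set of `y` connected to `x` in both). -/
theorem xch_keep (hl : Pr l) (hm : Pr m) (hx : Xch m m0 τ a) (h : Co l m0 m') :
    Phi l m {a, m a} < Phi l m' ∅ := by
  by_cases hτ : Cld l m {a, m a} τ
  · refine co_imp ((hx.diff hl hm fun hc => ?_).2.trans h)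
    have : cc l m {a, m a} τ a :=
      cc.closed hl hm (by simp) {y | cc l m {a, m a} τ y} (fun y hy => cc.trans hy (cc.stl y))
        (fun y hy _ => cc.trans hy (cc.stm (hτ y hy))) hc (cc.refl τ)
    exact hτ a this (by simp)
  · refine imp_keep (fun x hc => ⟨cld_empty x, fun y hy => h x y ?_⟩)
      ⟨a, cld_empty a, Or.inl (not_cld_of_mem (by simp))⟩
    refine cc.transfer hl hm (pair_closed hm a) (fun w hw hwU => cc.of_eq ?_) hy
    have hwU' := hwU
    simp only [Finset.mem_insert, Finset.mem_singleton, not_or] at hwU'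
    refine hx.oth w ⟨?_, ?_, hwU'.1, hwU'.2⟩
    · rintro rfl
      exact hτ (hc.of_cc hw)
    · intro e
      have := hc.of_cc (hw.trans (cc.stm hwU))
      rw [e, hm.inv] at this
      exact hτ this

/-- pairing obtained from a link: `(i, j), (a, m i), (m a, m j)` -/
structure Tri (m m1 : ι → ι) (a i j : ι) : Prop where
  pr : Pr m1
  ia : i ≠ a
  ia' : i ≠ m a
  ja : j ≠ a
  ja' : j ≠ m a
  ij : i ≠ j
  jm : j ≠ m i
  mi : m1 i = j
  ma : m1 a = m i
  mb : m1 (m a) = m j
  oth : ∀ u, u ≠ a → u ≠ m a → Out m i j u → m1 u = m u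

theorem Tri.symm (hm : Pr m) (h : Tri m m1 a i j) : Tri m m1 (m a) j i := by
  exact ⟨h.pr, h.ja', by rw [hm.inv]; exact h.ja, h.ia', by rw [hm.inv]; exact h.ia, h.ij.symm,
    fun e => h.jm (by rw [e, hm.inv]), by rw [← h.mi, h.pr.inv], h.mb, by rw [hm.inv]; exact h.ma,
    fun u h1 h2 h3 => h.oth u (by rwa [hm.inv] at h2) h1 ⟨h3.2.2.1, h3.2.2.2, h3.1, h3.2.1⟩⟩

theorem Tri.v0 (hl : Pr l) (hm : Pr m) (h : Tri m m1 a i j) (hi : Cld l m {a, m a} i) :
    cc l m1 ∅ i (m i) ∨ (cc l m {a, m a} i j ∧ cc l m1 ∅ a (m a) ∧ ¬ cc l m1 ∅ i a) := by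
  by_cases hia : cc l m1 ∅ i a
  · exact Or.inl (hia.trans (cc.of_eq h.ma))
  have hW : ∀ u ∈ ({a, m a, i, m i, j, m j} : Finset ι),
      m u ∈ ({a, m a, i, m i, j, m j} : Finset ι) := by
    intro u hu
    simp only [Finset.mem_insert, Finset.mem_singleton] at hu ⊢
    rcases hu with rfl | rfl | rfl | rfl | rfl | rfl <;> simp [hm.inv]
  have c1 : ∀ x y, cc l m {a, m a, i, m i, j, m j} x y → cc l m1 ∅ x y := fun x y hxy => by
    refine cc.le (fun u hu => cc.of_eq ?_) hxy
    simp only [Finset.mem_insert, Finset.mem_singleton, not_or] at hu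
    exact h.oth u hu.1 hu.2.1 hu.2.2
  have c2 : ∀ x y, cc l m {a, m a, i, m i, j, m j} x y → cc l m {a, m a} x y := fun x y hxy => by
    refine cc.le (fun u hu => cc.stm ?_) hxy
    simp only [Finset.mem_insert, Finset.mem_singleton, not_or] at hu ⊢
    exact ⟨hu.1, hu.2.1⟩
  have si : cc l m {a, m a} i (m i) := cc.stm (by simp [h.ia, h.ia'])
  have sj : cc l m {a, m a} j (m j) := cc.stm (by simp [h.ja, h.ja'])
  obtain ⟨y, hy, hne, hc⟩ := parity hl hm hW (x := i) (by simp)
  have hij : cc l m1 ∅ i (m i) ∨ cc l m {a, m a} i j := by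
    simp only [Finset.mem_insert, Finset.mem_singleton] at hy
    rcases hy with e | e | e | e | e | e <;> rw [e] at hc
    · exact absurd (by simp) (hi _ (c2 _ _ hc))
    · exact absurd (by simp) (hi _ (c2 _ _ hc))
    · exact absurd e hne
    · exact Or.inl (c1 _ _ hc)
    · exact Or.inr (c2 _ _ hc)
    · exact Or.inr ((c2 _ _ hc).trans sj.symm)
  rcases hij with hij | hij
  · exact Or.inl hij
  refine Or.inr ⟨hij, ?_, hia⟩
  obtain ⟨y, hy, hne, hc⟩ := parity hl hm hW (x := a) (by simp)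
  have hn : ¬ cc l m {a, m a} i a := fun e => hi a e (by simp)
  simp only [Finset.mem_insert, Finset.mem_singleton] at hy
  rcases hy with e | e | e | e | e | e <;> rw [e] at hc
  · exact absurd e hne
  · exact c1 _ _ hc
  · exact absurd (c2 _ _ hc).symm hn
  · exact absurd (si.trans (c2 _ _ hc).symm) hn
  · exact absurd (hij.trans (c2 _ _ hc).symm) hn
  · exact absurd ((hij.trans sj).trans (c2 _ _ hc).symm) hn

/-- Either the link improves or it splits a closed class. Sketch: let `W = {a, m a, i, m i, j,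
m j}`. It suffices (by `imp_keep`) that `i ~ m i` in `m1` when `i` is closed and `j ~ m j` when
`j` is closed. Use `parity` for the cut at `W`: the partner of a closed `i` is `m i`, `j` or
`m j`; in the last two cases the partner of `a` must be `m a`. -/
theorem Tri.v1 (hl : Pr l) (hm : Pr m) (h : Tri m m1 a i j) :
    Phi l m {a, m a} < Phi l m1 ∅ ∨ (Cld l m {a, m a} i ∧ cc l m {a, m a} i j ∧
      cc l m1 ∅ a (m a) ∧ ¬ cc l m1 ∅ i a) := by
  by_contra hcon
  rw [not_or] at hcon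
  have hi : Cld l m {a, m a} i → cc l m1 ∅ i (m i) := fun hi =>
    (h.v0 hl hm hi).resolve_right fun e => hcon.2 ⟨hi, e⟩
  have hj : Cld l m {a, m a} j → cc l m1 ∅ j (m j) := fun hj => by
    have eU : ({m a, m (m a)} : Finset ι) = {a, m a} := by rw [hm.inv, Finset.pair_comm]
    have := (h.symm hm).v0 hl hm (eU ▸ hj)
    rw [eU, hm.inv] at this
    refine this.resolve_right fun e => hcon.2 ⟨hj.of_cc e.1, e.1.symm, e.2.1.symm, fun e' => ?_⟩
    exact e.2.2 (((cc.of_eq h.mi).symm.trans e').trans e.2.1.symm)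
  refine hcon.1 (imp_keep (fun x hc => ⟨cld_empty x, fun y hy => ?_⟩)
    ⟨a, cld_empty a, Or.inl (not_cld_of_mem (by simp))⟩)
  refine cc.transfer hl hm (pair_closed hm a) (fun w hw hwU => ?_) hy
  have hw1 := hc.of_cc hw
  have hw2 := hc.of_cc (hw.trans (cc.stm hwU))
  simp only [Finset.mem_insert, Finset.mem_singleton, not_or] at hwU
  by_cases e1 : w = i
  · rw [e1] at hw1 ⊢; exact hi hw1
  by_cases e2 : w = m i
  · rw [e2, hm.inv] at hw2; rw [e2, hm.inv]; exact (hi hw2).symm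
  by_cases e3 : w = j
  · rw [e3] at hw1 ⊢; exact hj hw1
  by_cases e4 : w = m j
  · rw [e4, hm.inv] at hw2; rw [e4, hm.inv]; exact (hj hw2).symm
  exact cc.of_eq (h.oth w hwU.1 hwU.2 ⟨e1, e2, e3, e4⟩)

theorem Tri.win (hm : Pr m) (h : Tri m m1 a i j) (hab : cc l m1 ∅ a (m a)) (h1 : Co l m1 m')
    (h2 : cc l m' ∅ i a) : Phi l m {a, m a} < Phi l m' ∅ := by
  have t1 : cc l m' ∅ i (m i) := h2.trans (h1 _ _ (cc.of_eq h.ma))
  have t2 : cc l m' ∅ j (m j) :=
    (((h1 _ _ (cc.of_eq h.mi)).symm.trans h2).trans (h1 _ _ hab)).trans (h1 _ _ (cc.of_eq h.mb))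
  refine co_imp (Co.of fun w => ?_)
  by_cases e5 : w = a
  · rw [e5]; exact h1 _ _ hab
  by_cases e6 : w = m a
  · rw [e6, hm.inv]; exact (h1 _ _ hab).symm
  by_cases e1 : w = i
  · rw [e1]; exact t1
  by_cases e2 : w = m i
  · rw [e2, hm.inv]; exact t1.symm
  by_cases e3 : w = j
  · rw [e3]; exact t2
  by_cases e4 : w = m j
  · rw [e4, hm.inv]; exact t2.symm
  exact h1 _ _ (cc.of_eq (h.oth w e5 e6 ⟨e1, e2, e3, e4⟩))

theorem Tri.dne (h : Tri m m1 a i j) (hab : cc l m1 ∅ a (m a)) (hsp : ¬ cc l m1 ∅ i a)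
    (hz : cc l m1 ∅ i z) : z ≠ a ∧ z ≠ m a ∧ z ≠ m i ∧ z ≠ m j := by
  refine ⟨fun e => hsp (e ▸ hz), fun e => hsp ((e ▸ hz).trans hab.symm),
    fun e => hsp ((e ▸ hz).trans (cc.of_eq h.ma).symm), fun e => hsp ?_⟩
  exact ((e ▸ hz).trans (cc.of_eq h.mb).symm).trans hab.symm

theorem Tri.dm (h : Tri m m1 a i j) (hab : cc l m1 ∅ a (m a)) (hsp : ¬ cc l m1 ∅ i a)
    (hz : cc l m1 ∅ i z) (e1 : z ≠ i) (e2 : z ≠ j) : m1 z = m z :=
  have d := h.dne hab hsp hz
  h.oth z d.1 d.2.1 ⟨e1, d.2.2.1, e2, d.2.2.2⟩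

/-- facts on the split off class -/
theorem Tri.dfacts (hl : Pr l) (hm : Pr m) (h : Tri m m1 a i j) (hij : cc l m {a, m a} i j)
    (hab : cc l m1 ∅ a (m a)) (hsp : ¬ cc l m1 ∅ i a) (hz : cc l m1 ∅ i z) :
    z ≠ a ∧ z ≠ m a ∧ z ≠ m i ∧ z ≠ m j ∧ cc l m {a, m a} i z ∧ l z ≠ m z := by
  have d := h.dne hab hsp hz
  refine ⟨d.1, d.2.1, d.2.2.1, d.2.2.2, ?_, fun e => ?_⟩
  · refine cc.transfer hl h.pr (by simp) (fun w hw _ => ?_) hz
    by_cases e1 : w = i
    · rw [e1, h.mi]; exact hij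
    by_cases e2 : w = j
    · rw [e2, (h.symm hm).mi]; exact hij.symm
    rw [h.dm hab hsp hw e1 e2]
    have d' := h.dne hab hsp hw
    exact cc.stm (by simp [d'.1, d'.2.1])
  · have d' := h.dne hab hsp (hz.trans (cc.stl z))
    have e1 : z ≠ i := fun e1 => d'.2.2.1 (by rw [e, e1])
    have e2 : z ≠ j := fun e2 => d'.2.2.2 (by rw [e, e2])
    have e3 : m1 z = l z := by rw [h.dm hab hsp hz e1 e2, e]
    have : i ∈ ({z, l z} : Set ι) := by
      refine cc.closed hl h.pr (by simp) {z, l z} ?_ ?_ hz.symm (by simp)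
      · rintro w (rfl | rfl) <;> simp [hl.inv]
      · rintro w (rfl | rfl) _
        · simp [e3]
        · rw [← e3, h.pr.inv]; simp
    rcases this with e4 | e4
    · exact e1 e4.symm
    · exact d.2.2.1 (by rw [Set.mem_singleton_iff.1 e4, e, hm.inv])

/-- Parity count in the split off class `D`. Sketch: suppose there is no such `z`. Then `l` maps
alive `none`-indices of `D` injectively to dead ones, and `m` maps dead ones injectively to alive
`none`-indices other than `i, j`; so `ty i = some c`, and `l` maps dead indices to `none`-indices.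
The set of indices of `D` of type `some c` is closed under `l`, and with `i` removed it is closed
under `m`; both have even size (`even_card`), a contradiction. -/
theorem Tri.dparity (hl : Pr l) (hm : Pr m) (h : Tri m m1 a i j) (hab : cc l m1 ∅ a (m a))
    (hsp : ¬ cc l m1 ∅ i a) (ty : ι → Option Bool) (al : ι → Prop) (c : Bool)
    (h1 : ∀ u, ty (m u) = ty u) (h2 : ∀ u, ty u ≠ none → al u)
    (h3 : ∀ u, u ≠ a → u ≠ m a → ¬ al u → al (m u)) (hi : al i) (hj : al j)
    (ti : ty i ≠ some (!c)) (tj : ty j ≠ some c) :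
    ∃ z, cc l m1 ∅ i z ∧ al z ∧ al (l z) ∧ ty z ≠ some (!c) ∧ ty (l z) ≠ some c := by
  by_contra hcon
  push Not at hcon
  have hD : ∀ u, cc l m1 ∅ i u → u ≠ i → u ≠ j → cc l m1 ∅ i (m u) ∧ m u ≠ i ∧ m u ≠ j := by
    intro u hu e1 e2
    have d := h.dne hab hsp hu
    exact ⟨hu.trans (cc.of_eq (h.dm hab hsp hu e1 e2)), fun e => d.2.2.1 (hm.eq_iff.1 e),
      fun e => d.2.2.2 (hm.eq_iff.1 e)⟩
  have hsame : ∀ u, cc l m1 ∅ i u → al u → al (l u) → ty u ≠ none ∧ ty (l u) = ty u := by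
    intro u hu a1 a2
    have b1 := hcon u hu a1 a2
    have b2 := hcon (l u) (hu.trans (cc.stl u)) a2 (by rwa [hl.inv])
    rw [hl.inv] at b2
    revert b1 b2
    rcases ty u with _ | (_ | _) <;> rcases ty (l u) with _ | (_ | _) <;> cases c <;> simp
  set AN := (cl l m1 ∅ i).filter fun u => al u ∧ ty u = none with hAN
  set De := (cl l m1 ∅ i).filter fun u => ¬ al u with hDe
  have s1 : AN.image l ⊆ De := by
    intro w hw
    obtain ⟨u, hu, rfl⟩ := Finset.mem_image.1 hw
    simp only [hAN, hDe, Finset.mem_filter, mem_cl] at hu ⊢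
    exact ⟨hu.1.trans (cc.stl u), fun a2 => (hsame u hu.1 hu.2.1 a2).1 hu.2.2⟩
  have s2 : De.image m ⊆ (AN.erase i).erase j := by
    intro w hw
    obtain ⟨u, hu, rfl⟩ := Finset.mem_image.1 hw
    simp only [hAN, hDe, Finset.mem_filter, mem_cl, Finset.mem_erase] at hu ⊢
    have d := h.dne hab hsp hu.1
    have d' := hD u hu.1 (fun e => hu.2 (e ▸ hi)) (fun e => hu.2 (e ▸ hj))
    refine ⟨d'.2.2, d'.2.1, d'.1, h3 u d.1 d.2.1 hu.2, ?_⟩
    rw [h1]
    by_contra e
    exact hu.2 (h2 u e)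
  have k1 := Finset.card_le_card s1
  have k2 := Finset.card_le_card s2
  rw [Finset.card_image_of_injective _ hl.inj] at k1
  rw [Finset.card_image_of_injective _ hm.inj] at k2
  have k3 : ((AN.erase i).erase j).card ≤ (AN.erase i).card := Finset.card_erase_le
  have k4 : (AN.erase i).card ≤ AN.card := Finset.card_erase_le
  have iA : i ∉ AN := fun e => by
    have := Finset.card_erase_lt_of_mem e
    omega
  have jA : j ∉ AN := fun e => by
    have := Finset.card_erase_lt_of_mem (Finset.mem_erase.2 ⟨h.ij.symm, e⟩)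
    omega
  have s3 : AN.image l = De := Finset.eq_of_subset_of_card_le s1 (by
    rw [Finset.card_image_of_injective _ hl.inj]; omega)
  have hti : ty i = some c := by
    have : ty i ≠ none := fun e => iA (by simp [hAN, hi, e, cc.refl])
    revert this ti
    rcases ty i with _ | (_ | _) <;> cases c <;> simp
  set T := (cl l m1 ∅ i).filter fun u => ty u = some c with hT
  have p1 := even_card hl T fun u hu => by
    simp only [hT, Finset.mem_filter, mem_cl] at hu ⊢
    have a1 : al u := h2 u (by simp [hu.2])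
    have hlu := hu.1.trans (cc.stl u)
    have a2 : al (l u) := by
      by_contra a2
      have : l u ∈ AN.image l := by rw [s3]; simp [hDe, hlu, a2]
      obtain ⟨w, hw, e⟩ := Finset.mem_image.1 this
      rw [hl.inj e] at hw
      simp [hAN, hu.2] at hw
    exact ⟨hlu, by rw [(hsame u hu.1 a1 a2).2, hu.2]⟩
  have p2 := even_card hm (T.erase i) fun u hu => by
    simp only [hT, Finset.mem_filter, mem_cl, Finset.mem_erase] at hu ⊢
    have d' := hD u hu.2.1 hu.1 (fun e => tj (e ▸ hu.2.2))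
    exact ⟨d'.2.1, d'.1, by rw [h1, hu.2.2]⟩
  have iT : i ∈ T := by simp [hT, hti, cc.refl]
  rw [Finset.card_erase_of_mem iT] at p2
  have : 0 < T.card := Finset.card_pos.2 ⟨i, iT⟩
  obtain ⟨x, hx⟩ := p1
  obtain ⟨y, hy⟩ := p2
  omega

/-- Swapping the loose pair with the prescribed edge `z, l z` of a closed class. Sketch: first
`a ~ m a` in the new system (`parity` and `cc.closed`); then `cc.map` with `z ↦ m z`,
`l z ↦ m (l z)`; every index other than `z, l z` is closed; use `phi_le`, `phi_lt` with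
`z ↦ a`, `l z ↦ m a`. -/
theorem swap_phi (hl : Pr l) (hm : Pr m) (hz : Cld l m {a, m a} z) (hne : l z ≠ m z)
    (h2 : Pr m2) (e1 : m2 z = l z) (e2 : m2 a = m z) (e3 : m2 (m a) = m (l z))
    (e4 : ∀ u, u ≠ a → u ≠ m a → Out m z (l z) u → m2 u = m u) :
    Phi l m {a, m a} ≤ Phi l m2 {z, l z} ∧
      (l a ≠ m a → Phi l m {a, m a} < Phi l m2 {z, l z}) := by
  have z1 : z ∉ ({a, m a} : Finset ι) := hz z (cc.refl z)
  have z2 : l z ∉ ({a, m a} : Finset ι) := hz _ (cc.stl z)
  have z1' := z1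
  have z2' := z2
  simp only [Finset.mem_insert, Finset.mem_singleton, not_or] at z1' z2'
  have a1 : a ∉ ({z, l z} : Finset ι) := by simp [Ne.symm z1'.1, Ne.symm z2'.1]
  have a2 : m a ∉ ({z, l z} : Finset ι) := by simp [Ne.symm z1'.2, Ne.symm z2'.2]
  have hU2 : ∀ u ∈ ({z, l z} : Finset ι), m2 u ∈ ({z, l z} : Finset ι) := by
    rw [← e1]; exact pair_closed h2 z
  have hcl : ∀ x, x ≠ z → x ≠ l z → Cld l m2 {z, l z} x := by
    intro x n1 n2 y hy hyU
    have : x ∈ (({z, l z} : Finset ι) : Set ι) :=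
      cc.closed hl h2 hU2 _ (fun w hw => pair_closed hl z w hw) (fun w hw _ => hU2 w hw) hy.symm hyU
    simp [n1, n2] at this
  have hab : cc l m2 {z, l z} a (m a) := by
    obtain ⟨y, hy, hne', hc⟩ := parity hl hm (pair_closed hm a) (x := a) (by simp)
    have ey : y = m a := by simpa [hne'] using hy
    rw [ey] at hc
    refine cc.transfer hl hm (pair_closed hm a) (fun w hw hwU => ?_) hc
    have hn : ¬ cc l m {a, m a} z w := fun e => hz a (e.trans hw.symm) (by simp)
    have n1 : w ≠ z := fun e => hn (by rw [e]; exact cc.refl z)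
    have n2 : w ≠ m z := fun e => hn (e ▸ cc.stm z1)
    have n3 : w ≠ l z := fun e => hn (e ▸ cc.stl z)
    have n4 : w ≠ m (l z) := fun e => hn (e ▸ (cc.stl z).trans (cc.stm z2))
    simp only [Finset.mem_insert, Finset.mem_singleton, not_or] at hwU
    rw [← e4 w hwU.1 hwU.2 ⟨n1, n2, n3, n4⟩]
    exact cc.stm (by simp [n1, n3])
  obtain ⟨φ, f1, f2, f3⟩ : ∃ φ : ι → ι, φ z = a ∧ φ (l z) = m a ∧
      ∀ x, x ≠ z → x ≠ l z → φ x = x :=
    ⟨fun x => if x = z then a else if x = l z then m a else x, by simp, by simp [hl.fpf z],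
      fun x n1 n2 => by simp [n1, n2]⟩
  have g1 : cc l m2 {z, l z} (φ z) (φ (m z)) := by
    rw [f1, f3 _ (hm.fpf z) hne.symm, ← e2]; exact cc.stm a1
  have g2 : cc l m2 {z, l z} (φ (l z)) (φ (m (l z))) := by
    rw [f2, f3 _ (fun e => hne (hm.eq_iff.1 e)) (hm.fpf _), ← e3]; exact cc.stm a2
  have hmap : ∀ x y, cc l m {a, m a} x y → cc l m2 {z, l z} (φ x) (φ y) := by
    intro x y hxy
    refine cc.map φ (fun w => ?_) (fun w hwU => ?_) hxy
    · by_cases n1 : w = z
      · rw [n1, f1, f2]; exact hab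
      by_cases n2 : w = l z
      · rw [n2, hl.inv, f1, f2]; exact hab.symm
      rw [f3 w n1 n2, f3 _ (fun e => n2 (hl.eq_iff.1 e)) (fun e => n1 (hl.inj e))]
      exact cc.stl w
    · by_cases n1 : w = z
      · rw [n1]; exact g1
      by_cases n2 : w = m z
      · rw [n2, hm.inv]; exact g1.symm
      by_cases n3 : w = l z
      · rw [n3]; exact g2
      by_cases n4 : w = m (l z)
      · rw [n4, hm.inv]; exact g2.symm
      simp only [Finset.mem_insert, Finset.mem_singleton, not_or] at hwU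
      rw [f3 w n1 n3, f3 _ (fun e => n2 (hm.eq_iff.1 e)) (fun e => n4 (hm.eq_iff.1 e)),
        ← e4 w hwU.1 hwU.2 ⟨n1, n2, n3, n4⟩]
      exact cc.stm (by simp [n1, n3])
  have hinj : Set.InjOn φ {x | Cld l m {a, m a} x} := by
    intro x hx y hy e
    have x1 : x ≠ a := fun e => not_cld_of_mem (by simp [e]) hx
    have x2 : x ≠ m a := fun e => not_cld_of_mem (by simp [e]) hx
    have y1 : y ≠ a := fun e => not_cld_of_mem (by simp [e]) hy
    have y2 : y ≠ m a := fun e => not_cld_of_mem (by simp [e]) hy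
    have am := hm.fpf a
    by_cases n1 : x = z <;> by_cases n2 : x = l z <;> by_cases n3 : y = z <;>
      by_cases n4 : y = l z <;> grind
  have hsub : ∀ x, (cl l m {a, m a} x).image φ ⊆ cl l m2 {z, l z} (φ x) := by
    intro x w hw
    obtain ⟨y, hy, rfl⟩ := Finset.mem_image.1 hw
    exact mem_cl.2 (hmap x y (mem_cl.1 hy))
  have hcard : ∀ x, Cld l m {a, m a} x →
      ((cl l m {a, m a} x).image φ).card = (cl l m {a, m a} x).card := fun x hx =>
    Finset.card_image_of_injOn fun y hy w hw e =>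
      hinj (hx.of_cc (mem_cl.1 hy)) (hx.of_cc (mem_cl.1 hw)) e
  have hmain : ∀ x, Cld l m {a, m a} x → Cld l m2 {z, l z} (φ x) ∧
      (cl l m {a, m a} x).card ≤ (cl l m2 {z, l z} (φ x)).card := by
    intro x hx
    refine ⟨?_, hcard x hx ▸ Finset.card_le_card (hsub x)⟩
    by_cases n1 : x = z
    · rw [n1, f1]; exact hcl a (Ne.symm z1'.1) (Ne.symm z2'.1)
    by_cases n2 : x = l z
    · rw [n2, f2]; exact hcl _ (Ne.symm z1'.2) (Ne.symm z2'.2)
    rw [f3 x n1 n2]; exact hcl x n1 n2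
  refine ⟨phi_le φ hinj hmain, fun hla => phi_lt φ hinj hmain ⟨z, hz, ?_⟩⟩
  rw [← hcard z hz]
  refine Finset.card_lt_card ⟨hsub z, fun hs => ?_⟩
  have hla' : cc l m2 {z, l z} (φ z) (l a) := by rw [f1]; exact cc.stl a
  obtain ⟨y, hy, e⟩ := Finset.mem_image.1 (hs (mem_cl.2 hla'))
  by_cases n1 : y = z
  · rw [n1, f1] at e; exact hl.fpf a e.symm
  by_cases n2 : y = l z
  · rw [n2, f2] at e; exact hla e.symm
  rw [f3 y n1 n2] at e
  exact hz a ((mem_cl.1 hy).trans (e ▸ (cc.stl a).symm)) (by simp)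

end Pool.Agent.P.MP_4197d5_co
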