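import Pool.Agent.P.MP_4197d5_co.Hop
import Pool.Agent.P.MP_4197d5_co.Count

/-! Edge-maximal counterexamples: small fragments are complete. -/

namespace Pool.Agent.P.MP_4197d5_co

open Classical

set_option linter.unusedSectionVars false

variable {V ι : Type} [Fintype ι] [Fintype V] {E : V → V → Prop} {t : ι → V} {l : ι → ι} {k : ℕ}

theorem addE_symm (hs : ∀ x y, E x y → E y x) (x v : V) :
    ∀ a b, addE E x v a b → addE E x v b a := by
  rintro a b (h | h | h)
  · exact Or.inl (hs _ _ h)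
  · exact Or.inr (Or.inr ⟨h.2, h.1⟩)
  · exact Or.inr (Or.inl ⟨h.2, h.1⟩)

theorem chain_of_addE {x v : V} {L : List V} (h : L.IsChain (addE E x v))
    (hx : x ∉ L ∨ v ∉ L) : L.IsChain E := by
  rw [List.isChain_iff_forall_rel_of_append_cons_cons] at h ⊢
  intro a b l1 l2 e
  rcases h e with h | ⟨rfl, rfl⟩ | ⟨rfl, rfl⟩
  · exact h
  · rcases hx with hx | hx <;> exact absurd (by simp [e]) hx
  · rcases hx with hx | hx <;> exact absurd (by simp [e]) hx

/-- the first member of `X` on a list starting off `X` -/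
theorem first_mem (X : Finset V) {a : V} {L : List V} (ha : a ∉ X) (hL : ∃ x ∈ a :: L, x ∈ X) :
    ∃ p y x0 rest, a :: L = p ++ y :: x0 :: rest ∧ (∀ w ∈ p ++ [y], w ∉ X) ∧ x0 ∈ X := by
  induction L generalizing a with
  | nil =>
    obtain ⟨x, h1, h2⟩ := hL
    rw [List.mem_singleton.1 h1] at h2
    exact absurd h2 ha
  | cons b L ih =>
    by_cases hb : b ∈ X
    · exact ⟨[], a, b, L, rfl, by simpa using ha, hb⟩
    · obtain ⟨x, h1, h2⟩ := hL
      rcases List.mem_cons.1 h1 with rfl | h1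
      · exact absurd h2 ha
      obtain ⟨p, y, x0, rest, e, h3, h4⟩ := ih hb ⟨x, h1, h2⟩
      refine ⟨a :: p, y, x0, rest, by rw [e]; rfl, fun w hw => ?_, h4⟩
      rcases List.mem_cons.1 hw with rfl | hw
      · exact ha
      · exact h3 w hw

/-- a solution using the new edge, cut at that edge (some line contains `x, v` consecutively,
otherwise all lines are chains of `E`; other stubs avoid `x`) -/
theorem cut_sol (hC : Ctx E t l k) (hn : ¬ Sol E t l) {x v : V} (hne : x ≠ v)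
    (hsol : Sol (addE E x v) t l) :
    ∃ σ m τ, St E t σ m {τ, m τ} ∧ (σ τ).getLast? = some x ∧ (σ (m τ)).getLast? = some v ∧
      ∀ a b, cc l m ∅ a b := by
  obtain ⟨σ, m, h, hc⟩ := hsol
  have hs' := addE_symm hC.symm x v
  have key : ∃ u P Q, line σ m u = P ++ x :: v :: Q := by
    by_contra hcon
    refine hn ⟨σ, m, ?_, hc⟩
    have hl : ∀ u, (line σ m u).IsChain E := by
      intro u
      have h1 := h.link u (by simp)
      rw [List.isChain_iff_forall_rel_of_append_cons_cons] at h1 ⊢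
      intro a b l1 l2 e
      rcases h1 e with h2 | ⟨rfl, rfl⟩ | ⟨rfl, rfl⟩
      · exact h2
      · exact absurd ⟨u, l1, l2, e⟩ hcon
      · refine absurd ⟨m u, l2.reverse, l1.reverse, ?_⟩ hcon
        rw [line_rev h.hm, e]; simp
    exact ⟨h.hm, h.head, fun i => chain_left (hl i), h.nodup, h.disj, h.ucl, fun i _ => hl i⟩
  obtain ⟨u, P, Q, e⟩ := key
  have hch := h.link u (by simp)
  have hnd := h.line_nodup u
  have hxu : x ∈ line σ m u := by rw [e]; simp
  have e' : line σ m u = (P ++ [x]) ++ [] ++ (v :: Q) := by rw [e]; simp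
  rw [e'] at hch hnd
  rw [List.append_nil] at hch hnd
  obtain ⟨σ', U', h1, h2, h3, h4, h5, -⟩ := h.cut hs' e' (by simp) (by simp) (chain_left hch)
    (chain_right hch)
  have hU : U' = {u, m u} := by ext i; simp [h2]
  subst hU
  rw [List.nodup_append] at hnd
  have hoth : ∀ i, i ≠ u → i ≠ m u → x ∉ σ' i := fun i a b hx => by
    rw [h5 i a b] at hx
    rcases h.stub_line hx hxu with e | e
    · exact a e
    · exact b e
  refine ⟨σ', m, u, ⟨h1.hm, h1.head, fun i => chain_of_addE (h1.chain i) ?_, h1.nodup, h1.disj,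
    h1.ucl, fun i hi => chain_of_addE (h1.link i hi) (Or.inl ?_)⟩, by rw [h3]; simp,
    by rw [h4]; simp, hc⟩
  · by_cases a : i = u
    · right; rw [a, h3]; exact fun hv => hnd.2.2 v hv v (by simp) rfl
    by_cases b : i = m u
    · left; rw [b, h4, List.mem_reverse]; exact fun hx => hnd.2.2 x (by simp) x hx rfl
    exact Or.inl (hoth i a b)
  · have hi' := h1.not_mem hi
    simp only [Finset.mem_insert, Finset.mem_singleton, not_or] at hi hi'
    rw [mem_line]
    rintro (hx | hx)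
    · exact hoth i hi.1 hi.2 hx
    · exact hoth _ hi'.1 hi'.2 hx

/-- A system with at most one loose pair exists. If some admissible non-edge exists use
`cut_sol`. Otherwise take trivial stubs and `(m, U)` with `U` least; if `U` had an index
`c ∉ {a, m a}`, `a ∈ U`, then one of `c, m c, m a` is different from `l a`: re-pair (`xch_exists`,
`St.repair`) and `St.join`. -/
theorem init_fam (hC : Ctx E t l k) (hM : EMax E t l) (hn : ¬ Sol E t l) :
    ∃ σ m U, St E t σ m U ∧ Sm m U := by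
  by_cases hex : ∃ x v, x ≠ v ∧ ¬ E x v ∧ ∀ i, ¬ (x = t i ∧ v = t (l i))
  · obtain ⟨x, v, a, b, c⟩ := hex
    obtain ⟨σ, m, τ, h, -⟩ := cut_sol hC hn a (hM x v a b c)
    exact ⟨σ, m, _, h, Or.inr ⟨τ, rfl⟩⟩
  have hadj : ∀ a c, a ≠ c → c ≠ l a → E (t a) (t c) := by
    intro a c h1 h2
    by_contra h3
    refine hex ⟨t a, t c, fun e => h1 (hC.tinj e), h3, fun i hi => h2 ?_⟩
    rw [hC.tinj hi.2, hC.tinj hi.1]
  let P : (ι → ι) × Finset ι → Prop := fun q =>
    Pr q.1 ∧ (∀ i ∈ q.2, q.1 i ∈ q.2) ∧ ∀ i, i ∉ q.2 → E (t i) (t (q.1 i))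
  have hP : ∃ n, ∃ q, P q ∧ q.2.card = n :=
    ⟨_, (l, Finset.univ), ⟨hC.hl, by simp, by simp⟩, rfl⟩
  obtain ⟨⟨m, U⟩, ⟨hm, hU, hE⟩, hcard⟩ := Nat.find_spec hP
  have hmin : ∀ q, P q → U.card ≤ q.2.card := fun q hq => by
    have := Nat.find_min' hP ⟨q, hq, rfl⟩
    simp only at hcard
    omega
  simp only at hm hU hE
  refine ⟨fun i => [t i], m, U, ⟨hm, by simp, by simp, by simp, ?_, hU, ?_⟩, ?_⟩
  · intro i j hij v hv hv'
    simp only [List.mem_singleton] at hv hv'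
    exact hij (hC.tinj (hv.symm.trans hv'))
  · intro i hi
    simpa [line] using hE i hi
  rcases U.eq_empty_or_nonempty with h0 | ⟨a, ha⟩
  · exact Or.inl h0
  refine Or.inr ⟨a, ?_⟩
  by_contra hne
  have hc : ∃ c ∈ U, c ≠ a ∧ c ≠ m a := by
    by_contra hcon
    push Not at hcon
    apply hne
    ext i
    simp only [Finset.mem_insert, Finset.mem_singleton]
    constructor
    · intro hi
      by_cases e : i = a
      · exact Or.inl e
      · exact Or.inr (hcon i hi e)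
    · rintro (rfl | rfl)
      · exact ha
      · exact hU _ ha
  obtain ⟨c, hcU, hca, hcm⟩ := hc
  have key : ∃ m' : ι → ι, Pr m' ∧ m' a ∈ U ∧ m' a ≠ l a ∧ ∀ i, i ∉ U → m' i = m i := by
    by_cases e : m a = l a
    · obtain ⟨m', hx⟩ := xch_exists hm hca.symm hcm.symm
      refine ⟨m', hx.inv, hx.ha.symm ▸ hcU, by rw [hx.ha, ← e]; exact hcm, fun i hi => hx.oth i ?_⟩
      exact ⟨fun e => hi (e ▸ ha), fun e => hi (e ▸ hU _ ha), fun e => hi (e ▸ hcU),
        fun e => hi (e ▸ hU _ hcU)⟩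
    · exact ⟨m, hm, hU _ ha, e, fun _ _ => rfl⟩
  obtain ⟨m', hm', h1, h2, h3⟩ := key
  have hU' : ∀ i ∈ U, m' i ∈ U := fun i hi => by
    by_contra hc
    have h4 := h3 _ hc
    rw [hm'.inv] at h4
    exact hm.not_mem hU hc (h4 ▸ hi)
  have hEa : E (t a) (t (m' a)) := hadj _ _ (hm'.fpf a).symm h2
  have := hmin (m', (U.erase a).erase (m' a)) ⟨hm', ?_, ?_⟩
  · have h4 : ((U.erase a).erase (m' a)).card ≤ (U.erase a).card := Finset.card_erase_le
    have h5 := Finset.card_erase_lt_of_mem ha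
    simp only at this
    omega
  · intro i hi
    simp only [Finset.mem_erase] at hi ⊢
    exact ⟨fun e => hi.2.1 (hm'.inj e), fun e => hi.1 (hm'.eq_iff.1 e), hU' _ hi.2.2⟩
  · intro i hi
    simp only [Finset.mem_erase, not_and] at hi ⊢
    by_cases e1 : i = m' a
    · rw [e1, hm'.inv]; exact hC.symm _ _ hEa
    by_cases e2 : i = a
    · rw [e2]; exact hEa
    have hi' := hi e1 e2
    rw [h3 i hi']
    exact hE i hi'

/-- Core of the completeness lemma. The stub of `τ` is `p ++ [r]` with `p` off `X`, the stub of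
`m τ` avoids `X` and ends in `z ∈ Z`. Put `O = X \ On σ`, `R = RO E O r`,
`A0 = {v ∉ O | Hit E O r v}`, `A = Acl E (line σ m) N X (O \ R) A0` with `N` all realized
indices. If `z ∈ A`, `St.os` (with `p = m τ`) and `St.join` along `Hit.path` give a solution.
Otherwise the region `Y = {r} ∪ R ∪ Xcl ...` has its `E`-neighbours in `Y` or in
`S = {v ∈ A | v ∉ O, v ∉ Y}`. Members of `S` off `X` lie in `Z ∩ A`; a member `s ∈ S ∩ X` lies on
a realized line and is not `Btw`, so `line u = l1 ++ s :: l2` with `l1` off `A` for a suitable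
orientation, and `l1` contains a vertex `ψ s ∈ Z \ A` (the vertex before the first member of `X`);
`ψ` is injective. Hence `S` injects into `Z \ {z, r}`. -/
theorem lemI_core (hC : Ctx E t l k) (hn : ¬ Sol E t l) (X Z : Finset V)
    (hX : ∀ x ∈ X, ∀ i, x ≠ t i) (hN : ∀ x ∈ X, ∀ w, E x w → w ∈ X ∨ w ∈ Z)
    {σ : ι → List V} {m : ι → ι} {τ : ι} (h : St E t σ m {τ, m τ}) (hc : ∀ a b, cc l m ∅ a b)
    {p : List V} {r z : V} (h1 : σ τ = p ++ [r]) (hp : ∀ v ∈ p, v ∉ X)
    (hr : ∀ w, E r w → w ∈ X ∨ w ∈ Z) (h2 : (σ (m τ)).getLast? = some z) (hz : z ∈ Z)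
    (h3 : ∀ v ∈ σ (m τ), v ∉ X) :
    ∃ (Y : Set V) (S : Finset V), r ∈ Y ∧ r ∉ S ∧ z ∉ Y ∧ z ∉ S ∧ (∀ y ∈ Y, y ∈ X ∨ y = r) ∧
      (∀ y ∈ Y, ∀ w, E y w → w ∈ Y ∨ w ∈ S) ∧ S.card ≤ ((Z.erase z).erase r).card := by
  have hs := hC.symm
  have hne := h.hm.fpf τ
  set U : Finset ι := {τ, m τ} with hU
  have hτ : τ ∈ U := by simp [hU]
  have hmτ : m τ ∈ U := by simp [hU]
  set N : Finset ι := Uᶜ with hNd
  set O : Set V := {x | x ∈ X ∧ ¬ On σ x} with hO
  set O' : Set V := {x | x ∈ O ∧ ¬ RO E O r x} with hO'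
  set A0 : Set V := {v | v ∉ O ∧ Hit E O r v} with hA0
  set A : Set V := Acl E (line σ m) N (X : Set V) O' A0 with hA
  set W : Set V := Xcl E (line σ m) N (X : Set V) O' A0 with hW
  have hrτ : r ∈ σ τ := by rw [h1]; simp
  have hzτ : z ∈ σ (m τ) := List.mem_of_getLast? h2
  have hzA : z ∉ A := by
    intro hzA
    obtain ⟨σ', m', U', p', x', s1, s2, s3, s4, s5, s6, s7, s8⟩ :=
      h.os hs hC.hl N (fun u hu => Finset.mem_compl.1 hu) O' (X : Set V) A0
        (fun o ho => ho.1.2) (fun v hv hv' => hv.1 hv'.1) hmτ h2 hzA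
    rw [h.hm.inv] at s3
    have s3' : m' τ = p' := by rw [← s3, s1.hm.inv]
    have s5' := s5 τ hτ hne.symm
    obtain ⟨q, q1, q2, q3⟩ := s7.2.path hs
    obtain ⟨ys, hys⟩ := List.getLast?_eq_some_iff.1 s6
    have e : line σ' m' τ = (p ++ [r]) ++ [] ++ (x' :: ys.reverse) := by
      rw [line, s5', h1, s3', hys]; simp
    have c1 : (p ++ [r]).IsChain E := h1 ▸ h.chain τ
    have c2 : (x' :: ys.reverse).IsChain E := by
      have := chain_rev hs (s1.chain p')
      rw [hys] at this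
      simpa using this
    have c3 : (p ++ [r] ++ q ++ x' :: ys.reverse).IsChain E := by
      have c4 := chain_glue c1 q3
      have c5 : ((p ++ r :: q) ++ [x']).IsChain E := by simpa using c4
      simpa using chain_glue c5 c2
    have hav : ∀ o ∈ q, ¬ On σ' o ∨ o ∈ ([] : List V) := fun o ho => Or.inl fun hon => by
      have := (q2 o ho).1
      rcases s8 o hon with h' | h'
      · exact this.mem.2 h'
      · exact h'.2 this
    obtain ⟨σ'', U'', j1, j2, -⟩ := s1.join hs e (by simp) (by simp) q1 hav c3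
    have : U'' = ∅ := by
      ext i
      simp only [j2, s4, hU, Finset.mem_insert, Finset.mem_singleton, s3',
        Finset.notMem_empty, iff_false]
      tauto
    exact hn ⟨σ'', m', this ▸ j1, fun a b => s2 a b (hc a b)⟩
  have hWX : ∀ y ∈ W, y ∈ X := fun y hy => by
    rcases Xcl_cases hy with h' | h'
    · exact h'.1.1
    · exact h'.1
  set Y : Set V := {y | y = r ∨ RO E O r y ∨ y ∈ W} with hY
  have hAXZ : ∀ s ∈ A, s ∈ X ∨ s ∈ Z := fun s hs' => by
    rcases Acl_cases hs' with h' | ⟨-, x, hx, e⟩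
    · rcases h'.2 with e | ⟨o, ho, e⟩
      · exact hr s e
      · exact hN o ho.mem.1 s e
    · exact hN x (hWX x hx) s e
  refine ⟨Y, Finset.univ.filter fun v => v ∈ A ∧ v ∉ O ∧ v ∉ Y, Or.inl rfl, ?_, ?_, ?_, ?_, ?_, ?_⟩
  · simp [hY]
  · rintro (e | e | e)
    · exact h.disj τ (m τ) hne.symm r hrτ (e ▸ hzτ)
    · exact e.mem.2 ⟨_, hzτ⟩
    · exact h3 z hzτ (hWX z e)
  · simp [hzA]
  · rintro y (e | e | e)
    · exact Or.inr e
    · exact Or.inl e.mem.1
    · exact Or.inl (hWX y e)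
  · have k1 : ∀ w, Hit E O r w → w ∈ Y ∨ (w ∈ A ∧ w ∉ O) := fun w hw => by
      by_cases hwO : w ∈ O
      · exact Or.inl (Or.inr (Or.inl (hw.ro hwO)))
      · exact Or.inr ⟨A0_sub ⟨hwO, hw⟩, hwO⟩
    have k2 : ∀ y ∈ Y, ∀ w, E y w → w ∈ Y ∨ (w ∈ A ∧ w ∉ O) := by
      rintro y (e | e | e) w hw
      · exact k1 w (Or.inl (e ▸ hw))
      · exact k1 w (Or.inr ⟨y, e, hw⟩)
      · rcases Xcl_adj e hw with h' | h'
        · exact Or.inl (Or.inr (Or.inr h'.2))
        · by_cases hwO : w ∈ O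
          · by_cases hR : RO E O r w
            · exact Or.inl (Or.inr (Or.inl hR))
            · exact absurd ⟨hwO, hR⟩ h'.1
          · exact Or.inr ⟨h'.2, hwO⟩
    intro y hy w hw
    by_cases hwY : w ∈ Y
    · exact Or.inl hwY
    rcases k2 y hy w hw with h' | h'
    · exact Or.inl h'
    · exact Or.inr (Finset.mem_filter.2 ⟨Finset.mem_univ _, h'.1, h'.2, hwY⟩)
  · have hex : ∀ s, ∃ y, s ∈ A ∧ s ∉ O ∧ s ∉ Y → y ∈ (Z.erase z).erase r ∧
        (y = s ∨ ∃ u l1 l2, line σ m u = l1 ++ s :: l2 ∧ (∀ f ∈ l1, f ∉ A) ∧ y ∈ l1) := by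
      intro s
      by_cases hs' : s ∈ A ∧ s ∉ O ∧ s ∉ Y
      swap
      · exact ⟨s, fun h' => absurd h' hs'⟩
      obtain ⟨a1, a2, a3⟩ := hs'
      have hsr : s ≠ r := fun e => a3 (Or.inl e)
      by_cases hsX : s ∈ X
      swap
      · refine ⟨s, fun _ => ⟨?_, Or.inl rfl⟩⟩
        simp only [Finset.mem_erase]
        exact ⟨hsr, fun e => hzA (e ▸ a1), (hAXZ s a1).resolve_left hsX⟩
      have hon : On σ s := by
        by_contra hon
        exact a2 ⟨hsX, hon⟩
      obtain ⟨i, hi⟩ := hon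
      have hiU : i ∉ U := by
        simp only [hU, Finset.mem_insert, Finset.mem_singleton, not_or]
        constructor
        · rintro rfl
          rw [h1, List.mem_append, List.mem_singleton] at hi
          rcases hi with hi | hi
          · exact hp s hi hsX
          · exact hsr hi
        · rintro rfl
          exact h3 s hi hsX
      have hsplit : ∃ u l1 l2, u ∉ U ∧ line σ m u = l1 ++ s :: l2 ∧ ∀ f ∈ l1, f ∉ A := by
        obtain ⟨l1, l2, e⟩ := List.append_of_mem (mem_line.2 (Or.inl hi) : s ∈ line σ m i)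
        by_cases b1 : ∃ f ∈ l1, f ∈ A
        · by_cases b2 : ∃ f ∈ l2, f ∈ A
          · exact absurd (Or.inr (Or.inr (Or.inl
              ⟨hsX, i, Finset.mem_compl.2 hiU, l1, l2, e, b1, b2⟩))) a3
          · refine ⟨m i, l2.reverse, l1.reverse, h.not_mem hiU, ?_, fun f hf hf' =>
              b2 ⟨f, List.mem_reverse.1 hf, hf'⟩⟩
            rw [line_rev h.hm, e]; simp
        · exact ⟨i, l1, l2, hiU, e, fun f hf hf' => b1 ⟨f, hf, hf'⟩⟩
      obtain ⟨u, l1, l2, hu, e, hl1⟩ := hsplit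
      obtain ⟨r0, hr0⟩ := h.head_of_line (P := l1 ++ [s]) (R := l2) (i := u) (by rw [e]; simp)
        (by simp)
      obtain ⟨p0, y, x0, rest, e0, b1, b2⟩ := first_mem X (a := t u) (L := r0)
        (fun h' => hX _ h' u rfl) ⟨s, by rw [← hr0]; simp, hsX⟩
      rw [← hr0] at e0
      have hyX : y ∉ X := b1 y (by simp)
      have hy1 : y ∈ l1 := by
        have : y ∈ l1 ++ [s] := by rw [e0]; simp
        rcases List.mem_append.1 this with h' | h'
        · exact h'
        · exact absurd (List.mem_singleton.1 h' ▸ hsX) hyX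
      have hch : (l1 ++ [s]).IsChain E := by
        have := h.link u hu
        rw [e] at this
        exact (List.isChain_split.1 this).1
      rw [e0] at hch
      have hyZ : y ∈ Z := (hN x0 b2 y (hs _ _ (chain_adj hch))).resolve_left hyX
      have hyl : y ∈ line σ m u := by rw [e]; simp [hy1]
      have hyU : ∀ j ∈ U, y ∉ σ j := fun j hj hy => by
        rcases h.stub_line hy hyl with e | e
        · exact hu (e ▸ hj)
        · exact h.not_mem hu (e ▸ hj)
      refine ⟨y, fun _ => ⟨?_, Or.inr ⟨u, l1, l2, e, hl1, hy1⟩⟩⟩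
      simp only [Finset.mem_erase]
      exact ⟨fun e => hyU τ hτ (e ▸ hrτ), fun e => hyU _ hmτ (e ▸ hzτ), hyZ⟩
    choose ψ hψ using hex
    refine Finset.card_le_card_of_injOn ψ (fun s hs' => ?_) (fun s hs1 s' hs2 e => ?_)
    · exact (hψ s (Finset.mem_filter.1 hs').2).1
    have a1 := (Finset.mem_filter.1 (Finset.mem_coe.1 hs1)).2
    have a2 := (Finset.mem_filter.1 (Finset.mem_coe.1 hs2)).2
    rcases (hψ s a1).2 with b1 | ⟨u, l1, l2, e1, c1, d1⟩ <;>
      rcases (hψ s' a2).2 with b2 | ⟨u', l1', l2', e2, c2, d2⟩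
    · rw [← b1, e, b2]
    · exact absurd a1.1 (c2 s (by rw [← b1, e]; exact d2))
    · exact absurd a2.1 (c1 s' (by rw [← b2, ← e]; exact d1))
    rw [← e] at d2
    have y1 : ψ s ∈ line σ m u := by rw [e1]; simp [d1]
    have y2 : ψ s ∈ line σ m u' := by rw [e2]; simp [d2]
    rcases h.line_disj y1 y2 with rfl | rfl
    · rw [e1] at e2
      rcases List.append_eq_append_iff.1 e2 with ⟨c, f1, f2⟩ | ⟨c, f1, f2⟩
      · rcases c with _ | ⟨a, c⟩
        · simpa using (List.cons.inj f2).1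
        · exact absurd a1.1 (c2 s (by rw [f1, (List.cons.inj f2).1]; simp))
      · rcases c with _ | ⟨a, c⟩
        · simpa using (List.cons.inj f2).1.symm
        · exact absurd a2.1 (c1 s' (by rw [f1, (List.cons.inj f2).1]; simp))
    · have e3 : line σ m u = l2'.reverse ++ s' :: l1'.reverse := by
        have := congrArg List.reverse e2
        rw [line_rev h.hm, List.reverse_reverse] at this
        rw [this]; simp
      have hnd := h.line_nodup u
      rw [e3, List.nodup_append] at hnd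
      have hbad : ψ s ∉ l2'.reverse := fun h' => hnd.2.2 _ h' (ψ s) (by simp [d2]) rfl
      rw [e1] at e3
      rcases List.append_eq_append_iff.1 e3 with ⟨c, f1, f2⟩ | ⟨c, f1, f2⟩
      · exact absurd (by rw [f1]; simp [d1]) hbad
      · rcases c with _ | ⟨a, c⟩
        · exact absurd (by rw [f1] at d1; simpa using d1) hbad
        · exact absurd a2.1 (c1 s' (by rw [f1, (List.cons.inj f2).1]; simp))

/-- shorten a loose stub so that it avoids `X` and ends in `Z` -/
theorem trim_Z (hs : ∀ x y, E x y → E y x) (X Z : Finset V) (hX : ∀ x ∈ X, ∀ i, x ≠ t i)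
    (hN : ∀ x ∈ X, ∀ w, E x w → w ∈ X ∨ w ∈ Z) {σ : ι → List V} {m : ι → ι} {U : Finset ι}
    (h : St E t σ m U) {u : ι} (hu : u ∈ U) {v : V} (h1 : (σ u).getLast? = some v)
    (hv : v ∈ X ∨ v ∈ Z) :
    ∃ σ' z, St E t σ' m U ∧ (σ' u).getLast? = some z ∧ z ∈ Z ∧ (∀ w ∈ σ' u, w ∉ X) ∧
      ∀ i, i ≠ u → σ' i = σ i := by
  by_cases hex : ∃ x ∈ σ u, x ∈ X
  · obtain ⟨r, hr⟩ := h.eq_cons u
    obtain ⟨p, y, x0, rest, e, b1, b2⟩ := first_mem X (a := t u) (L := r)
      (fun h' => hX _ h' u rfl) (hr ▸ hex)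
    rw [← hr] at e
    obtain ⟨σ', s1, s2, s3⟩ := h.trim hs hu (P := p ++ [y]) (R := x0 :: rest) (by rw [e]; simp)
      (by simp)
    have hch := h.chain u
    rw [e] at hch
    exact ⟨σ', y, s1, by rw [s2]; simp,
      (hN x0 b2 y (hs _ _ (chain_adj hch))).resolve_left (b1 y (by simp)), s2 ▸ b1, s3⟩
  · exact ⟨σ, v, h, h1, hv.resolve_left fun h' => hex ⟨v, List.mem_of_getLast? h1, h'⟩,
      fun w hw h' => hex ⟨w, hw, h'⟩, fun _ _ => rfl⟩

/-- completeness for inner vertices of a fragment -/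
theorem lemI_nt (hC : Ctx E t l k) (hM : EMax E t l) (hn : ¬ Sol E t l) (X Z : Finset V)
    (hX : ∀ x ∈ X, ∀ i, x ≠ t i) (hZ : Z.card ≤ k) (hN : ∀ x ∈ X, ∀ w, E x w → w ∈ X ∨ w ∈ Z)
    {x v : V} (hx : x ∈ X) (hv : v ∈ X ∨ v ∈ Z) (hne : x ≠ v) : E x v := by
  by_contra hE
  obtain ⟨σ, m, τ, h, g1, g2, hc⟩ := cut_sol hC hn hne
    (hM x v hne hE fun i hi => hX x hx i hi.1)
  obtain ⟨σ1, z, h1, z1, z2, z3, z4⟩ := trim_Z hC.symm X Z hX hN h (u := m τ) (by simp) g2 hv
  have hne' := h.hm.fpf τ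
  rw [← z4 τ hne'.symm] at g1
  obtain ⟨r0, hr0⟩ := h1.eq_cons τ
  obtain ⟨p, y, r, rest, e, b1, b2⟩ := first_mem X (a := t τ) (L := r0)
    (fun h' => hX _ h' τ rfl) ⟨x, hr0 ▸ List.mem_of_getLast? g1, hx⟩
  rw [← hr0] at e
  obtain ⟨σ2, h2, s2, s3⟩ := h1.trim hC.symm (u := τ) (by simp) (P := p ++ [y] ++ [r])
    (R := rest) (by rw [e]; simp) (by simp)
  have s4 := s3 _ hne'
  obtain ⟨Y, S, y1, -, -, -, y5, y6, y7⟩ := lemI_core hC hn X Z hX hN h2 hc s2 b1 (hN r b2)
    (s4 ▸ z1) z2 (s4 ▸ z3)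
  have k1 := hC.hk_nt Y S r y1 (fun y hy => hX y ((y5 y hy).elim id fun e => e ▸ b2)) y6
  have k2 : ((Z.erase z).erase r).card ≤ (Z.erase z).card := Finset.card_erase_le
  have k3 := Finset.card_erase_lt_of_mem z2
  omega

/-- completeness for a captured terminal -/
theorem lemI_t (hC : Ctx E t l k) (hM : EMax E t l) (hn : ¬ Sol E t l) (X Z : Finset V)
    (hX : ∀ x ∈ X, ∀ i, x ≠ t i) (hZ : Z.card ≤ k) (hN : ∀ x ∈ X, ∀ w, E x w → w ∈ X ∨ w ∈ Z)
    {a : ι} (ha : t a ∈ Z) (hla : t (l a) ∉ Z) (hNa : ∀ w, E (t a) w → w ∈ X ∨ w ∈ Z)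
    {v : V} (hv : v ∈ X ∨ v ∈ Z) (hne : t a ≠ v) : E (t a) v := by
  by_contra hE
  obtain ⟨σ, m, τ, h, g1, g2, hc⟩ := cut_sol hC hn hne (hM _ v hne hE fun i hi => by
    have e : a = i := hC.tinj hi.1
    subst e
    rcases hv with hv | hv
    · exact hX v hv _ hi.2
    · exact hla (hi.2 ▸ hv))
  obtain ⟨σ1, z, h1, z1, z2, z3, z4⟩ := trim_Z hC.symm X Z hX hN h (u := m τ) (by simp) g2 hv
  have hne' := h.hm.fpf τ
  have e : a = τ := h.t_mem_iff.1 (List.mem_of_getLast? g1)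
  subst e
  obtain ⟨r0, hr0⟩ := h1.eq_cons a
  obtain ⟨σ2, h2, s2, s3⟩ := h1.trim hC.symm (u := a) (by simp) (P := [] ++ [t a])
    (R := r0) (by rw [hr0]; simp) (by simp)
  have s4 := s3 _ hne'
  obtain ⟨Y, S, y1, -, y3, -, y5, y6, y7⟩ := lemI_core hC hn X Z hX hN h2 hc s2 (by simp) hNa
    (s4 ▸ z1) z2 (s4 ▸ z3)
  have k1 := (hC.hk_one Y S a y1
    (fun i hi => (y5 _ hi).elim (fun h' => absurd rfl (hX _ h' i)) fun e => hC.tinj e) y6).1
  have k2 := Finset.card_erase_lt_of_mem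
    (Finset.mem_erase.2 ⟨fun e => y3 (e ▸ y1), ha⟩ : t a ∈ Z.erase z)
  have k3 := Finset.card_erase_lt_of_mem z2
  omega

theorem lemI_two (hC : Ctx E t l k) (X Z : Finset V)
    (hX : ∀ x ∈ X, ∀ i, x ≠ t i) (hZ : Z.card ≤ k) (hN : ∀ x ∈ X, ∀ w, E x w → w ∈ X ∨ w ∈ Z)
    (hne : X.Nonempty) : 2 ≤ X.card := by
  by_contra hlt
  obtain ⟨x, hx⟩ := hne
  have h1 := hC.deg_nt (hX x hx) Z fun w hw => (hN x hx w hw).resolve_left fun h' => by
    have e : w = x := Finset.card_le_one.1 (by omega) w h' x hx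
    exact hC.irr x (e ▸ hw)
  omega

end Pool.Agent.P.MP_4197d5_co
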