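import Pool.Agent.P.MP_4197d5_co.Pair

/-! The hypotheses of the theorem give the standing hypotheses. -/

namespace Pool.Agent.P.MP_4197d5_co

open Classical

set_option linter.unusedSectionVars false

/-- a set closed under the adjacency of a preconnected graph is everything -/
theorem red_closed {W : Type} {H : SimpleGraph W} (h : H.Preconnected) (Y : Set W) {y : W}
    (hy : y ∈ Y) (hc : ∀ x ∈ Y, ∀ w, H.Adj x w → w ∈ Y) (v : W) : v ∈ Y := by
  obtain ⟨p⟩ := h y v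
  induction p with
  | nil => exact hy
  | cons e _ ih => exact ih (hc _ hy _ e)

/-- Take `ι = {v // ∃ e ∈ M, v ∈ e}`, `t = Subtype.val`, `l` the other end of the edge of `M`.
`hk`: if `|S| < κ` the induced graph on the complement of `S` is connected, follow a walk from `y`
to `v`. `hd`: otherwise delete the at most `κ` edges at `v`; another vertex exists. `hc`: delete
`M`. -/
theorem reduction {V : Type} [Fintype V] (G : SimpleGraph V) (κ : ℕ) (h1 : 1 ≤ κ)
    (h2 : κ < Fintype.card V)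
    (h3 : ∀ S : Finset V, S.card < κ → (G.induce ((↑S : Set V)ᶜ)).Connected)
    (h4 : ∀ F : Finset (Sym2 V), F.card ≤ κ → (G.deleteEdges (↑F : Set (Sym2 V))).Connected)
    (M : Finset (Sym2 V)) (h5 : (↑M : Set (Sym2 V)) ⊆ G.edgeSet) (h6 : M.card = κ)
    (h7 : ∀ e ∈ M, ∀ f ∈ M, e ≠ f → ∀ x ∈ e, x ∉ f) :
    ∃ (ι : Type) (_ : Fintype ι) (t : ι → V) (l : ι → ι),
      Ctx (fun x y => G.Adj x y ∧ s(x, y) ∉ M) t l κ ∧ (∀ i, G.Adj (t i) (t (l i))) ∧
        ∀ e ∈ M, ∃ i, e = s(t i, t (l i)) := by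
  have huniq : ∀ e ∈ M, ∀ f ∈ M, ∀ x, x ∈ e → x ∈ f → e = f := by
    intro e he f hf x hx hx'
    by_contra hne
    exact h7 e he f hf hne x hx hx'
  have hex : ∀ i : {v // ∃ e ∈ M, v ∈ e}, ∃ j : {v // ∃ e ∈ M, v ∈ e}, s(i.1, j.1) ∈ M := by
    rintro ⟨v, e, he, hv⟩
    obtain ⟨w, rfl⟩ := Sym2.mem_iff_exists.1 hv
    exact ⟨⟨w, _, he, Sym2.mem_mk_right _ _⟩, he⟩
  choose l hl using hex
  have hadj : ∀ i : {v // ∃ e ∈ M, v ∈ e}, G.Adj i.1 (l i).1 := fun i => h5 (hl i)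
  have hlu : ∀ (i : {v // ∃ e ∈ M, v ∈ e}) (w : V), s(i.1, w) ∈ M → w = (l i).1 := by
    intro i w hw
    have := huniq _ hw _ (hl i) i.1 (Sym2.mem_mk_left _ _) (Sym2.mem_mk_left _ _)
    exact Sym2.congr_right.1 this
  have hPr : Pr l := by
    refine ⟨fun i => Subtype.ext (hlu (l i) i.1 ?_).symm, fun i e => (hadj i).ne ?_⟩
    · rw [Sym2.eq_swap]; exact hl i
    · rw [e]
  have hM : ∀ e ∈ M, ∃ i : {v // ∃ e ∈ M, v ∈ e}, e = s(i.1, (l i).1) := by
    intro e he
    induction e using Sym2.ind with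
    | _ a b =>
      refine ⟨⟨a, _, he, Sym2.mem_mk_left _ _⟩, ?_⟩
      rw [← hlu ⟨a, _, he, Sym2.mem_mk_left _ _⟩ b he]
  have hGA : ∀ v w, G.Adj v w →
      GA (fun x y => G.Adj x y ∧ s(x, y) ∉ M) (Subtype.val : {v // ∃ e ∈ M, v ∈ e} → V) l v w := by
    intro v w hvw
    by_cases hm : s(v, w) ∈ M
    · exact Or.inr ⟨⟨v, _, hm, Sym2.mem_mk_left _ _⟩, rfl,
        hlu ⟨v, _, hm, Sym2.mem_mk_left _ _⟩ w hm⟩
    · exact Or.inl ⟨hvw, hm⟩
  refine ⟨{v // ∃ e ∈ M, v ∈ e}, inferInstance, Subtype.val, l,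
    ⟨?_, ?_, hPr, Subtype.val_injective, ?_, ?_, h1, ?_, ?_, ?_⟩, hadj, hM⟩
  · rintro x y ⟨h, h'⟩
    exact ⟨h.symm, by rwa [Sym2.eq_swap]⟩
  · exact fun x h => h.1.ne rfl
  · exact fun i h => h.2 (hl i)
  · rw [Fintype.card_subtype]
    have : (Finset.univ.filter fun v => ∃ e ∈ M, v ∈ e) = M.biUnion Sym2.toFinset := by
      ext v; simp [Sym2.mem_toFinset]
    rw [this, Finset.card_biUnion, Finset.sum_const_nat (m := 2), h6, mul_comm]
    · intro e he
      exact Sym2.card_toFinset_of_not_isDiag e (G.not_isDiag_of_mem_edgeSet (h5 he))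
    · intro e he f hf hne
      refine Finset.disjoint_left.2 fun x hx hx' => ?_
      exact h7 e he f hf hne x (Sym2.mem_toFinset.1 hx) (Sym2.mem_toFinset.1 hx')
  · intro Y S y v hy hyS hv hvS hcl
    by_contra hlt
    have hcon := (h3 S (not_le.1 hlt)).preconnected
    apply hv
    refine red_closed hcon {x | x.1 ∈ Y} (y := ⟨y, hyS⟩) hy ?_ ⟨v, hvS⟩
    intro x hx w hw
    exact (hcl x.1 hx x.2 w.1 (hGA _ _ hw)).resolve_right w.2
  · intro v S hS
    by_contra hlt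
    have hcon := (h4 (S.image fun w => s(v, w)) (Finset.card_image_le.trans (by omega))).preconnected
    have hall := red_closed hcon {v} (y := v) rfl (by
      rintro x rfl w hw
      rw [SimpleGraph.deleteEdges_adj] at hw
      exact absurd (Finset.mem_coe.2 (Finset.mem_image_of_mem _ (hS w (hGA _ _ hw.1)))) hw.2)
    have : Fintype.card V ≤ 1 :=
      Fintype.card_le_one_iff.2 fun a b => (hall a).trans (hall b).symm
    omega
  · intro Y y hy hcl v
    refine red_closed (h4 M h6.le).preconnected Y hy (fun x hx w hw => hcl x hx w ?_) v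
    rw [SimpleGraph.deleteEdges_adj] at hw
    exact ⟨hw.1, fun hm => hw.2 (Finset.mem_coe.2 hm)⟩

end Pool.Agent.P.MP_4197d5_co
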