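import Pool.Agent.P.MP_4197d5_co.Hop

/-! The two closures from a loose pair. -/

namespace Pool.Agent.P.MP_4197d5_co

open Classical

set_option linter.unusedSectionVars false

variable {V ι : Type} [Fintype ι] {E : V → V → Prop} {t : ι → V} {l : ι → ι} {σ : ι → List V}
  {m : ι → ι}

/-- join a trivial loose stub to the end of its partner -/
theorem St.join_hit (hs : ∀ x y, E x y → E y x) {U : Finset ι} (h : St E t σ m U) {u p : ι}
    (hp : m p = u) (hu : σ u = [t u]) {x : V} (hx : (σ p).getLast? = some x) {O : Set V}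
    (hh : Hit E O (t u) x) (hO : ∀ o, RO E O (t u) o → ¬ On σ o) :
    ∃ σ' U', St E t σ' m U' ∧ (∀ i, i ∈ U' ↔ i ∈ U ∧ i ≠ u ∧ i ≠ p) ∧
      (∀ i, i ≠ u → i ≠ p → σ' i = σ i) ∧ ∀ v, On σ' v → On σ v ∨ RO E O (t u) v := by
  have hp' : m u = p := by rw [← hp, h.hm.inv]
  obtain ⟨q, q1, q2, q3⟩ := hh.path hs
  obtain ⟨r, hr⟩ := List.getLast?_eq_some_iff.1 hx
  have cp := chain_rev hs (h.chain p)
  obtain ⟨σ', U', a1, a2, a3, a4⟩ := h.join hs (u := u) (P := [t u]) (M := [])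
    (Q := (σ p).reverse) (c := q) (by rw [line, hu, hp']; simp) (by simp)
    (by simpa using h.ne_nil p) q1 (fun o ho => Or.inl (hO o (q2 o ho).1))
    (by
      rw [hr] at cp ⊢
      have := chain_glue (A := t u :: q) (B := r.reverse) q3 (by simpa using cp)
      simpa using this)
  rw [hp'] at a2 a4
  refine ⟨σ', U', a1, a2, a4, ?_⟩
  rintro v ⟨i, hi⟩
  by_cases b : i = u ∨ i = p
  · have : v ∈ line σ' m u := by
      rw [mem_line, hp']
      rcases b with rfl | rfl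
      · exact Or.inl hi
      · exact Or.inr hi
    rw [a3] at this
    simp only [List.mem_append, List.mem_singleton, List.mem_reverse] at this
    rcases this with (rfl | b) | b
    · exact Or.inl (h.t_on u)
    · exact Or.inr (q2 v b).1
    · exact Or.inl ⟨p, b⟩
  · push Not at b
    exact Or.inl ⟨i, a4 i b.1 b.2 ▸ hi⟩

/-- Sketch. Let `R c = RO E O (t (e c))`, `O' = O \ (R false ∪ R true)`,
`A0 c = {v ∉ O | Hit E O (t (e c)) v}`, `A c = Acl E (line σ m) N Src O' (A0 c)`,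
`X c = R c ∪ Xcl ...`. If `t (e (!c)) ∈ A c` use `St.os` with `p = e (!c)` and then `St.join`
along `Hit.path` (it lies in `R c`, off the new system): first alternative. In particular
`R false`, `R true` are disjoint otherwise (`Hit.of_RO`). If `n5` fails use `St.tc` with
`Xch m m0 τ (e false)` and join twice: second alternative. Otherwise `NoEv`: for `n1` use
`Xcl_adj`; a neighbour `v ∈ R (!c)` of `x ∈ Xcl` is impossible (a member of `O'` adjacent to
`R (!c)` lies in it; an inner vertex adjacent to it lies in `A0 (!c)`, against `n5`, `Btw.two`). -/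
theorem St.pc (hs : ∀ x y, E x y → E y x) (hl : Pr l) {e : Bool → ι}
    (h : St E t σ m {e false, e true}) (me : ∀ c, m (e c) = e (!c))
    (triv : ∀ c, σ (e c) = [t (e c)]) (N : Finset ι) (hN : ∀ u ∈ N, Rl e u)
    (hNm : ∀ u ∈ N, m u ∈ N) (O Src : Set V) (hO : ∀ o ∈ O, ¬ On σ o) :
    (∃ σ' m', St E t σ' m' ∅ ∧ Co l m m') ∨
    (∃ τ ∈ N, ∃ m0 σ' m', Xch m m0 τ (e false) ∧ St E t σ' m' ∅ ∧ Co l m0 m') ∨
    ∃ A X, NoEv E t σ m e N O Src A X := by
  let O' : Set V := {o | o ∈ O ∧ ∀ c, ¬ RO E O (t (e c)) o}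
  let A0 : Bool → Set V := fun c => {v | v ∉ O ∧ Hit E O (t (e c)) v}
  let A : Bool → Set V := fun c => Acl E (line σ m) N Src O' (A0 c)
  let X : Bool → Set V := fun c =>
    {x | RO E O (t (e c)) x ∨ x ∈ Xcl E (line σ m) N Src O' (A0 c)}
  have hne : ∀ c, e (!c) ≠ e c := fun c => me c ▸ h.hm.fpf (e c)
  have hU : ∀ i, i ∈ ({e false, e true} : Finset ι) ↔ ∃ c, i = e c := fun i => by
    simp only [Finset.mem_insert, Finset.mem_singleton, Bool.exists_bool]
  have hNU : ∀ u ∈ N, u ∉ ({e false, e true} : Finset ι) := fun u hu a => by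
    obtain ⟨c, hc⟩ := (hU u).1 a
    exact hN u hu c hc
  have hO' : ∀ o ∈ O', ¬ On σ o := fun o ho => hO o ho.1
  have hA0 : ∀ c, ∀ v ∈ A0 c, v ∉ O' := fun c v hv a => hv.1 a.1
  have off : ∀ {σ' : ι → List V}, (∀ v, On σ' v → On σ v ∨ v ∈ O') →
      ∀ c o, RO E O (t (e c)) o → ¬ On σ' o := fun hon c o ho a => by
    rcases hon o a with b | b
    · exact hO o ho.mem b
    · exact b.2 c ho
  by_cases n4 : ∃ c, t (e (!c)) ∈ A c
  · obtain ⟨c, hc⟩ := n4
    obtain ⟨σ', m', U', p', x', a1, a2, a3, a4, a5, a6, a7, a8⟩ := h.os hs hl N hNU O' Src (A0 c)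
      hO' (hA0 c) (p := e (!c)) ((hU _).2 ⟨_, rfl⟩) (by rw [triv]; rfl) hc
    rw [me, Bool.not_not] at a3
    obtain ⟨σ2, U2, b1, b2, -⟩ := a1.join_hit hs a3
      (by rw [a5 _ ((hU _).2 ⟨_, rfl⟩) (hne c).symm, triv]) a6 a7.2 (off a8 c)
    have : U2 = ∅ := by
      ext i
      rw [b2, a4, hU]
      simp only [Finset.notMem_empty, iff_false]
      rintro ⟨b | ⟨⟨c', rfl⟩, b⟩, b', b''⟩
      · exact b'' b
      · cases c <;> cases c' <;> simp at b b'
    exact Or.inl ⟨σ2, m', this ▸ b1, a2⟩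
  push Not at n4
  have dis : ∀ c o, RO E O (t (e c)) o → ¬ RO E O (t (e (!c))) o := fun c o a b =>
    n4 c (A0_sub ⟨fun b' => hO _ b' (h.t_on _), Hit.of_RO hs a b⟩)
  by_cases n5 : ∀ u ∈ N, ∀ x ∈ line σ m u, ∀ y ∈ line σ m u, x ∈ A false → y ∈ A true → x = y
  · refine Or.inr (Or.inr ⟨A, X, ?_, ?_, ?_, n4, n5⟩)
    · intro c x v hx ev
      have k : Hit E O (t (e c)) v → v = t (e c) ∨ v ∈ X c ∨ (v ∈ A c ∧ v ∉ O) := fun hh => by
        by_cases hv : v ∈ O
        · exact Or.inr (Or.inl (Or.inl (hh.ro hv)))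
        · exact Or.inr (Or.inr ⟨A0_sub ⟨hv, hh⟩, hv⟩)
      rcases hx with rfl | hx | hx
      · exact k (Or.inl ev)
      · exact k (Or.inr ⟨x, hx, ev⟩)
      rcases Xcl_adj hx ev with ⟨-, a⟩ | ⟨a, b⟩
      · exact Or.inr (Or.inl (Or.inr a))
      by_cases hv : v ∈ O
      · by_cases hr : RO E O (t (e c)) v
        · exact Or.inr (Or.inl (Or.inl hr))
        have hr' : RO E O (t (e (!c))) v := by
          by_contra hr'
          refine a ⟨hv, fun c' => ?_⟩
          cases c <;> cases c' <;> assumption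
        exfalso
        rcases Xcl_cases hx with a' | ⟨-, u, hu, a'⟩
        · exact a'.2 _ (RO.step hr' (hs _ _ ev) a'.1)
        · have hxA : x ∈ A (!c) :=
            A0_sub ⟨fun b' => hO _ b' (On.of_line a'.mem), Or.inr ⟨v, hr', hs _ _ ev⟩⟩
          obtain ⟨f, f1, -, -, f2, -, -, f3, -⟩ := a'.two (h.line_nodup u)
          cases c
          · exact f3 (n5 u hu f f1 x a'.mem f2 hxA)
          · exact f3 (n5 u hu x a'.mem f f1 hxA f2).symm
      · exact Or.inr (Or.inr ⟨b, hv⟩)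
    · rintro c x (hx | hx)
      · exact Or.inl hx.mem
      · exact (Xcl_cases hx).imp (fun a => a.1) id
    · exact fun c x hx u hu hb => Or.inr (Or.inl ⟨hx, u, hu, hb⟩)
  push Not at n5
  obtain ⟨u, hu, x, hx, y, hy, hxA, hyA, hxy⟩ := n5
  obtain ⟨τ, hτ, H⟩ := h.tc hs hl N hNU hNm O' Src (A0 false) (A0 true) hO' (hA0 _) (hA0 _)
    hu hx hy hxy hxA hyA
  obtain ⟨m0, x0⟩ := xch_exists h.hm (hN τ hτ false) (hN _ (hNm τ hτ) false)
  obtain ⟨σ', m', U', p, q, x', y', a1, a2, hp, hq, hpq, a3, a4, -, a5, -, a6, a7, a8, a9, a10⟩ :=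
    H m0 x0.inv fun i hi b1 b2 => x0.oth i ⟨b1, b2, fun b => hi ((hU _).2 ⟨_, b⟩),
      fun b => hi ((hU _).2 ⟨_, b.trans (me false)⟩)⟩
  obtain ⟨a11, a12⟩ := a5 (by rw [x0.ha]; exact (hN _ (hNm τ hτ) false).symm)
  rw [x0.ha] at a11
  rw [x0.hma, me] at a12
  obtain ⟨σ1, U1, b1, b2, b3, b4⟩ := a1.join_hit hs a11
    (by rw [a4 _ ((hU _).2 ⟨_, rfl⟩), triv]) a6 a7.2 (off a10 false)
  obtain ⟨σ2, U2, c1, c2, -⟩ := b1.join_hit hs a12
    (by rw [b3 _ (hne false) (hN p hp _).symm, a4 _ ((hU _).2 ⟨_, rfl⟩), triv])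
    (x := y') (by rw [b3 _ (hN q hq _) hpq.symm, a8]) a9.2
    (fun o ho a => by
      rcases b4 o a with b | b
      · exact off a10 true o ho b
      · exact dis false o b ho)
  have : U2 = ∅ := by
    ext i
    rw [c2, b2, a3, hU]
    simp only [Finset.notMem_empty, iff_false]
    rintro ⟨⟨⟨c', rfl⟩ | b | b, d1, d2⟩, d3, d4⟩
    · cases c' <;> simp at d1 d3
    · exact d2 b
    · exact d4 b
  exact Or.inr (Or.inl ⟨τ, hτ, m0, σ2, m', x0, this ▸ c1, a2⟩)

end Pool.Agent.P.MP_4197d5_co
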