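import Pool.Agent.P.MP_4197d5_co.DSx
import Pool.Agent.P.MP_4197d5_co.CSx
import Pool.Agent.P.MP_4197d5_co.Second
import Pool.Agent.P.MP_4197d5_co.Orbit

/-! An optimal closed system is a solution. -/

namespace Pool.Agent.P.MP_4197d5_co

open Classical

set_option linter.unusedSectionVars false

variable {V ι : Type} [Fintype ι] [Fintype V] {E : V → V → Prop} {t : ι → V} {l : ι → ι} {k : ℕ}
  {σ : ι → List V} {m : ι → ι}

theorem stepC (hC : Ctx E t l k) (hM : EMax E t l) (hn : ¬ Sol E t l) (h : St E t σ m ∅) :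
    Imp E t l m ∅ := by
  by_contra hopt
  haveI : Nonempty ι := Fintype.card_pos_iff.1 (by rw [hC.card]; have := hC.kpos; omega)
  obtain ⟨c, -, hmin⟩ := Finset.exists_min_image Finset.univ (fun x => (cl l m ∅ x).card)
    Finset.univ_nonempty
  have hmin' : ∀ x, (cl l m ∅ c).card ≤ (cl l m ∅ x).card := fun x => hmin x (Finset.mem_univ x)
  have hp : ∃ p, ¬ cc l m ∅ c p := by
    by_contra hc
    push Not at hc
    exact hn ⟨σ, m, h, fun x y => (hc x).symm.trans (hc y)⟩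
  obtain ⟨col, c1, c2⟩ := exists_col hC.hl h.hm
  obtain ⟨Cls, s, A, X, S⟩ := ds_exists hC.symm hC.hl h hmin' c1 c2 hopt
  obtain ⟨k1, k2, Γ, M, D, X', pre, mid, gate, S'⟩ := cs_exists hC hM hn h hmin' hp c1 c2 S
  have h1 : 1 ≤ k1 := by
    rw [← S'.k1c (col c)]
    exact Finset.card_pos.2 ⟨c, by simp [cc.refl]⟩
  rcases Nat.eq_or_lt_of_le h1 with h1 | h1
  · exact S'.k1_one hC h1.symm
  obtain ⟨b, τ, hτ, si, hi, sj, hj, hne, ci, cj, q1, q2, a1, a2, a3, a4⟩ := S'.qdata hC h1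
  obtain ⟨σ3, m3, Q⟩ := S'.qfam hC.symm hτ hi hj hne ci cj a1 a2 a3 a4
  exact hopt (second hC rfl hmin' S' Q)

end Pool.Agent.P.MP_4197d5_co
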