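import Pool.Agent.P.MP_4197d5_co.StepP
import Pool.Agent.P.MP_4197d5_co.StepC
import Pool.Agent.P.MP_4197d5_co.Cyc
import Pool.Agent.P.MP_4197d5_co.Red

/-! The main theorem in the abstract setting. -/

namespace Pool.Agent.P.MP_4197d5_co

open Classical

set_option linter.unusedSectionVars false

variable {V ι : Type} [Fintype ι] [Fintype V] {t : ι → V} {l : ι → ι} {k : ℕ}

theorem sol_of_max {E : V → V → Prop} (hC : Ctx E t l k) (hM : EMax E t l) : Sol E t l := by
  by_contra hn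
  obtain ⟨σ0, m0, U0, h0⟩ := init_fam hC hM hn
  let P : ℕ → Prop := fun n => ∃ σ m U, (St E t σ m U ∧ Sm m U) ∧ Phi l m U = n
  have hb : ∀ m U, Phi l m U ≤ Fintype.card ι * 3 ^ Fintype.card ι := fun m U => by
    refine (Finset.sum_le_card_nsmul _ _ (3 ^ Fintype.card ι) fun x _ => ?_).trans ?_
    · exact Nat.pow_le_pow_right (by norm_num) (Finset.card_le_univ _)
    · exact Nat.mul_le_mul_right _ (Finset.card_le_univ _)
  have hP : P (Nat.findGreatest P (Fintype.card ι * 3 ^ Fintype.card ι)) :=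
    Nat.findGreatest_spec (m := Phi l m0 U0) (hb _ _) ⟨σ0, m0, U0, h0, rfl⟩
  obtain ⟨σ1, m, U, ⟨h1, hsm⟩, hphi⟩ := hP
  have hopt : ¬ Imp E t l m U := by
    rintro ⟨σ', m', U', a1, a2, a3⟩
    have := Nat.le_findGreatest (P := P) (hb m' U') ⟨σ', m', U', ⟨a1, a2⟩, rfl⟩
    omega
  rcases hsm with rfl | ⟨a, rfl⟩
  · exact hopt (stepC hC hM hn h1)
  have hex : ∃ n, ∃ σ, St E t σ m {a, m a} ∧ len σ = n := ⟨_, σ1, h1, rfl⟩
  obtain ⟨σ, h, hlen⟩ := Nat.find_spec hex
  exact stepP hC hM hn h hopt fun σ' h' => hlen ▸ Nat.find_min' hex ⟨σ', h', rfl⟩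

theorem sol_of_ctx (n : ℕ) : ∀ E : V → V → Prop, Ctx E t l k →
    (Finset.univ.filter fun p : V × V => ¬ E p.1 p.2).card = n → Sol E t l := by
  induction n using Nat.strong_induction_on with
  | _ n ih =>
    intro E hC hn
    refine sol_of_max hC fun x v h1 h2 h3 => ih _ ?_ _ (hC.add h1 h3) rfl
    rw [← hn]
    refine Finset.card_lt_card ⟨fun p hp => ?_, fun hsub => ?_⟩
    · simp only [Finset.mem_filter, Finset.mem_univ, true_and] at hp ⊢
      exact fun h => hp (Or.inl h)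
    · have := hsub (x := (x, v)) (by simpa using h2)
      simp [addE] at this

end Pool.Agent.P.MP_4197d5_co
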