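import Pool.Agent.P.MP_4197d5_co.Defs

/-! Pairings: connection classes, parity, exchanges. -/

namespace Pool.Agent.P.MP_4197d5_co

open Classical

set_option linter.unusedSectionVars false

variable {ι : Type} {l m m' : ι → ι} {U U' : Finset ι} {x y z : ι}

theorem Pr.inj (h : Pr m) : Function.Injective m := fun a b hab => by
  rw [← h.inv a, hab, h.inv]

theorem Pr.eq_iff (h : Pr m) : m x = y ↔ x = m y :=
  ⟨fun e => by rw [← e, h.inv], fun e => by rw [e, h.inv]⟩

theorem Pr.not_mem (h : Pr m) (hU : ∀ i ∈ U, m i ∈ U) (hx : x ∉ U) : m x ∉ U :=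
  fun h' => hx (by simpa [h.inv] using hU _ h')

theorem cc.refl (x : ι) : cc l m U x x := Relation.EqvGen.refl x

theorem cc.symm (h : cc l m U x y) : cc l m U y x := Relation.EqvGen.symm _ _ h

theorem cc.trans (h : cc l m U x y) (h' : cc l m U y z) : cc l m U x z :=
  Relation.EqvGen.trans _ _ _ h h'

theorem cc.stl (x : ι) : cc l m U x (l x) := Relation.EqvGen.rel _ _ (Or.inl rfl)

theorem cc.stm (hx : x ∉ U) : cc l m U x (m x) := Relation.EqvGen.rel _ _ (Or.inr ⟨hx, rfl⟩)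

theorem cc.stm0 (x : ι) : cc l m ∅ x (m x) := cc.stm (by simp)

theorem cc.of_eq (h : m x = y) : cc l m ∅ x y := h ▸ cc.stm0 x

/-- transfer along a map of indices -/
theorem cc.map (f : ι → ι) (h1 : ∀ x, cc l m' U' (f x) (f (l x)))
    (h2 : ∀ x, x ∉ U → cc l m' U' (f x) (f (m x))) (h : cc l m U x y) :
    cc l m' U' (f x) (f y) := by
  induction h with
  | rel a b hab =>
    rcases hab with rfl | ⟨h, rfl⟩
    · exact h1 _
    · exact h2 _ h
  | refl a => exact cc.refl _
  | symm a b _ ih => exact ih.symm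
  | trans a b c _ _ i1 i2 => exact i1.trans i2

theorem cc.le (h2 : ∀ x, x ∉ U → cc l m' U' x (m x)) (h : cc l m U x y) : cc l m' U' x y :=
  cc.map id (fun x => cc.stl x) h2 h

/-- a set closed under the steps contains the class -/
theorem cc.closed (hl : Pr l) (hm : Pr m) (hU : ∀ i ∈ U, m i ∈ U) (S : Set ι)
    (h1 : ∀ x ∈ S, l x ∈ S) (h2 : ∀ x ∈ S, x ∉ U → m x ∈ S) (h : cc l m U x y) (hx : x ∈ S) :
    y ∈ S := by
  suffices x ∈ S ↔ y ∈ S from this.1 hx
  clear hx
  induction h with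
  | rel a b hab =>
    rcases hab with rfl | ⟨h, rfl⟩
    · exact ⟨h1 _, fun h => by simpa [hl.inv] using h1 _ h⟩
    · exact ⟨fun h' => h2 _ h' h, fun h' => by
        simpa [hm.inv] using h2 _ h' (hm.not_mem hU h)⟩
  | refl a => rfl
  | symm a b _ ih => exact ih.symm
  | trans a b c _ _ i1 i2 => exact i1.trans i2

theorem Co.refl : Co l m m := fun _ _ h => h

theorem Co.trans {m'' : ι → ι} (h : Co l m m') (h' : Co l m' m'') : Co l m m'' :=
  fun x y hxy => h' x y (h x y hxy)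

theorem Co.of (h : ∀ x, cc l m' ∅ x (m x)) : Co l m m' := fun _ _ hxy => cc.le (fun x _ => h x) hxy

theorem Xch.hb {a b : ι} (h : Xch m m' a b) : m' b = a := by rw [← h.ha, h.inv.inv]

theorem Xch.hmb {a b : ι} (h : Xch m m' a b) : m' (m b) = m a := by rw [← h.hma, h.inv.inv]

theorem Xch.symm {a b : ι} (hm : Pr m) (h : Xch m m' a b) : Xch m m' b a :=
  ⟨h.inv, h.ne.symm, fun e => h.ne' (by rw [← e, hm.inv]), h.hb, h.hmb,
    fun i hi => h.oth i ⟨hi.2.2.1, hi.2.2.2, hi.1, hi.2.1⟩⟩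

theorem Xch.flip {a b : ι} (hm : Pr m) (h : Xch m m' a b) : Xch m m' (m a) (m b) :=
  ⟨h.inv, fun e => h.ne (hm.inj e), by rw [hm.inv]; exact fun e => h.ne' (by rw [e, hm.inv]),
    h.hma, by rw [hm.inv, hm.inv]; exact h.ha,
    fun i hi => h.oth i ⟨by simpa [hm.inv] using hi.2.1, hi.1, by simpa [hm.inv] using hi.2.2.2,
      hi.2.2.1⟩⟩

theorem Xch.unique {a b : ι} {m'' : ι → ι} (h : Xch m m' a b) (h' : Xch m m'' a b) : m' = m'' := by
  funext i
  by_cases h1 : i = a
  · rw [h1, h.ha, h'.ha]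
  by_cases h2 : i = m a
  · rw [h2, h.hma, h'.hma]
  by_cases h3 : i = b
  · rw [h3, h.hb, h'.hb]
  by_cases h4 : i = m b
  · rw [h4, h.hmb, h'.hmb]
  rw [h.oth i ⟨h1, h2, h3, h4⟩, h'.oth i ⟨h1, h2, h3, h4⟩]

theorem xch_exists (hm : Pr m) {a b : ι} (h1 : a ≠ b) (h2 : m a ≠ b) : ∃ m', Xch m m' a b := by
  have h3 : m b ≠ a := fun e => h2 (by rw [← e, hm.inv])
  have h4 : m a ≠ m b := fun e => h1 (hm.inj e)
  refine ⟨fun i => Equiv.swap (m a) b (m (Equiv.swap (m a) b i)), ⟨fun i => ?_, fun i e => ?_⟩,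
    h1, h2, ?_, ?_, fun i hi => ?_⟩
  · simp [hm.inv]
  · apply hm.fpf (Equiv.swap (m a) b i)
    have := congrArg (Equiv.swap (m a) b) e
    simpa using this
  · rw [Equiv.swap_apply_of_ne_of_ne (hm.fpf a).symm h1, Equiv.swap_apply_left]
  · rw [Equiv.swap_apply_left, Equiv.swap_apply_of_ne_of_ne h4.symm (hm.fpf b)]
  · rw [Equiv.swap_apply_of_ne_of_ne hi.2.1 hi.2.2.1, Equiv.swap_apply_of_ne_of_ne]
    · exact fun e => hi.1 (hm.inj e)
    · exact fun e => hi.2.2.2 (by rw [← e, hm.inv])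

/-- a finite set closed under a pairing has even size -/
theorem even_card (hm : Pr m) (S : Finset ι) (hS : ∀ i ∈ S, m i ∈ S) : Even S.card := by
  induction S using Finset.strongInduction with
  | H S ih =>
    rcases S.eq_empty_or_nonempty with rfl | ⟨a, ha⟩
    · simp
    have hsub : ({a, m a} : Finset ι) ⊆ S := by
      intro x hx
      rcases Finset.mem_insert.1 hx with rfl | hx
      · exact ha
      · rw [Finset.mem_singleton.1 hx]; exact hS _ ha
    have h2 : ({a, m a} : Finset ι).card = 2 := Finset.card_pair (hm.fpf a).symm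
    have := ih (S \ {a, m a}) (Finset.sdiff_ssubset hsub ⟨a, by simp⟩) (by
      intro i hi
      simp only [Finset.mem_sdiff, Finset.mem_insert, Finset.mem_singleton, not_or] at hi ⊢
      exact ⟨hS _ hi.1, fun e => hi.2.2 (by rw [← e, hm.inv]), fun e => hi.2.1 (hm.inj e)⟩)
    have h3 := Finset.card_sdiff_add_card_eq_card hsub
    rw [← h3, h2]
    exact this.add (by decide)

/-- counting by pairs -/
theorem pairs_count {β : Type} (hm : Pr m) (I : Finset ι) (hI : ∀ i ∈ I, m i ∈ I) (G : Finset β)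
    (r : β → ι → Prop) (h1 : ∀ g ∈ G, ∃ i ∈ I, r g i ∧ r g (m i))
    (h2 : ∀ g ∈ G, ∀ g' ∈ G, ∀ i ∈ I, r g i → r g' i → g = g') : 2 * G.card ≤ I.card := by
  have : G.card * 2 ≤ I.card * 1 := by
    refine Finset.card_mul_le_card_mul r (fun g hg => ?_) (fun i hi => ?_)
    · obtain ⟨i, hi, a1, a2⟩ := h1 g hg
      rw [← Finset.card_pair (hm.fpf i).symm]
      refine Finset.card_le_card fun x hx => ?_
      rcases Finset.mem_insert.1 hx with rfl | hx
      · simp [Finset.mem_bipartiteAbove, hi, a1]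
      · rw [Finset.mem_singleton.1 hx]; simp [Finset.mem_bipartiteAbove, hI _ hi, a2]
    · refine Finset.card_le_one.2 fun g hg g' hg' => ?_
      rw [Finset.mem_bipartiteBelow] at hg hg'
      exact h2 g hg.1 g' hg'.1 i hi hg.2 hg'.2
  omega

variable [Fintype ι]

@[simp] theorem mem_cl : y ∈ cl l m U x ↔ cc l m U x y := by simp [cl]

/-- parity: a loose index is connected to another loose index -/
theorem parity (hl : Pr l) (hm : Pr m) (hU : ∀ i ∈ U, m i ∈ U) (hx : x ∈ U) :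
    ∃ y ∈ U, y ≠ x ∧ cc l m U x y := by
  by_contra hcon
  push Not at hcon
  have e1 := even_card hl (cl l m U x) fun i hi => mem_cl.2 ((mem_cl.1 hi).trans (cc.stl i))
  have e2 := even_card hm ((cl l m U x).erase x) fun i hi => by
    rw [Finset.mem_erase, mem_cl] at hi ⊢
    have hi' : i ∉ U := fun h => hcon i h hi.1 hi.2
    exact ⟨fun e => hm.not_mem hU hi' (e ▸ hx), hi.2.trans (cc.stm hi')⟩
  rw [Finset.card_erase_of_mem (mem_cl.2 (cc.refl x))] at e2
  have : 0 < (cl l m U x).card := Finset.card_pos.2 ⟨x, mem_cl.2 (cc.refl x)⟩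
  obtain ⟨a, ha⟩ := e1
  obtain ⟨b, hb⟩ := e2
  omega

/-- if the first old pair stays connected then the exchange coarsens -/
theorem Xch.co {a b : ι} (hm : Pr m) (h : Xch m m' a b) (hc : cc l m' ∅ a (m a)) :
    Co l m m' := by
  refine Co.of fun x => ?_
  have hb : cc l m' ∅ b (m b) :=
    (cc.of_eq h.hb).trans (hc.trans (cc.of_eq h.hma))
  by_cases h1 : x = a
  · exact h1 ▸ hc
  by_cases h2 : x = m a
  · rw [h2, hm.inv]; exact hc.symm
  by_cases h3 : x = b
  · exact h3 ▸ hb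
  by_cases h4 : x = m b
  · rw [h4, hm.inv]; exact hb.symm
  exact cc.of_eq (h.oth x ⟨h1, h2, h3, h4⟩)

theorem Xch.co' {a b : ι} {m'' : ι → ι} (hm : Pr m) (h : Xch m m' a b) (h2 : Co l m' m'')
    (hc : cc l m'' ∅ a (m a)) : Co l m m'' := by
  refine Co.of fun x => ?_
  have hb : cc l m'' ∅ b (m b) :=
    (h2 _ _ (cc.of_eq h.hb)).trans (hc.trans (h2 _ _ (cc.of_eq h.hma)))
  by_cases h1 : x = a
  · exact h1 ▸ hc
  by_cases h5 : x = m a
  · rw [h5, hm.inv]; exact hc.symm
  by_cases h3 : x = b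
  · exact h3 ▸ hb
  by_cases h4 : x = m b
  · rw [h4, hm.inv]; exact hb.symm
  exact h2 _ _ (cc.of_eq (h.oth x ⟨h1, h5, h3, h4⟩))

theorem four_closed (hm : Pr m) (a b : ι) :
    ∀ i ∈ ({a, m a, b, m b} : Finset ι), m i ∈ ({a, m a, b, m b} : Finset ι) := by
  intro i hi
  simp only [Finset.mem_insert, Finset.mem_singleton] at hi ⊢
  rcases hi with rfl | rfl | rfl | rfl <;> simp [hm.inv]

theorem Xch.cut_le {a b : ι} (h : Xch m m' a b) (hxy : cc l m {a, m a, b, m b} x y) :
    cc l m' ∅ x y := by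
  refine cc.le (fun x hx => ?_) hxy
  simp only [Finset.mem_insert, Finset.mem_singleton, not_or] at hx
  exact cc.of_eq (h.oth x hx)

/-- exchanging pairs of different classes merges the classes -/
theorem Xch.diff {a b : ι} (hl : Pr l) (hm : Pr m) (h : Xch m m' a b) (hd : ¬ cc l m ∅ a b) :
    cc l m' ∅ a (m a) ∧ Co l m m' := by
  suffices cc l m' ∅ a (m a) from ⟨this, h.co hm this⟩
  obtain ⟨y, hy, hne, hc⟩ := parity hl hm (four_closed hm a b) (x := a) (by simp)
  have hc0 : cc l m ∅ a y := cc.le (fun x _ => cc.stm0 x) hc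
  simp only [Finset.mem_insert, Finset.mem_singleton] at hy
  rcases hy with rfl | rfl | rfl | rfl
  · exact absurd rfl hne
  · exact h.cut_le hc
  · exact absurd hc0 hd
  · exact absurd (hc0.trans (cc.stm0 b).symm) hd

/-- one of the two exchanges keeps everything connected -/
theorem Xch.any {a b : ι} {m'' : ι → ι} (hl : Pr l) (hm : Pr m) (h : Xch m m' a b)
    (h' : Xch m m'' a (m b)) : cc l m' ∅ a (m a) ∨ cc l m'' ∅ a (m a) := by
  obtain ⟨y, hy, hne, hc⟩ := parity hl hm (four_closed hm a b) (x := a) (by simp)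
  have hc' : cc l m'' ∅ a y := by
    refine h'.cut_le ?_
    rw [hm.inv, Finset.pair_comm (m b) b]; exact hc
  simp only [Finset.mem_insert, Finset.mem_singleton] at hy
  rcases hy with rfl | rfl | rfl | rfl
  · exact absurd rfl hne
  · exact Or.inl (h.cut_le hc)
  · right
    refine hc'.trans (cc.of_eq ?_)
    have := h'.hmb
    rwa [hm.inv] at this
  · exact Or.inl ((h.cut_le hc).trans (cc.of_eq h.hmb))

end Pool.Agent.P.MP_4197d5_co
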