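import Pool.Agent.P.MP_4197d5_co.StOps

/-! Reachability through free vertices and the hopping closure. -/

namespace Pool.Agent.P.MP_4197d5_co

open Classical

set_option linter.unusedSectionVars false

variable {V ι : Type} {E : V → V → Prop} {O O' A A' Src A0 : Set V} {w v o x : V} {L : List V}

theorem RO.mem (h : RO E O w o) : o ∈ O := by
  cases h <;> assumption

theorem RO.mono (h : RO E O w o) (hO : O ⊆ O') : RO E O' w o := by
  induction h with
  | base e a => exact RO.base e (hO a)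
  | step _ e a ih => exact RO.step ih e (hO a)

theorem Hit.mono (h : Hit E O w v) (hO : O ⊆ O') : Hit E O' w v := by
  rcases h with h | ⟨o, h, e⟩
  · exact Or.inl h
  · exact Or.inr ⟨o, h.mono hO, e⟩

theorem Hit.ro (h : Hit E O w v) (hv : v ∈ O) : RO E O w v := by
  rcases h with h | ⟨o, h, e⟩
  · exact RO.base h hv
  · exact RO.step h e hv

theorem RO.hit (h : RO E O w o) : Hit E O w o := by
  cases h with
  | base e _ => exact Or.inl e
  | step h e _ => exact Or.inr ⟨_, h, e⟩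

theorem RO.trans (h : RO E O w o) (h' : RO E O o v) : RO E O w v := by
  induction h' with
  | base e a => exact RO.step h e a
  | step _ e a ih => exact RO.step ih e a

theorem Hit.of_RO (hs : ∀ x y, E x y → E y x) (h : RO E O w o) (h' : RO E O v o) :
    Hit E O w v := by
  induction h' with
  | base e _ => exact Or.inr ⟨_, h, hs _ _ e⟩
  | step h1 e _ ih => exact ih (RO.step h (hs _ _ e) h1.mem)

theorem Hit.symm (hs : ∀ x y, E x y → E y x) (h : Hit E O w v) : Hit E O v w := by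
  rcases h with h | ⟨o, h, e⟩
  · exact Or.inl (hs _ _ h)
  · exact Hit.of_RO hs (RO.base (hs _ _ e) h.mem) h

theorem RO.path (h : RO E O w o) :
    ∃ q : List V, (q ++ [o]).Nodup ∧ (∀ y ∈ q, RO E O w y) ∧ (w :: (q ++ [o])).IsChain E := by
  induction h with
  | base e _ => exact ⟨[], by simp, by simp, by simpa using e⟩
  | @step o o' h1 e _ ih =>
    obtain ⟨q, a1, a2, a3⟩ := ih
    by_cases hm : o' ∈ q ++ [o]
    · obtain ⟨s1, s2, hs⟩ := List.append_of_mem hm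
      refine ⟨s1, ?_, fun y hy => ?_, ?_⟩
      · rw [hs] at a1
        exact a1.sublist (by simp)
      · have : y ∈ q ++ [o] := by rw [hs]; simp [hy]
        rcases List.mem_append.1 this with h | h
        · exact a2 y h
        · rw [List.mem_singleton.1 h]; exact h1
      · rw [hs, ← List.cons_append] at a3
        exact (List.isChain_split.1 a3).1
    · refine ⟨q ++ [o], ?_, fun y hy => ?_, ?_⟩
      · rw [List.nodup_append]
        exact ⟨a1, by simp, fun a ha b hb e => hm (by rw [← List.mem_singleton.1 hb, ← e]; exact ha)⟩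
      · rcases List.mem_append.1 hy with h | h
        · exact a2 y h
        · rw [List.mem_singleton.1 h]; exact h1
      · have := chain_edge (A := w :: q) (B := []) a3 e (by simp)
        simpa using this

theorem RO.of_chain {q : List V} (hq : ∀ y ∈ q, y ∈ O) (hc : (w :: q).IsChain E) :
    ∀ y ∈ q, RO E O w y := by
  induction q generalizing w with
  | nil => simp
  | cons a q ih =>
    rw [List.isChain_cons_cons] at hc
    have ha : RO E O w a := RO.base hc.1 (hq a (by simp))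
    intro y hy
    rcases List.mem_cons.1 hy with rfl | hy
    · exact ha
    · exact ha.trans (ih (fun y hy => hq y (by simp [hy])) hc.2 y hy)

/-- a path realizing `Hit` -/
theorem Hit.path (hs : ∀ x y, E x y → E y x) (h : Hit E O w v) :
    ∃ q : List V, q.Nodup ∧ (∀ o ∈ q, RO E O w o ∧ RO E O v o) ∧
      (w :: (q ++ [v])).IsChain E := by
  rcases h with h | ⟨o, h, e⟩
  · exact ⟨[], by simp, by simp, by simpa using h⟩
  obtain ⟨q, a1, a2, a3⟩ := h.path
  have a4 : ∀ y ∈ q ++ [o], RO E O w y := fun y hy => by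
    rcases List.mem_append.1 hy with h' | h'
    · exact a2 y h'
    · rw [List.mem_singleton.1 h']; exact h
  have a5 : (w :: (q ++ [o] ++ [v])).IsChain E := by
    simpa using chain_edge (A := w :: q) (B := []) a3 e (by simp)
  refine ⟨q ++ [o], a1, fun y hy => ⟨a4 y hy, ?_⟩, a5⟩
  refine RO.of_chain (q := (q ++ [o]).reverse) (fun y hy => (a4 y (List.mem_reverse.1 hy)).mem) ?_ y
    (List.mem_reverse.2 hy)
  have := chain_rev hs (List.isChain_cons.1 a5).2
  simpa using this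

theorem Btw.mem (h : Btw L A w) : w ∈ L := by
  obtain ⟨l1, l2, rfl, -⟩ := h; simp

theorem Btw.mono (h : Btw L A w) (hA : A ⊆ A') : Btw L A' w := by
  obtain ⟨l1, l2, e, ⟨f, a, b⟩, ⟨g, c, d⟩⟩ := h
  exact ⟨l1, l2, e, ⟨f, a, hA b⟩, ⟨g, c, hA d⟩⟩

theorem Btw.rev (h : Btw L A w) : Btw L.reverse A w := by
  obtain ⟨l1, l2, e, ⟨f, a, b⟩, ⟨g, c, d⟩⟩ := h
  exact ⟨l2.reverse, l1.reverse, by simp [e], ⟨g, by simpa using c, d⟩, ⟨f, by simpa using a, b⟩⟩

theorem Btw.two (hn : L.Nodup) (h : Btw L A w) :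
    ∃ f ∈ L, ∃ g ∈ L, f ∈ A ∧ g ∈ A ∧ f ≠ g ∧ f ≠ w ∧ g ≠ w := by
  obtain ⟨l1, l2, rfl, ⟨f, a, b⟩, ⟨g, c, d⟩⟩ := h
  rw [List.nodup_append] at hn
  refine ⟨f, by simp [a], g, by simp [c], b, d, hn.2.2 f a g (by simp [c]),
    hn.2.2 f a w (by simp), ?_⟩
  rintro rfl
  exact (List.nodup_cons.1 hn.2.1).1 c

theorem Btw.dbl (hn : L.Nodup) (h : Btw L A w) : Dbl L A := by
  obtain ⟨f, a, g, b, c, d, e, -⟩ := h.two hn
  exact ⟨f, a, g, b, e, c, d⟩

theorem Btw.append_left (h : Btw L A w) (P : List V) : Btw (P ++ L) A w := by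
  obtain ⟨l1, l2, e, ⟨f, a, b⟩, h⟩ := h
  exact ⟨P ++ l1, l2, by simp [e], ⟨f, by simp [a], b⟩, h⟩

theorem Btw.of_append {P : List V} (h : Btw (P ++ L) A w) (hP : ∀ y ∈ P, y ∉ A) : Btw L A w := by
  obtain ⟨l1, l2, e, ⟨f, a, b⟩, h⟩ := h
  rcases List.append_eq_append_iff.1 e with ⟨r, rfl, e'⟩ | ⟨r, rfl, e'⟩
  · refine ⟨r, l2, e', ⟨f, ?_, b⟩, h⟩
    rcases List.mem_append.1 a with a | a
    · exact absurd b (hP f a)
    · exact a
  · exact absurd b (hP f (by simp [a]))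

variable {Ln : ι → List V} {N : Finset ι}

theorem Itr.mono (h : w ∈ Itr Ln N Src A) (hA : A ⊆ A') : w ∈ Itr Ln N Src A' := by
  obtain ⟨a, u, b, c⟩ := h
  exact ⟨a, u, b, c.mono hA⟩

theorem An_mono {i j : ℕ} (h : i ≤ j) : An E Ln N Src O A0 i ⊆ An E Ln N Src O A0 j := by
  induction h with
  | refl => exact fun _ h => h
  | step _ ih => exact fun _ h => Or.inl (ih h)

theorem An_sub (n : ℕ) : An E Ln N Src O A0 n ⊆ Acl E Ln N Src O A0 := fun _ h => ⟨n, h⟩

theorem A0_sub : A0 ⊆ Acl E Ln N Src O A0 := An_sub 0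

theorem Itr_level (h : w ∈ Itr Ln N Src (Acl E Ln N Src O A0)) :
    ∃ n, w ∈ Itr Ln N Src (An E Ln N Src O A0 n) := by
  obtain ⟨a, u, b, l1, l2, e, ⟨f, f1, n1, f2⟩, ⟨g, g1, n2, g2⟩⟩ := h
  exact ⟨max n1 n2, a, u, b, l1, l2, e, ⟨f, f1, An_mono (le_max_left _ _) f2⟩,
    ⟨g, g1, An_mono (le_max_right _ _) g2⟩⟩

theorem Acl_of_hit (h : w ∈ Itr Ln N Src (Acl E Ln N Src O A0)) (hv : v ∉ O)
    (hh : Hit E O w v) : v ∈ Acl E Ln N Src O A0 := by
  obtain ⟨n, hn⟩ := Itr_level h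
  exact ⟨n + 1, Or.inr ⟨hv, w, hn, hh⟩⟩

/-- neighbours of the swept region -/
theorem Xcl_adj (hx : x ∈ Xcl E Ln N Src O A0) (e : E x v) :
    (v ∈ O ∧ v ∈ Xcl E Ln N Src O A0) ∨ (v ∉ O ∧ v ∈ Acl E Ln N Src O A0) := by
  by_cases hv : v ∈ O
  · left
    rcases hx with hx | ⟨w, hw, hx⟩
    · exact ⟨hv, Or.inr ⟨x, hx, RO.base e hv⟩⟩
    · exact ⟨hv, Or.inr ⟨w, hw, RO.step hx e hv⟩⟩
  · right
    rcases hx with hx | ⟨w, hw, hx⟩
    · exact ⟨hv, Acl_of_hit hx hv (Or.inl e)⟩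
    · exact ⟨hv, Acl_of_hit hw hv (Or.inr ⟨x, hx, e⟩)⟩

theorem Acl_cases (hv : v ∈ Acl E Ln N Src O A0) :
    v ∈ A0 ∨ (v ∉ O ∧ ∃ x ∈ Xcl E Ln N Src O A0, E x v) := by
  obtain ⟨n, hn⟩ := hv
  induction n with
  | zero => exact Or.inl hn
  | succ n ih =>
    rcases hn with hn | ⟨a, w, hw, e | ⟨o, h, e⟩⟩
    · exact ih hn
    · exact Or.inr ⟨a, w, Or.inl (Itr.mono hw (An_sub n)), e⟩
    · exact Or.inr ⟨a, o, Or.inr ⟨w, Itr.mono hw (An_sub n), h⟩, e⟩

theorem Xcl_cases (hx : x ∈ Xcl E Ln N Src O A0) :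
    x ∈ O ∨ x ∈ Itr Ln N Src (Acl E Ln N Src O A0) := by
  rcases hx with hx | ⟨w, _, hx⟩
  · exact Or.inr hx
  · exact Or.inl hx.mem

end Pool.Agent.P.MP_4197d5_co
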