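import Pool.Agent.P.MP_4197d5_co.Pair

/-! Basic operations on path systems. -/

namespace Pool.Agent.P.MP_4197d5_co

open Classical

set_option linter.unusedSectionVars false

variable {V ι : Type} {E : V → V → Prop} {t : ι → V} {σ : ι → List V} {m : ι → ι}
  {U : Finset ι} {i j u v : ι} {w x : V}

theorem chain_rev (hs : ∀ x y, E x y → E y x) {L : List V} (h : L.IsChain E) :
    L.reverse.IsChain E := by
  rw [List.isChain_reverse]; exact h.imp fun a b hab => hs a b hab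

theorem chain_rev_iff (hs : ∀ x y, E x y → E y x) {L : List V} :
    L.reverse.IsChain E ↔ L.IsChain E :=
  ⟨fun h => by simpa using chain_rev hs h, chain_rev hs⟩

/-- glue two chains at a common vertex -/
theorem chain_glue {A B : List V} {x : V} (h1 : (A ++ [x]).IsChain E) (h2 : (x :: B).IsChain E) :
    (A ++ x :: B).IsChain E := List.isChain_split.2 ⟨h1, h2⟩

theorem chain_left {A B : List V} (h : (A ++ B).IsChain E) : A.IsChain E :=
  h.left_of_append

theorem chain_right {A B : List V} (h : (A ++ B).IsChain E) : B.IsChain E :=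
  h.right_of_append

/-- join two chains by an edge -/
theorem chain_edge {A B : List V} {x y : V} (h1 : (A ++ [x]).IsChain E) (e : E x y)
    (h2 : (y :: B).IsChain E) : (A ++ x :: y :: B).IsChain E :=
  chain_glue h1 (List.isChain_cons_cons.2 ⟨e, h2⟩)

theorem chain_adj {A B : List V} {x y : V} (h : (A ++ x :: y :: B).IsChain E) : E x y :=
  (List.isChain_cons_cons.1 (chain_right h)).1

/-- a list without repetition splits uniquely at an element -/
theorem split_unique {A B A' B' : List V} {x : V} (hn : (A ++ x :: B).Nodup)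
    (h : A ++ x :: B = A' ++ x :: B') : A = A' ∧ B = B' := by
  have h1 : x ∉ A := fun hx => by
    rw [List.nodup_append] at hn; exact hn.2.2 x hx x (by simp) rfl
  have h2 : x ∉ B := by
    rw [List.nodup_append] at hn; exact (List.nodup_cons.1 hn.2.1).1
  have := (List.append_cons_inj_of_notMem h1 h2).1 h
  exact ⟨this.1, this.2.2⟩

theorem mem_line : x ∈ line σ m i ↔ x ∈ σ i ∨ x ∈ σ (m i) := by simp [line]

theorem On.of_line (h : x ∈ line σ m i) : On σ x := by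
  rcases mem_line.1 h with h | h <;> exact ⟨_, h⟩

theorem on_iff_line : On σ x ↔ ∃ i, x ∈ line σ m i :=
  ⟨fun ⟨i, h⟩ => ⟨i, mem_line.2 (Or.inl h)⟩, fun ⟨_, h⟩ => On.of_line h⟩

theorem line_rev (hm : Pr m) (i : ι) : line σ m (m i) = (line σ m i).reverse := by
  simp [line, hm.inv]

theorem mem_line_m (hm : Pr m) : x ∈ line σ m (m i) ↔ x ∈ line σ m i := by
  simp [line_rev hm]

theorem line_congr {σ' : ι → List V} {m' : ι → ι} (h1 : m' i = m i) (h2 : σ' i = σ i)
    (h3 : σ' (m i) = σ (m i)) : line σ' m' i = line σ m i := by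
  simp [line, h1, h2, h3]

theorem six_disj {s1 s2 s3 s4 p1 m1 q1 p2 m2 q2 c1 c2 : Prop} (t1 : s1 ↔ p1 ∨ c1) (t2 : s2 ↔ p2)
    (t3 : s3 ↔ q1 ∨ c2) (t4 : s4 ↔ q2) (a1 : c1 ∨ c2 → ¬ p1 ∧ ¬ q1 ∧ ¬ p2 ∧ ¬ q2)
    (a2 : p1 ∨ m1 ∨ q1 → p2 ∨ m2 ∨ q2 → False) (a3 : p1 ∨ m1 → q1 → False)
    (a4 : p2 ∨ m2 → q2 → False) (a5 : c1 → c2 → False) :
    (s1 → ¬ s2) ∧ (s1 → ¬ s3) ∧ (s1 → ¬ s4) ∧ (s2 → ¬ s3) ∧ (s2 → ¬ s4) ∧ (s3 → ¬ s4) := by
  grind

namespace St

theorem eq_cons (h : St E t σ m U) (i : ι) : ∃ r, σ i = t i :: r :=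
  List.head?_eq_some_iff.1 (h.head i)

theorem ne_nil (h : St E t σ m U) (i : ι) : σ i ≠ [] := by
  obtain ⟨r, hr⟩ := h.eq_cons i; simp [hr]

theorem t_mem (h : St E t σ m U) (i : ι) : t i ∈ σ i := by
  obtain ⟨r, hr⟩ := h.eq_cons i; simp [hr]

theorem t_on (h : St E t σ m U) (i : ι) : On σ (t i) := ⟨i, h.t_mem i⟩

theorem eq_of_mem (h : St E t σ m U) (h1 : x ∈ σ i) (h2 : x ∈ σ j) : i = j := by
  by_contra e; exact h.disj i j e x h1 h2

theorem t_mem_iff (h : St E t σ m U) : t j ∈ σ i ↔ j = i :=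
  ⟨fun h' => h.eq_of_mem (h.t_mem j) h', fun e => e ▸ h.t_mem j⟩

theorem t_mem_line (h : St E t σ m U) : t j ∈ line σ m i ↔ j = i ∨ j = m i := by
  rw [mem_line, h.t_mem_iff, h.t_mem_iff]

theorem nt_of_not_on (h : St E t σ m U) (hx : ¬ On σ x) (i : ι) : x ≠ t i :=
  fun e => hx (e ▸ h.t_on i)

theorem not_mem (h : St E t σ m U) (hi : i ∉ U) : m i ∉ U := h.hm.not_mem h.ucl hi

theorem line_nodup (h : St E t σ m U) (i : ι) : (line σ m i).Nodup := by
  rw [line, List.nodup_append]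
  refine ⟨h.nodup i, List.nodup_reverse.2 (h.nodup _), fun a ha b hb e => ?_⟩
  exact h.disj i (m i) (h.hm.fpf i).symm a ha (e ▸ List.mem_reverse.1 hb)

theorem line_cons (h : St E t σ m U) (i : ι) : ∃ r, line σ m i = t i :: r := by
  obtain ⟨r, hr⟩ := h.eq_cons i; exact ⟨_, by rw [line, hr, List.cons_append]⟩

theorem line_concat (h : St E t σ m U) (i : ι) : ∃ r, line σ m i = r ++ [t (m i)] := by
  obtain ⟨r, hr⟩ := h.eq_cons (m i)
  exact ⟨σ i ++ r.reverse, by rw [line, hr]; simp⟩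

theorem line_disj (h : St E t σ m U) (h1 : x ∈ line σ m i) (h2 : x ∈ line σ m j) :
    j = i ∨ j = m i := by
  rcases mem_line.1 h1 with h1 | h1 <;> rcases mem_line.1 h2 with h2 | h2
  · exact Or.inl (h.eq_of_mem h2 h1)
  · exact Or.inr (h.hm.eq_iff.1 (h.eq_of_mem h2 h1))
  · exact Or.inr (h.eq_of_mem h2 h1)
  · exact Or.inl (h.hm.inj (h.eq_of_mem h2 h1))

theorem stub_line (h : St E t σ m U) (h1 : x ∈ σ i) (h2 : x ∈ line σ m j) :
    i = j ∨ i = m j := by
  rcases mem_line.1 h2 with h2 | h2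
  · exact Or.inl (h.eq_of_mem h1 h2)
  · exact Or.inr (h.eq_of_mem h1 h2)

/-- a nonempty initial part of a line starts with the terminal -/
theorem head_of_line (h : St E t σ m U) {P R : List V} (e : line σ m i = P ++ R) (hP : P ≠ []) :
    ∃ r, P = t i :: r := by
  obtain ⟨r, hr⟩ := h.line_cons i
  obtain ⟨a, P, rfl⟩ := List.exists_cons_of_ne_nil hP
  rw [hr] at e
  simp only [List.cons_append, List.cons.injEq] at e
  exact ⟨P, by rw [e.1]⟩

theorem last_of_line (h : St E t σ m U) {P R : List V} (e : line σ m i = P ++ R) (hR : R ≠ []) :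
    ∃ r, R.reverse = t (m i) :: r := by
  refine h.head_of_line (R := P.reverse) (i := m i) ?_ (by simpa using hR)
  rw [line_rev h.hm, e, List.reverse_append]

/-- inner vertices of lines are not terminals -/
theorem inner_nt (h : St E t σ m U) {A B : List V} (e : line σ m i = A ++ w :: B) (hA : A ≠ [])
    (hB : B ≠ []) (j : ι) : w ≠ t j := by
  rintro rfl
  have hn := h.line_nodup i
  have hmem : t j ∈ line σ m i := by rw [e]; simp
  rw [e] at hn
  rcases h.t_mem_line.1 hmem with rfl | rfl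
  · obtain ⟨r, hr⟩ := h.head_of_line e hA
    rw [hr] at hn; simp at hn
  · obtain ⟨r, hr⟩ := h.last_of_line (P := A ++ [t (m i)]) (R := B) (by rw [e]; simp) hB
    have : t (m i) ∈ B := by rw [← List.mem_reverse, hr]; simp
    rw [List.nodup_append] at hn
    exact (List.nodup_cons.1 hn.2.1).1 this

theorem btw_nt (h : St E t σ m U) {A : Set V} (hb : Btw (line σ m i) A w) (j : ι) : w ≠ t j := by
  obtain ⟨l1, l2, e, ⟨f, hf, -⟩, ⟨g, hg, -⟩⟩ := hb
  exact h.inner_nt e (List.ne_nil_of_mem hf) (List.ne_nil_of_mem hg) j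

/-- change the pairing on the loose indices -/
theorem repair (h : St E t σ m U) {m' : ι → ι} (hm' : Pr m') (e : ∀ i, i ∉ U → m' i = m i) :
    St E t σ m' U := by
  refine ⟨hm', h.head, h.chain, h.nodup, h.disj, fun i hi => ?_, fun i hi => ?_⟩
  · by_contra hc
    have h1 := e _ hc
    rw [hm'.inv] at h1
    exact h.not_mem hc (h1 ▸ hi)
  · rw [line_congr (e i hi) rfl rfl]; exact h.link i hi

/-- more loose indices -/
theorem loosen (h : St E t σ m U) {U' : Finset ι} (h1 : ∀ i ∈ U, i ∈ U')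
    (h2 : ∀ i ∈ U', m i ∈ U') : St E t σ m U' :=
  ⟨h.hm, h.head, h.chain, h.nodup, h.disj, h2, fun i hi => h.link i fun h' => hi (h1 i h')⟩

theorem mono (h : St E t σ m U) {E' : V → V → Prop} (hE : ∀ x y, E x y → E' x y) :
    St E' t σ m U :=
  ⟨h.hm, h.head, fun i => (h.chain i).imp hE, h.nodup, h.disj, h.ucl,
    fun i hi => (h.link i hi).imp hE⟩

/-- general replacement of the stubs with index in `W` -/
theorem update (h : St E t σ m U) (W : ι → Prop) {σ' : ι → List V} {m' : ι → ι} {U' : Finset ι}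
    (hm' : Pr m') (hW : ∀ i, ¬ W i → ¬ W (m i)) (h1 : ∀ i, ¬ W i → σ' i = σ i ∧ m' i = m i)
    (hU : ∀ i ∈ U', m' i ∈ U') (hU' : ∀ i, ¬ W i → i ∉ U' → i ∉ U)
    (hh : ∀ i, W i → (σ' i).head? = some (t i) ∧ (σ' i).IsChain E ∧ (σ' i).Nodup)
    (hn : ∀ i, W i → ∀ v ∈ σ' i, ¬ On σ v ∨ ∃ j, W j ∧ v ∈ σ j)
    (hd : ∀ i j, W i → W j → i ≠ j → ∀ v ∈ σ' i, v ∉ σ' j)
    (hl : ∀ i, W i → i ∉ U' → (line σ' m' i).IsChain E) : St E t σ' m' U' := by
  have key : ∀ i j, W i → ¬ W j → ∀ v ∈ σ' i, v ∉ σ' j := by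
    intro i j hi hj v hv hv'
    rw [(h1 j hj).1] at hv'
    rcases hn i hi v hv with h2 | ⟨j', h2, h3⟩
    · exact h2 ⟨j, hv'⟩
    · exact hj (h.eq_of_mem h3 hv' ▸ h2)
  refine ⟨hm', fun i => ?_, fun i => ?_, fun i => ?_, fun i j hij v hv => ?_, hU, fun i hi => ?_⟩
  · by_cases hi : W i
    · exact (hh i hi).1
    · rw [(h1 i hi).1]; exact h.head i
  · by_cases hi : W i
    · exact (hh i hi).2.1
    · rw [(h1 i hi).1]; exact h.chain i
  · by_cases hi : W i
    · exact (hh i hi).2.2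
    · rw [(h1 i hi).1]; exact h.nodup i
  · by_cases hi : W i <;> by_cases hj : W j
    · exact hd i j hi hj hij v hv
    · exact key i j hi hj v hv
    · exact fun hv' => key j i hj hi v hv' hv
    · rw [(h1 i hi).1] at hv; rw [(h1 j hj).1]; exact h.disj i j hij v hv
  · by_cases hw : W i
    · exact hl i hw hi
    · rw [line_congr (h1 i hw).2 (h1 i hw).1 (h1 _ (hW i hw)).1]
      exact h.link i (hU' i hw hi)

/-- rebuild one pair: the two stubs become `P ++ c` and `Q.reverse` -/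
theorem one (hs : ∀ x y, E x y → E y x) (h : St E t σ m U) {P M Q c : List V} {U' : Finset ι}
    (e : line σ m u = P ++ M ++ Q) (hP : P ≠ []) (hQ : Q ≠ []) (hc : c.Nodup)
    (hav : ∀ x ∈ c, ¬ On σ x ∨ x ∈ M) (c1 : (P ++ c).IsChain E) (c2 : Q.IsChain E)
    (hU : ∀ i, i ≠ u → i ≠ m u → (i ∈ U' ↔ i ∈ U)) (hU2 : m u ∈ U' ↔ u ∈ U')
    (hl : u ∉ U' → (P ++ c ++ Q).IsChain E) :
    ∃ σ', St E t σ' m U' ∧ σ' u = P ++ c ∧ σ' (m u) = Q.reverse ∧
      ∀ i, i ≠ u → i ≠ m u → σ' i = σ i := by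
  have hne := h.hm.fpf u
  let σ' : ι → List V := fun i => if i = u then P ++ c else if i = m u then Q.reverse else σ i
  have s1 : σ' u = P ++ c := by simp [σ']
  have s2 : σ' (m u) = Q.reverse := by simp [σ', hne]
  have s3 : ∀ i, i ≠ u → i ≠ m u → σ' i = σ i := fun i a b => by simp [σ', a, b]
  refine ⟨σ', ?_, s1, s2, s3⟩
  have hn := h.line_nodup u
  have hm : ∀ x, x ∈ P ∨ x ∈ M ∨ x ∈ Q → x ∈ σ u ∨ x ∈ σ (m u) := fun x hx => by
    rw [← mem_line, e]; simpa [or_assoc] using hx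
  have hon : ∀ x, x ∈ P ∨ x ∈ M ∨ x ∈ Q → On σ x := fun x hx => by
    rcases hm x hx with h | h <;> exact ⟨_, h⟩
  rw [e] at hn
  simp only [List.nodup_append, List.mem_append] at hn
  obtain ⟨r1, hr1⟩ := h.head_of_line (by rw [e, List.append_assoc]) hP
  obtain ⟨r2, hr2⟩ := h.last_of_line e hQ
  refine h.update (fun i => i = u ∨ i = m u) h.hm ?_ ?_ ?_ ?_ ?_ ?_ ?_ ?_
  · intro i hi hi'
    rcases hi' with e | e
    · exact hi (Or.inr (h.hm.eq_iff.1 e))
    · exact hi (Or.inl (h.hm.inj e))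
  · intro i hi; push Not at hi; exact ⟨s3 i hi.1 hi.2, rfl⟩
  · intro i hi
    by_cases h1 : i = u
    · subst h1; exact hU2.2 hi
    by_cases h2 : i = m u
    · subst h2; rw [h.hm.inv]; exact hU2.1 hi
    exact (hU _ (fun e => h2 (h.hm.eq_iff.1 e)) (fun e => h1 (h.hm.inj e))).2
      (h.ucl _ ((hU i h1 h2).1 hi))
  · intro i hi hi' hi''; push Not at hi; exact hi' ((hU i hi.1 hi.2).2 hi'')
  · rintro i (rfl | rfl)
    · rw [s1]
      refine ⟨by simp [hr1], c1, List.nodup_append.2 ⟨hn.1.1, hc, ?_⟩⟩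
      rintro a ha b hb rfl
      rcases hav a hb with h1 | h1
      · exact h1 (hon a (Or.inl ha))
      · exact hn.1.2.2 a ha a h1 rfl
    · rw [s2]
      exact ⟨by simp [hr2], chain_rev hs c2, List.nodup_reverse.2 hn.2.1⟩
  · rintro i (rfl | rfl) x hx
    · rw [s1, List.mem_append] at hx
      rcases hx with hx | hx
      · rcases hm x (Or.inl hx) with h | h
        · exact Or.inr ⟨_, Or.inl rfl, h⟩
        · exact Or.inr ⟨_, Or.inr rfl, h⟩
      · rcases hav x hx with h1 | h1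
        · exact Or.inl h1
        · rcases hm x (Or.inr (Or.inl h1)) with h | h
          · exact Or.inr ⟨_, Or.inl rfl, h⟩
          · exact Or.inr ⟨_, Or.inr rfl, h⟩
    · rw [s2, List.mem_reverse] at hx
      rcases hm x (Or.inr (Or.inr hx)) with h | h
      · exact Or.inr ⟨_, Or.inl rfl, h⟩
      · exact Or.inr ⟨_, Or.inr rfl, h⟩
  · have k : ∀ x ∈ P ++ c, x ∉ Q := by
      intro x hx hq
      rcases List.mem_append.1 hx with hx | hx
      · exact hn.2.2 x (Or.inl hx) x hq rfl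
      · rcases hav x hx with h1 | h1
        · exact h1 (hon x (Or.inr (Or.inr hq)))
        · exact hn.2.2 x (Or.inr h1) x hq rfl
    rintro i j (rfl | rfl) (rfl | hj) hij x hx
    · exact absurd rfl hij
    · rw [hj, s2, List.mem_reverse]; exact k x (s1 ▸ hx)
    · rw [s1]; rw [s2, List.mem_reverse] at hx; exact fun h' => k x h' hx
    · exact absurd hj.symm hij
  · rintro i (rfl | rfl) hi
    · rw [line, s1, s2, List.reverse_reverse]; exact hl hi
    · rw [line_rev h.hm, chain_rev_iff hs, line, s1, s2, List.reverse_reverse]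
      exact hl fun h' => hi (hU2.2 h')

/-- rebuild two pairs along an exchange (general form) -/
theorem two (hs : ∀ x y, E x y → E y x) (h : St E t σ m U) {m' : ι → ι} (hx : Xch m m' u v)
    {P1 M1 Q1 P2 M2 Q2 c1 c2 : List V} {U' : Finset ι}
    (e1 : line σ m u = P1 ++ M1 ++ Q1) (e2 : line σ m v = P2 ++ M2 ++ Q2)
    (hP1 : P1 ≠ []) (hQ1 : Q1 ≠ []) (hP2 : P2 ≠ []) (hQ2 : Q2 ≠ []) (hc : (c1 ++ c2).Nodup)
    (hav : ∀ x ∈ c1 ++ c2, ¬ On σ x ∨ x ∈ M1 ∨ x ∈ M2)
    (ch1 : (P1 ++ c1 ++ P2.reverse).IsChain E) (cq1 : (Q1.reverse ++ c2).IsChain E)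
    (cq2 : Q2.IsChain E) (hU : ∀ i, Out m u v i → (i ∈ U' ↔ i ∈ U)) (hu : u ∉ U') (hv : v ∉ U')
    (hU2 : m u ∈ U' ↔ m v ∈ U') (hl : m u ∉ U' → (Q1.reverse ++ c2 ++ Q2).IsChain E) :
    ∃ σ', St E t σ' m' U' ∧ σ' u = P1 ++ c1 ∧ σ' v = P2 ∧ σ' (m u) = Q1.reverse ++ c2 ∧
      σ' (m v) = Q2.reverse ∧ ∀ i, Out m u v i → σ' i = σ i := by
  have n1 := h.hm.fpf u
  have n2 := h.hm.fpf v
  have n3 := hx.ne
  have n4 := hx.ne'
  have n5 : m v ≠ u := fun e => n4 (by rw [← e, h.hm.inv])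
  have n6 : m u ≠ m v := fun e => n3 (h.hm.inj e)
  let σ' : ι → List V := fun i => if i = u then P1 ++ c1 else if i = v then P2 else
    if i = m u then Q1.reverse ++ c2 else if i = m v then Q2.reverse else σ i
  have s1 : σ' u = P1 ++ c1 := by simp [σ']
  have s2 : σ' v = P2 := by simp [σ', n3.symm]
  have s3 : σ' (m u) = Q1.reverse ++ c2 := by simp [σ', n1, n4]
  have s4 : σ' (m v) = Q2.reverse := by simp [σ', n2, n5, n6.symm]
  have s5 : ∀ i, Out m u v i → σ' i = σ i := fun i a => by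
    simp [σ', a.1, a.2.1, a.2.2.1, a.2.2.2]
  refine ⟨σ', ?_, s1, s2, s3, s4, s5⟩
  have hn1 := h.line_nodup u
  have hn2 := h.line_nodup v
  have hm1 : ∀ x, x ∈ P1 ∨ x ∈ M1 ∨ x ∈ Q1 → x ∈ line σ m u := fun x hx => by
    rw [e1]; simpa [or_assoc] using hx
  have hm2 : ∀ x, x ∈ P2 ∨ x ∈ M2 ∨ x ∈ Q2 → x ∈ line σ m v := fun x hx => by
    rw [e2]; simpa [or_assoc] using hx
  have hd : ∀ x, x ∈ P1 ∨ x ∈ M1 ∨ x ∈ Q1 → x ∈ P2 ∨ x ∈ M2 ∨ x ∈ Q2 → False := fun x a b => by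
    rcases h.line_disj (hm1 x a) (hm2 x b) with e | e
    · exact n3 e.symm
    · exact n4 e.symm
  have hW : ∀ x, x ∈ line σ m u ∨ x ∈ line σ m v → ∃ j, ¬ Out m u v j ∧ x ∈ σ j := by
    rintro x (h | h) <;> rcases mem_line.1 h with h | h <;> exact ⟨_, by simp [Out], h⟩
  have hav' : ∀ x, x ∈ c1 ∨ x ∈ c2 → (x ∉ P1 ∧ x ∉ Q1 ∧ x ∉ P2 ∧ x ∉ Q2) ∧
      (¬ On σ x ∨ ∃ j, ¬ Out m u v j ∧ x ∈ σ j) := by
    intro x hx
    rw [e1] at hn1; rw [e2] at hn2
    simp only [List.nodup_append, List.mem_append] at hn1 hn2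
    rcases hav x (List.mem_append.2 hx) with h1 | h1 | h1
    · exact ⟨⟨fun a => h1 (On.of_line (hm1 x (by simp [a]))),
        fun a => h1 (On.of_line (hm1 x (by simp [a]))),
        fun a => h1 (On.of_line (hm2 x (by simp [a]))),
        fun a => h1 (On.of_line (hm2 x (by simp [a])))⟩, Or.inl h1⟩
    · exact ⟨⟨fun a => hn1.1.2.2 x a x h1 rfl, fun a => hn1.2.2 x (Or.inr h1) x a rfl,
        fun a => hd x (by simp [h1]) (by simp [a]), fun a => hd x (by simp [h1]) (by simp [a])⟩,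
        Or.inr (hW x (Or.inl (hm1 x (by simp [h1]))))⟩
    · exact ⟨⟨fun a => hd x (by simp [a]) (by simp [h1]), fun a => hd x (by simp [a]) (by simp [h1]),
        fun a => hn2.1.2.2 x a x h1 rfl, fun a => hn2.2.2 x (Or.inr h1) x a rfl⟩,
        Or.inr (hW x (Or.inr (hm2 x (by simp [h1]))))⟩
  rw [e1] at hn1; rw [e2] at hn2
  simp only [List.nodup_append, List.mem_append] at hn1 hn2 hc
  obtain ⟨r1, hr1⟩ := h.head_of_line (by rw [e1, List.append_assoc]) hP1
  obtain ⟨r2, hr2⟩ := h.last_of_line e1 hQ1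
  obtain ⟨r3, hr3⟩ := h.head_of_line (by rw [e2, List.append_assoc]) hP2
  obtain ⟨r4, hr4⟩ := h.last_of_line e2 hQ2
  have hO : ∀ i, Out m u v i → Out m u v (m i) := fun i a =>
    ⟨fun e => a.2.1 (h.hm.eq_iff.1 e), fun e => a.1 (h.hm.inj e),
      fun e => a.2.2.2 (h.hm.eq_iff.1 e), fun e => a.2.2.1 (h.hm.inj e)⟩
  have hcs : ∀ i, ¬ Out m u v i → i = u ∨ i = v ∨ i = m u ∨ i = m v := fun i a => by
    unfold Out at a; tauto
  refine h.update (fun i => ¬ Out m u v i) hx.inv ?_ ?_ ?_ ?_ ?_ ?_ ?_ ?_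
  · intro i hi; exact not_not.2 (hO i (not_not.1 hi))
  · intro i hi; exact ⟨s5 i (not_not.1 hi), hx.oth i (not_not.1 hi)⟩
  · intro i hi
    by_cases ho : Out m u v i
    · rw [hx.oth i ho]; exact (hU _ (hO i ho)).2 (h.ucl _ ((hU i ho).1 hi))
    rcases hcs i ho with rfl | rfl | rfl | rfl
    · exact absurd hi hu
    · exact absurd hi hv
    · rw [hx.hma]; exact hU2.1 hi
    · rw [hx.hmb]; exact hU2.2 hi
  · intro i hi hi' hi''; exact hi' ((hU i (not_not.1 hi)).2 hi'')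
  · intro i hi
    rcases hcs i hi with rfl | rfl | rfl | rfl
    · rw [s1]
      refine ⟨by simp [hr1], chain_left ch1, List.nodup_append.2 ⟨hn1.1.1, hc.1, ?_⟩⟩
      rintro a ha b hb rfl
      exact (hav' a (Or.inl hb)).1.1 ha
    · rw [s2]
      exact ⟨by simp [hr3], (chain_rev_iff hs).1 (chain_right ch1), hn2.1.1⟩
    · rw [s3]
      refine ⟨by simp [hr2], cq1, List.nodup_append.2
        ⟨List.nodup_reverse.2 hn1.2.1, hc.2.1, ?_⟩⟩
      rintro a ha b hb rfl
      exact (hav' a (Or.inr hb)).1.2.1 (List.mem_reverse.1 ha)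
    · rw [s4]
      exact ⟨by simp [hr4], chain_rev hs cq2, List.nodup_reverse.2 hn2.2.1⟩
  · intro i hi x hx
    rcases hcs i hi with rfl | rfl | rfl | rfl
    · rw [s1, List.mem_append] at hx
      rcases hx with hx | hx
      · exact Or.inr (hW x (Or.inl (hm1 x (by simp [hx]))))
      · exact (hav' x (Or.inl hx)).2
    · rw [s2] at hx; exact Or.inr (hW x (Or.inr (hm2 x (by simp [hx]))))
    · rw [s3, List.mem_append, List.mem_reverse] at hx
      rcases hx with hx | hx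
      · exact Or.inr (hW x (Or.inl (hm1 x (by simp [hx]))))
      · exact (hav' x (Or.inr hx)).2
    · rw [s4, List.mem_reverse] at hx; exact Or.inr (hW x (Or.inr (hm2 x (by simp [hx]))))
  · intro i j hi hj hij x
    have t1 : x ∈ σ' u ↔ x ∈ P1 ∨ x ∈ c1 := by rw [s1, List.mem_append]
    have t2 : x ∈ σ' v ↔ x ∈ P2 := by rw [s2]
    have t3 : x ∈ σ' (m u) ↔ x ∈ Q1 ∨ x ∈ c2 := by rw [s3, List.mem_append, List.mem_reverse]
    have t4 : x ∈ σ' (m v) ↔ x ∈ Q2 := by rw [s4, List.mem_reverse]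
    obtain ⟨b1, b2, b3, b4, b5, b6⟩ := six_disj t1 t2 t3 t4 (fun a => (hav' x a).1) (hd x)
      (fun a b => hn1.2.2 x a x b rfl) (fun a b => hn2.2.2 x a x b rfl)
      (fun a b => hc.2.2 x a x b rfl)
    rcases hcs i hi with rfl | rfl | rfl | rfl <;> rcases hcs j hj with e' | e' | e' | e' <;>
      rw [e'] at hij ⊢
    · exact absurd rfl hij
    · exact b1
    · exact b2
    · exact b3
    · exact fun a b => b1 b a
    · exact absurd rfl hij
    · exact b4
    · exact b5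
    · exact fun a b => b2 b a
    · exact fun a b => b4 b a
    · exact absurd rfl hij
    · exact b6
    · exact fun a b => b3 b a
    · exact fun a b => b5 b a
    · exact fun a b => b6 b a
    · exact absurd rfl hij
  · intro i hi hi'
    rcases hcs i hi with rfl | rfl | rfl | rfl
    · rw [line, hx.ha, s1, s2]; exact ch1
    · rw [← chain_rev_iff hs, ← line_rev hx.inv, hx.hb, line, hx.ha, s1, s2]; exact ch1
    · rw [line, hx.hma, s3, s4, List.reverse_reverse]; exact hl hi'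
    · rw [← chain_rev_iff hs, ← line_rev hx.inv, hx.hmb, line, hx.hma, s3, s4,
        List.reverse_reverse]
      exact hl fun a => hi' (hU2.1 a)

end St

end Pool.Agent.P.MP_4197d5_co
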