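import Pool.Agent.P.MP_4197d5_co.StApi

/-! User level operations on path systems. -/

namespace Pool.Agent.P.MP_4197d5_co

open Classical

set_option linter.unusedSectionVars false

variable {V ι : Type} {E : V → V → Prop} {t : ι → V} {σ : ι → List V} {m : ι → ι}
  {U : Finset ι} {i j u v : ι} {w x : V}

theorem Out.par (hm : Pr m) (a : Out m u v i) : Out m u v (m i) :=
  ⟨fun e => a.2.1 (hm.eq_iff.1 e), fun e => a.1 (hm.inj e),
    fun e => a.2.2.2 (hm.eq_iff.1 e), fun e => a.2.2.1 (hm.inj e)⟩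

theorem Out.cases (a : ¬ Out m u v i) : i = u ∨ i = m u ∨ i = v ∨ i = m v := by
  unfold Out at a; tauto

theorem Out.symm (a : Out m u v i) : Out m v u i := ⟨a.2.2.1, a.2.2.2, a.1, a.2.1⟩

/-- total length -/
noncomputable def len [Fintype ι] (σ : ι → List V) : ℕ := ∑ i, (σ i).length

namespace St

/-- shorten a loose stub to a nonempty initial part -/
theorem trim (hs : ∀ x y, E x y → E y x) (h : St E t σ m U) (hu : u ∈ U) {P R : List V}
    (e : σ u = P ++ R) (hP : P ≠ []) :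
    ∃ σ', St E t σ' m U ∧ σ' u = P ∧ ∀ i, i ≠ u → σ' i = σ i := by
  obtain ⟨σ', h1, h2, h3, h4⟩ := h.one hs (u := u) (P := P) (M := R) (Q := (σ (m u)).reverse)
    (c := []) (U' := U) (by rw [line, e]) hP (by simpa using h.ne_nil _) (by simp) (by simp)
    (by simpa using chain_left (e ▸ h.chain u)) (chain_rev hs (h.chain _)) (fun _ _ _ => Iff.rfl)
    ⟨fun _ => hu, h.ucl _⟩ (fun a => absurd hu a)
  refine ⟨σ', h1, by simpa using h2, fun i hi => ?_⟩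
  by_cases e : i = m u
  · rw [e, h3]; simp
  · exact h4 i hi e

/-- cut a line (or the two stubs of a loose pair) -/
theorem cut (hs : ∀ x y, E x y → E y x) (h : St E t σ m U) {P M Q : List V}
    (e : line σ m u = P ++ M ++ Q) (hP : P ≠ []) (hQ : Q ≠ []) (c1 : P.IsChain E)
    (c2 : Q.IsChain E) :
    ∃ σ' U', St E t σ' m U' ∧ (∀ i, i ∈ U' ↔ i ∈ U ∨ i = u ∨ i = m u) ∧ σ' u = P ∧
      σ' (m u) = Q.reverse ∧ (∀ i, i ≠ u → i ≠ m u → σ' i = σ i) ∧ ∀ x, On σ' x → On σ x := by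
  obtain ⟨σ', h1, h2, h3, h4⟩ := h.one hs (c := []) (U' := insert u (insert (m u) U)) e hP hQ
    (by simp) (by simp) (by simpa using c1) c2 (fun i a b => by simp [a, b]) (by simp) (by simp)
  refine ⟨σ', _, h1, fun i => by simp; tauto, by simpa using h2, h3, h4, ?_⟩
  rintro x ⟨i, hi⟩
  by_cases a : i = u
  · rw [a, h2] at hi; exact On.of_line (i := u) (m := m) (by rw [e]; simp at hi ⊢; tauto)
  by_cases b : i = m u
  · rw [b, h3] at hi; exact On.of_line (i := u) (m := m) (by rw [e]; simp at hi ⊢; tauto)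
  exact ⟨i, h4 i a b ▸ hi⟩

/-- replace the middle of a line (or join a loose pair) by a connector -/
theorem join (hs : ∀ x y, E x y → E y x) (h : St E t σ m U) {P M Q c : List V}
    (e : line σ m u = P ++ M ++ Q) (hP : P ≠ []) (hQ : Q ≠ []) (hc : c.Nodup)
    (hav : ∀ x ∈ c, ¬ On σ x ∨ x ∈ M) (ch : (P ++ c ++ Q).IsChain E) :
    ∃ σ' U', St E t σ' m U' ∧ (∀ i, i ∈ U' ↔ i ∈ U ∧ i ≠ u ∧ i ≠ m u) ∧
      line σ' m u = P ++ c ++ Q ∧ ∀ i, i ≠ u → i ≠ m u → σ' i = σ i := by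
  obtain ⟨σ', h1, h2, h3, h4⟩ := h.one hs (U' := (U.erase u).erase (m u)) e hP hQ hc hav
    (chain_left ch) (chain_right ch) (fun i a b => by simp [a, b]) (by simp) (fun _ => ch)
  exact ⟨σ', _, h1, fun i => by simp; tauto, by rw [line, h2, h3, List.reverse_reverse], h4⟩

theorem len_lt [Fintype ι] {σ' : ι → List V} (hm : Pr m) (u : ι)
    (h1 : (line σ' m u).length < (line σ m u).length)
    (h2 : ∀ i, i ≠ u → i ≠ m u → σ' i = σ i) : len σ' < len σ := by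
  have k : ∀ τ : ι → List V, len τ = (line τ m u).length +
      ∑ i ∈ (Finset.univ.erase u).erase (m u), (τ i).length := fun τ => by
    rw [len, ← Finset.add_sum_erase _ _ (Finset.mem_univ u),
      ← Finset.add_sum_erase _ _ (a := m u) (by simp [hm.fpf u])]
    simp [line, add_assoc]
  rw [k, k, Finset.sum_congr rfl (g := fun i => (σ i).length)]
  · omega
  · intro i hi
    simp only [Finset.mem_erase] at hi
    rw [h2 i hi.2.1 hi.1]

/-- drop the middle of a line -/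
theorem shorten [Fintype ι] (hs : ∀ x y, E x y → E y x) (h : St E t σ m U) (hu : u ∉ U)
    {P M Q : List V} (e : line σ m u = P ++ M ++ Q) (hP : P ≠ []) (hM : M ≠ []) (hQ : Q ≠ [])
    (ch : (P ++ Q).IsChain E) : ∃ σ', St E t σ' m U ∧ len σ' < len σ := by
  obtain ⟨σ', U', h1, h2, h3, h4⟩ := h.join hs (c := []) e hP hQ (by simp) (by simp)
    (by simpa using ch)
  have : U' = U := by
    ext i; rw [h2]
    exact ⟨fun a => a.1, fun a => ⟨a, fun e => hu (e ▸ a), fun e => h.not_mem hu (e ▸ a)⟩⟩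
  refine ⟨σ', this ▸ h1, len_lt h.hm u ?_ h4⟩
  have := List.length_pos_iff.2 hM
  rw [h3, e]; simp; omega

/-- exchange two pairs, both new pairs joined -/
theorem exch (hs : ∀ x y, E x y → E y x) (h : St E t σ m U) {m' : ι → ι} (hx : Xch m m' u v)
    {P1 M1 Q1 P2 M2 Q2 c1 c2 : List V}
    (e1 : line σ m u = P1 ++ M1 ++ Q1) (e2 : line σ m v = P2 ++ M2 ++ Q2)
    (hP1 : P1 ≠ []) (hQ1 : Q1 ≠ []) (hP2 : P2 ≠ []) (hQ2 : Q2 ≠ []) (hc : (c1 ++ c2).Nodup)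
    (hav : ∀ x ∈ c1 ++ c2, ¬ On σ x ∨ x ∈ M1 ∨ x ∈ M2)
    (ch1 : (P1 ++ c1 ++ P2.reverse).IsChain E) (ch2 : (Q1.reverse ++ c2 ++ Q2).IsChain E) :
    ∃ σ' U', St E t σ' m' U' ∧ (∀ i, i ∈ U' ↔ i ∈ U ∧ Out m u v i) ∧
      line σ' m' u = P1 ++ c1 ++ P2.reverse ∧ line σ' m' (m u) = Q1.reverse ++ c2 ++ Q2 ∧
      ∀ i, Out m u v i → σ' i = σ i ∧ line σ' m' i = line σ m i := by
  obtain ⟨σ', h1, s1, s2, s3, s4, s5⟩ := h.two hs hx (U' := U.filter (Out m u v)) e1 e2 hP1 hQ1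
    hP2 hQ2 hc hav ch1 (chain_left ch2) (chain_right ch2) (fun i a => by simp [a])
    (by simp [Out]) (by simp [Out]) (by simp [Out]) (fun _ => ch2)
  refine ⟨σ', _, h1, fun i => by simp, by rw [line, hx.ha, s1, s2],
    by rw [line, hx.hma, s3, s4, List.reverse_reverse], fun i a => ⟨s5 i a, ?_⟩⟩
  exact line_congr (hx.oth i a) (s5 i a) (s5 _ (a.par h.hm))

/-- the same for systems without loose pairs -/
theorem exch0 (hs : ∀ x y, E x y → E y x) (h : St E t σ m ∅) {m' : ι → ι} (hx : Xch m m' u v)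
    {P1 M1 Q1 P2 M2 Q2 c1 c2 : List V}
    (e1 : line σ m u = P1 ++ M1 ++ Q1) (e2 : line σ m v = P2 ++ M2 ++ Q2)
    (hP1 : P1 ≠ []) (hQ1 : Q1 ≠ []) (hP2 : P2 ≠ []) (hQ2 : Q2 ≠ []) (hc : (c1 ++ c2).Nodup)
    (hav : ∀ x ∈ c1 ++ c2, ¬ On σ x ∨ x ∈ M1 ∨ x ∈ M2)
    (ch1 : (P1 ++ c1 ++ P2.reverse).IsChain E) (ch2 : (Q1.reverse ++ c2 ++ Q2).IsChain E) :
    ∃ σ', St E t σ' m' ∅ ∧
      line σ' m' u = P1 ++ c1 ++ P2.reverse ∧ line σ' m' (m u) = Q1.reverse ++ c2 ++ Q2 ∧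
      ∀ i, Out m u v i → σ' i = σ i ∧ line σ' m' i = line σ m i := by
  obtain ⟨σ', U', h1, h2, h3⟩ := h.exch hs hx e1 e2 hP1 hQ1 hP2 hQ2 hc hav ch1 ch2
  have : U' = ∅ := by ext i; simp [h2]
  exact ⟨σ', this ▸ h1, h3⟩

/-- exchange two pairs, the pair `(u, v)` joined and the pair `(m u, m v)` loose -/
theorem exchH (hs : ∀ x y, E x y → E y x) (h : St E t σ m U) {m' : ι → ι} (hx : Xch m m' u v)
    {P1 M1 Q1 P2 M2 Q2 c1 : List V}
    (e1 : line σ m u = P1 ++ M1 ++ Q1) (e2 : line σ m v = P2 ++ M2 ++ Q2)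
    (hP1 : P1 ≠ []) (hQ1 : Q1 ≠ []) (hP2 : P2 ≠ []) (hQ2 : Q2 ≠ []) (hc : c1.Nodup)
    (hav : ∀ x ∈ c1, ¬ On σ x ∨ x ∈ M1 ∨ x ∈ M2)
    (ch1 : (P1 ++ c1 ++ P2.reverse).IsChain E) (cq1 : Q1.IsChain E) (cq2 : Q2.IsChain E) :
    ∃ σ' U', St E t σ' m' U' ∧ (∀ i, i ∈ U' ↔ (i ∈ U ∧ Out m u v i) ∨ i = m u ∨ i = m v) ∧
      line σ' m' u = P1 ++ c1 ++ P2.reverse ∧ σ' (m u) = Q1.reverse ∧ σ' (m v) = Q2.reverse ∧
      ∀ i, Out m u v i → σ' i = σ i ∧ line σ' m' i = line σ m i := by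
  have n1 := h.hm.fpf u
  have n2 := h.hm.fpf v
  have n4 := hx.ne'
  have n5 : m v ≠ u := fun e => n4 (by rw [← e, h.hm.inv])
  obtain ⟨σ', h1, s1, s2, s3, s4, s5⟩ := h.two hs hx (c2 := [])
    (U' := insert (m u) (insert (m v) (U.filter (Out m u v)))) e1 e2 hP1 hQ1
    hP2 hQ2 (by simpa using hc) (by simpa using hav) ch1 (by simpa using chain_rev hs cq1) cq2
    (fun i a => by simp [a, a.2.1, a.2.2.2])
    (by simp [Out, n1.symm, n5.symm]) (by simp [Out, n2.symm, n4.symm]) (by simp) (by simp)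
  refine ⟨σ', _, h1, fun i => by simp; tauto, by rw [line, hx.ha, s1, s2], by simpa using s3, s4,
    fun i a => ⟨s5 i a, ?_⟩⟩
  exact line_congr (hx.oth i a) (s5 i a) (s5 _ (a.par h.hm))

/-- vertices used after an exchange -/
theorem on_xch {σ' : ι → List V} {m' : ι → ι} (hx : Xch m m' u v)
    (h : ∀ i, Out m u v i → σ' i = σ i ∧ line σ' m' i = line σ m i) (hon : On σ' x) :
    x ∈ line σ' m' u ∨ x ∈ line σ' m' (m u) ∨ ∃ i, Out m u v i ∧ x ∈ line σ m i := by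
  obtain ⟨i, hi⟩ := (on_iff_line (m := m')).1 hon
  by_cases a : Out m u v i
  · exact Or.inr (Or.inr ⟨i, a, (h i a).2 ▸ hi⟩)
  rcases Out.cases a with rfl | rfl | rfl | rfl
  · exact Or.inl hi
  · exact Or.inr (Or.inl hi)
  · left; rw [← mem_line_m hx.inv, hx.ha]; exact hi
  · right; left; rw [← mem_line_m hx.inv, hx.hma]; exact hi

end St

end Pool.Agent.P.MP_4197d5_co
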