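import Pool.Agent.P.MP_4197d5_co.TSf
import Pool.Agent.P.MP_4197d5_co.Count

/-! Existence of a valid link. -/

namespace Pool.Agent.P.MP_4197d5_co

open Classical

set_option linter.unusedSectionVars false

variable {V ι : Type} [Fintype ι] [Fintype V] {E : V → V → Prop} {t : ι → V} {l : ι → ι} {k : ℕ}
  {σ : ι → List V} {m : ι → ι} {e : Bool → ι} {X F : Bool → Finset V} {ty : ι → Option Bool}
  {pre mid : ι → List V} {gate : ι → V}

namespace VLx

/-- vertices off the system and outside the gadgets -/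
def Fr (σ : ι → List V) (X : Bool → Finset V) : Set V := {o | ¬ On σ o ∧ ∀ c, o ∉ X c}

/-- the zone of `u` with everything reachable from it through free vertices -/
def Rg (E : V → V → Prop) (σ : ι → List V) (X : Bool → Finset V) (ty : ι → Option Bool)
    (pre : ι → List V) (gate : ι → V) (u : ι) : Set V :=
  {x | x ∈ zone ty pre gate u ∨ ∃ w ∈ zone ty pre gate u, RO E (Fr σ X) w x}

/-- the world of side `c` -/
def Wd (E : V → V → Prop) (t : ι → V) (σ : ι → List V) (e : Bool → ι) (X : Bool → Finset V)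
    (ty : ι → Option Bool) (pre : ι → List V) (gate : ι → V) (c : Bool) : Set V :=
  {x | x = t (e c) ∨ x ∈ X c ∨ ∃ j, Rl e j ∧ ty j = some c ∧ x ∈ Rg E σ X ty pre gate j}

theorem ty_cases (o : Option Bool) (c : Bool) (h : o ≠ some (!c)) : o = none ∨ o = some c := by
  rcases o with _ | b
  · exact Or.inl rfl
  · cases b <;> cases c <;> simp at h ⊢

theorem side_exists (a b : Option Bool) :
    (∃ c, a ≠ some (!c) ∧ b ≠ some c) ∨ ∃ c, a = some c ∧ b = some c := by
  rcases a with _ | a <;> rcases b with _ | b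
  · exact Or.inl ⟨true, by simp⟩
  · exact Or.inl ⟨!b, by simp⟩
  · exact Or.inl ⟨a, by simp⟩
  · cases a <;> cases b <;> simp

theorem zone_chain (T : TS E t k σ m e X F ty pre mid gate) {u : ι} (hr : Rl e u) {A B : List V}
    {w : V} (h : zone ty pre gate u = A ++ w :: B) : (A ++ [w]).IsChain E := by
  obtain ⟨M, hM, -⟩ := T.zone_line hr
  have hc := T.chain hr
  rw [hM, h] at hc
  have : A ++ w :: B ++ M ++ gate (m u) :: (pre (m u)).reverse =
      (A ++ [w]) ++ (B ++ M ++ gate (m u) :: (pre (m u)).reverse) := by simp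
  rw [this] at hc
  exact chain_left hc

/-- without a valid link only zones of the same world are linked -/
theorem nolink (hs : ∀ x y, E x y → E y x) (T : TS E t k σ m e X F ty pre mid gate)
    (hno : ¬ ∃ c i j Pi q Pj, VL E σ e X ty pre gate c i j Pi q Pj) {i j : ι} (hi : Rl e i)
    (hj : Rl e j) {w v : V} (hw : w ∈ zone ty pre gate i) (hv : v ∈ zone ty pre gate j)
    (hh : Hit E (Fr σ X) w v) : i = j ∨ ∃ c, ty i = some c ∧ ty j = some c := by
  by_cases hij : i = j
  · exact Or.inl hij
  rcases side_exists (ty i) (ty j) with ⟨c, c1, c2⟩ | h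
  swap
  · exact Or.inr h
  exfalso
  obtain ⟨q, q1, q2, q3⟩ := hh.path hs
  obtain ⟨A, B, hA⟩ := List.append_of_mem hw
  obtain ⟨A', B', hA'⟩ := List.append_of_mem hv
  refine hno ⟨c, i, j, A ++ [w], q, A' ++ [v], hi, hj, hij, c1, c2, by simp, by simp,
    ⟨B, by simp [hA]⟩, ⟨B', by simp [hA']⟩, q1, fun o ho => (q2 o ho).1.mem, ?_⟩
  have a1 := zone_chain T hi hA
  have a2 := chain_rev hs (zone_chain T hj hA')
  have a3 : ((w :: q) ++ v :: A'.reverse).IsChain E :=
    chain_glue (by simpa using q3) (by simpa using a2)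
  have a4 := chain_glue a1 (B := q ++ v :: A'.reverse) (by simpa using a3)
  simpa using a4

theorem gate_zone {u : ι} {c : Bool} (h : ty u = some c) : gate u ∈ zone ty pre gate u := by
  simp [zone, h]

theorem pre_zone {u : ι} {v : V} (h : v ∈ pre u) : v ∈ zone ty pre gate u := by
  unfold zone
  split_ifs <;> simp [h]

/-- every vertex is free, in a gadget, a loose terminal, in a zone, or a common gate -/
theorem classify (T : TS E t k σ m e X F ty pre mid gate) (v : V) :
    v ∈ Fr σ X ∨ (∃ c, v ∈ X c) ∨ (∃ c, v = t (e c)) ∨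
      (∃ j, Rl e j ∧ v ∈ zone ty pre gate j) ∨ v ∈ F false ∩ F true := by
  by_cases hX : ∃ c, v ∈ X c
  · exact Or.inr (Or.inl hX)
  by_cases hon : On σ v
  swap
  · exact Or.inl ⟨hon, fun c h => hX ⟨c, h⟩⟩
  right; right
  obtain ⟨u, hu⟩ := hon
  by_cases hr : Rl e u
  swap
  · left
    unfold Rl at hr
    push Not at hr
    obtain ⟨c, rfl⟩ := hr
    rw [T.triv] at hu
    exact ⟨c, List.mem_singleton.1 hu⟩
  right
  have hl : v ∈ line σ m u := mem_line.2 (Or.inl hu)
  obtain ⟨M, hM, hM'⟩ := T.zone_line hr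
  rw [hM] at hl
  simp only [List.mem_append, List.mem_cons, List.mem_reverse] at hl
  rcases hl with (hl | hl) | hl | hl
  · exact Or.inl ⟨u, hr, hl⟩
  · obtain ⟨c, -, h, -⟩ := hM' v hl
    exact absurd ⟨c, h⟩ hX
  · rcases hty : ty (m u) with _ | c
    · right
      have := (T.sgl (m u) (T.rl_m hr) hty).2.2
      rw [hl, Finset.mem_inter]
      exact ⟨this _, this _⟩
    · exact Or.inl ⟨m u, T.rl_m hr, hl ▸ gate_zone hty⟩
  · exact Or.inl ⟨m u, T.rl_m hr, pre_zone hl⟩

theorem rg_nt (hs : ∀ x y, E x y → E y x) (T : TS E t k σ m e X F ty pre mid gate) {u : ι}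
    (hr : Rl e u) {x : V} (hx : x ∈ Rg E σ X ty pre gate u) :
    (∀ c, x ∉ X c) ∧ (∀ c, x ≠ t (e c)) ∧ (∀ c, x ∈ F c → ty u = some c) := by
  rcases hx with hx | ⟨w, -, hx⟩
  · have key : ∀ c, x ∈ F c → ty u = some c := by
      intro c hc
      by_contra hne
      exact (T.zone_avoid hs (c := !c) hr (by simpa using hne) hx).1 (by simpa using hc)
    rcases side_exists (ty u) none with ⟨c, c1, -⟩ | ⟨c, -, c2⟩
    · have := T.zone_avoid hs hr c1 hx
      exact ⟨this.2.1, this.2.2.1, key⟩
    · simp at c2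
  · have ho := hx.mem
    refine ⟨ho.2, fun c => T.st.nt_of_not_on ho.1 _, fun c hc => ?_⟩
    obtain ⟨j, -, hj⟩ := T.Fon c x hc
    exact absurd (On.of_line hj) ho.1

/-- neighbours of a region -/
theorem rg_step (hs : ∀ x y, E x y → E y x) (T : TS E t k σ m e X F ty pre mid gate)
    (hno : ¬ ∃ c i j Pi q Pj, VL E σ e X ty pre gate c i j Pi q Pj) {u : ι} (hr : Rl e u)
    {x v : V} (hx : x ∈ Rg E σ X ty pre gate u) (hv : E x v) :
    v ∈ F false ∩ F true ∨ v ∈ Rg E σ X ty pre gate u ∨
      ∃ c, ty u = some c ∧ v ∈ Wd E t σ e X ty pre gate c := by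
  obtain ⟨n1, n2, n3⟩ := rg_nt hs T hr hx
  obtain ⟨w, hw, hh⟩ : ∃ w ∈ zone ty pre gate u, Hit E (Fr σ X) w v := by
    rcases hx with hx | ⟨w, hw, hx⟩
    · exact ⟨x, hx, Or.inl hv⟩
    · exact ⟨w, hw, Or.inr ⟨x, hx, hv⟩⟩
  rcases classify T v with h | ⟨c, h⟩ | ⟨c, h⟩ | ⟨j, hj, h⟩ | h
  · exact Or.inr (Or.inl (Or.inr ⟨w, hw, hh.ro h⟩))
  · rcases (((T.gad c).adjX v h x).1 (hs _ _ hv)).2 with a | a | a
    · exact absurd a (n1 c)
    · exact Or.inr (Or.inr ⟨c, n3 c a, Or.inr (Or.inl h)⟩)
    · exact absurd a (n2 c)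
  · rcases ((T.gad c).adja x).1 (h ▸ hs _ _ hv) with a | a
    · exact absurd a (n1 c)
    · exact Or.inr (Or.inr ⟨c, n3 c a, Or.inl h⟩)
  · rcases nolink hs T hno hr hj hw h hh with rfl | ⟨c, c1, c2⟩
    · exact Or.inr (Or.inl (Or.inl h))
    · exact Or.inr (Or.inr ⟨c, c1, Or.inr (Or.inr ⟨j, hj, c2, Or.inl h⟩)⟩)
  · exact Or.inl h

theorem F_wd (hs : ∀ x y, E x y → E y x) (T : TS E t k σ m e X F ty pre mid gate) {c : Bool}
    {v : V} (hv : v ∈ F c) : v ∈ Wd E t σ e X ty pre gate c ∨ v ∈ F false ∩ F true := by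
  obtain ⟨u, hr, h1, rfl⟩ := T.F_on hs hv
  rcases ty_cases _ _ h1 with h | h
  · right
    have := (T.sgl u hr h).2.2
    exact Finset.mem_inter.2 ⟨this _, this _⟩
  · exact Or.inl (Or.inr (Or.inr ⟨u, hr, h, Or.inl (gate_zone h)⟩))

theorem wd_step (hs : ∀ x y, E x y → E y x) (T : TS E t k σ m e X F ty pre mid gate)
    (hno : ¬ ∃ c i j Pi q Pj, VL E σ e X ty pre gate c i j Pi q Pj) {c : Bool} {x v : V}
    (hx : x ∈ Wd E t σ e X ty pre gate c) (hv : E x v) :
    v ∈ Wd E t σ e X ty pre gate c ∨ v ∈ F false ∩ F true := by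
  rcases hx with rfl | hx | ⟨j, hj, h1, hx⟩
  · rcases ((T.gad c).adja v).1 hv with a | a
    · exact Or.inl (Or.inr (Or.inl a))
    · exact F_wd hs T a
  · rcases (((T.gad c).adjX x hx v).1 hv).2 with a | a | a
    · exact Or.inl (Or.inr (Or.inl a))
    · exact F_wd hs T a
    · exact Or.inl (Or.inl a)
  · rcases rg_step hs T hno hj hx hv with a | a | ⟨c', c1, a⟩
    · exact Or.inr a
    · exact Or.inl (Or.inr (Or.inr ⟨j, hj, h1, a⟩))
    · rw [h1] at c1
      cases c1
      exact Or.inl a

theorem rg_step' (hs : ∀ x y, E x y → E y x) (T : TS E t k σ m e X F ty pre mid gate)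
    (hno : ¬ ∃ c i j Pi q Pj, VL E σ e X ty pre gate c i j Pi q Pj) {u : ι} (hr : Rl e u)
    (hty : ty u = none) {x v : V} (hx : x ∈ Rg E σ X ty pre gate u) (hv : E x v) :
    v ∈ Rg E σ X ty pre gate u ∨ v ∈ F false ∩ F true := by
  rcases rg_step hs T hno hr hx hv with a | a | ⟨c, c1, -⟩
  · exact Or.inr a
  · exact Or.inl a
  · rw [hty] at c1; cases c1

theorem e_ne (T : TS E t k σ m e X F ty pre mid gate) (c : Bool) : e (!c) ≠ e c := by
  rw [← T.me]; exact T.st.hm.fpf _

theorem wd_miss (hC : Ctx E t l k) (T : TS E t k σ m e X F ty pre mid gate) (c : Bool) :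
    t (e (!c)) ∉ Wd E t σ e X ty pre gate c := by
  rintro (h | h | ⟨j, hj, -, h⟩)
  · exact e_ne T c (hC.tinj h)
  · exact (T.gad c).nt _ h _ rfl
  · exact (rg_nt hC.symm T hj h).2.1 _ rfl

theorem t_zone (T : TS E t k σ m e X F ty pre mid gate) {u : ι} (hr : Rl e u)
    (h : zone ty pre gate u ≠ []) : t u ∈ zone ty pre gate u := by
  obtain ⟨M, hM, -⟩ := T.zone_line hr
  obtain ⟨r, hr⟩ := T.st.head_of_line (by rw [hM, List.append_assoc]) h
  rw [hr]; simp

theorem rg_term (T : TS E t k σ m e X F ty pre mid gate) {u i : ι} (hr : Rl e u)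
    (h : t i ∈ Rg E σ X ty pre gate u) : i = u := by
  rcases h with h | ⟨w, -, h⟩
  · obtain ⟨M, hM, -⟩ := T.zone_line hr
    have hn := T.st.line_nodup u
    rcases T.st.t_mem_line.1 (show t i ∈ line σ m u by rw [hM]; simp [h]) with a | a
    · exact a
    · obtain ⟨r, hr⟩ := T.st.last_of_line hM (by simp)
      have h2 : t (m u) ∈ gate (m u) :: (pre (m u)).reverse := by
        rw [← List.mem_reverse, hr]; simp
      rw [hM, List.nodup_append] at hn
      exact absurd rfl (hn.2.2 (t (m u)) (by rw [← a]; simp [h]) _ h2)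
  · exact absurd (T.st.t_on i) h.mem.1

end VLx

open VLx in
/-- Sketch. Suppose there is no valid link. Let `O` be the vertices off the system and outside
`X false ∪ X true`, `Γ = F false ∩ F true`. For a set `W` of zone vertices let `Reg W` be `W`
together with all `o` with `RO E O w o`, `w ∈ W`. Let `Y c = {t (e c)} ∪ X c ∪ Reg (zones of
the realized indices of type some c)` and `Y' u = Reg (zone u)` for type `none`. A vertex `v ∉ O`
hit from a zone vertex (`Hit.path`, cut the zones at the two ends) lies in a zone (then there is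
a valid link unless both are of the same world), in `Γ`, or in a gadget (then the previous vertex
is a gate of that side by `Gad.adjX`, `Gad.adja`). So each world has its `E`-neighbours in
itself or in `Γ`. If `Γ = ∅`, `Ctx.hc` for `Y false` puts `t (e true)` in it: false. Otherwise
some line has type `none` with an alive end `u` (`TS.alive`); `Ctx.hk_one` for `Y' u` gives
`|Γ| = k - 1` and `t (l u) ∉ Γ`, so `F c = Γ`, no line has a type `some c`, and the union of
`Y' u` with the world of `l u` has all neighbours in the whole graph in itself or `Γ` and misses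
one of `t (e false)`, `t (e true)`: this contradicts `Ctx.hk`. -/
theorem TS.vl_exists (hC : Ctx E t l k) (T : TS E t k σ m e X F ty pre mid gate) :
    ∃ c i j Pi q Pj, VL E σ e X ty pre gate c i j Pi q Pj := by
  by_contra hno
  have hs := hC.symm
  rcases (F false ∩ F true).eq_empty_or_nonempty with hG | ⟨g, hg⟩
  · refine wd_miss hC T false (hC.hc _ (t (e false)) (Or.inl rfl) (fun x hx w hw => ?_) _)
    rcases wd_step hs T hno hx hw with a | a
    · exact a
    · rw [hG] at a; simp at a
  obtain ⟨u, hr, hty, hz⟩ : ∃ u, Rl e u ∧ ty u = none ∧ zone ty pre gate u ≠ [] := by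
    obtain ⟨u, hr, h1, rfl⟩ := T.F_on hs (Finset.mem_inter.1 hg).1
    have hty : ty u = none := by
      rcases ty_cases _ _ h1 with h | h
      · exact h
      · exact absurd (Finset.mem_inter.1 hg).2 (T.dbl u false hr h).2.2.1
    by_cases hz : zone ty pre gate u = []
    · exact ⟨m u, T.rl_m hr, by rw [T.tym, hty], T.alive hr hz⟩
    · exact ⟨u, hr, hty, hz⟩
  have htu : t u ∈ Rg E σ X ty pre gate u := Or.inl (t_zone T hr hz)
  obtain ⟨k1, k2⟩ := hC.hk_one _ (F false ∩ F true) u htu (fun i hi => rg_term T hr hi)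
    (fun x hx w hw => rg_step' hs T hno hr hty hx hw)
  have hsub : ∀ c, F false ∩ F true ⊆ F c := fun c => by
    cases c
    · exact Finset.inter_subset_left
    · exact Finset.inter_subset_right
  have hlt : (F false ∩ F true).card < k := by
    have := Finset.card_le_card (hsub false)
    have := (T.gad false).card
    omega
  have heq : ∀ c, F false ∩ F true = F c := fun c =>
    Finset.eq_of_subset_of_card_le (hsub c) (by have := (T.gad c).card; omega)
  have hnone : ∀ j, Rl e j → ∀ c, ty j ≠ some c := fun j hj c h => by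
    obtain ⟨-, a1, a2, -⟩ := T.dbl j c hj h
    rw [← heq] at a1
    exact a2 (hsub _ a1)
  have huG : t u ∉ F false ∩ F true := fun h =>
    hnone u hr false ((rg_nt hs T hr htu).2.2 false (hsub _ h))
  -- the world of the partner
  obtain ⟨Y, c, y1, y2, y3, y4⟩ : ∃ (Y : Set V) (c : Bool), t (l u) ∈ Y ∧
      (∀ i, t i ∈ Y → i = l u) ∧ t (e c) ∉ Y ∧
      ∀ x ∈ Y, ∀ w, E x w → w ∈ Y ∨ w ∈ F false ∩ F true := by
    by_cases hr' : Rl e (l u)
    · have hty' : ty (l u) = none := by
        rcases h : ty (l u) with _ | c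
        · rfl
        · exact absurd h (hnone _ hr' c)
      have hz' : zone ty pre gate (l u) ≠ [] := by
        intro h0
        obtain ⟨a1, -, a3⟩ := T.sgl _ hr' hty'
        have hp : pre (l u) = [] := by simpa [zone, hty'] using h0
        obtain ⟨r, hr⟩ := T.st.line_cons (l u)
        rw [hr, hp] at a1
        simp only [List.nil_append, List.cons.injEq] at a1
        exact k2 hlt (a1.1 ▸ Finset.mem_inter.2 ⟨a3 _, a3 _⟩)
      exact ⟨Rg E σ X ty pre gate (l u), false, Or.inl (t_zone T hr' hz'),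
        fun i hi => rg_term T hr' hi, fun h => (rg_nt hs T hr' h).2.1 _ rfl,
        fun x hx w hw => rg_step' hs T hno hr' hty' hx hw⟩
    · unfold Rl at hr'
      push Not at hr'
      obtain ⟨c, hc⟩ := hr'
      refine ⟨Wd E t σ e X ty pre gate c, !c, Or.inl (by rw [hc]), ?_, wd_miss hC T c,
        fun x hx w hw => wd_step hs T hno hx hw⟩
      rintro i (h | h | ⟨j, hj, h, -⟩)
      · rw [hc]; exact hC.tinj h
      · exact absurd rfl ((T.gad c).nt _ h i)
      · exact absurd h (hnone j hj c)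
  have := hC.hk (Rg E σ X ty pre gate u ∪ Y) (F false ∩ F true) (t u) (t (e c)) (Or.inl htu) huG
    (by
      rintro (h | h)
      · exact (rg_nt hs T hr h).2.1 _ rfl
      · exact y3 h)
    (fun h => (T.gad c).aF (hsub c h))
    (by
      rintro x hx - w (hw | ⟨i, rfl, rfl⟩)
      · rcases hx with hx | hx
        · rcases rg_step' hs T hno hr hty hx hw with a | a
          · exact Or.inl (Or.inl a)
          · exact Or.inr a
        · rcases y4 x hx w hw with a | a
          · exact Or.inl (Or.inr a)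
          · exact Or.inr a
      · rcases hx with hx | hx
        · rw [rg_term T hr hx]
          exact Or.inl (Or.inr y1)
        · rw [y2 i hx, hC.hl.inv]
          exact Or.inl (Or.inl htu))
  omega

end Pool.Agent.P.MP_4197d5_co
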