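import Pool.Agent.P.MP_4197d5_co.TSx
import Pool.Agent.P.MP_4197d5_co.VLx
import Pool.Agent.P.MP_4197d5_co.DblCase
import Pool.Agent.P.MP_4197d5_co.HH

/-! An optimal system has no loose pair. -/

namespace Pool.Agent.P.MP_4197d5_co

open Classical

set_option linter.unusedSectionVars false

variable {V ι : Type} [Fintype ι] [Fintype V] {E : V → V → Prop} {t : ι → V} {l : ι → ι} {k : ℕ}
  {σ : ι → List V} {m : ι → ι}

theorem stepP (hC : Ctx E t l k) (hM : EMax E t l) (hn : ¬ Sol E t l) {a : ι}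
    (h : St E t σ m {a, m a}) (hopt : ¬ Imp E t l m {a, m a})
    (hmin : ∀ σ', St E t σ' m {a, m a} → len σ ≤ len σ') : False := by
  obtain ⟨e, ef, et⟩ : ∃ e : Bool → ι, e false = a ∧ e true = m a :=
    ⟨fun c => cond c (m a) a, rfl, rfl⟩
  have hm := h.hm
  have hs := hC.symm
  have hl := hC.hl
  have me : ∀ c, m (e c) = e (!c) := fun c => by cases c <;> simp [ef, et, hm.inv]
  rw [← et, ← ef] at h hopt hmin
  clear ef et
  have triv : ∀ c, σ (e c) = [t (e c)] := by
    intro c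
    obtain ⟨r, hr⟩ := h.eq_cons (e c)
    by_contra hc
    have hr0 : r ≠ [] := fun a => hc (by rw [hr, a])
    obtain ⟨σ', h1, h2, h3⟩ := h.trim hs (u := e c) (P := [t (e c)]) (R := r)
      (by cases c <;> simp) hr (by simp)
    refine absurd (hmin σ' h1) (not_le.2 (St.len_lt hm (e c) ?_ fun i a _ => h3 i a))
    have := List.length_pos_iff.2 hr0
    rw [line, line, h2, h3 _ (hm.fpf _), hr]
    simpa using this
  obtain ⟨X, F, ty, pre, mid, gate, T⟩ := ts_exists hC hM hn h me triv hopt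
  have hmid : ∀ u c, Rl e u → ty u = some c → (mid u).length ≤ 1 := by
    intro u c hu hty
    by_contra hc
    obtain ⟨a1, -, -, a2, -⟩ := T.dbl u c hu hty
    obtain ⟨-, a3, -⟩ := T.dbl (m u) c (T.rl_m hu) (by rw [T.tym, hty])
    obtain ⟨x, r, hx⟩ := List.exists_cons_of_ne_nil (l := mid u) (fun a => by simp [a] at hc)
    have hr : r ≠ [] := fun a => by simp [hx, a] at hc
    have hX : x ∈ X c := a2 x (by simp [hx])
    have ch := T.chain hu
    have a4 : line σ m u = (pre u ++ [gate u] ++ [x]) ++ r ++ gate (m u) :: (pre (m u)).reverse := by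
      rw [a1, hx]; simp
    rw [a4] at ch
    obtain ⟨σ', h1, h2⟩ := h.shorten hs (T.not_mem.2 hu) a4 (by simp) hr (by simp) (by
      rw [List.append_assoc, List.singleton_append]
      exact chain_edge (chain_left (chain_left ch)) (((T.gad c).adjX x hX _).2
        ⟨fun a => (T.gad c).XF x hX (a ▸ a3), Or.inr (Or.inl a3)⟩) (chain_right ch))
    exact absurd (hmin σ' h1) (not_le.2 h2)
  obtain ⟨c, i, j, Pi, q, Pj, L⟩ := T.vl_exists hC
  have win : ∀ σ' m', St E t σ' m' ∅ → Phi l m {e c, m (e c)} < Phi l m' ∅ → False :=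
    fun σ' m' a b => hopt ⟨σ', m', ∅, a, Or.inl rfl, by rwa [T.pair_eq c]⟩
  by_cases hj : j = m i
  · obtain ⟨σ', h1⟩ := T.vl_same hs L hj
    exact win σ' m h1 (co_imp Co.refl)
  obtain ⟨σ1, m1, G⟩ := T.f1_exists hs L hj
  have tri := F1.tri T L G
  rcases tri.v1 hl hm with h1 | ⟨hcl, hij, hab, hsp⟩
  · exact win σ1 m1 G.st h1
  have rl : ∀ u, u ≠ e c → u ≠ m (e c) → Rl e u := fun u a b c' => by
    by_cases hc : c' = c
    · exact hc ▸ a
    · rw [Bool.eq_not_of_ne hc, ← me]; exact b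
  obtain ⟨z, hz, z1, z2, z3, z4⟩ := tri.dparity hl hm hab hsp ty
    (fun u => zone ty pre gate u ≠ []) c T.tym (fun u a => by simp [zone, a])
    (fun u a b d => T.alive (rl u a b) (not_not.1 d))
    (fun a => L.ni (by simpa [a] using L.pi)) (fun a => L.nj (by simpa [a] using L.pj))
    L.ti L.tj
  have hz' : cc l m1 ∅ i (l z) := hz.trans (cc.stl z)
  obtain ⟨d1, d2, d3, d4, d5, d6⟩ := tri.dfacts hl hm hij hab hsp hz
  obtain ⟨f1, f2, f3, f4, -, -⟩ := tri.dfacts hl hm hij hab hsp hz'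
  have r1 := rl z d1 d2
  have r2 := rl _ f1 f2
  obtain ⟨σ2, m2, S⟩ := T.sw_exists hs hl r1 r2 d6 z3 z4 z1 z2
  obtain ⟨p1, p2⟩ := swap_phi (a := e c) hl hm (fun y hy => hcl y (d5.trans hy)) d6 S.st.hm S.mz
    S.ma (by rw [me]; exact S.mb) fun u a b d => (S.oth u (rl u a b) d).1
  rw [← T.pair_eq c] at p1 p2
  have hla : l (e c) = m (e c) := by
    by_contra hc
    exact hopt ⟨σ2, m2, _, S.st, Or.inr ⟨z, by rw [S.mz]⟩, p2 hc⟩
  have hla' : l (e false) = e true := by
    rw [me] at hla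
    cases c
    · exact hla
    · exact hl.eq_iff.2 hla.symm
  obtain ⟨e', e1, e2⟩ : ∃ e' : Bool → ι, e' c = z ∧ e' (!c) = l z :=
    ⟨fun c' => if c' = c then z else l z, by simp, by simp⟩
  have hU : ({e' false, e' true} : Finset ι) = {z, l z} := by
    rw [← e2, ← e1]
    cases c
    · rfl
    · exact Finset.pair_comm _ _
  have cs : ∀ c', c' = c ∨ c' = !c := fun c' => by cases c <;> cases c' <;> simp
  obtain ⟨Y, H, ty', pre', mid', gate', T'⟩ := ts_exists (e := e') hC hM hn (hU ▸ S.st)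
    (fun c' => by
      rcases cs c' with rfl | rfl
      · rw [e1, e2, S.mz]
      · rw [Bool.not_not, e1, e2, ← S.mz, S.st.hm.inv])
    (fun c' => by
      rcases cs c' with rfl | rfl
      · rw [e1, S.sz]
      · rw [e2, S.slz])
    (by
      rintro ⟨σ', m', U', a, b, d⟩
      rw [hU] at d
      exact hopt ⟨σ', m', U', a, b, p1.trans_lt d⟩)
  by_cases t1 : ty z = some c
  · obtain ⟨σ', m', a, b, d⟩ := dbl_case hC T hmid L G hsp hz d3 d4 r1 r2 t1 z4 z2 S e1 e2 T'
    exact win σ' m' a (tri.win hm hab b d)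
  have hij1 : cc l m1 ∅ i j := cc.of_eq G.mi
  by_cases t2 : ty (l z) = some (!c)
  · obtain ⟨σ', m', a, b, d⟩ := dbl_case hC T hmid (L.symm hs) (G.symm hm)
      (fun a => hsp (hij1.trans (a.trans (me c ▸ hab.symm)))) (hij1.symm.trans hz') f4 f3 r2
      (by rwa [hl.inv]) t2 (by rwa [hl.inv]) (by rwa [hl.inv]) (S.symm hl hm) e2
      (by rw [Bool.not_not, hl.inv, e1]) T'
    exact win σ' m' a (tri.win hm hab b
      ((b _ _ hij1).trans (d.trans (me c ▸ (b _ _ hab).symm))))
  have t3 : ty z = none := by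
    rcases hty : ty z with _ | c'
    · rfl
    · rcases cs c' with rfl | rfl
      · exact absurd hty t1
      · exact absurd hty z3
  have t4 : ty (l z) = none := by
    rcases hty : ty (l z) with _ | c'
    · rfl
    · rcases cs c' with rfl | rfl
      · exact absurd hty z4
      · exact absurd hty t2
  exact hopt (hh_case hC T hla' r1 r2 d6 t3 t4 (by simpa [zone, t3] using z1)
    (by simpa [zone, t4] using z2) S e1 e2 T')

end Pool.Agent.P.MP_4197d5_co
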