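import Pool.Agent.P.MP_4197d5_co.PC
import Pool.Agent.P.MP_4197d5_co.LemI
import Pool.Agent.P.MP_4197d5_co.Phi

/-! Existence of the tight structure. -/

namespace Pool.Agent.P.MP_4197d5_co

open Classical

set_option linter.unusedSectionVars false

variable {V ι : Type} [Fintype ι] [Fintype V] {E : V → V → Prop} {t : ι → V} {l : ι → ι} {k : ℕ}
  {σ : ι → List V} {m : ι → ι} {e : Bool → ι} {X F : Bool → Finset V} {ty : ι → Option Bool}
  {pre mid : ι → List V} {gate : ι → V}

theorem dbl_m_iff (hm : Pr m) {A : Set V} {u : ι} :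
    Dbl (line σ m (m u)) A ↔ Dbl (line σ m u) A := by
  simp only [Dbl, mem_line_m hm]

theorem btw_line {U : Finset ι} (h : St E t σ m U) {A : Set V} {u u' : ι} {v : V}
    (hv : v ∈ line σ m u) (hb : Btw (line σ m u') A v) : Btw (line σ m u) A v := by
  rcases h.line_disj hb.mem hv with rfl | rfl
  · exact hb
  · rw [line_rev h.hm]; exact hb.rev

theorem not_btw_init {A : Set V} {P R : List V} {v : V} (hn : (P ++ v :: R).Nodup)
    (hP : ∀ x ∈ P, x ∉ A) : ¬ Btw (P ++ v :: R) A v := by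
  rintro ⟨l1, l2, e, ⟨f, f1, f2⟩, -⟩
  exact hP f ((split_unique hn e).1 ▸ f1) f2

/-- Sketch. Apply `St.pc` with `N` all realized indices (`N.card = 2k - 2`), `O` all vertices off
the system, `Src = univ`. The first two alternatives give `Imp` by `co_imp`, `xch_keep`. Otherwise
let `F c` be the members of `A c` on realized lines that are not `Btw`, and `X c` the finite set
of `NoEv` with `t (e c)` removed (it has no terminals: `St.btw_nt`). By `n1` the `E`-neighbours of
`{t (e c)} ∪ X c` lie in this set or in `F c`; `Ctx.hk_one` gives `k ≤ |F c| + 1`, `St.fr_count`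
gives equality, `t (l (e c)) ∉ F c` and the types of the lines. `lemI_nt`, `lemI_t`, `lemI_two`
with `Z = insert (t (e c)) (F c)` give the gadgets (`X c` is nonempty by `Ctx.deg_t`).
Use `St.gates` for `A false ∪ A true`; `ty u = some c` iff `u` realized and `Dbl (line u) (A c)`. -/
theorem ts_exists (hC : Ctx E t l k) (hM : EMax E t l) (hn : ¬ Sol E t l)
    (h : St E t σ m {e false, e true}) (me : ∀ c, m (e c) = e (!c))
    (triv : ∀ c, σ (e c) = [t (e c)]) (hopt : ¬ Imp E t l m {e false, e true}) :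
    ∃ X F ty pre mid gate, TS E t k σ m e X F ty pre mid gate := by
  have hU : ({e false, e true} : Finset ι) = {e false, m (e false)} := by rw [me]; rfl
  have hRl : ∀ u, u ∉ ({e false, e true} : Finset ι) ↔ Rl e u := fun u => by simp [Rl]
  have rlm : ∀ u, Rl e u → Rl e (m u) := fun u hu => (hRl _).1 (h.not_mem ((hRl _).2 hu))
  set N : Finset ι := Finset.univ.filter (Rl e) with hN
  have mN : ∀ u, u ∈ N ↔ Rl e u := fun u => by simp [hN]
  have hNm : ∀ u ∈ N, m u ∈ N := fun u hu => (mN _).2 (rlm u ((mN u).1 hu))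
  have cN : N.card + 2 = 2 * k := by
    have h1 : N = ({e false, e true} : Finset ι)ᶜ := by
      ext u; rw [mN, Finset.mem_compl, hRl]
    have h2 : ({e false, e true} : Finset ι).card = 2 := by
      rw [hU]; exact Finset.card_pair (h.hm.fpf _).symm
    rw [h1, ← hC.card, ← Finset.card_compl_add_card ({e false, e true} : Finset ι), h2]
  rcases h.pc hC.symm hC.hl me triv N (fun u hu => (mN u).1 hu) hNm {v | ¬ On σ v} Set.univ
    (fun o ho => ho) with ⟨σ', m', h1, h2⟩ | ⟨τ, -, m0, σ', m', h1, h2, h3⟩ | ⟨A, X0, n⟩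
  · exact absurd ⟨σ', m', ∅, h1, Or.inl rfl, hU ▸ co_imp h2⟩ hopt
  · exact absurd ⟨σ', m', ∅, h2, Or.inl rfl, hU ▸ xch_keep hC.hl h.hm h1 h3⟩ hopt
  set F : Bool → Finset V := fun c => Finset.univ.filter fun v =>
    v ∈ A c ∧ ∃ u ∈ N, v ∈ line σ m u ∧ ¬ Btw (line σ m u) (A c) v with hF
  set X : Bool → Finset V := fun c => Finset.univ.filter fun v => v ∈ X0 c with hX
  have mF : ∀ c v, v ∈ F c ↔
      v ∈ A c ∧ ∃ u ∈ N, v ∈ line σ m u ∧ ¬ Btw (line σ m u) (A c) v := fun c v => by
    simp only [hF, Finset.mem_filter, Finset.mem_univ, true_and]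
  have mX : ∀ c v, v ∈ X c ↔ v ∈ X0 c := fun c v => by simp [hX]
  have Xb : ∀ c, ∀ x ∈ X c, ∀ u, x ∈ line σ m u → Btw (line σ m u) (A c) x := by
    intro c x hx u hu
    rcases n.n2 c x ((mX c x).1 hx) with h1 | ⟨-, u', -, h1⟩
    · exact absurd (On.of_line hu) h1
    · exact btw_line h hu h1
  have Xnt : ∀ c, ∀ x ∈ X c, ∀ i, x ≠ t i := fun c x hx i he =>
    h.btw_nt (Xb c x hx i (he ▸ h.t_mem_line.2 (Or.inl rfl))) i he
  have eF : ∀ c c', t (e c) ∉ F c' := by
    intro c c' hc
    obtain ⟨-, u, hu, h1, -⟩ := (mF _ _).1 hc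
    rcases h.t_mem_line.1 h1 with h2 | h2
    · exact (mN u).1 hu c h2.symm
    · exact (mN _).1 (hNm u hu) c h2.symm
  have hcl : ∀ c x v, x = t (e c) ∨ x ∈ X c → E x v → v = t (e c) ∨ v ∈ X c ∨ v ∈ F c := by
    intro c x v hx he
    rcases n.n1 c x v (hx.imp_right (mX c x).1) he with h1 | h1 | ⟨h1, h2⟩
    · exact Or.inl h1
    · exact Or.inr (Or.inl ((mX c v).2 h1))
    obtain ⟨u, hu⟩ : On σ v := not_not.1 h2
    by_cases hr : Rl e u
    · have h3 : v ∈ line σ m u := mem_line.2 (Or.inl hu)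
      by_cases hb : Btw (line σ m u) (A c) v
      · exact Or.inr (Or.inl ((mX c v).2 (n.n3 c v trivial u ((mN u).2 hr) hb)))
      · exact Or.inr (Or.inr ((mF c v).2 ⟨h1, u, (mN u).2 hr, h3, hb⟩))
    · obtain ⟨c', hc'⟩ := not_forall.1 hr
      rw [not_not.1 hc', triv, List.mem_singleton] at hu
      by_cases hcc : c' = c
      · exact Or.inl (hcc ▸ hu)
      · rw [hu, Bool.eq_not_of_ne hcc] at h1
        exact absurd h1 (n.n4 c)
  have hk1 := fun c => hC.hk_one {x | x = t (e c) ∨ x ∈ X c} (F c) (e c) (Or.inl rfl)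
    (fun i hi => hi.elim (fun a => hC.tinj a) fun a => absurd rfl (Xnt c _ a i))
    fun x hx w hw => or_assoc.2 (hcl c x w hx hw)
  obtain ⟨fc1, fc2⟩ := h.fr_count N hNm A F (fun c v hv => (mF c v).1 hv) n.n5
  have cF : ∀ c, (F c).card + 1 = k := by
    have a1 := (hk1 false).1
    have a2 := (hk1 true).1
    intro c
    cases c <;> omega
  have types := fc2 (by have := cF false; have := cF true; omega)
  have gad : ∀ c, Gad E t k (e c) (X c) (F c) := by
    intro c
    have hZ : (insert (t (e c)) (F c)).card ≤ k := by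
      rw [← cF c]; exact Finset.card_insert_le _ _
    have hN' : ∀ x, x = t (e c) ∨ x ∈ X c → ∀ w, E x w →
        w ∈ X c ∨ w ∈ insert (t (e c)) (F c) := fun x hx w hw => by
      have := hcl c x w hx hw
      rw [Finset.mem_insert]
      tauto
    refine ⟨Xnt c, lemI_two hC _ _ (Xnt c) hZ (fun x hx => hN' x (Or.inr hx)) ?_, cF c, eF c c,
      fun x hx hf => ?_, fun x hx v => ⟨fun he => ⟨fun a => hC.irr x (a ▸ he), ?_⟩, fun a => ?_⟩,
      fun v => ⟨fun he => ?_, fun a => ?_⟩⟩
    · by_contra hc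
      rw [Finset.not_nonempty_iff_eq_empty] at hc
      have := hC.deg_t (e c) (F c) fun w hw => by
        rcases hcl c _ w (Or.inl rfl) hw with a | a | a
        · exact absurd (a ▸ hw) (hC.irr _)
        · simp [hc] at a
        · exact a
      have := cF c
      omega
    · obtain ⟨-, u, -, h1, h2⟩ := (mF _ _).1 hf
      exact h2 (Xb c x hx u h1)
    · have := hcl c x v (Or.inr hx) he
      tauto
    · refine lemI_nt hC hM hn _ _ (Xnt c) hZ (fun x hx => hN' x (Or.inr hx)) hx ?_ a.1.symm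
      have := a.2
      rw [Finset.mem_insert]
      tauto
    · rcases hcl c _ v (Or.inl rfl) he with a | a
      · exact absurd (a ▸ he) (hC.irr _)
      · exact a
    · refine lemI_t hC hM hn _ _ (Xnt c) hZ (fun x hx => hN' x (Or.inr hx))
        (Finset.mem_insert_self _ _) (fun hc => ?_) (hN' _ (Or.inl rfl))
        (a.imp_right Finset.mem_insert_of_mem) fun he => ?_
      · rcases Finset.mem_insert.1 hc with b | b
        · exact hC.hl.fpf _ (hC.tinj b)
        · exact (hk1 c).2 (by have := cF c; omega) b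
      · rcases a with a | a
        · exact Xnt c v a _ he.symm
        · exact eF c c (he ▸ a)
  obtain ⟨pre, mid, gate, hg⟩ := h.gates (A false ∪ A true)
  have sub : ∀ c, A c ⊆ A false ∪ A true := fun c => by cases c <;> simp
  have hg' := fun u (hu : Rl e u) => hg u (by
    rcases types u ((mN u).2 hu) with ⟨x, a, -, -, -, b, -⟩ | ⟨x, a, -, -, -, b, -⟩ | ⟨x, a, b, -⟩
    · exact ⟨x, a, Or.inl b⟩
    · exact ⟨x, a, Or.inr b⟩
    · exact ⟨x, a, Or.inl b⟩)
  have gl : ∀ u, Rl e u → ∃ R, line σ m u = pre u ++ gate u :: R := fun u hu => by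
    by_cases hd : Dbl (line σ m u) (A false ∪ A true)
    · exact ⟨_, ((hg' u hu).2.2.1 hd).1⟩
    · exact ⟨_, ((hg' u hu).2.2.2 hd).1⟩
  have gm : ∀ u, Rl e u → gate u ∈ line σ m u := fun u hu => by
    obtain ⟨R, hR⟩ := gl u hu
    rw [hR]; simp
  have gF : ∀ u c, Rl e u → gate u ∈ A c → gate u ∈ F c := fun u c hu hc => by
    refine (mF _ _).2 ⟨hc, u, (mN u).2 hu, gm u hu, ?_⟩
    obtain ⟨R, hR⟩ := gl u hu
    have hn := h.line_nodup u
    rw [hR] at hn ⊢
    exact not_btw_init hn fun x hx a => (hg' u hu).2.1 x hx (sub c a)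
  have n5 : ∀ c u, Rl e u → ∀ x ∈ line σ m u, ∀ y ∈ line σ m u, x ∈ A c → y ∈ A (!c) → x = y := by
    intro c u hu x hx y hy a b
    cases c
    · exact n.n5 u ((mN u).2 hu) x hx y hy a b
    · exact (n.n5 u ((mN u).2 hu) y hy x hx b a).symm
  have excl : ∀ c u, Rl e u → Dbl (line σ m u) (A c) → ∀ y ∈ line σ m u, y ∉ A (!c) := by
    rintro c u hu ⟨x, a, x', a', ne, b, b'⟩ y hy hc
    exact ne ((n5 c u hu x a y hy b hc).trans (n5 c u hu x' a' y hy b' hc).symm)
  have gA : ∀ c u, Rl e u → Dbl (line σ m u) (A c) → gate u ∈ A c := by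
    intro c u hu hd
    have a1 := (hg' u hu).1
    have a2 := excl c u hu hd _ (gm u hu)
    cases c
    · exact a1.resolve_right a2
    · exact a1.resolve_left a2
  refine ⟨X, F, fun u => if Dbl (line σ m u) (A false) then some false
    else if Dbl (line σ m u) (A true) then some true else none, pre, mid, gate, h, me, triv, gad,
    fun c => eF c _, fun c f hf => ?_, fun u => by simp only [dbl_m_iff h.hm],
    fun u c hu hty => ?_, fun u hu hty => ?_, fun u hu v hv c => ⟨fun a => ?_, fun a => ?_⟩⟩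
  · obtain ⟨-, u, hu, h1, -⟩ := (mF _ _).1 hf
    exact ⟨u, (mN u).1 hu, h1⟩
  · have hd : Dbl (line σ m u) (A c) := by
      split_ifs at hty with a b
      · exact Option.some.inj hty ▸ a
      · exact Option.some.inj hty ▸ b
    have hd' : Dbl (line σ m u) (A false ∪ A true) := by
      obtain ⟨x, a, x', a', ne, b, b'⟩ := hd
      exact ⟨x, a, x', a', ne, sub c b, sub c b'⟩
    obtain ⟨a1, a2⟩ := (hg' u hu).2.2.1 hd'
    refine ⟨a1, gF u c hu (gA c u hu hd), fun a => excl c u hu hd _ (gm u hu) ((mF _ _).1 a).1,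
      fun x hx => (mX c x).2 (n.n3 c x trivial u ((mN u).2 hu) ?_), a2⟩
    rw [a1]
    exact btw_of_mid (gA c u hu hd) (gA c _ (rlm u hu) ((dbl_m_iff h.hm).2 hd)) hx
  · split_ifs at hty with a b
    obtain ⟨g, g1, g2, g3⟩ := ((types u ((mN u).2 hu)).resolve_left a).resolve_left b
    have key : ∀ x ∈ line σ m u, x ∈ A false ∪ A true → x = g := fun x hx hA =>
      hA.elim (fun a => n5 false u hu x hx g g1 a g3) fun a => n5 true u hu x hx g g1 a g2
    obtain ⟨a1, a2⟩ := (hg' u hu).2.2.2 fun ⟨x, a, x', a', ne, b, b'⟩ =>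
      ne ((key x a b).trans (key x' a' b').symm)
    refine ⟨a1, a2, fun c => gF u c hu ?_⟩
    rw [key _ (gm u hu) (hg' u hu).1]
    cases c
    · exact g2
    · exact g3
  · exact (hg' u hu).2.1 v hv (sub c ((mF _ _).1 a).1)
  · obtain ⟨R, hR⟩ := gl u hu
    obtain ⟨p1, p2, hp⟩ := List.append_of_mem hv
    have hb := Xb c v a u (by rw [hR]; simp [hv])
    have hn := h.line_nodup u
    rw [hR, hp, List.append_assoc, List.cons_append] at hn hb
    exact not_btw_init hn (fun x hx a => (hg' u hu).2.1 x (by rw [hp]; simp [hx]) (sub c a)) hb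

end Pool.Agent.P.MP_4197d5_co
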