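import Pool.Agent.P.MP_4197d5_co.CQ

/-! Closing the attached system through the other colour. -/

namespace Pool.Agent.P.MP_4197d5_co

open Classical

set_option linter.unusedSectionVars false

variable {V ι : Type} [Fintype ι] [Fintype V] {E : V → V → Prop} {t : ι → V} {l : ι → ι} {k : ℕ}
  {σ : ι → List V} {m : ι → ι} {C : Finset ι} {col : ι → Bool} {k1 k2 : ℕ} {Γ : Finset V}
  {M : Set V} {D : Bool → Finset ι} {X : Bool → Finset V} {pre mid : ι → List V} {gate : ι → V}
  {c : Bool} {τ si sj : ι} {σ3 : ι → List V} {m3 : ι → ι}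

/-- neighbours of an end among the connectors and gates of its colour -/
noncomputable def nbD (E : V → V → Prop) (D : Finset ι) (X : Finset V) (gate : ι → V) (w : V) :
    Finset V := (X ∪ D.image gate).filter (E w)

/-- a system with the two trivial loose ends `e, f` and double lines indexed by `B` -/
structure TC (E : V → V → Prop) (t : ι → V) (l : ι → ι) (σ : ι → List V) (m : ι → ι)
    (U : Finset ι) (e f : ι) (B : Finset ι) (Y : Finset V) (pre mid : ι → List V)
    (gate : ι → V) : Prop where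
  hs : ∀ x y, E x y → E y x
  hl : Pr l
  st : St E t σ m U
  hU : ∀ i ∈ U, i = e ∨ i = f
  hef : m e = f
  se : σ e = [t e]
  sf : σ f = [t f]
  ne : ∀ u ∈ B, u ≠ e ∧ u ≠ f
  dm : ∀ u ∈ B, m u ∈ B
  ln : ∀ u ∈ B, line σ m u = pre u ++ gate u :: (mid u ++ gate (m u) :: (pre (m u)).reverse)
  mr : ∀ u ∈ B, mid (m u) = (mid u).reverse
  mx : ∀ u ∈ B, ∀ x ∈ mid u, x ∈ Y
  xa : ∀ x ∈ Y, E x (t e) ∧ E x (t f) ∧ ∀ u ∈ B, E x (gate u)

namespace TC

variable {U B : Finset ι} {Y : Finset V} {e f u : ι}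

theorem swap (h : TC E t l σ m U e f B Y pre mid gate) : TC E t l σ m U f e B Y pre mid gate :=
  ⟨h.hs, h.hl, h.st, fun i hi => (h.hU i hi).symm, by rw [← h.hef, h.st.hm.inv], h.sf, h.se,
    fun u hu => (h.ne u hu).symm, h.dm, h.ln, h.mr, h.mx,
    fun x hx => ⟨(h.xa x hx).2.1, (h.xa x hx).1, (h.xa x hx).2.2⟩⟩

theorem chains (h : TC E t l σ m U e f B Y pre mid gate) (hu : u ∈ B) :
    (gate u :: (pre u).reverse).IsChain E := by
  have h1 : u ∉ U := fun a => by
    rcases h.hU u a with a | a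
    · exact (h.ne u hu).1 a
    · exact (h.ne u hu).2 a
  have h2 := h.st.link u h1
  rw [h.ln u hu] at h2
  have h3 : (pre u ++ [gate u]).IsChain E := (List.isChain_split.1 h2).1
  simpa using chain_rev h.hs h3

theorem xch (h : TC E t l σ m U e f B Y pre mid gate) (hu : u ∈ B) : ∃ m', Xch m m' e u :=
  xch_exists h.st.hm (h.ne u hu).1.symm (by rw [h.hef]; exact (h.ne u hu).2.symm)

/-- realization of the exchange of the loose pair with a double line -/
theorem real (h : TC E t l σ m U e f B Y pre mid gate) (hu : u ∈ B) {m' : ι → ι}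
    (hx : Xch m m' e u) {c1 c2 : List V} (hc : (c1 ++ c2).Nodup)
    (hav : ∀ x ∈ c1 ++ c2, ¬ On σ x ∨ x ∈ mid u)
    (ch1 : (t e :: (c1 ++ [gate u])).IsChain E) (ch2 : (t f :: (c2 ++ [gate (m u)])).IsChain E) :
    ∃ σ', St E t σ' m' ∅ ∧
      line σ' m' f = [t f] ++ c2 ++ gate (m u) :: (pre (m u)).reverse ∧
      ∀ i, Out m e u i → line σ' m' i = line σ m i := by
  obtain ⟨σ', U', h1, h2, -, h4, h5⟩ := h.st.exch h.hs hx (P1 := [t e]) (M1 := []) (Q1 := [t f])
    (P2 := pre u ++ [gate u]) (M2 := mid u) (Q2 := gate (m u) :: (pre (m u)).reverse)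
    (c1 := c1) (c2 := c2) (by simp [line, h.hef, h.se, h.sf]) (by rw [h.ln u hu]; simp)
    (by simp) (by simp) (by simp) (by simp) hc
    (fun x hx => (hav x hx).imp id Or.inr)
    (by
      have := chain_glue (A := t e :: c1) (by simpa using ch1) (h.chains hu)
      simpa using this)
    (by
      have := chain_glue (A := t f :: c2) (by simpa using ch2) (h.chains (h.dm u hu))
      simpa using this)
  have hU : U' = ∅ := by
    ext i
    simp only [h2, Finset.notMem_empty, iff_false, not_and]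
    intro hi ho
    rcases h.hU i hi with a | a
    · exact ho.1 a
    · exact ho.2.1 (by rw [h.hef]; exact a)
  refine ⟨σ', hU ▸ h1, ?_, fun i hi => (h5 i hi).2⟩
  rw [h.hef] at h4
  simpa using h4

/-- data realizing the exchange -/
def Rz (E : V → V → Prop) (t : ι → V) (σ : ι → List V) (m : ι → ι) (e f : ι)
    (mid : ι → List V) (gate : ι → V) (u : ι) : Prop :=
  ∃ c1 c2 : List V, (c1 ++ c2).Nodup ∧ (∀ x ∈ c1 ++ c2, ¬ On σ x ∨ x ∈ mid u) ∧
    (t e :: (c1 ++ [gate u])).IsChain E ∧ (t f :: (c2 ++ [gate (m u)])).IsChain E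

theorem both (h : TC E t l σ m U e f B Y pre mid gate) (hu : u ∈ B)
    (r1 : Rz E t σ m e f mid gate u) (r2 : Rz E t σ m e f mid gate (m u)) :
    ∃ σ' m', St E t σ' m' ∅ ∧ Co l m m' := by
  obtain ⟨m1, x1⟩ := h.xch hu
  obtain ⟨m2, x2⟩ := h.xch (h.dm u hu)
  rcases x1.any h.hl h.st.hm x2 with a | a
  · obtain ⟨c1, c2, b1, b2, b3, b4⟩ := r1
    obtain ⟨σ', s, -⟩ := h.real hu x1 b1 b2 b3 b4
    exact ⟨σ', m1, s, x1.co h.st.hm a⟩
  · obtain ⟨c1, c2, b1, b2, b3, b4⟩ := r2
    obtain ⟨σ', s, -⟩ := h.real (h.dm u hu) x2 b1 b2 b3 b4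
    exact ⟨σ', m2, s, x2.co h.st.hm a⟩

theorem rz_mid (h : TC E t l σ m U e f B Y pre mid gate) (hu : u ∈ B) {x : V}
    (hx : x ∈ mid u) (a : E (t e) (gate u)) : Rz E t σ m e f mid gate u := by
  have hx' := h.xa x (h.mx u hu x hx)
  refine ⟨[], [x], by simp, by simp [hx], by simpa using a, ?_⟩
  simp [h.hs _ _ hx'.2.1, hx'.2.2 _ (h.dm u hu)]

/-- two wild gates of different pairs, the partner of `e` not in the first pair -/
theorem two_wild (h : TC E t l σ m U e f B Y pre mid gate) {u1 u2 : ι} (h1 : u1 ∈ B)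
    (h2 : u2 ∈ B) (n1 : u2 ≠ u1) (n2 : u2 ≠ m u1) {x1 x2 : V} (e1 : mid u1 = [x1])
    (e2 : mid u2 = [x2]) (a : E (t e) (gate u1)) {y : ι} (hy : y = f ∨ y = u2 ∨ y = m u2)
    {W : Finset ι} (hW : ∀ i, i ∉ W → Out m e u1 i) (hc : cc l m W e y) :
    ∃ σ' m', St E t σ' m' ∅ ∧ Co l m m' := by
  have hm := h.st.hm
  obtain ⟨m1, x1'⟩ := h.xch h1
  have a1 := h.xa x1 (h.mx u1 h1 x1 (by simp [e1]))
  have a2 := h.xa x2 (h.mx u2 h2 x2 (by simp [e2]))
  obtain ⟨σ1, s1, l1, o1⟩ := h.real h1 x1' (c1 := []) (c2 := [x1]) (by simp) (by simp [e1])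
    (by simpa using a) (by simp [h.hs _ _ a1.2.1, a1.2.2 _ (h.dm u1 h1)])
  by_cases hef : cc l m1 ∅ e f
  · exact ⟨σ1, m1, s1, x1'.co hm (by rw [h.hef]; exact hef)⟩
  have o2 : Out m e u1 u2 := ⟨(h.ne u2 h2).1, by rw [h.hef]; exact (h.ne u2 h2).2, n1, n2⟩
  have m1u2 : m1 u2 = m u2 := x1'.oth u2 o2
  have m1f : m1 f = m u1 := by rw [← h.hef]; exact x1'.hma
  have hy1 : cc l m1 ∅ e y := cc.le (fun i hi => cc.of_eq (x1'.oth i (hW i hi))) hc
  have heu : cc l m1 ∅ e u2 := by
    rcases hy with rfl | rfl | rfl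
    · exact absurd hy1 hef
    · exact hy1
    · exact hy1.trans (cc.of_eq m1u2).symm
  have hd : ¬ cc l m1 ∅ f u2 := fun b => hef (heu.trans b.symm)
  obtain ⟨m2, x2'⟩ := xch_exists s1.hm (a := f) (b := u2) (h.ne u2 h2).2.symm
    (by rw [m1f]; exact n2.symm)
  have n12 : x1 ≠ x2 := by
    rintro rfl
    have b1 : x1 ∈ line σ m u1 := by rw [h.ln u1 h1, e1]; simp
    have b2 : x1 ∈ line σ m u2 := by rw [h.ln u2 h2, e2]; simp
    rcases h.st.line_disj b1 b2 with b | b
    · exact n1 b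
    · exact n2 b
  obtain ⟨σ2, s2, -⟩ := s1.exch0 h.hs x2' (P1 := [t f]) (M1 := [x1])
    (Q1 := gate (m u1) :: (pre (m u1)).reverse) (P2 := pre u2 ++ [gate u2]) (M2 := [x2])
    (Q2 := gate (m u2) :: (pre (m u2)).reverse) (c1 := [x1]) (c2 := [x2]) l1
    (by rw [o1 u2 o2, h.ln u2 h2, e2]; simp) (by simp) (by simp) (by simp) (by simp)
    (by simp [n12]) (by simp)
    (by
      have := h.chains h2
      simp [h.hs _ _ a1.2.1, a1.2.2 _ h2, this])
    (by
      have b1 := chain_rev h.hs (h.chains (h.dm u1 h1))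
      have b2 : (x2 :: gate (m u2) :: (pre (m u2)).reverse).IsChain E :=
        List.isChain_cons_cons.2 ⟨a2.2.2 _ (h.dm u2 h2), h.chains (h.dm u2 h2)⟩
      have := chain_edge (A := pre (m u1)) (by simpa using b1)
        (h.hs _ _ (a2.2.2 _ (h.dm u1 h1))) b2
      simpa using this)
  obtain ⟨-, co⟩ := x2'.diff h.hl s1.hm hd
  refine ⟨σ2, m2, s2, x1'.co' hm co ?_⟩
  rw [h.hef]
  exact (co _ _ heu).trans (cc.of_eq x2'.ha).symm

/-- an end sees at most one wild gate -/
theorem one_wild (h : TC E t l σ m U e f B Y pre mid gate)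
    (hsc : ∀ u ∈ B, mid u = [] ∨ ∃ x, mid u = [x]) :
    (∃ σ' m', St E t σ' m' ∅ ∧ Co l m m') ∨
      ((B.filter fun u => mid u ≠ []).filter fun u => E (t e) (gate u)).card ≤ 1 := by
  by_contra hcon
  rw [not_or, Finset.card_le_one] at hcon
  obtain ⟨hno, hcon⟩ := hcon
  push Not at hcon
  obtain ⟨u1, b1, u2, b2, n1⟩ := hcon
  simp only [Finset.mem_filter] at b1 b2
  obtain ⟨⟨h1, w1⟩, a1⟩ := b1
  obtain ⟨⟨h2, w2⟩, a2⟩ := b2
  obtain ⟨x1, e1⟩ := (hsc u1 h1).resolve_left w1
  obtain ⟨x2, e2⟩ := (hsc u2 h2).resolve_left w2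
  have hm := h.st.hm
  apply hno
  by_cases n2 : u2 = m u1
  · subst n2
    exact h.both h1 (h.rz_mid h1 (x := x1) (by simp [e1]) a1)
      (h.rz_mid h2 (x := x2) (by simp [e2]) a2)
  have n3 : u1 ≠ m u2 := fun b => n2 (by rw [b, hm.inv])
  obtain ⟨y, hy, hne, hc⟩ := parity h.hl hm (U := {e, m e, u1, m u1, u2, m u2}) (x := e)
    (by
      intro i hi
      simp only [Finset.mem_insert, Finset.mem_singleton] at hi ⊢
      rcases hi with rfl | rfl | rfl | rfl | rfl | rfl <;> simp [hm.inv]) (by simp)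
  have o1 : ∀ i, i ∉ ({e, m e, u1, m u1, u2, m u2} : Finset ι) → Out m e u1 i ∧ Out m e u2 i := by
    intro i hi
    simp only [Finset.mem_insert, Finset.mem_singleton, not_or] at hi
    exact ⟨⟨hi.1, hi.2.1, hi.2.2.1, hi.2.2.2.1⟩, ⟨hi.1, hi.2.1, hi.2.2.2.2.1, hi.2.2.2.2.2⟩⟩
  simp only [Finset.mem_insert, Finset.mem_singleton] at hy
  rcases hy with b | b | b | b | b | b
  · exact absurd b hne
  · exact h.two_wild h1 h2 n1.symm n2 e1 e2 a1 (Or.inl (b.trans h.hef)) (fun i hi => (o1 i hi).1) hc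
  · exact h.two_wild h2 h1 n1 n3 e2 e1 a2 (Or.inr (Or.inl b)) (fun i hi => (o1 i hi).2) hc
  · exact h.two_wild h2 h1 n1 n3 e2 e1 a2 (Or.inr (Or.inr b)) (fun i hi => (o1 i hi).2) hc
  · exact h.two_wild h1 h2 n1.symm n2 e1 e2 a1 (Or.inr (Or.inl b)) (fun i hi => (o1 i hi).1) hc
  · exact h.two_wild h1 h2 n1.symm n2 e1 e2 a1 (Or.inr (Or.inr b)) (fun i hi => (o1 i hi).1) hc

end TC

theorem nbD_scarce {B : Finset ι} {Y : Finset V} {w : V} (h2 : 2 ≤ Y.card)
    (hw : 2 * Y.card ≤ (B.filter fun u => mid u ≠ []).card)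
    (h1 : ((B.filter fun u => mid u ≠ []).filter fun u => E w (gate u)).card ≤ 1) :
    (nbD E B Y gate w).card < B.card := by
  have hsub : nbD E B Y gate w ⊆ Y ∪ ((B.filter fun u => ¬ mid u ≠ []).image gate ∪
      ((B.filter fun u => mid u ≠ []).filter fun u => E w (gate u)).image gate) := by
    intro v hv
    simp only [nbD, Finset.mem_filter, Finset.mem_union, Finset.mem_image] at hv ⊢
    obtain ⟨hv | ⟨u, hu, rfl⟩, a⟩ := hv
    · exact Or.inl hv
    · by_cases b : mid u ≠ []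
      · exact Or.inr (Or.inr ⟨u, ⟨⟨hu, b⟩, a⟩, rfl⟩)
      · exact Or.inr (Or.inl ⟨u, ⟨hu, b⟩, rfl⟩)
  have c1 := Finset.card_le_card hsub
  have c2 := Finset.card_union_le Y ((B.filter fun u => ¬ mid u ≠ []).image gate ∪
      ((B.filter fun u => mid u ≠ []).filter fun u => E w (gate u)).image gate)
  have c3 := Finset.card_union_le ((B.filter fun u => ¬ mid u ≠ []).image gate)
      (((B.filter fun u => mid u ≠ []).filter fun u => E w (gate u)).image gate)
  have c4 := Finset.card_image_le (s := B.filter fun u => ¬ mid u ≠ []) (f := gate)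
  have c5 := Finset.card_image_le
    (s := (B.filter fun u => mid u ≠ []).filter fun u => E w (gate u)) (f := gate)
  have c6 := Finset.card_filter_add_card_filter_not (s := B) (fun u => mid u ≠ [])
  omega

theorem nbD_empty {B : Finset ι} {w : V} :
    (nbD E B ∅ gate w).card ≤ B.card ∧
      (B.card ≤ (nbD E B ∅ gate w).card → ∀ u ∈ B, E w (gate u)) := by
  have hsub : nbD E B ∅ gate w ⊆ B.image gate := by
    intro v hv
    simp only [nbD, Finset.mem_filter, Finset.empty_union] at hv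
    exact hv.1
  have c1 := Finset.card_image_le (s := B) (f := gate)
  refine ⟨(Finset.card_le_card hsub).trans c1, fun a u hu => ?_⟩
  have e := Finset.eq_of_subset_of_card_le hsub (c1.trans a)
  have : gate u ∈ nbD E B ∅ gate w := e ▸ Finset.mem_image_of_mem _ hu
  exact (Finset.mem_filter.1 this).2

/-- Write `a = m si`, `b = m sj` (colour `!c`); lines in `D (!c)` are untouched and members of
`X (!c)` off `σ` are off `σ3`. Whenever both exchanges of the loose pair `(a, b)` with a pair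
`(u, m u)`, `u ∈ D (!c)`, can be realized, `Xch.any` and `St.exch` give the first alternative.
`X (!c)` empty: the bounds are clear unless both ends are adjacent to all gates (then any `u`
works; `mid u = []`). Rich case (`CS.rich`): use the two connectors. Scarce case: show that an
end (`a` say) is adjacent to at most one gate of a wild index, whence the count is at most
`|X| + 1 + |D| - |wild| < |D|` (`CS.wild_card`, `X2`). If `a` sees the gates of `u` and `m u`,
both exchanges are realizable with the middle vertex. If it sees the gates of `u1, u2` of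
different pairs, use `parity` for the cut of `m3` at `{a, b, u1, m u1, u2, m u2}`: say the partner
of `a` is not in the pair of `u1`. Realize `(a, u1)` by an edge and `(b, m u1)` through the middle
vertex `x1`; if `a ~ b` we are done (`Xch.co`); otherwise the partner is in the pair of `u2`, and
exchanging `(b, m u1)` with `(u2, m u2)` through `x1, x2` (`Xch.diff`) joins everything. -/
theorem theta (hC : Ctx E t l k) (S : CS E t l k σ m C col k1 k2 Γ M D X pre mid gate)
    (Q : QF E t σ m C col D X c τ si sj σ3 m3) :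
    (∃ σ' m', St E t σ' m' ∅ ∧ Co l m3 m') ∨
    ((nbD E (D (!c)) (X (!c)) gate (t (m si))).card ≤ (D (!c)).card ∧
      (nbD E (D (!c)) (X (!c)) gate (t (m sj))).card ≤ (D (!c)).card ∧
      (nbD E (D (!c)) (X (!c)) gate (t (m si))).card +
        (nbD E (D (!c)) (X (!c)) gate (t (m sj))).card < 2 * (D (!c)).card) := by
  have hm := S.st.hm
  have mC : ∀ d ∈ C, m d ∈ C := fun d hd => (S.hC d hd _).2 (cc.stm0 d)
  have hu : ∀ u ∈ D (!c), m3 u = m u ∧ line σ3 m3 u = line σ m u := fun u hu => by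
    have a1 : u ∉ D c := by simpa using S.Dd _ u hu
    have a2 := S.DC _ u hu
    exact Q.oth u (fun e => a1 (e ▸ Q.hτ)) (fun e => a1 (e ▸ S.Dm c τ Q.hτ))
      ⟨fun e => a2 (e ▸ Q.hi), fun e => a2 (e ▸ mC _ Q.hi), fun e => a2 (e ▸ Q.hj),
        fun e => a2 (e ▸ mC _ Q.hj)⟩
  have T : TC E t l σ3 m3 {m si, m sj} (m si) (m sj) (D (!c)) (X (!c)) pre mid gate :=
    ⟨hC.symm, hC.hl, Q.st, fun i hi => by simpa using hi, Q.m3', Q.s1, Q.s2,
      fun u a => ⟨fun e => S.DC _ u a (e ▸ mC _ Q.hi), fun e => S.DC _ u a (e ▸ mC _ Q.hj)⟩,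
      fun u a => (hu u a).1 ▸ S.Dm _ u a,
      fun u a => by rw [(hu u a).1, (hu u a).2]; exact (S.dbl _ u a).1,
      fun u a => by rw [(hu u a).1]; exact (S.dbl _ u a).2.2,
      fun u a => (S.dbl _ u a).2.1,
      fun x a => ⟨(S.Xc _ x a).1 _ (mC _ Q.hi) (by rw [S.colm, Q.ci]),
        (S.Xc _ x a).1 _ (mC _ Q.hj) (by rw [S.colm, Q.cj]), (S.Xc _ x a).2⟩⟩
  have off : ∀ x ∈ X (!c), ¬ On σ x → ¬ On σ3 x := fun x hx a b => by
    rcases Q.on x b with b | ⟨i, b⟩ | ⟨u, -, b⟩
    · exact (S.Xd _ x hx).1 (by simpa using b)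
    · exact S.Xnt _ x hx i b
    · exact a (On.of_line b)
  rcases (X (!c)).eq_empty_or_nonempty with hX | hX
  · rw [hX]
    have a1 := nbD_empty (E := E) (gate := gate) (B := D (!c)) (w := t (m si))
    have a2 := nbD_empty (E := E) (gate := gate) (B := D (!c)) (w := t (m sj))
    by_cases hlt : (nbD E (D (!c)) ∅ gate (t (m si))).card +
        (nbD E (D (!c)) ∅ gate (t (m sj))).card < 2 * (D (!c)).card
    · exact Or.inr ⟨a1.1, a2.1, hlt⟩
    left
    have b1 := a1.2 (by omega)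
    have b2 := a2.2 (by omega)
    obtain ⟨u, hu'⟩ := S.Dne (!c)
    have r : ∀ u ∈ D (!c), TC.Rz E t σ3 m3 (m si) (m sj) mid gate u := fun u a =>
      ⟨[], [], by simp, by simp, by simpa using b1 u a, by simpa using b2 _ (T.dm u a)⟩
    exact T.both hu' (r u hu') (r _ (T.dm u hu'))
  rcases S.rich (!c) hX with ⟨u, hu', x, hx, x', hx', hne, a, a'⟩ | ⟨a, a'⟩
  · left
    have r : ∀ u ∈ D (!c), (¬ On σ x ∨ x ∈ mid u) → (¬ On σ x' ∨ x' ∈ mid u) →
        TC.Rz E t σ3 m3 (m si) (m sj) mid gate u := fun u b b1 b2 => by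
      refine ⟨[x], [x'], by simp [hne], ?_, ?_, ?_⟩
      · intro y hy
        simp only [List.cons_append, List.nil_append, List.mem_cons, List.not_mem_nil,
          or_false] at hy
        rcases hy with rfl | rfl
        · exact b1.imp (off _ hx) id
        · exact b2.imp (off _ hx') id
      · simp [hC.symm _ _ (T.xa x hx).1, (T.xa x hx).2.2 u b]
      · simp [hC.symm _ _ (T.xa x' hx').2.1, (T.xa x' hx').2.2 _ (T.dm u b)]
    refine T.both hu' (r u hu' a a') (r _ (T.dm u hu') ?_ ?_)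
    · rw [T.mr u hu', List.mem_reverse]; exact a
    · rw [T.mr u hu', List.mem_reverse]; exact a'
  rcases T.one_wild a' with b1 | b1
  · exact Or.inl b1
  rcases T.swap.one_wild a' with b2 | b2
  · exact Or.inl b2
  have c1 := nbD_scarce (S.X2 _ hX) (S.wild_card _ a) b1
  have c2 := nbD_scarce (S.X2 _ hX) (S.wild_card _ a) b2
  exact Or.inr ⟨c1.le, c2.le, by omega⟩

end Pool.Agent.P.MP_4197d5_co
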